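import Pool.Agent.Work.MP_0f91f8_co.U3.Defs

/-!
# Block U3: statements (every docstring is the complete proof)

Notation: `e = ee`, `cor f A B h a = sum over n with n, n+h in [A,B] of f(n+h) conj(f n) e(-a n)`,
`SS = ‖cor‖^2`, `SZ` = the same with a frequency `w : ZMod M` (real frequency `fr w = w.val / M`).
The theorem of the block is `StA` (at the end).
-/

set_option autoImplicit false

namespace Pool.Agent.U3

open scoped ComplexConjugate Pointwise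

/-- [EE] EASY. Elementary facts on `e`.  All from `Complex.exp_add`, `Complex.norm_exp`,
`Complex.exp_int_mul_two_pi_mul_I`; the last one: `|e(x) - 1| = |2 sin(pi x)| <= 2 pi |x|`. -/
def StEE : Prop :=
  (∀ x y : ℝ, ee (x + y) = ee x * ee y) ∧ (∀ x : ℝ, ‖ee x‖ = 1) ∧
  (∀ x : ℝ, conj (ee x) = ee (-x)) ∧ (∀ k : ℤ, ee k = 1) ∧ ee 0 = 1 ∧
  (∀ (x : ℝ) (k : ℤ), ee (x + k) = ee x) ∧
  (∀ x y : ℝ, ‖ee x - ee y‖ ≤ 2 * Real.pi * |x - y|)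

/-- [ND] EASY. `nd` = distance to the nearest integer: `nd (x + k) = nd x`, `nd (-x) = nd x`
(careful at half integers: `nd x = min (fract x) (1 - fract x)`, prove this first),
triangle inequality, `nd (j x) <= j nd x`, `nd x <= |x|`, and there is an integer `k` (namely
`round x`) with `|x - k| = nd x`. -/
def StND : Prop :=
  (∀ (x : ℝ) (k : ℤ), nd (x + k) = nd x) ∧ (∀ x : ℝ, nd (-x) = nd x) ∧
  (∀ x y : ℝ, nd (x + y) ≤ nd x + nd y) ∧ (∀ x : ℝ, nd x ≤ |x|) ∧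
  (∀ (x : ℝ) (j : ℕ), nd (j * x) ≤ j * nd x) ∧ (∀ x : ℝ, 0 ≤ nd x ∧ nd x ≤ 1 / 2) ∧
  (∀ x : ℝ, ∃ k : ℤ, |x - k| = nd x) ∧ (∀ (x : ℝ) (k : ℤ), nd x ≤ |x - k|)

/-- [GS] EASY-MEDIUM. Geometric sums: `|sum_{A <= n <= B} e(t n)| * nd t <= 1/2`.
Proof: `(e(t) - 1) * sum = e(t(B+1)) - e(tA)` has norm `<= 2`, and `|e(t) - 1| = 2 |sin(pi t)|`
`= 2 sin(pi nd t) >= 4 nd t` (Jordan: `sin y >= 2 y / pi` on `[0, pi/2]`). -/
def StGS : Prop :=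
  ∀ (A B : ℤ) (t : ℝ), ‖∑ n ∈ Finset.Icc A B, ee (t * n)‖ * nd t ≤ 1 / 2

/-- [Frq] EASY. `SZ` as a function of the class: for `M >= 1`, `fr (w - w') - (fr w - fr w')` is an
integer, `fr (q • w) - q * fr w` is an integer, and `SS f A B h (a + k) = SS f A B h a` for an
integer `k` (each term of `cor` is multiplied by `e(-k n) = 1`). -/
def StFrq : Prop :=
  (∀ (f : ℤ → ℂ) (A B h k : ℤ) (a : ℝ), SS f A B h (a + k) = SS f A B h a) ∧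
  (∀ (M : ℕ) [NeZero M] (w w' : ZMod M), ∃ k : ℤ, fr (w - w') = fr w - fr w' + k) ∧
  (∀ (M : ℕ) [NeZero M] (w : ZMod M) (q : ℕ), ∃ k : ℤ, fr (q • w) = q * fr w + k) ∧
  (∀ (M : ℕ) [NeZero M] (f : ℤ → ℂ) (A B h : ℤ) (w w' : ZMod M),
    SZ f A B h (w - w') = SS f A B h (fr w - fr w')) ∧
  (∀ (M : ℕ) [NeZero M] (f : ℤ → ℂ) (A B h : ℤ) (w : ZMod M) (q : ℕ),
    SZ f A B h (q • w) = SS f A B h (q * fr w))

/-- [PD] EASY-MEDIUM, THE KEY INEQUALITY (positive definiteness).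
Proof. Replace `f` by its restriction to `[A,B]` (extended by 0); then `cor f A B h a` is the sum
over all `n` of `f(n+h) conj(f n) e(-a n)`.  Put `u(n,m) = f(n) conj(f m)`.  For every `i`
`SS_i = sum_{n,m} f(n+h_i) conj(f n) conj(f(m+h_i)) f(m) e(-a_i (n-m))
      = sum_{n,m} u(n+h_i, m+h_i) e(-a_i (n-m)) conj(u(n,m))`.
Sum over `i`, Cauchy-Schwarz over the pairs `(n,m)` in `[A,B]^2`:
`(sum_i SS_i)^2 <= (sum |u|^2) * sum_{n,m} |sum_i u(n+h_i,m+h_i) e(-a_i(n-m))|^2`, where now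
`n, m` run over all integers (finite support).  First factor `= (sum |f|^2)^2`.  Expanding the
square, the term `(i,j)` is `sum_{n,m} u(n+h_i,m+h_i) conj(u(n+h_j,m+h_j)) e(-(a_i-a_j)(n-m))`;
substitute `n -> n - h_j`, `m -> m - h_j` (the difference `n - m` does not change): it is
`SS f A B (h_i - h_j) (a_i - a_j)`. -/
def StPD : Prop :=
  ∀ (f : ℤ → ℂ) (A B : ℤ) (ι : Type) (s : Finset ι) (h : ι → ℤ) (a : ι → ℝ),
    (∑ i ∈ s, SS f A B (h i) (a i)) ^ 2 ≤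
      (∑ n ∈ Finset.Icc A B, ‖f n‖ ^ 2) ^ 2 *
        ∑ i ∈ s, ∑ j ∈ s, SS f A B (h i - h j) (a i - a j)

/-- [Par] EASY-MEDIUM. Parseval in the frequency: if the interval has fewer than `M` elements
then `sum_{w : ZMod M} SZ f A B h w <= M * (number of elements of [A,B])` for `|f| <= 1`.
Proof: `cor f A B h (fr w) = sum_n c_n e(-w.val n / M)` with `|c_n| <= 1`; expand the square and sum
over `w`: `sum_w e(-w.val (n-m)/M) = M` if `n = m` and `0` otherwise (`0 < |n-m| < M`). -/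
def StPar : Prop :=
  ∀ (M : ℕ) [NeZero M] (f : ℤ → ℂ) (A B h : ℤ), (∀ n, ‖f n‖ ≤ 1) → A ≤ B + 1 → B - A + 1 ≤ M →
    ∑ w : ZMod M, SZ f A B h w ≤ M * (B - A + 1)

/-- [Co2] MEDIUM. Parseval for correlations (`L^2` norm of a correlation is at most the sup norm of
the Fourier transform of one factor times the `L^2` norm of the other).
Proof: work in `ZMod M'`, `M' = 4 N + 1`.  `c(j) = sum_n u(n+j) conj(w n)`, `|j| <= 2N`; the residues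
of `j` modulo `M'` are distinct and exhaust `ZMod M'`, and `n + j` in `[-N,N]`, `n` in `[-N,N]`
determine `j` in `[-2N,2N]`.  So for every `k`: `sum_j c(j) e(-k j/M') = U(k) conj(W(k))`,
`U(k) = sum_n u(n) e(-k n/M')`, `W` the same for `w` (write `j = (n+j) - n`).  Parseval on
`ZMod M'` twice: `sum_j |c(j)|^2 = (1/M') sum_k |U(k)|^2 |W(k)|^2 <= sigma^2 (1/M') sum_k |W(k)|^2
= sigma^2 sum |w|^2`. -/
def StCo2 : Prop :=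
  ∀ (N : ℕ) (u w : ℤ → ℂ) (σ : ℝ), 0 ≤ σ →
    (∀ n : ℤ, (N : ℤ) < |n| → u n = 0 ∧ w n = 0) →
    (∀ a : ℝ, ‖∑ n ∈ Finset.Icc (-(N : ℤ)) N, u n * ee (-(a * n))‖ ≤ σ) →
    ∑ j ∈ Finset.Icc (-(2 * N : ℤ)) (2 * N),
      ‖∑ n ∈ Finset.Icc (-(N : ℤ)) N, u (n + j) * conj (w n)‖ ^ 2 ≤
      σ ^ 2 * ∑ n ∈ Finset.Icc (-(N : ℤ)) N, ‖w n‖ ^ 2

/-- [CS2] MEDIUM. Van der Corput / Cauchy-Schwarz on `ℤ × ℤ`.
Proof: `F` is supported in `bx T`, so for `0 <= s < S` the sum over ALL `v` of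
`φ(v) F(v + s e)` equals the sum of `φ F` (translate by `s e`, `φ` is invariant) and only
`v` in `bx (2T)` contribute (`|s e| <= T`).  Sum over `s`:
`S * sum φ F = sum_{v in bx 2T} φ(v) sum_s F(v + s e)`; Cauchy-Schwarz (`bx (2T)` has `(4T+1)^2`
elements): `S^2 |sum φF|^2 <= (4T+1)^2 sum_{s,s'} sum_v F(v+s e) conj(F(v+s' e))`
`= (4T+1)^2 sum_{s,s'} sum_v F(v + (s-s') e) conj(F v)`, and every `d = s - s'` with `|d| < S`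
occurs at most `S` times. -/
def StCS2 : Prop :=
  ∀ (T : ℤ) (S : ℕ) (e : ℤ × ℤ) (φ F : ℤ × ℤ → ℂ), 0 ≤ T → 1 ≤ S →
    |e.1| * S ≤ T → |e.2| * S ≤ T → (∀ v, ‖φ v‖ ≤ 1) → (∀ v, φ (v + e) = φ v) →
    (∀ v, v ∉ bx T → F v = 0) →
    (S : ℝ) * ‖∑ v ∈ bx T, φ v * F v‖ ^ 2 ≤
      (4 * T + 1 : ℝ) ^ 2 * ∑ d ∈ Finset.Icc (-(S : ℤ)) S,
        ‖∑ v ∈ bx T, F (v + d • e) * conj (F v)‖

/-- [Sup] EASY. Linear algebra of forms: `lf l (pp l) = 0`, `lf k (pp l) = dt k l`,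
`lf l (v + w) = lf l v + lf l w`, `lf l (d • v) = d * lf l v`, and: if `dt l k ≠ 0`, `|lf l v| <= X`,
`|lf k v| <= X` then `v` is in `bx (X * (sz l + sz k))` (Cramer:
`dt l k * v.1 = k.2 * lf l v - l.2 * lf k v`, `dt l k * v.2 = l.1 * lf k v - k.1 * lf l v`, and
`|dt l k| >= 1`); the map `v -> (lf l v, lf k v)` is injective; for `D = dt l k` and integers
`x, y` divisible by `D` there is `v` with `lf l v = x`, `lf k v = y`. -/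
def StSup : Prop :=
  (∀ l : ℤ × ℤ, lf l (pp l) = 0) ∧ (∀ l k : ℤ × ℤ, lf k (pp l) = dt k l) ∧
  (∀ l v w : ℤ × ℤ, lf l (v + w) = lf l v + lf l w) ∧
  (∀ (l v : ℤ × ℤ) (d : ℤ), lf l (d • v) = d * lf l v) ∧
  (∀ (l k v : ℤ × ℤ) (X : ℤ), dt l k ≠ 0 → |lf l v| ≤ X → |lf k v| ≤ X →
    v ∈ bx (X * ((sz l : ℤ) + sz k))) ∧
  (∀ (l k v w : ℤ × ℤ), dt l k ≠ 0 → lf l v = lf l w → lf k v = lf k w → v = w) ∧
  (∀ (l k : ℤ × ℤ) (x y : ℤ), dt l k ≠ 0 → dt l k ∣ x → dt l k ∣ y →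
    ∃ v, lf l v = x ∧ lf k v = y)

/-- [Thr] MEDIUM. THREE forms: a large sum along three pairwise independent forms gives a large
Fourier coefficient of the third function.
Proof. Put `G(v) = f2(L2 v) f3(L3 v)`, supported in `bx (T N)` ([Sup], `T >= sz L2 + sz L3`).
[CS2] with `T N` for `T`, `S = N`, `e = pp L1` (`|e| <= T`), `φ v = f1(L1 v)` (invariant):
`N ‖sum‖^2 <= (4TN+1)^2 sum_{|k| <= N} ‖sum_v G(v + k e) conj(G v)‖`.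
`G(v + k e) conj(G v) = D2(L2 v) D3(L3 v)` with `D_i(y) = f_i(y + k c_i) conj(f_i y)`,
`c_i = dt L_i L1 ≠ 0`.  Let `κ = |dt L2 L3|`.  The set of all `(L2 v, L3 v)` is invariant under
`κ ℤ^2` ([Sup], last part), so for fixed `x` the set `{y : (x,y) = (L2 v, L3 v) for a v}` is a union
of residue classes mod `κ`; `v` is determined by `(x,y)`.  Hence
`‖sum_v D2 D3‖ <= sum_{|x| <= N} sum_{c mod κ} |A_c(k)| <= (2N+1) sum_c |A_c(k)|`,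
`A_c(k) = sum_{y = c mod κ} f3(y + k c_3) conj(f3 y)`.  By [Co2] (`u = f3`, `w = f3 * 1_{c mod κ}`,
`σ = sup_a ‖sum f3 e(-a n)‖`, distinct `k` give distinct shifts `k c_3`; shifts `> 2N` give 0)
`sum_k |A_c(k)|^2 <= σ^2 (2N+1)`, so by Cauchy-Schwarz `sum_{|k| <= N} |A_c(k)| <=
(2N+1)^(1/2) σ (2N+1)^(1/2)`.  Together `N δ^2 N^4 <= (5TN)^2 (3N) κ σ (3N)`, so
`σ >= δ^2 N/(225 T^2 κ)`.  The supremum: if every coefficient were `< δ' N` then `σ = δ' N` is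
allowed in [Co2] and gives a contradiction for `δ' = δ^2/(300 T^2 κ)`. -/
def StThr : Prop :=
  ∀ L1 L2 L3 : ℤ × ℤ, dt L1 L2 ≠ 0 → dt L1 L3 ≠ 0 → dt L2 L3 ≠ 0 →
    ∀ T : ℕ, sz L1 + sz L2 + sz L3 ≤ T → ∀ δ : ℝ, 0 < δ → ∃ δ' : ℝ, 0 < δ' ∧
      ∀ N : ℕ, 1 ≤ N → ∀ f1 f2 f3 : ℤ → ℂ, Bdd N f1 → Bdd N f2 → Bdd N f3 →
        δ * (N : ℝ) ^ 2 ≤
          ‖∑ v ∈ bx (T * N), f1 (lf L1 v) * f2 (lf L2 v) * f3 (lf L3 v)‖ →
        ∃ a : ℝ, δ' * N ≤ ‖∑ n ∈ Finset.Icc (-(N : ℤ)) N, f3 n * ee (-(a * n))‖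

/-- [VN] MEDIUM. FOUR forms (van der Corput with steps in `Q ℤ`; the proportion `δ1` does not
depend on `Q`).  Proof. `c_i = dt (L i) (L 0)`.  [CS2] with `T N`, `S = ⌊N/Q⌋` (`N >= Q`),
`e = Q • pp (L 0)` (`|e| S <= T N`), `φ v = f0(L0 v)`, `F v = prod_{i >= 1} f_i(L_i v)` (supported in
`bx(TN)` by [Sup] for `L1, L2`): `S δ^2 N^4 <= (4TN+1)^2 sum_{|d| <= S} ‖E_d‖`,
`E_d = sum_v prod_{i=1..3} D_i(L_i v)`, `D_i(y) = f_i(y + d Q c_i) conj(f_i y)` (`Bdd N`).  As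
`‖E_d‖ <= (2TN+1)^2 <= 9 T^2 N^2`, at least `δ2 S` of the `d` have `‖E_d‖ >= δ2 N^2`,
`δ2 = δ^2/(1000 T^4)` or so.  [Thr] for `D_1, D_2, D_3` and the forms `L 1, L 2, L 3` gives for these
`d` a frequency `a` with `δ3 N <= ‖sum_n D_3(n) e(-a n)‖`.  `R` = set of these `d`;
`|d| Q <= S Q <= N`; `Q |R| >= Q δ2 ⌊N/Q⌋ >= δ2 N/2` for `N >= 2Q`. -/
def StVN : Prop :=
  ∀ L : Fin 4 → ℤ × ℤ, (∀ i j, i ≠ j → dt (L i) (L j) ≠ 0) →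
    ∀ T : ℕ, (∑ i, sz (L i)) ≤ T → ∀ δ : ℝ, 0 < δ → ∃ δ1 : ℝ, 0 < δ1 ∧
      ∀ Q : ℕ, 1 ≤ Q → ∃ N0 : ℕ, ∀ N : ℕ, N0 ≤ N → ∀ f : Fin 4 → ℤ → ℂ, (∀ i, Bdd N (f i)) →
        δ * (N : ℝ) ^ 2 ≤ ‖∑ v ∈ bx (T * N), ∏ i, f i (lf (L i) v)‖ →
        ∃ R : Finset ℤ, (∀ r ∈ R, |r| * Q ≤ N) ∧ δ1 * N ≤ Q * (R.card : ℝ) ∧
          ∀ r ∈ R, ∃ a : ℝ, δ1 * N ≤ ‖∑ n ∈ Finset.Icc (-(N : ℤ)) N,
            f 3 (n + dt (L 3) (L 0) * Q * r) * conj (f 3 n) * ee (-(a * n))‖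

/-- [Rnd] EASY-MEDIUM. Rounding of a frequency.
Proof: choose `w` the class of `⌊a' M⌋`, `a' = fract a` (`SS` has period 1 in the frequency);
`|a' - fr w| <= 1/M`; each of the at most `2N+1` terms of `cor` changes by at most
`2 pi |n|/M <= 2 pi N/M`, so `cor` changes by at most `(2N+1) 2 pi N/M <= 19 N^2/M <= δ N/2` if
`M >= 38 N/δ`. -/
def StRnd : Prop :=
  ∀ δ : ℝ, 0 < δ → ∃ K : ℕ, ∀ (N M : ℕ) [NeZero M], 1 ≤ N → K * N ≤ M →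
    ∀ f : ℤ → ℂ, (∀ n, ‖f n‖ ≤ 1) → ∀ (A B h : ℤ) (a : ℝ), -(N : ℤ) ≤ A → B ≤ N →
      δ * N ≤ ‖cor f A B h a‖ → ∃ w : ZMod M, δ / 2 * N ≤ ‖cor f A B h (fr w)‖

/-- [Nrg] MEDIUM. Positive definiteness gives additive energy.
Proof. `Γ = {(r, w r)}`, `|Γ| = |R|`.  [PD] with `h = Q1 r`, `a = fr (w r)` and [Frq]:
`(δ N^2 |R|)^2 <= (2N+1)^2 * sum_{r,r'} SZ f A B (Q1 (r - r')) (w r - w r')`, so the double sum is
`>= δ^2 N^2 |R|^2/9`.  Every `SZ <= (2N+1)^2 <= 9 N^2`, so at least `(δ^2/162) |R|^2` pairs have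
`SZ >= δ^2 N^2/18 =: τ`.  Let `D` = set of `(d, ω)`, `|d| <= 2X`, `SZ f A B (Q1 d) ω >= τ`.  By [Par]
(`2N+1 <= M`) for each `d` there are at most `M (2N+1)/τ <= 54 K/δ^2` values `ω`
(`M <= K N`), so `|D| <= (4X+1) 54 K/δ^2 <= 270 K X/δ^2 <= 270 K |R|/δ^3`.
With `rep(x)` = number of pairs of `Γ` with difference `x`: `sum_{x in D} rep x >= (δ^2/162)|R|^2`,
and the energy is `sum_x rep(x)^2 >= (sum_D rep)^2/|D|` (Cauchy-Schwarz) `>= κ |R|^3`,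
`κ = δ^7/(162^2 * 270 K)`.  (`Finset.addEnergy s s` counts `a1 + b1 = a2 + b2`;
compare `energy_eq` in `MP_f39168_co/SD/BSG.lean`.) -/
def StNrg : Prop :=
  ∀ (δ : ℝ) (K : ℕ), 0 < δ → ∃ κ : ℝ, 0 < κ ∧
    ∀ (N M X : ℕ) [NeZero M], 1 ≤ N → 1 ≤ X → 2 * N + 1 ≤ M → M ≤ K * N →
    ∀ f : ℤ → ℂ, (∀ n, ‖f n‖ ≤ 1) → ∀ A B Q1 : ℤ, -(N : ℤ) ≤ A → B ≤ N →
    ∀ (R : Finset ℤ) (w : ℤ → ZMod M), (∀ r ∈ R, |r| ≤ X) → δ * X ≤ R.card →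
      (∀ r ∈ R, δ * (N : ℝ) ^ 2 ≤ SZ f A B (Q1 * r) (w r)) →
      κ * (R.card : ℝ) ^ 3 ≤
        (Finset.addEnergy (R.image fun r => (r, w r)) (R.image fun r => (r, w r)) : ℝ)

/-- [Fib] EASY-MEDIUM. Fibre over 0 of a graph with small doubling (Plünnecke).
Proof. `Γ` the graph, `|Γ| = |R|`.  `A0` = set of `ω` with `(0,ω)` in `6Γ - 6Γ`.  The sums
`γ + (0,ω)`, `γ` in `Γ`, `ω` in `A0` are pairwise different (first coordinate determines `γ`) and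
lie in `7Γ - 6Γ`, which has at most `K^13 |Γ|` elements
(`Finset.pluennecke_ruzsa_inequality_nsmul_sub_nsmul_sub`, `A = B = Γ`). -/
def StFib : Prop :=
  ∀ K : ℝ, 1 ≤ K → ∀ (M : ℕ) [NeZero M] (R : Finset ℤ) (w : ℤ → ZMod M), R.Nonempty →
    (((R.image fun r => (r, w r)) - (R.image fun r => (r, w r))).card : ℝ) ≤ K * R.card →
    ∃ A0 : Finset (ZMod M), (A0.card : ℝ) ≤ K ^ 13 ∧
      ∀ x y : Fin 6 → ℤ, (∀ i, x i ∈ R) → (∀ i, y i ∈ R) → ∑ i, x i = ∑ i, y i →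
        ∑ i, w (x i) - ∑ i, w (y i) ∈ A0

/-- [Kil] MEDIUM. Killing a bounded fibre by a pigeonhole.
Proof. For `ω` in `A0`, `ω ≠ 0`, put `t_ω = ω^(-1) * ((M-1)/2)` (`M` an odd prime, field `ZMod M`).
Colour `r` by the vector `(⌊32 (t_ω * w r).val / M⌋)_{ω in A0}`, at most `32^C` colours; `R'` = the
most popular colour class, `|R'| >= 32^(-C) |R|`.  Let `x, y` be in `R'` with
`ω* = sum w(x i) - sum w(y i)` in `A0`, `ω* ≠ 0`.  With `t = t_{ω*}`: the integer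
`k = sum_i ((t w(x i)).val - (t w(y i)).val)` satisfies `|k| < 6 M/32 < M/4` and
`k = t ω* = (M-1)/2` modulo `M`; but `0 < (M-1)/2 - k < M` (`M >= 3`), contradiction.  So
`ω* = 0`. -/
def StKil : Prop :=
  ∀ C : ℕ, ∃ κ : ℝ, 0 < κ ∧ ∀ M : ℕ, M.Prime → 3 ≤ M →
    ∀ (R : Finset ℤ) (w : ℤ → ZMod M) (A0 : Finset (ZMod M)), A0.card ≤ C →
      ∃ R' ⊆ R, κ * (R.card : ℝ) ≤ R'.card ∧
        ∀ x y : Fin 6 → ℤ, (∀ i, x i ∈ R') → (∀ i, y i ∈ R') →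
          ∑ i, w (x i) - ∑ i, w (y i) ∈ A0 → ∑ i, w (x i) = ∑ i, w (y i)

/-- [Frm] EASY, assembly: energy => Freiman homomorphism of order 6 on a dense subset.
Proof: Balog-Szemerédi-Gowers `Pool.Agent.F39168.SD.bsg` (file
`Pool.Agent.Work.MP_f39168_co.SD.BSG`, import it) for the graph, `K = 1/κ` (wlog `κ <= 1`), gives
`Γ'`, a graph over `R1 ⊆ R` (`R1` = image under the first coordinate), `|R1| >= |R|/(12K)`,
`|Γ' - Γ'| <= K' |R1|`; then [Fib], [Kil] (`C = ⌈K'^13⌉`).  If `R` is empty take `R' = R`. -/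
def StFrm : Prop :=
  ∀ κ : ℝ, 0 < κ → ∃ κ' : ℝ, 0 < κ' ∧ ∀ M : ℕ, M.Prime → 3 ≤ M →
    ∀ (R : Finset ℤ) (w : ℤ → ZMod M),
      κ * (R.card : ℝ) ^ 3 ≤
        (Finset.addEnergy (R.image fun r => (r, w r)) (R.image fun r => (r, w r)) : ℝ) →
      ∃ R' ⊆ R, κ' * (R.card : ℝ) ≤ R'.card ∧
        ∀ x y : Fin 6 → ℤ, (∀ i, x i ∈ R') → (∀ i, y i ∈ R') → ∑ i, x i = ∑ i, y i →
          ∑ i, w (x i) = ∑ i, w (y i)

/-- [Bog] MEDIUM. Bogolyubov, with a popular cell instead of a Bohr set.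
Proof. `L = 10 X + 1`, `Rh(k) = sum_{r in R} e(-k r/L)` for `k` in `ZMod L`.  For an integer `b`,
`|b| <= X`, the number of `(r1,r2,r3,r4)` in `R^4` with `r1 + r2 - r3 - r4 = b` equals the number with
congruence modulo `L` (`|r1+r2-r3-r4-b| <= 5X < L`) and this is `(1/L) sum_k |Rh k|^4 e(k b/L)`
(real part).  `Spec` = set of `k` with `|Rh k| >= ε |R|`, `ε^2 = γ/22`.  `sum_k |Rh k|^2 = L |R|`, so
`|Spec| <= L/(ε^2 |R|) <= 242/γ^2` and `sum_{k not in Spec} |Rh k|^4 <= ε^2 |R|^2 L |R| < |R|^4`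
(`L <= 11 X <= 11 |R|/γ`).  If `nd(k b/L) <= 1/4` for all `k` in `Spec` then the terms of `Spec` have
real part `>= 0` and `k = 0` gives `|R|^4`, so the number is positive.
Let `P' = max P 1`; map the integers `0 <= v <= X/P'` to the cells
`(⌊4 P' fract(k v/L)⌋)_{k in Spec}`, at most `(4P')^(242/γ^2 + 1)` cells; `V` = the most popular cell
(at least `X/P'` integers are mapped).  For `v, v'` in `V`, `k` in `Spec`, `j <= P`: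
`nd(k (v-v')/L) <= 1/(4P')`, so `nd(k j (v-v')/L) <= 1/4`, and `|j (v - v')| <= X`. -/
def StBog : Prop :=
  ∀ (γ : ℝ) (P : ℕ), 0 < γ → ∃ η : ℝ, 0 < η ∧ ∀ X : ℕ, 1 ≤ X →
    ∀ R : Finset ℤ, (∀ r ∈ R, |r| ≤ X) → γ * X ≤ R.card →
      ∃ V : Finset ℤ, (∀ v ∈ V, 0 ≤ v ∧ P * v ≤ X) ∧ η * X ≤ V.card ∧
        ∀ v ∈ V, ∀ v' ∈ V, ∀ j : ℕ, j ≤ P →
          ∃ r1 ∈ R, ∃ r2 ∈ R, ∃ r3 ∈ R, ∃ r4 ∈ R, r1 + r2 - r3 - r4 = j * (v - v')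

/-- [Lam] EASY-MEDIUM. The linear map on `V - V`.
Proof. For an integer `b` which is of the form `r1+r2-r3-r4` (elements of `R`) put
`Λ0 b = w r1 + w r2 - w r3 - w r4` for one such representation; by the order 6 property (pad with a
fixed element of `R`) it does not depend on the representation, and `w r - w r' = Λ0 (r - r')`
(`r - r' = r + r' - r' - r'`).  If `b, b', b + b'` are all of this form then
`Λ0 (b + b') = Λ0 b + Λ0 b'` (relation of order 6).  By induction on `j <= P`: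
`Λ0 (j (v - v')) = j • Λ0 (v - v')`.  Take `Λ = Λ0` (and 0 elsewhere).  If `R` is empty anything
works. -/
def StLam : Prop :=
  ∀ (M : ℕ) [NeZero M] (R V : Finset ℤ) (w : ℤ → ZMod M) (P : ℕ),
    (∀ x y : Fin 6 → ℤ, (∀ i, x i ∈ R) → (∀ i, y i ∈ R) → ∑ i, x i = ∑ i, y i →
      ∑ i, w (x i) = ∑ i, w (y i)) →
    (∀ v ∈ V, ∀ v' ∈ V, ∀ j : ℕ, j ≤ P →
      ∃ r1 ∈ R, ∃ r2 ∈ R, ∃ r3 ∈ R, ∃ r4 ∈ R, r1 + r2 - r3 - r4 = j * (v - v')) →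
    ∃ Λ : ℤ → ZMod M, ∀ v ∈ V, ∀ v' ∈ V, ∀ q : ℕ, q ≤ P → ∀ r ∈ R, ∀ r' ∈ R,
      r - r' = q * (v - v') → w r - w r' = q • Λ (v - v')

/-- [TK] MEDIUM. Turán-Kubilius for finitely many primes.
Proof. `D_q = sum_n F(n) (q 1_{q|n} - 1)`, `Y = sum_q (1/q) |D_q|^2 = sum_n F(n) sum_q x_q (q 1_{q|n} - 1)`
with `x_q = conj(D_q)/q`.  Cauchy-Schwarz: `Y^2 <= (2N+1) sum_n |sum_q x_q (q 1_{q|n} - 1)|^2`.
Expand: the diagonal term is `sum_n (q 1_{q|n} - 1)^2 <= (2N+1) q + q^2` (number of multiples of `q`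
in `[-N,N]` is `<= (2N+1)/q + 1`), and for `q ≠ q'`
`|sum_n (q 1_{q|n} - 1)(q' 1_{q'|n} - 1)| <= 3 q q'` (each of the three counts is within 1 of
`(2N+1)/m`, `m = q q', q, q'`, and the main terms cancel).  So
`Y^2 <= (2N+1) [ (2N+1) sum q |x_q|^2 + sum q^2 |x_q|^2 + 3 (sum q |x_q|)^2 ]`, with
`sum q |x_q|^2 = Y`, `sum q^2 |x_q|^2 <= (max q) Y`, `(sum q |x_q|)^2 <= (sum q) Y`.  Hence
`Y <= (2N+1)(2N+1 + max q + 3 sum q) <= 16 N^2` for `N >= N0`. -/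
def StTK : Prop :=
  ∀ Ps : Finset ℕ, (∀ q ∈ Ps, q.Prime) → ∃ N0 : ℕ, ∀ N : ℕ, N0 ≤ N →
    ∀ F : ℤ → ℂ, (∀ n, ‖F n‖ ≤ 1) →
      ∑ q ∈ Ps, (1 / (q : ℝ)) *
        ‖(q : ℂ) * ∑ n ∈ (Finset.Icc (-(N : ℤ)) N).filter (fun n => (q : ℤ) ∣ n), F n -
          ∑ n ∈ Finset.Icc (-(N : ℤ)) N, F n‖ ^ 2 ≤ 16 * (N : ℝ) ^ 2

/-- [Scl] EASY-MEDIUM. Restriction to the multiples of `q` (multiplicativity).
Proof: `n = q m`, `h = q h'`; `n` in `[A,B]` iff `m` in `[cl A q, B / q]`, the same for `n + h` and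
`m + h'`; `g(q(m+h')) conj(g(q m)) = |g q|^2 g(m+h') conj(g m)` and `|g q| = 1`; `a n = (q a) m`. -/
def StScl : Prop :=
  ∀ g : ℤ → ℂ, CM g → ∀ (q : ℕ) (A B h : ℤ) (a : ℝ), 1 ≤ q → (q : ℤ) ∣ h →
    (∑ n ∈ (Finset.Icc A B).filter (fun n => (q : ℤ) ∣ n),
      if n + h ∈ Finset.Icc A B then g (n + h) * conj (g n) * ee (-(a * n)) else 0) =
    cor g (cl A q) (B / q) (h / q) (q * a)

/-- [Trn] MEDIUM. Positive definiteness and averaging over translates of `q V`.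
Proof. `s_r = SZ f A B (Q1 r) (q • w r) >= 0` for `r` in `R`.  For an integer `x` let
`R_x = {r in R : r = x + q v for a v in V}`.  For `r = x + q v`, `r' = x + q v'` in `R_x`:
`r - r' = q (v - v')`, so `Q1 r - Q1 r' = Q1 q (v - v')` and
`q • w r - q • w r' = q • (q • Λ(v - v')) = q^2 • Λ(v - v')`.  [PD] (+ [Frq]) for the family `R_x`:
`(sum_{r in R_x} s_r)^2 <= E^2 * sum_{v,v' in V} SZ f A B (Q1 q (v-v')) (q^2 • Λ(v-v'))`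
(`E = sum ‖f‖^2`; drop the condition that `x + q v` is in `R`, `SZ >= 0`; `q >= 1` so `v -> x + q v`
is injective).  `R_x` is empty unless `-X - qY <= x <= X`, at most `2X + qY + 1 <= 4X` values; sum
over `x` and Cauchy-Schwarz: `(sum_x sum_{R_x} s_r)^2 <= 4X * 4X * E^2 * (double sum)`, and
`sum_x sum_{R_x} s_r = |V| sum_R s_r` (for every `r` and `v` exactly one `x`). -/
def StTrn : Prop :=
  ∀ (f : ℤ → ℂ) (A B Q1 : ℤ) (M X Y q : ℕ) [NeZero M] (R V : Finset ℤ) (w Λ : ℤ → ZMod M),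
    1 ≤ X → 1 ≤ q → q * Y ≤ X → (∀ r ∈ R, |r| ≤ X) → (∀ v ∈ V, 0 ≤ v ∧ v ≤ Y) →
    (∀ v ∈ V, ∀ v' ∈ V, ∀ r ∈ R, ∀ r' ∈ R, r - r' = q * (v - v') → w r - w r' = q • Λ (v - v')) →
    ((V.card : ℝ) * ∑ r ∈ R, SZ f A B (Q1 * r) (q • w r)) ^ 2 ≤
      16 * (X : ℝ) ^ 2 * (∑ n ∈ Finset.Icc A B, ‖f n‖ ^ 2) ^ 2 *
        ∑ v ∈ V, ∑ v' ∈ V, SZ f A B (Q1 * q * (v - v')) (q ^ 2 • Λ (v - v'))

/-- [Avg] MEDIUM. Transfer to the same shift for all `q` (main step).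
Write `A_q = cl A q`, `B_q = B / q`, `W = sum_{q in Ps} 1/q`.
Proof. For `r` in `R` let `F_r(n) = g(n + H r) conj(g n) e(-fr(w r) n)` if `n, n + H r` are in
`[A,B]` and `0` otherwise; `b = sum F_r = cor g A B (H r) (fr (w r))`, `δ N^2 <= |b|^2`, `|b| <= 3N`.
By [Scl] (`q | H r`) `‖q sum_{q | n} F_r‖^2 = q^2 SZ g A_q B_q ((H/q) r) (q • w r) =: |a_q|^2`
(`h / q` with `h = H r` is `(H/q) * r`).  [TK]: `sum_q (1/q) |a_q - b|^2 <= 16 N^2` (with `a_q` the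
complex number), and `|a_q|^2 >= |b|^2 - 2 |b| |a_q - b| >= δ N^2 - 6N |a_q - b|`, so
`sum_q (1/q)|a_q|^2 >= δ N^2 W - 6N W^(1/2) 4N >= (δ/2) N^2 W` if `W >= (48/δ)^2`.
Put `s_q = (1/N^2) sum_{r in R} q^2 SZ g A_q B_q ((H/q) r) (q • w r)`:
`sum_q (1/q) s_q >= (δ/2) W |R|`.  [Trn] with `f = g`, `[A_q,B_q]` (at most `2N/q + 1 <= 3N/q`
elements, `‖g‖ <= 1`), `Q1 = H/q`, so `Q1 q = H`:
`(|V| s_q N^2/q^2)^2 <= 16 X^2 (3N/q)^2 * D_q`, `D_q = sum_{v,v'} SZ g A_q B_q (H(v-v')) (q^2 • Λ(v-v'))`,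
that is `q^2 D_q >= |V|^2 s_q^2 N^2/(144 X^2)`.  Cauchy-Schwarz:
`sum (1/q) s_q^2 >= (sum (1/q) s_q)^2/W >= (δ^2/4) W |R|^2 >= (δ^4/4) W X^2`.  So
`sum_q (1/q) q^2 D_q >= (δ^4/576) W |V|^2 N^2`: `c2 = δ^4/576`. -/
def StAvg : Prop :=
  ∀ δ : ℝ, 0 < δ → ∃ c2 : ℝ, 0 < c2 ∧ ∃ W0 : ℝ, ∀ Ps : Finset ℕ, (∀ q ∈ Ps, q.Prime) →
    W0 ≤ ∑ q ∈ Ps, 1 / (q : ℝ) → ∃ N0 : ℕ, ∀ N : ℕ, N0 ≤ N →
    ∀ g : ℤ → ℂ, CM g → ∀ (A B H : ℤ), -(N : ℤ) ≤ A → B ≤ N → (∀ q ∈ Ps, (q : ℤ) ∣ H) →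
    ∀ (M X Y : ℕ) [NeZero M] (R V : Finset ℤ) (w Λ : ℤ → ZMod M), 1 ≤ X →
      (∀ q ∈ Ps, q * Y ≤ X) → (∀ r ∈ R, |r| ≤ X) → δ * X ≤ R.card →
      (∀ v ∈ V, 0 ≤ v ∧ v ≤ Y) →
      (∀ v ∈ V, ∀ v' ∈ V, ∀ q ∈ Ps, ∀ r ∈ R, ∀ r' ∈ R,
        r - r' = q * (v - v') → w r - w r' = q • Λ (v - v')) →
      (∀ r ∈ R, δ * (N : ℝ) ^ 2 ≤ SZ g A B (H * r) (w r)) →
      c2 * (∑ q ∈ Ps, 1 / (q : ℝ)) * (V.card : ℝ) ^ 2 * (N : ℝ) ^ 2 ≤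
        ∑ v ∈ V, ∑ v' ∈ V, ∑ q ∈ Ps, (1 / (q : ℝ)) *
          ((q : ℝ) ^ 2 * SZ g (cl A q) (B / q) (H * (v - v')) (q ^ 2 • Λ (v - v')))

/-- [Few] MEDIUM. Few separated large frequencies (large sieve in its simplest form).
Proof. Suppose not: put `F(m) = c_m` = the coefficient in `cor` (so `|F| <= 1`, support in `I = [A,B]`
of at most `Z` elements) and let `u_i` be unimodular with
`u_i * cor f A B h (a_i) = |cor f A B h (a_i)|`.  Then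
`k κ Z <= sum_i u_i cor_i = sum_m F(m) sum_i u_i e(-a_i m) <= Z^(1/2) (sum_{m in I} |sum_i u_i e(-a_i m)|^2)^(1/2)`,
and the last sum is `<= k Z + k^2 max_{i≠j} |sum_{m in I} e((a_j - a_i) m)| <= k Z + k^2 Z κ^2/4`
by [GS] if `nd(a_i - a_j) >= 2/(κ^2 Z)` for all `i ≠ j`.  So `k^2 κ^2 <= k + k^2 κ^2/4`,
`k <= (4/3)/κ^2`.  (`k` = number of elements of `s`; `Z` a real number `>= 1`.) -/
def StFew : Prop :=
  ∀ (f : ℤ → ℂ) (A B h : ℤ) (κ Z : ℝ) (ι : Type) (s : Finset ι) (a : ι → ℝ),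
    (∀ n, ‖f n‖ ≤ 1) → 0 < κ → 1 ≤ Z → (B - A + 1 : ℝ) ≤ Z →
    (∀ i ∈ s, κ * Z ≤ ‖cor f A B h (a i)‖) → 4 / (3 * κ ^ 2) < s.card →
    ∃ i ∈ s, ∃ j ∈ s, i ≠ j ∧ nd (a i - a j) ≤ 2 / (κ ^ 2 * Z)

/-- [Blk] MEDIUM. Two primes `q1 < q2` with almost equal frequencies.
Proof. `S_q = q^2 SZ g A_q B_q h (q^2 • λ) <= q^2 (2N/q + 1)^2 <= 9 N^2` (`N >= q`).
`GG = {q in Ps : S_q >= (c2/2) N^2}`: from `c2 W N^2 <= sum (1/q) S_q <= 9 N^2 sum_GG 1/q + (c2/2) W N^2`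
we get `sum_GG 1/q >= c2 W/18 >= c2/18` (`W >= 1`).  Let `κ = (c2/2)^(1/2)/12`, `ε = κ/4`,
`k = ⌈4/(3κ^2)⌉ + 1`.  The blocks `[P0 (1+ε)^j, P0 (1+ε)^(j+1))`, `j >= 0`, cover `Ps`.  If each
contained at most `k` elements of `GG` then `sum_GG 1/q <= k sum_j P0^(-1) (1+ε)^(-j) =
k (1+ε)/(ε P0) < c2/18` for `P0` large: contradiction.  So there are more than `k` elements `q` of
`GG` in one block; let `q0` be the smallest.  For `q` in this block `A_q, A_{q0}` differ by at most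
`N/q0 - N/q + 1 <= ε N/q0 + 1` and the same for `B_q, B_{q0}`; so
`|cor g A_q B_q h a - cor g A_{q0} B_{q0} h a| <= 4 (ε N/q0 + 1) <= 8 ε N/q0` for every `a`
(terms with `n` or `n + h` in the symmetric difference; `N` large).  As `|cor g A_q B_q h (q^2 fr λ)|
>= (c2/2)^(1/2) N/q >= (c2/2)^(1/2) N/(2 q0) = 6 κ N/q0`, we get
`|cor g A_{q0} B_{q0} h (q^2 fr λ)| >= 4 κ N/q0 >= κ Z`, `Z = 3N/q0 >=` number of elements of
`[A_{q0},B_{q0}]`.  [Few] with `s` = these `q`: two of them, `q1 < q2`, satisfy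
`nd((q2^2 - q1^2) fr λ) <= 2/(κ^2 Z) = 2 q0/(3 κ^2 N) <= C/N`, `C = 2 max Ps/(3κ^2)`.
(`P0 >= 2` and `ε <= 1`.) -/
def StBlk : Prop :=
  ∀ c2 : ℝ, 0 < c2 → ∃ P0 : ℕ, ∀ Ps : Finset ℕ, (∀ q ∈ Ps, q.Prime) → (∀ q ∈ Ps, P0 ≤ q) →
    1 ≤ ∑ q ∈ Ps, 1 / (q : ℝ) → ∃ C : ℝ, ∃ N0 : ℕ, ∀ N : ℕ, N0 ≤ N →
    ∀ g : ℤ → ℂ, CM g → ∀ (A B h : ℤ), -(N : ℤ) ≤ A → B ≤ N →
    ∀ (M : ℕ) [NeZero M] (l : ZMod M),
      c2 * (∑ q ∈ Ps, 1 / (q : ℝ)) * (N : ℝ) ^ 2 ≤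
        ∑ q ∈ Ps, (1 / (q : ℝ)) * ((q : ℝ) ^ 2 * SZ g (cl A q) (B / q) h (q ^ 2 • l)) →
      ∃ q1 ∈ Ps, ∃ q2 ∈ Ps, q1 < q2 ∧ nd (((q2 : ℝ) ^ 2 - (q1 : ℝ) ^ 2) * fr l) ≤ C / N ∧
        c2 / 2 * (N : ℝ) ^ 2 ≤ (q1 : ℝ) ^ 2 * SZ g (cl A q1) (B / q1) h (q1 ^ 2 • l)

/-- [Bks] EASY-MEDIUM. Removing a slow phase, with blocks that do not depend on `F`.
The blocks are `J_i = [-N + i s, -N + (i+1) s - 1]`, `0 <= i < k`, `s = ⌊2N/k⌋ + 1` (they cover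
`[-N, N]`).  Proof. `F` is supported in an interval `[A,B]` of `[-N,N]` and `|F| <= 1`.  On a block
`e(β m)` varies by at most `2 pi |β| s <= 2 pi C (3/k) <= κ/8` if `k` is large and `N >= k`
(`s <= 3N/k`).  So `κ N <= sum_i |sum_{J_i} F| + (κ/8)(2N+1)`.  At most two blocks meet `[A,B]` without
being contained in it, they contribute at most `2 s <= 6N/k <= (κ/8) N`.  Hence some block
`J_i ⊆ [A,B]` has `|sum_{J_i} F| >= (κ/4) N/k`. -/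
def StBks : Prop :=
  ∀ κ C : ℝ, 0 < κ → ∃ (k : ℕ) (κ' : ℝ), 1 ≤ k ∧ 0 < κ' ∧ ∀ N : ℕ, k ≤ N →
    ∀ (F : ℤ → ℂ) (A B : ℤ) (β : ℝ), (∀ n, ‖F n‖ ≤ 1) → -(N : ℤ) ≤ A → B ≤ N → |β| ≤ C / N →
      κ * N ≤ ‖∑ m ∈ Finset.Icc A B, F m * ee (β * m)‖ →
      ∃ i : ℕ, i < k ∧
        Finset.Icc (-(N : ℤ) + i * (2 * N / k + 1 : ℕ)) (-(N : ℤ) + (i + 1) * (2 * N / k + 1 : ℕ) - 1)
          ⊆ Finset.Icc A B ∧
        κ' * N ≤ ‖∑ m ∈ Finset.Icc (-(N : ℤ) + i * (2 * N / k + 1 : ℕ))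
          (-(N : ℤ) + (i + 1) * (2 * N / k + 1 : ℕ) - 1), F m‖

/-- [U2] EASY-MEDIUM. Many shifts with the same frequency give a large Fourier coefficient.
Proof. `G = g 1_[-3N,3N]`, `u(m) = g(m) e(θ m) 1_[A,B](m)`.  For `h` in `WW`
`c(h) = sum_m G(m+h) conj(u m)` is the sum in the hypothesis; `conj(c(h)) = sum_n u(n - h) conj(G n)`.
[Co2] with `3N` for `N`, this `u`, `w = G`, shift `j = -h` (`|h| <= 2N`): if all Fourier coefficients of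
`u` were `< κ' N` then `κ N * κ^2 N^2 <= sum_{h in WW} |c(h)|^2 <= κ'^2 N^2 (6N+1)`, false for
`κ' = κ^(3/2)/3`.  So some `|sum u(n) e(-a n)| >= κ' N`, `t = θ - a`. -/
def StU2 : Prop :=
  ∀ κ : ℝ, 0 < κ → ∃ κ' : ℝ, 0 < κ' ∧ ∀ N : ℕ, 1 ≤ N → ∀ g : ℤ → ℂ, (∀ n, ‖g n‖ ≤ 1) →
    ∀ (A B : ℤ) (θ : ℝ) (W : Finset ℤ), -(N : ℤ) ≤ A → B ≤ N → (∀ h ∈ W, |h| ≤ 2 * N) →
      κ * N ≤ W.card →
      (∀ h ∈ W, κ * N ≤ ‖∑ m ∈ Finset.Icc A B, g (m + h) * conj (g m) * ee (-(θ * m))‖) →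
      ∃ t : ℝ, κ' * N ≤ ‖∑ m ∈ Finset.Icc A B, g m * ee (t * m)‖

/-- [Kt1] MEDIUM. Kátai's criterion for linear phases, uniform in `g` and `t`.
Proof. Choose a finite set `Ps` of primes with `W = sum 1/p` large (`Nat.Primes.not_summable_one_div`).
[TK] (for `F = g(m) e(t m)` on `1 <= m <= x`, `0` elsewhere, `N = x`): `|p sum_{p|m} F - sum F|` is small in mean,
`W |sum F| <= sum_p |sum_{p | m} F| ... ` precisely
`W * sum F = sum_p sum_{p | m} F(m) + O(4 x W^(1/2))` (Cauchy-Schwarz), and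
`sum_{p|m} F(m) = g(p) sum_{m <= x/p} g(m) e(t p m)`.  Hence
`|W sum F| <= |sum_{m <= x} g(m) sum_{p <= x/m} g(p) e(t p m)| + 4 x W^(1/2)`, and by Cauchy-Schwarz the
first term squared is `<= x sum_{p,p'} |sum_{m <= x/max(p,p')} e(t (p - p') m)|`; the diagonal gives
`x * x W`, and by [GS] each off-diagonal term is `<= 1/(2 nd(t(p-p')))`.  If
`nd(t(p-p')) > C/x` for all `p ≠ p'` with `C = |Ps|^2`, the off-diagonal sum is `<= x * x`.  So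
`(ε W x)^2 <= 2 (x^2 W + x^2) + 32 x^2 W`, false for `W` large.  Therefore `nd(t (p - p')) <= C/x` for
some `p ≠ p'`; `d = |p - p'|`, `D = max Ps`. -/
def StKt1 : Prop :=
  ∀ ε : ℝ, 0 < ε → ∃ (D : ℕ) (C : ℝ) (x0 : ℕ), ∀ g : ℤ → ℂ, CM g → ∀ x : ℕ, x0 ≤ x →
    ∀ t : ℝ, ε * x ≤ ‖∑ m ∈ Finset.Icc (1 : ℤ) x, g m * ee (t * m)‖ →
      ∃ d : ℕ, 1 ≤ d ∧ d ≤ D ∧ nd (d * t) ≤ C / x

/-- [Kt2] MEDIUM. Rational frequencies are excluded by aperiodicity.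
Proof. `d t = a + θ`, `|θ| <= C/x`, `t = a/d + β`, `|β| <= C/(d x)`.  Cut `[1,x]` into `k` blocks of
length `<= x/k + 1`; on a block `e(β m)` is constant up to `2 pi C (1/k + 1/x)`, so the sum is at most
`sum_blocks |sum_{m in block} g(m) e(a m/d)| + (small) x`, and each block sum is at most
`sum_{b mod d} |sum_{m in block, m = b mod d} g(m)|`, which is a difference of two initial sums.
By `Aper` for each of the finitely many `d <= D` and all `b`: for every `ε'` there is `C'` with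
`|sum_{m <= y, m = b mod d} g(m)| <= ε' y + C'` for ALL `y >= 0`; so everything is `<= ε x` for `x`
large (`k` chosen first, then `ε'`). -/
def StKt2 : Prop :=
  ∀ g : ℤ → ℂ, CM g → Aper g → ∀ (ε C : ℝ) (D : ℕ), 0 < ε → ∃ x0 : ℕ, ∀ x : ℕ, x0 ≤ x →
    ∀ t : ℝ, (∃ d : ℕ, 1 ≤ d ∧ d ≤ D ∧ nd (d * t) ≤ C / x) →
      ‖∑ m ∈ Finset.Icc (1 : ℤ) x, g m * ee (t * m)‖ ≤ ε * x

/-- [Kat] EASY-MEDIUM, from [Kt1], [Kt2]: linear phases on all intervals.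
Proof. For every `ε'` there is `C'` with `‖sum_{1 <= m <= x} g m e(t m)‖ <= ε' x + C'` for all `x >= 0`
and all `t` ([Kt1] + [Kt2] for `x >= x0`, trivial bound below).  The part of `[A,B]` in the positive
integers is a difference of two initial sums, `m = 0` contributes 0, and for `m < 0`:
`g(m) = g(-1) g(-m)`, `e(t m) = e((-t)(-m))`.  Total `<= 4 (ε' N + C') <= ε N`. -/
def StKat : Prop :=
  ∀ g : ℤ → ℂ, CM g → Aper g → ∀ ε : ℝ, 0 < ε → ∃ N0 : ℕ, ∀ N : ℕ, N0 ≤ N →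
    ∀ (A B : ℤ) (t : ℝ), -(N : ℤ) ≤ A → B ≤ N →
      ‖∑ m ∈ Finset.Icc A B, g m * ee (t * m)‖ ≤ ε * N

/-- [End] MEDIUM. Rational frequencies for many shifts contradict aperiodicity.
Proof. For `x` in `WW` let `q1 < q2`, `r0 = q2^2 - q1^2`, `a = round(r0 fr(λ x))`, `0 <= a <= r0`
(`0 <= fr < 1`): `fr (λ x) = a/r0 + β'`, `|β'| <= C/N`, so the frequency `q1^2 fr (λ x)` of
`SZ g (cl A q1) (B/q1) (H x) (q1^2 • λ x)` ([Frq]) is `θ + β`, `θ = q1^2 a/r0`, `|β| <= q1^2 C/N`.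
The `m` with `m, m + H x` in `[cl A q1, B/q1]` form an interval contained in `[-N,N]`; hence (with
`F(m) = g(m+Hx) conj(g m) e(-θ m)` and the phase `e(-β m)`) [Bks] gives a block index `i < k` with
`J_i` contained in this interval and `κ' N <= ‖sum_{m in J_i} g(m+Hx) conj(g m) e(-θ m)‖`.  The data
`(q1, q2, a, i)` take a number of values bounded independently of `N`; one of them is taken by at
least `κ'' N` of the `x`.  [U2] for `W = {H x}` (distinct since `H ≠ 0`; `|H x| <= 2N` because `J_i`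
and `J_i + H x` are in `[-N,N]`; `‖g‖ <= 1`) gives `t` with `κ''' N <= ‖sum_{J_i} g m e(t m)‖`, against
[Kat] (`J_i` is contained in `[-N,N]`) for `N >= N0`. -/
def StEnd : Prop :=
  ∀ g : ℤ → ℂ, CM g → Aper g → ∀ (Ps : Finset ℕ) (κ C : ℝ) (H : ℤ), 0 < κ → H ≠ 0 →
    (∀ q ∈ Ps, q.Prime) → ∃ N0 : ℕ, ∀ N : ℕ, N0 ≤ N → ∀ (A B : ℤ), -(N : ℤ) ≤ A → B ≤ N →
    ∀ (M : ℕ) [NeZero M] (W : Finset ℤ) (l : ℤ → ZMod M), κ * N ≤ W.card →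
      (∀ x ∈ W, ∃ q1 ∈ Ps, ∃ q2 ∈ Ps, q1 < q2 ∧
        nd (((q2 : ℝ) ^ 2 - (q1 : ℝ) ^ 2) * fr (l x)) ≤ C / N ∧
        κ * (N : ℝ) ^ 2 ≤ SZ g (cl A q1) (B / q1) (H * x) (q1 ^ 2 • l x)) → False

/-- [Core] MEDIUM, assembly (statement without linear forms).
Proof. Let `δ <= 1`.  (1) `K` from [Rnd] for `δ`, `K' = max(K, 4)`; for `N` given choose a prime `M`,
`K' N < M <= 2 K' N` (`Nat.exists_prime_lt_and_le_two_mul`).  (2) `δ1 = δ^2/16`; [Nrg] with `δ1` and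
`2K'` gives `κ`, [Frm] gives `κ'`; `γ = min(δ1, κ' δ/2)`.  (3) [Avg] for `γ` (in place of `δ`) gives
`c2, W0`; [Blk] for `c2/2` gives `P0`; choose a finite set `Ps` of primes `>= max(P0, 3)` with
`sum 1/q >= max(W0, 1)` (`Nat.Primes.not_summable_one_div`, tails diverge), `Q = prod Ps`,
`P = max Ps`.  `Q` is the number of the statement.  (4) Given `c ≠ 0`, `H = c Q`.  Given `N` large,
`R`, put `X = N / Q` (natural division, `>= 1`; `|r| <= X`; `δ N/Q <= |R|` so `δ X <= |R|`).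
`w r` from [Rnd]: `δ1 N^2 <= (δ/2)^2 N^2 <= SZ g A B (c Q r) (w r)`.  (5) [Nrg], [Frm]: `R' ⊆ R`,
`|R'| >= κ' δ X`, order 6 Freiman.  (6) [Bog] for `γ` and `P`: `η`, `V`; `Y = X / P` (natural
division, `v <= Y`, `q Y <= X`); [Lam]: `Λ`.  (7) [Avg] for `R'`:
`c2 W |V|^2 N^2 <= sum_{v,v'} E(v,v')`, `E(v,v') = sum_q (1/q) q^2 SZ(...)`, and `E <= 9 W N^2`
(`SZ <= (2N/q+1)^2 <= 9N^2/q^2`).  So at least `(c2/18) |V|^2` pairs have `E >= (c2/2) W N^2`; every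
difference `v - v'` belongs to at most `|V|` pairs, so the set `WW` of differences `x = v - v'` of
these pairs has at least `(c2/18) |V| >= (c2 η/18) X >= κ3 N` elements.  (8) [Blk] (with `c2/2`,
`h = H x`, `l = Λ x`): `q1 < q2` as in [End], `κ4 N^2 <= SZ g (cl A q1) (B/q1) (H x) (q1^2 • Λ x)`.
(9) [End] with `κ = min(κ3, κ4)`: False. -/
def StCore : Prop :=
  ∀ δ : ℝ, 0 < δ → ∃ Q : ℕ, 1 ≤ Q ∧ ∀ g : ℤ → ℂ, CM g → Aper g → ∀ c : ℤ, c ≠ 0 →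
    ∃ N0 : ℕ, ∀ N : ℕ, N0 ≤ N → ∀ (A B : ℤ), -(N : ℤ) ≤ A → B ≤ N →
    ∀ R : Finset ℤ, (∀ r ∈ R, |r| * Q ≤ N) → δ * N ≤ Q * (R.card : ℝ) →
      ¬ (∀ r ∈ R, ∃ a : ℝ, δ * N ≤ ‖cor g A B (c * Q * r) a‖)

/-- [A] EASY-MEDIUM, THEOREM A of the block.  Four pairwise independent linear forms, three
arbitrary functions bounded by one, the fourth an aperiodic completely multiplicative function cut
to an interval.
Proof. `δ = ε`; [VN] gives `δ1`; [Core] for `δ1` gives `Q`; `c = dt (L 3) (L 0)`.  If the sum is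
`> ε N^2` apply [VN] to `f 0, f 1, f 2` and `f 3 = g 1_[A,B]` (`Bdd N`, `‖g‖ <= 1`), the sum over
`[-N,N]` in its conclusion is `cor g A B (c Q r) a`; [Core] gives a contradiction for `N` large. -/
def StA : Prop :=
  ∀ g : ℤ → ℂ, CM g → Aper g → ∀ L : Fin 4 → ℤ × ℤ, (∀ i j, i ≠ j → dt (L i) (L j) ≠ 0) →
    ∀ T : ℕ, (∑ i, sz (L i)) ≤ T → ∀ ε : ℝ, 0 < ε → ∃ N0 : ℕ, ∀ N : ℕ, N0 ≤ N →
      ∀ f : Fin 3 → ℤ → ℂ, (∀ i, Bdd N (f i)) → ∀ A B : ℤ, -(N : ℤ) ≤ A → B ≤ N →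
        ‖∑ v ∈ bx (T * N), (∏ i, f i (lf (L i.castSucc) v)) *
          (if lf (L 3) v ∈ Finset.Icc A B then g (lf (L 3) v) else 0)‖ ≤ ε * (N : ℝ) ^ 2

end Pool.Agent.U3
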