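import Mathlib
import Pool.Agent.Work.MP_0f91f8_co.U3.Stmts

set_option autoImplicit false

/-!
Block U3, item A: the theorem of the block from VN and Core.
-/

namespace Pool.Agent.U3

open scoped ComplexConjugate

namespace IA

/-- the function cut to the interval -/
noncomputable def cg (g : ℤ → ℂ) (A B : ℤ) (n : ℤ) : ℂ := if n ∈ Finset.Icc A B then g n else 0

theorem cor_eq (g : ℤ → ℂ) (A B h : ℤ) (a : ℝ) (N : ℕ) (hA : -(N : ℤ) ≤ A) (hB : B ≤ N) :
    ∑ n ∈ Finset.Icc (-(N : ℤ)) N, cg g A B (n + h) * conj (cg g A B n) * ee (-(a * n)) =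
      cor g A B h a := by
  unfold cor
  symm
  have hsub : Finset.Icc A B ⊆ Finset.Icc (-(N : ℤ)) N := by
    intro n hn
    rw [Finset.mem_Icc] at hn ⊢
    constructor
    · exact hA.trans hn.1
    · exact hn.2.trans hB
  rw [← Finset.sum_subset hsub]
  · apply Finset.sum_congr rfl
    intro n hn
    unfold cg
    rw [if_pos hn]
    split_ifs
    · rfl
    · rw [zero_mul, zero_mul]
  · intro n _ hn
    unfold cg
    rw [if_neg hn, map_zero, mul_zero, zero_mul]

theorem cg_bdd {g : ℤ → ℂ} (hg : CM g) (A B : ℤ) (N : ℕ) (hA : -(N : ℤ) ≤ A) (hB : B ≤ N) :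
    Bdd N (cg g A B) := by
  intro n
  unfold cg
  constructor
  · split_ifs
    · by_cases hn : n = 0
      · rw [hn, hg.zero, norm_zero]
        exact zero_le_one
      · exact (hg.nrm n hn).le
    · rw [norm_zero]
      exact zero_le_one
  · intro h
    rw [if_neg]
    intro hn
    rw [Finset.mem_Icc] at hn
    have : |n| ≤ N := abs_le.2 ⟨hA.trans hn.1, hn.2.trans hB⟩
    omega

end IA

open IA in
theorem pr_A (h1 : StVN) (h2 : StCore) : StA := by
  intro g hg hap L hL T hT ε hε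
  obtain ⟨δ1, hδ1, hVN⟩ := h1 L hL T hT ε hε
  obtain ⟨Q, hQ, hCore⟩ := h2 δ1 hδ1
  have hc : dt (L 3) (L 0) ≠ 0 := hL 3 0 (by decide)
  obtain ⟨N1, hN1⟩ := hCore g hg hap _ hc
  obtain ⟨N2, hN2⟩ := hVN Q hQ
  refine ⟨max N1 N2, fun N hN f hf A B hA hB => ?_⟩
  by_contra hcon
  rw [not_le] at hcon
  obtain ⟨R, hR1, hR2, hR3⟩ := hN2 N ((le_max_right _ _).trans hN)
    (Fin.snoc (α := fun _ => ℤ → ℂ) f (cg g A B)) (by
      intro i
      refine Fin.lastCases ?_ (fun j => ?_) i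
      · rw [Fin.snoc_last]
        exact cg_bdd hg A B N hA hB
      · rw [Fin.snoc_castSucc]
        exact hf j) (by
      refine hcon.le.trans (le_of_eq ?_)
      congr 1
      apply Finset.sum_congr rfl
      intro v _
      refine Eq.trans ?_ (Fin.prod_univ_castSucc (n := 3) _).symm
      simp only [Fin.snoc_castSucc, Fin.snoc_last]
      rfl)
  refine hN1 N ((le_max_left _ _).trans hN) A B hA hB R hR1 hR2 fun r hr => ?_
  obtain ⟨a, ha⟩ := hR3 r hr
  refine ⟨a, ha.trans (le_of_eq ?_)⟩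
  rw [← cor_eq g A B _ a N hA hB]
  have e3 : (Fin.snoc (α := fun _ => ℤ → ℂ) f (cg g A B) : Fin 4 → ℤ → ℂ) 3 = cg g A B :=
    Fin.snoc_last (α := fun _ : Fin 4 => ℤ → ℂ) (cg g A B) f
  rw [e3]

end Pool.Agent.U3
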