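import Mathlib
import Pool.Agent.Work.MP_0f91f8_co.U3.Stmts

/-!
# Block U3, item Bks: removing a slow phase on fixed blocks
-/

set_option autoImplicit false

namespace Pool.Agent.U3

open scoped ComplexConjugate

namespace IBks

/-- the block with number `i` -/
noncomputable def J (N S i : ℕ) : Finset ℤ :=
  Finset.Icc (-(N : ℤ) + i * S) (-(N : ℤ) + (i + 1) * S - 1)

/-- the number of the block of `m` -/
def idx (N S : ℕ) (m : ℤ) : ℕ := ((m + N) / (S : ℤ)).toNat

theorem mem_J {N S i : ℕ} (hS : 0 < S) {m : ℤ} (hm : -(N : ℤ) ≤ m) :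
    m ∈ J N S i ↔ idx N S m = i := by
  have hS' : (0 : ℤ) < S := by exact_mod_cast hS
  have h0 : 0 ≤ (m + N) / (S : ℤ) := Int.ediv_nonneg (by omega) hS'.le
  unfold J idx
  rw [Finset.mem_Icc]
  constructor
  · rintro ⟨h1, h2⟩
    have h3 : (m + N) / (S : ℤ) = i := by
      rw [Int.ediv_eq_iff_of_pos hS']
      constructor
      · linarith
      · linarith
    rw [h3]
    exact Int.toNat_natCast i
  · intro h
    have h3 : (m + N) / (S : ℤ) = i := by
      rw [← h]
      exact (Int.toNat_of_nonneg h0).symm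
    rw [Int.ediv_eq_iff_of_pos hS'] at h3
    constructor
    · linarith [h3.1]
    · have := h3.2
      have h4 : m + N < (i + 1) * (S : ℤ) := by linarith
      omega

theorem card_J (N S i : ℕ) : (J N S i).card = S := by
  unfold J
  rw [Int.card_Icc]
  have : (-(N : ℤ) + (i + 1) * S - 1 + 1 - (-(N : ℤ) + i * S)) = S := by ring
  rw [this]
  exact Int.toNat_natCast S

theorem slow (hE : StEE) (N S i : ℕ) (F : ℤ → ℂ) (β : ℝ) (hF : ∀ n, ‖F n‖ ≤ 1) :
    ‖∑ m ∈ J N S i, F m * ee (β * m)‖ ≤
      ‖∑ m ∈ J N S i, F m‖ + S * (2 * Real.pi * (|β| * S)) := by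
  obtain ⟨-, hn, -, -, -, -, hl⟩ := hE
  set m0 : ℤ := -(N : ℤ) + i * S with hm0
  have h1 : ∑ m ∈ J N S i, F m * ee (β * m) =
      ee (β * m0) * ∑ m ∈ J N S i, F m + ∑ m ∈ J N S i, F m * (ee (β * m) - ee (β * m0)) := by
    rw [Finset.mul_sum, ← Finset.sum_add_distrib]
    apply Finset.sum_congr rfl
    intro m _
    ring
  rw [h1]
  refine (norm_add_le _ _).trans ?_
  rw [norm_mul, hn, one_mul]
  gcongr
  refine (norm_sum_le _ _).trans ?_
  have h2 : ∀ m ∈ J N S i, ‖F m * (ee (β * m) - ee (β * m0))‖ ≤ 2 * Real.pi * (|β| * S) := by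
    intro m hm
    unfold J at hm
    rw [Finset.mem_Icc] at hm
    rw [norm_mul]
    have h3 : |β * m - β * m0| ≤ |β| * S := by
      rw [← mul_sub, abs_mul]
      apply mul_le_mul_of_nonneg_left _ (abs_nonneg _)
      have h4 : (m0 : ℝ) ≤ m := by exact_mod_cast hm.1
      have h5 : m ≤ m0 + S := by
        have := hm.2
        rw [hm0]
        linarith
      have h6 : (m : ℝ) ≤ m0 + S := by exact_mod_cast h5
      rw [abs_le]
      constructor
      · have : (0 : ℝ) ≤ S := Nat.cast_nonneg S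
        linarith
      · linarith
    calc ‖F m‖ * ‖ee (β * m) - ee (β * m0)‖ ≤ 1 * (2 * Real.pi * |β * m - β * m0|) := by
          gcongr
          · exact hF m
          · exact hl _ _
      _ ≤ 2 * Real.pi * (|β| * S) := by
          rw [one_mul]
          have := Real.pi_pos
          gcongr
  refine (Finset.sum_le_card_nsmul _ _ _ h2).trans ?_
  rw [card_J, nsmul_eq_mul]

theorem piece (hE : StEE) {N S i : ℕ} (hS : 0 < S) {F : ℤ → ℂ} {A B : ℤ} {β δ : ℝ}
    (hF : ∀ n, ‖F n‖ ≤ 1) (hA : -(N : ℤ) ≤ A) (hδ : 0 ≤ δ)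
    (hsmall : J N S i ⊆ Finset.Icc A B → ‖∑ m ∈ J N S i, F m‖ ≤ δ) :
    ‖∑ m ∈ (Finset.Icc A B).filter (fun m => idx N S m = i), F m * ee (β * m)‖ ≤
      δ + S * (2 * Real.pi * (|β| * S)) + (if i = idx N S A then (S : ℝ) else 0) +
        (if i = idx N S B then (S : ℝ) else 0) := by
  have hpi := Real.pi_pos
  have hq : 0 ≤ (S : ℝ) * (2 * Real.pi * (|β| * S)) := by positivity
  have hi1 : (0 : ℝ) ≤ (if i = idx N S A then (S : ℝ) else 0) := by split_ifs <;> positivity
  have hi2 : (0 : ℝ) ≤ (if i = idx N S B then (S : ℝ) else 0) := by split_ifs <;> positivity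
  by_cases hsub : J N S i ⊆ Finset.Icc A B
  · have h1 : (Finset.Icc A B).filter (fun m => idx N S m = i) = J N S i := by
      ext m
      rw [Finset.mem_filter]
      constructor
      · rintro ⟨h2, h3⟩
        exact (mem_J hS (hA.trans (Finset.mem_Icc.1 h2).1)).2 h3
      · intro h2
        have h3 := hsub h2
        exact ⟨h3, (mem_J hS (hA.trans (Finset.mem_Icc.1 h3).1)).1 h2⟩
    rw [h1]
    have h2 := slow hE N S i F β hF
    have h3 := hsmall hsub
    linarith
  · -- not contained
    have hcard : ‖∑ m ∈ (Finset.Icc A B).filter (fun m => idx N S m = i), F m * ee (β * m)‖ ≤ S := by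
      refine (norm_sum_le _ _).trans ?_
      have h2 : ∀ m ∈ (Finset.Icc A B).filter (fun m => idx N S m = i),
          ‖F m * ee (β * m)‖ ≤ 1 := by
        intro m _
        rw [norm_mul, hE.2.1, mul_one]
        exact hF m
      refine (Finset.sum_le_card_nsmul _ _ _ h2).trans ?_
      rw [nsmul_eq_mul, mul_one]
      have h3 : ((Finset.Icc A B).filter (fun m => idx N S m = i)).card ≤ (J N S i).card := by
        apply Finset.card_le_card
        intro m hm
        rw [Finset.mem_filter] at hm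
        exact (mem_J hS (hA.trans (Finset.mem_Icc.1 hm.1).1)).2 hm.2
      rw [card_J] at h3
      exact_mod_cast h3
    by_cases hne : ((Finset.Icc A B).filter (fun m => idx N S m = i)).Nonempty
    · obtain ⟨m, hm⟩ := hne
      rw [Finset.mem_filter, Finset.mem_Icc] at hm
      obtain ⟨⟨hmA, hmB⟩, hmi⟩ := hm
      have hmJ : m ∈ J N S i := (mem_J hS (hA.trans hmA)).2 hmi
      rw [Finset.not_subset] at hsub
      obtain ⟨m', hm'J, hm'⟩ := hsub
      have e1 := hmJ
      have e2 := hm'J
      unfold J at e1 e2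
      rw [Finset.mem_Icc] at e1 e2
      rw [Finset.mem_Icc, not_and_or, not_le, not_le] at hm'
      rcases hm' with h | h
      · have hAJ : A ∈ J N S i := by
          unfold J
          rw [Finset.mem_Icc]
          exact ⟨by linarith [e2.1], by linarith [e1.2]⟩
        have : i = idx N S A := ((mem_J hS hA).1 hAJ).symm
        rw [if_pos this]
        linarith
      · have hBJ : B ∈ J N S i := by
          unfold J
          rw [Finset.mem_Icc]
          exact ⟨by linarith [e1.1], by linarith [e2.2]⟩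
        have : i = idx N S B := ((mem_J hS (hA.trans (hmA.trans hmB))).1 hBJ).symm
        rw [if_pos this]
        linarith
    · rw [Finset.not_nonempty_iff_eq_empty] at hne
      rw [hne, Finset.sum_empty, norm_zero]
      linarith

end IBks

open IBks in
theorem pr_Bks (h1 : StEE) : StBks := by
  intro κ C hκ
  have hpi := Real.pi_pos
  obtain ⟨k, hk⟩ := exists_nat_gt ((18 * Real.pi * |C| + 6) * 2 / κ)
  have hC : 0 ≤ |C| := abs_nonneg C
  have hk0 : (0 : ℝ) < k := lt_of_le_of_lt (by positivity) hk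
  have hk1 : 1 ≤ k := by exact_mod_cast hk0
  refine ⟨k, κ / (4 * k), hk1, by positivity, ?_⟩
  intro N hkN F A B β hF hA hB hβ hbig
  have hN1 : 1 ≤ N := hk1.trans hkN
  have hN0 : (0 : ℝ) < N := by exact_mod_cast hN1
  by_contra hcon
  push Not at hcon
  set S : ℕ := 2 * N / k + 1 with hSd
  have hS : 0 < S := Nat.succ_pos _
  have hS2 : 2 * N < k * S := by
    rw [hSd]
    exact Nat.lt_mul_div_succ (2 * N) hk1
  have hS3 : (S : ℝ) * k ≤ 3 * N := by
    have h2 : 2 * N / k * k ≤ 2 * N := Nat.div_mul_le_self _ _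
    have h3 : S * k ≤ 3 * N := by
      rw [hSd, add_mul, one_mul]
      omega
    exact_mod_cast h3
  have hβ' : |β| * N ≤ |C| := by
    rw [le_div_iff₀ hN0] at hβ
    exact hβ.trans (le_abs_self C)
  have hβS : |β| * S * k ≤ 3 * |C| := by
    calc |β| * S * k = |β| * (S * k) := by ring
      _ ≤ |β| * (3 * N) := by gcongr
      _ = 3 * (|β| * N) := by ring
      _ ≤ 3 * |C| := by gcongr
  have hsm : ∀ i : ℕ, i < k → J N S i ⊆ Finset.Icc A B → ‖∑ m ∈ J N S i, F m‖ ≤
      κ / (4 * k) * N := by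
    intro i hi hsub
    exact (hcon i hi hsub).le
  have hidx : ∀ m ∈ Finset.Icc A B, idx N S m ∈ Finset.range k := by
    intro m hm
    rw [Finset.mem_Icc] at hm
    rw [Finset.mem_range]
    unfold idx
    have hS' : (0 : ℤ) < S := by exact_mod_cast hS
    have h2 : (m + N) / (S : ℤ) < k := by
      apply Int.ediv_lt_of_lt_mul hS'
      have h3 : (2 * N : ℤ) < k * S := by exact_mod_cast hS2
      linarith [hm.2]
    have h0 : 0 ≤ (m + N) / (S : ℤ) := Int.ediv_nonneg (by linarith [hm.1]) hS'.le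
    omega
  have hsum : ∑ m ∈ Finset.Icc A B, F m * ee (β * m) =
      ∑ i ∈ Finset.range k, ∑ m ∈ (Finset.Icc A B).filter (fun m => idx N S m = i),
        F m * ee (β * m) := (Finset.sum_fiberwise_of_maps_to hidx _).symm
  have hδ : 0 ≤ κ / (4 * k) * N := by positivity
  have hone : ∀ a : ℕ, ∑ i ∈ Finset.range k, (if i = a then (S : ℝ) else 0) ≤ S := by
    intro a
    rw [Finset.sum_ite_eq']
    split_ifs
    · exact le_rfl
    · positivity
  have hb : ‖∑ m ∈ Finset.Icc A B, F m * ee (β * m)‖ ≤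
      k * (κ / (4 * k) * N + S * (2 * Real.pi * (|β| * S))) + S + S := by
    rw [hsum]
    refine (norm_sum_le _ _).trans ?_
    have h2 : ∑ i ∈ Finset.range k, ‖∑ m ∈ (Finset.Icc A B).filter (fun m => idx N S m = i),
        F m * ee (β * m)‖ ≤ ∑ i ∈ Finset.range k,
          (κ / (4 * k) * N + S * (2 * Real.pi * (|β| * S)) +
            (if i = idx N S A then (S : ℝ) else 0) + (if i = idx N S B then (S : ℝ) else 0)) := by
      apply Finset.sum_le_sum
      intro i hi
      rw [Finset.mem_range] at hi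
      exact piece h1 hS hF hA hδ (hsm i hi)
    refine h2.trans ?_
    rw [Finset.sum_add_distrib, Finset.sum_add_distrib, Finset.sum_const, Finset.card_range,
      nsmul_eq_mul]
    have h3 := hone (idx N S A)
    have h4 := hone (idx N S B)
    linarith
  -- numbers
  have hkey : (18 * Real.pi * |C| + 6) * 2 < κ * k := by
    rw [div_lt_iff₀ hκ] at hk
    linarith
  have e1 : (k : ℝ) * (κ / (4 * k) * N) = κ * N / 4 := by
    field_simp
  have e2 : (k : ℝ) * (S * (2 * Real.pi * (|β| * S))) ≤ S * (6 * Real.pi * |C|) := by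
    calc (k : ℝ) * (S * (2 * Real.pi * (|β| * S))) = S * (2 * Real.pi * (|β| * S * k)) := by ring
      _ ≤ S * (2 * Real.pi * (3 * |C|)) := by gcongr
      _ = S * (6 * Real.pi * |C|) := by ring
  have e3 : κ * N ≤ κ * N / 4 + S * (6 * Real.pi * |C|) + 2 * S := by
    have := hbig.trans hb
    rw [mul_add, e1] at this
    linarith
  have e4 : κ * N * k ≤ κ * N * k / 4 + (S * k) * (6 * Real.pi * |C| + 2) := by
    have := mul_le_mul_of_nonneg_right e3 hk0.le
    calc κ * N * k ≤ (κ * N / 4 + S * (6 * Real.pi * |C|) + 2 * S) * k := this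
      _ = κ * N * k / 4 + (S * k) * (6 * Real.pi * |C| + 2) := by ring
  have e5 : (S * k : ℝ) * (6 * Real.pi * |C| + 2) ≤ 3 * N * (6 * Real.pi * |C| + 2) := by
    gcongr
  have e6 : 3 * N * (6 * Real.pi * |C| + 2) = N * (18 * Real.pi * |C| + 6) := by ring
  have e7 : N * ((18 * Real.pi * |C| + 6) * 2) < N * (κ * k) := by
    exact mul_lt_mul_of_pos_left hkey hN0
  nlinarith [mul_pos (mul_pos hκ hN0) hk0]

end Pool.Agent.U3
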