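import Mathlib
import Pool.Agent.Work.MP_0f91f8_co.U3.Stmts

/-!
# Block U3, item Blk: two primes with almost equal frequencies
-/

set_option autoImplicit false

namespace Pool.Agent.U3

open scoped ComplexConjugate

namespace IBlk

theorem norm_ee (x : ℝ) : ‖ee x‖ = 1 := by
  unfold ee
  have e : (2 * (Real.pi : ℂ) * Complex.I * (x : ℂ)) = ((2 * Real.pi * x : ℝ) : ℂ) * Complex.I := by
    push_cast
    ring
  rw [e, Complex.norm_exp_ofReal_mul_I]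

/-- the summation set -/
noncomputable def J (A B h : ℤ) : Finset ℤ := (Finset.Icc A B).filter (fun n => n + h ∈ Finset.Icc A B)

/-- the summand -/
noncomputable def F (f : ℤ → ℂ) (h : ℤ) (a : ℝ) (n : ℤ) : ℂ :=
  f (n + h) * conj (f n) * ee (-(a * n))

theorem cor_eq (f : ℤ → ℂ) (A B h : ℤ) (a : ℝ) : cor f A B h a = ∑ n ∈ J A B h, F f h a n := by
  unfold cor J F
  rw [Finset.sum_filter]

theorem norm_F (f : ℤ → ℂ) (hf : ∀ n, ‖f n‖ ≤ 1) (h : ℤ) (a : ℝ) (n : ℤ) : ‖F f h a n‖ ≤ 1 := by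
  unfold F
  rw [norm_mul, norm_mul, norm_ee, mul_one, RCLike.norm_conj]
  exact mul_le_one₀ (hf _) (norm_nonneg _) (hf _)

theorem norm_sum (f : ℤ → ℂ) (hf : ∀ n, ‖f n‖ ≤ 1) (h : ℤ) (a : ℝ) (s : Finset ℤ) :
    ‖∑ n ∈ s, F f h a n‖ ≤ s.card := by
  refine (norm_sum_le _ _).trans ?_
  calc ∑ n ∈ s, ‖F f h a n‖ ≤ ∑ n ∈ s, (1 : ℝ) := Finset.sum_le_sum fun n _ => norm_F f hf h a n
    _ = s.card := by simp

theorem cor_le (f : ℤ → ℂ) (hf : ∀ n, ‖f n‖ ≤ 1) (A B h : ℤ) (a x : ℝ) (hx : 0 ≤ x)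
    (hAB : (B : ℝ) - A + 1 ≤ x) : ‖cor f A B h a‖ ≤ x := by
  rw [cor_eq]
  refine (norm_sum f hf h a _).trans ?_
  have h1 : (J A B h).card ≤ (B + 1 - A).toNat := by
    rw [← Int.card_Icc]
    exact Finset.card_filter_le _ _
  have h2 : ((J A B h).card : ℝ) ≤ ((B + 1 - A).toNat : ℝ) := by exact_mod_cast h1
  refine h2.trans ?_
  rcases le_total 0 (B + 1 - A) with h3 | h3
  · have h4 : (((B + 1 - A).toNat : ℤ) : ℝ) = ((B + 1 - A : ℤ) : ℝ) := by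
      rw [Int.toNat_of_nonneg h3]
    have h5 : ((B + 1 - A).toNat : ℝ) = (B : ℝ) + 1 - A := by
      rw [← Int.cast_natCast, h4]
      push_cast
      ring
    rw [h5]
    linarith
  · rw [Int.toNat_of_nonpos h3]
    simpa using hx

theorem pos_of_cor (f : ℤ → ℂ) (A B h : ℤ) (a : ℝ) (hc : cor f A B h a ≠ 0) : A ≤ B := by
  by_contra hlt
  apply hc
  unfold cor
  rw [Finset.Icc_eq_empty hlt, Finset.sum_empty]

/-- the symmetric difference -/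
noncomputable def E (A1 B1 A2 B2 : ℤ) : Finset ℤ := Finset.Ico A1 A2 ∪ Finset.Ioc B2 B1

theorem card_E (A1 B1 A2 B2 : ℤ) : (E A1 B1 A2 B2).card ≤ (A2 - A1).toNat + (B1 - B2).toNat := by
  unfold E
  refine (Finset.card_union_le _ _).trans ?_
  rw [Int.card_Ico, Int.card_Ioc]

theorem card_sdiff_le (A1 B1 A2 B2 h : ℤ) :
    (J A1 B1 h \ J A2 B2 h).card ≤ 2 * ((A2 - A1).toNat + (B1 - B2).toNat) := by
  have h1 : J A1 B1 h \ J A2 B2 h ⊆
      E A1 B1 A2 B2 ∪ (E A1 B1 A2 B2).image (fun n => n - h) := by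
    intro n hn
    simp only [J, E, Finset.mem_sdiff, Finset.mem_filter, Finset.mem_Icc, Finset.mem_union,
      Finset.mem_image, Finset.mem_Ico, Finset.mem_Ioc] at hn ⊢
    obtain ⟨⟨⟨h1, h2⟩, h3, h4⟩, h5⟩ := hn
    by_cases h6 : A2 ≤ n ∧ n ≤ B2
    · right
      refine ⟨n + h, ?_, by ring⟩
      by_cases h7 : A2 ≤ n + h
      · right
        refine ⟨?_, h4⟩
        by_contra h8
        exact h5 ⟨h6, h7, by omega⟩
      · left
        exact ⟨h3, by omega⟩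
    · left
      by_cases h7 : A2 ≤ n
      · right
        refine ⟨?_, h2⟩
        by_contra h8
        exact h6 ⟨h7, by omega⟩
      · left
        exact ⟨h1, by omega⟩
  have h2 := card_E A1 B1 A2 B2
  have h3 := Finset.card_le_card h1
  have h4 := Finset.card_union_le (E A1 B1 A2 B2) ((E A1 B1 A2 B2).image (fun n => n - h))
  have h5 : ((E A1 B1 A2 B2).image (fun n => n - h)).card ≤ (E A1 B1 A2 B2).card :=
    Finset.card_image_le
  omega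

theorem cor_diff (f : ℤ → ℂ) (hf : ∀ n, ‖f n‖ ≤ 1) (A1 B1 A2 B2 h : ℤ) (a : ℝ) :
    ‖cor f A1 B1 h a - cor f A2 B2 h a‖ ≤ 2 * (|(A1 : ℝ) - A2| + |(B1 : ℝ) - B2|) := by
  rw [cor_eq, cor_eq, ← Finset.sum_sdiff_sub_sum_sdiff]
  refine (norm_sub_le _ _).trans ?_
  have h1 := norm_sum f hf h a (J A1 B1 h \ J A2 B2 h)
  have h2 := norm_sum f hf h a (J A2 B2 h \ J A1 B1 h)
  have h3 := card_sdiff_le A1 B1 A2 B2 h
  have h4 := card_sdiff_le A2 B2 A1 B1 h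
  have h5 : (((J A1 B1 h \ J A2 B2 h).card + (J A2 B2 h \ J A1 B1 h).card : ℕ) : ℤ) ≤
      2 * (|A1 - A2| + |B1 - B2|) := by
    rcases abs_cases (A1 - A2) with h6 | h6 <;> rcases abs_cases (B1 - B2) with h7 | h7 <;> omega
  have h6 : ((((J A1 B1 h \ J A2 B2 h).card + (J A2 B2 h \ J A1 B1 h).card : ℕ) : ℤ) : ℝ) ≤
      ((2 * (|A1 - A2| + |B1 - B2|) : ℤ) : ℝ) := by exact_mod_cast h5
  push_cast at h6
  linarith

/-- pigeonhole in multiplicative blocks -/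
theorem pigeon (G : Finset ℕ) (P0 : ℕ) (hP0 : 0 < P0) (hq : ∀ q ∈ G, P0 ≤ q) (ε K c : ℝ)
    (hε : 0 < ε) (hK : 0 ≤ K) (hsum : c ≤ ∑ q ∈ G, 1 / (q : ℝ))
    (hP : K * ((1 + ε) / ε) / P0 < c) :
    ∃ s ⊆ G, K < (s.card : ℝ) ∧ ∀ q ∈ s, ∀ q' ∈ s, (q : ℝ) < (1 + ε) * q' := by
  have hP0R : (0 : ℝ) < P0 := by exact_mod_cast hP0
  have hj : ∀ q : ℕ, ∃ j : ℕ, P0 ≤ q →
      (1 + ε) ^ j ≤ (q : ℝ) / P0 ∧ (q : ℝ) / P0 < (1 + ε) ^ (j + 1) := by
    intro q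
    by_cases h : P0 ≤ q
    · obtain ⟨j, h1, h2⟩ := exists_nat_pow_near (x := (q : ℝ) / P0) (y := 1 + ε)
        (by rw [one_le_div hP0R]; exact_mod_cast h) (by linarith)
      exact ⟨j, fun _ => ⟨h1, h2⟩⟩
    · exact ⟨0, fun h' => absurd h' h⟩
  choose j hj using hj
  by_contra hcon
  push Not at hcon
  have hfib : ∀ i : ℕ, ((G.filter (fun q => j q = i)).card : ℝ) ≤ K := by
    intro i
    by_contra h1
    push Not at h1
    obtain ⟨q, hq1, q', hq2, h2⟩ := hcon (G.filter (fun q => j q = i)) (Finset.filter_subset _ _) h1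
    obtain ⟨h3, h4⟩ := Finset.mem_filter.1 hq1
    obtain ⟨h5, h6⟩ := Finset.mem_filter.1 hq2
    have h7 := (hj q (hq q h3)).2
    have h8 := (hj q' (hq q' h5)).1
    rw [h4, pow_succ] at h7
    rw [h6] at h8
    have h9 : (q : ℝ) / P0 < (q' : ℝ) / P0 * (1 + ε) :=
      h7.trans_le (mul_le_mul_of_nonneg_right h8 (by linarith))
    have h10 : (q : ℝ) / P0 < ((1 + ε) * q') / P0 := by
      calc (q : ℝ) / P0 < (q' : ℝ) / P0 * (1 + ε) := h9
        _ = ((1 + ε) * q') / P0 := by ring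
    rw [div_lt_div_iff_of_pos_right hP0R] at h10
    linarith
  have hr0 : 0 ≤ 1 / (1 + ε) := by positivity
  have hr1 : 1 / (1 + ε) < 1 := by
    rw [div_lt_one (by linarith)]; linarith
  have h1 : ∑ q ∈ G, 1 / (q : ℝ) = ∑ i ∈ G.image j, ∑ q ∈ G.filter (fun q => j q = i), 1 / (q : ℝ) :=
    (Finset.sum_fiberwise_of_maps_to (fun q hq => Finset.mem_image_of_mem j hq) _).symm
  have h2 : ∀ i ∈ G.image j, ∑ q ∈ G.filter (fun q => j q = i), 1 / (q : ℝ) ≤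
      K / P0 * (1 / (1 + ε)) ^ i := by
    intro i _
    have h3 : ∀ q ∈ G.filter (fun q => j q = i), 1 / (q : ℝ) ≤ 1 / P0 * (1 / (1 + ε)) ^ i := by
      intro q hq'
      obtain ⟨h3, h4⟩ := Finset.mem_filter.1 hq'
      have h8 := (hj q (hq q h3)).1
      rw [h4, le_div_iff₀ hP0R] at h8
      have h9 : 0 < (1 + ε) ^ i * (P0 : ℝ) := by positivity
      have h10 : 1 / (P0 : ℝ) * (1 / (1 + ε)) ^ i = 1 / ((1 + ε) ^ i * (P0 : ℝ)) := by
        rw [one_div_pow, one_div_mul_one_div, mul_comm (P0 : ℝ)]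
      rw [h10]
      exact one_div_le_one_div_of_le h9 h8
    calc ∑ q ∈ G.filter (fun q => j q = i), 1 / (q : ℝ)
        ≤ ∑ q ∈ G.filter (fun q => j q = i), 1 / P0 * (1 / (1 + ε)) ^ i := Finset.sum_le_sum h3
      _ = ((G.filter (fun q => j q = i)).card : ℝ) * (1 / P0 * (1 / (1 + ε)) ^ i) := by
          rw [Finset.sum_const, nsmul_eq_mul]
      _ ≤ K * (1 / P0 * (1 / (1 + ε)) ^ i) :=
          mul_le_mul_of_nonneg_right (hfib i) (by positivity)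
      _ = K / P0 * (1 / (1 + ε)) ^ i := by ring
  have h3 : ∑ q ∈ G, 1 / (q : ℝ) ≤ K / P0 * ((1 + ε) / ε) := by
    rw [h1]
    calc ∑ i ∈ G.image j, ∑ q ∈ G.filter (fun q => j q = i), 1 / (q : ℝ)
        ≤ ∑ i ∈ G.image j, K / P0 * (1 / (1 + ε)) ^ i := Finset.sum_le_sum h2
      _ = K / P0 * ∑ i ∈ G.image j, (1 / (1 + ε)) ^ i := by rw [Finset.mul_sum]
      _ ≤ K / P0 * ((1 + ε) / ε) := by
          refine mul_le_mul_of_nonneg_left ?_ (by positivity)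
          have h4 := (summable_geometric_of_lt_one hr0 hr1).sum_le_tsum (G.image j)
            (fun i _ => pow_nonneg hr0 i)
          rw [tsum_geometric_of_lt_one hr0 hr1] at h4
          refine h4.trans (le_of_eq ?_)
          have h5 : (1 : ℝ) + ε ≠ 0 := by positivity
          have h6 : 1 - 1 / (1 + ε) = ε / (1 + ε) := by
            rw [eq_div_iff h5, sub_mul, div_mul_cancel₀ _ h5]
            ring
          rw [h6, inv_div]
  have h4 : K / P0 * ((1 + ε) / ε) = K * ((1 + ε) / ε) / P0 := by ring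
  rw [h4] at h3
  linarith

theorem cl_bd (A : ℤ) (q : ℕ) (hq : 0 < q) :
    (A : ℝ) / q ≤ (cl A q : ℝ) ∧ (cl A q : ℝ) ≤ (A : ℝ) / q + 1 := by
  have hqZ : (0 : ℤ) < q := by exact_mod_cast hq
  have hqR : (0 : ℝ) < q := by exact_mod_cast hq
  have h1 : (q : ℤ) * ((-A) / (q : ℤ)) ≤ -A := Int.mul_ediv_self_le hqZ.ne'
  have h2 : -A < (q : ℤ) * ((-A) / (q : ℤ)) + q := Int.lt_mul_ediv_self_add hqZ
  have h3 : A ≤ (q : ℤ) * cl A q := by unfold cl; linarith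
  have h4 : (q : ℤ) * cl A q ≤ A + q := by unfold cl; linarith
  have h5 : (A : ℝ) ≤ (q : ℝ) * (cl A q : ℝ) := by exact_mod_cast h3
  have h6 : (q : ℝ) * (cl A q : ℝ) ≤ (A : ℝ) + q := by exact_mod_cast h4
  constructor
  · rw [div_le_iff₀ hqR]; linarith
  · have h7 : (A : ℝ) / q + 1 = ((A : ℝ) + q) / q := by field_simp
    rw [h7, le_div_iff₀ hqR]; linarith

theorem fl_bd (B : ℤ) (q : ℕ) (hq : 0 < q) :
    (((B / (q : ℤ) : ℤ)) : ℝ) ≤ (B : ℝ) / q ∧ (B : ℝ) / q - 1 ≤ (((B / (q : ℤ) : ℤ)) : ℝ) := by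
  have hqZ : (0 : ℤ) < q := by exact_mod_cast hq
  have hqR : (0 : ℝ) < q := by exact_mod_cast hq
  have h1 : (q : ℤ) * (B / (q : ℤ)) ≤ B := Int.mul_ediv_self_le hqZ.ne'
  have h2 : B < (q : ℤ) * (B / (q : ℤ)) + q := Int.lt_mul_ediv_self_add hqZ
  have h5 : (q : ℝ) * (((B / (q : ℤ) : ℤ)) : ℝ) ≤ (B : ℝ) := by exact_mod_cast h1
  have h6 : (B : ℝ) < (q : ℝ) * (((B / (q : ℤ) : ℤ)) : ℝ) + q := by exact_mod_cast h2
  constructor
  · rw [le_div_iff₀ hqR]; linarith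
  · have h7 : (B : ℝ) / q - 1 = ((B : ℝ) - q) / q := by field_simp
    rw [h7, div_le_iff₀ hqR]; linarith

theorem CM_le (g : ℤ → ℂ) (hg : CM g) (n : ℤ) : ‖g n‖ ≤ 1 := by
  by_cases h : n = 0
  · rw [h, hg.zero, norm_zero]; exact zero_le_one
  · exact (hg.nrm n h).le

theorem inv_diff (ε : ℝ) (hε : 0 < ε) (q q0 : ℝ) (hq : 0 < q) (hq0 : 0 < q0) (h1 : q < (1 + ε) * q0)
    (h2 : q0 < (1 + ε) * q) : |1 / q - 1 / q0| ≤ ε / q0 := by
  rw [abs_le]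
  constructor
  · have h3 : (1 - ε) / q0 ≤ 1 / q := by
      rw [div_le_div_iff₀ hq0 hq]
      rcases le_total ε 1 with h4 | h4
      · nlinarith [mul_le_mul_of_nonneg_left h1.le (by linarith : 0 ≤ 1 - ε), mul_pos hε hq0,
          mul_pos hε hε, mul_pos (mul_pos hε hε) hq0]
      · nlinarith
    have h5 : (1 - ε) / q0 = 1 / q0 - ε / q0 := by ring
    linarith
  · have h3 : 1 / q ≤ (1 + ε) / q0 := by
      rw [div_le_div_iff₀ hq hq0]
      linarith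
    have h5 : (1 + ε) / q0 = 1 / q0 + ε / q0 := by ring
    linarith

end IBlk

open IBlk

/-- item Blk -/
theorem pr_Blk (h1 : StFew) (h2 : StFrq) (h3 : StND) : StBlk := by
  intro c2 hc2
  obtain ⟨κ, hκd⟩ : ∃ κ : ℝ, κ = Real.sqrt (c2 / 2) / 12 := ⟨_, rfl⟩
  have hsq : 0 < Real.sqrt (c2 / 2) := Real.sqrt_pos.2 (by linarith)
  have hκ : 0 < κ := by rw [hκd]; positivity
  have hκs : Real.sqrt (c2 / 2) = 12 * κ := by rw [hκd]; ring
  obtain ⟨ε, hεd⟩ : ∃ ε : ℝ, ε = κ / 4 := ⟨_, rfl⟩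
  have hε : 0 < ε := by rw [hεd]; positivity
  obtain ⟨K, hKd⟩ : ∃ K : ℝ, K = 4 / (3 * κ ^ 2) := ⟨_, rfl⟩
  have hK : 0 < K := by rw [hKd]; positivity
  obtain ⟨P0, hP0⟩ := exists_nat_gt (18 * (K * ((1 + ε) / ε)) / c2)
  have hP0R : (0 : ℝ) < P0 := lt_trans (by positivity) hP0
  have hP0N : 0 < P0 := by exact_mod_cast hP0R
  have hP1 : K * ((1 + ε) / ε) / P0 < c2 / 18 := by
    rw [div_lt_iff₀ hc2] at hP0
    rw [div_lt_iff₀ hP0R]
    linarith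
  refine ⟨P0, fun Ps _ hPs hW => ?_⟩
  obtain ⟨m, hm⟩ : ∃ m : ℕ, ∀ q ∈ Ps, q ≤ m :=
    ⟨∑ q ∈ Ps, q, fun q hq =>
      Finset.single_le_sum (f := fun q : ℕ => q) (fun _ _ => Nat.zero_le _) hq⟩
  obtain ⟨N0, hN0⟩ := exists_nat_gt ((m : ℝ) / ε + m + 1)
  refine ⟨2 * m / (3 * κ ^ 2), N0, fun N hN g hg A B h hA hB M _ l hyp => ?_⟩
  have hNR : (m : ℝ) / ε + m + 1 < N := hN0.trans_le (by exact_mod_cast hN)
  have hmε : (0 : ℝ) ≤ (m : ℝ) / ε := by positivity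
  have hmR : (0 : ℝ) ≤ m := Nat.cast_nonneg m
  have hNpos : (0 : ℝ) < N := by linarith
  have hmN : (m : ℝ) ≤ N := by linarith
  have hmN' : (m : ℝ) ≤ ε * N := by
    have h4 : (m : ℝ) / ε ≤ N := by linarith
    rw [div_le_iff₀ hε] at h4
    linarith
  have hg1 : ∀ n, ‖g n‖ ≤ 1 := CM_le g hg
  have hAR : -(N : ℝ) ≤ A := by exact_mod_cast hA
  have hBR : (B : ℝ) ≤ N := by exact_mod_cast hB
  have hqpos : ∀ q ∈ Ps, 0 < q := fun q hq => hP0N.trans_le (hPs q hq)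
  -- the frequencies
  obtain ⟨a, had⟩ : ∃ a : ℕ → ℝ, a = fun q => ((q ^ 2 : ℕ) : ℝ) * fr l := ⟨_, rfl⟩
  have hSZ : ∀ q : ℕ, SZ g (cl A q) (B / q) h (q ^ 2 • l) =
      ‖cor g (cl A q) (B / q) h (a q)‖ ^ 2 := by
    intro q
    rw [h2.2.2.2.2 M g (cl A q) (B / q) h l (q ^ 2), had]
    rfl
  have hlen : ∀ q ∈ Ps, (((B / (q : ℤ) : ℤ)) : ℝ) - (cl A q : ℝ) + 1 ≤ 3 * N / q := by
    intro q hq
    have hq0 := hqpos q hq
    have hqR : (0 : ℝ) < q := by exact_mod_cast hq0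
    have h4 := (cl_bd A q hq0).1
    have h5 := (fl_bd B q hq0).1
    have h6 : (q : ℝ) ≤ N := le_trans (by exact_mod_cast hm q hq) hmN
    have h7 : -(N : ℝ) / q ≤ (A : ℝ) / q := div_le_div_of_nonneg_right hAR hqR.le
    have h8 : (B : ℝ) / q ≤ (N : ℝ) / q := div_le_div_of_nonneg_right hBR hqR.le
    have h9 : (1 : ℝ) ≤ (N : ℝ) / q := by rw [one_le_div hqR]; exact h6
    have h10 : (3 * N / q : ℝ) = (N : ℝ) / q + (N : ℝ) / q + (N : ℝ) / q := by ring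
    have h11 : -(N : ℝ) / q = -((N : ℝ) / q) := by ring
    rw [h11] at h7
    rw [h10]
    linarith
  have hS : ∀ q ∈ Ps, (q : ℝ) ^ 2 * SZ g (cl A q) (B / q) h (q ^ 2 • l) ≤ 9 * (N : ℝ) ^ 2 := by
    intro q hq
    have hqR : (0 : ℝ) < q := by exact_mod_cast hqpos q hq
    rw [hSZ]
    have h4 : ‖cor g (cl A q) (B / q) h (a q)‖ ≤ 3 * N / q :=
      cor_le g hg1 _ _ h _ _ (by positivity) (hlen q hq)
    have h5 : ‖cor g (cl A q) (B / q) h (a q)‖ ^ 2 ≤ (3 * N / q) ^ 2 :=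
      pow_le_pow_left₀ (norm_nonneg _) h4 2
    calc (q : ℝ) ^ 2 * ‖cor g (cl A q) (B / q) h (a q)‖ ^ 2 ≤ (q : ℝ) ^ 2 * (3 * N / q) ^ 2 :=
          mul_le_mul_of_nonneg_left h5 (by positivity)
      _ = 9 * (N : ℝ) ^ 2 := by field_simp; ring
  obtain ⟨S, hSd⟩ : ∃ S : ℕ → ℝ, S = fun q : ℕ => (q : ℝ) ^ 2 * SZ g (cl A q) (B / q) h (q ^ 2 • l) :=
    ⟨_, rfl⟩
  have hS' : ∀ q ∈ Ps, S q ≤ 9 * (N : ℝ) ^ 2 := by
    intro q hq
    rw [hSd]
    exact hS q hq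
  have hyp' : c2 * (∑ q ∈ Ps, 1 / (q : ℝ)) * (N : ℝ) ^ 2 ≤ ∑ q ∈ Ps, (1 / (q : ℝ)) * S q := by
    rw [hSd]
    exact hyp
  obtain ⟨G, hGd⟩ : ∃ G : Finset ℕ, G = Ps.filter (fun q => c2 / 2 * (N : ℝ) ^ 2 ≤ S q) := ⟨_, rfl⟩
  have hN2 : (0 : ℝ) < (N : ℝ) ^ 2 := by positivity
  have hsumG : c2 / 18 ≤ ∑ q ∈ G, 1 / (q : ℝ) := by
    have h4 : ∑ q ∈ Ps, (1 / (q : ℝ)) * S q =
        ∑ q ∈ G, (1 / (q : ℝ)) * S q +
          ∑ q ∈ Ps.filter (fun q => ¬ c2 / 2 * (N : ℝ) ^ 2 ≤ S q), (1 / (q : ℝ)) * S q := by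
      rw [hGd]
      exact (Finset.sum_filter_add_sum_filter_not _ _ _).symm
    have h5 : ∑ q ∈ G, (1 / (q : ℝ)) * S q ≤ (∑ q ∈ G, 1 / (q : ℝ)) * (9 * (N : ℝ) ^ 2) := by
      rw [Finset.sum_mul]
      refine Finset.sum_le_sum fun q hq => ?_
      rw [hGd] at hq
      exact mul_le_mul_of_nonneg_left (hS' q (Finset.mem_filter.1 hq).1) (by positivity)
    have h6 : ∑ q ∈ Ps.filter (fun q => ¬ c2 / 2 * (N : ℝ) ^ 2 ≤ S q), (1 / (q : ℝ)) * S q ≤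
        (∑ q ∈ Ps, 1 / (q : ℝ)) * (c2 / 2 * (N : ℝ) ^ 2) := by
      calc ∑ q ∈ Ps.filter (fun q => ¬ c2 / 2 * (N : ℝ) ^ 2 ≤ S q), (1 / (q : ℝ)) * S q
          ≤ ∑ q ∈ Ps.filter (fun q => ¬ c2 / 2 * (N : ℝ) ^ 2 ≤ S q),
              (1 / (q : ℝ)) * (c2 / 2 * (N : ℝ) ^ 2) := by
            refine Finset.sum_le_sum fun q hq => ?_
            exact mul_le_mul_of_nonneg_left (not_le.1 (Finset.mem_filter.1 hq).2).le (by positivity)
        _ ≤ ∑ q ∈ Ps, (1 / (q : ℝ)) * (c2 / 2 * (N : ℝ) ^ 2) := by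
            refine Finset.sum_le_sum_of_subset_of_nonneg (Finset.filter_subset _ _) fun q _ _ => ?_
            positivity
        _ = _ := by rw [Finset.sum_mul]
    have h7 : c2 / 2 * (N : ℝ) ^ 2 ≤ (∑ q ∈ G, 1 / (q : ℝ)) * (9 * (N : ℝ) ^ 2) := by
      have h8 : c2 / 2 * (N : ℝ) ^ 2 * 1 ≤ c2 / 2 * (N : ℝ) ^ 2 * ∑ q ∈ Ps, 1 / (q : ℝ) :=
        mul_le_mul_of_nonneg_left hW (by positivity)
      nlinarith
    have h9 : c2 / 2 ≤ (∑ q ∈ G, 1 / (q : ℝ)) * 9 := by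
      by_contra hcon
      push Not at hcon
      have h10 := mul_lt_mul_of_pos_right hcon hN2
      nlinarith
    linarith
  have hGsub : G ⊆ Ps := by rw [hGd]; exact Finset.filter_subset _ _
  obtain ⟨s, hsG, hcard, hblk⟩ := pigeon G P0 hP0N (fun q hq => hPs q (hGsub hq)) ε K (c2 / 18) hε
    hK.le hsumG hP1
  have hsne : s.Nonempty := by
    rw [← Finset.card_pos]
    have : (0 : ℝ) < s.card := hK.trans hcard
    exact_mod_cast this
  obtain ⟨q0, hq0s⟩ := hsne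
  have hq0P : q0 ∈ Ps := hGsub (hsG hq0s)
  have hq0 : 0 < q0 := hqpos q0 hq0P
  have hq0R : (0 : ℝ) < q0 := by exact_mod_cast hq0
  -- lower bound for the elements of G
  have hlow : ∀ q ∈ G, 12 * κ * (N / q) ≤ ‖cor g (cl A q) (B / q) h (a q)‖ := by
    intro q hq
    have hqR : (0 : ℝ) < q := by exact_mod_cast hqpos q (hGsub hq)
    rw [hGd] at hq
    have h4 := (Finset.mem_filter.1 hq).2
    rw [hSd] at h4
    simp only [hSZ] at h4
    have h5 : (12 * κ * (N / q)) ^ 2 ≤ ‖cor g (cl A q) (B / q) h (a q)‖ ^ 2 := by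
      have h6 : (12 * κ) ^ 2 = c2 / 2 := by rw [← hκs, Real.sq_sqrt (by linarith)]
      have h7 : (12 * κ * (N / q)) ^ 2 = c2 / 2 * (N : ℝ) ^ 2 / (q : ℝ) ^ 2 := by
        rw [mul_pow, h6]; ring
      rw [h7, div_le_iff₀ (by positivity)]
      linarith
    exact (pow_le_pow_iff_left₀ (by positivity) (norm_nonneg _) (by norm_num)).1 h5
  have hAB : A ≤ B := by
    have h4 := hlow q0 (hsG hq0s)
    have h5 : (0 : ℝ) < 12 * κ * (N / q0) := by positivity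
    have h6 : cor g (cl A q0) (B / q0) h (a q0) ≠ 0 := by
      intro h7
      rw [h7, norm_zero] at h4
      linarith
    have h7 := pos_of_cor _ _ _ _ _ h6
    have h8 := (cl_bd A q0 hq0).1
    have h9 := (fl_bd B q0 hq0).1
    have h10 : ((cl A q0 : ℤ) : ℝ) ≤ ((B / (q0 : ℤ) : ℤ) : ℝ) := by exact_mod_cast h7
    have h11 : (A : ℝ) / q0 ≤ (B : ℝ) / q0 := by linarith
    rw [div_le_div_iff_of_pos_right hq0R] at h11
    exact_mod_cast h11
  have hABR : (A : ℝ) ≤ B := by exact_mod_cast hAB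
  have hAabs : |(A : ℝ)| ≤ N := by rw [abs_le]; constructor <;> linarith
  have hBabs : |(B : ℝ)| ≤ N := by rw [abs_le]; constructor <;> linarith
  have hε1 : ε ≤ 1 := by
    have h4 := hlow q0 (hsG hq0s)
    have h5 : ‖cor g (cl A q0) (B / q0) h (a q0)‖ ≤ 3 * N / q0 :=
      cor_le g hg1 _ _ h _ _ (by positivity) (hlen q0 hq0P)
    have h6 : 12 * κ * (N / q0) ≤ 3 * (N / q0) := by
      calc 12 * κ * (N / q0) ≤ 3 * N / q0 := h4.trans h5
        _ = 3 * (N / q0) := by ring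
    have h7 : (0 : ℝ) < N / q0 := by positivity
    have h8 : 12 * κ ≤ 3 := le_of_mul_le_mul_right h6 h7
    rw [hεd]
    linarith
  have hq0N : (q0 : ℝ) ≤ ε * N := le_trans (by exact_mod_cast hm q0 hq0P) hmN'
  have hone : (1 : ℝ) ≤ ε * (N / q0) := by
    have : ε * (N / q0) = (ε * N) / q0 := by ring
    rw [this, one_le_div hq0R]
    exact hq0N
  have hkey : ∀ q ∈ s, κ * (3 * (N / q0)) ≤ ‖cor g (cl A q0) (B / q0) h (a q)‖ := by
    intro q hq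
    have hqP : q ∈ Ps := hGsub (hsG hq)
    have hq' : 0 < q := hqpos q hqP
    have hqR : (0 : ℝ) < q := by exact_mod_cast hq'
    have hb1 := hblk q hq q0 hq0s
    have hb2 := hblk q0 hq0s q hq
    have hinv := inv_diff ε hε q q0 hqR hq0R hb1 hb2
    have hdA : |(cl A q : ℝ) - (cl A q0 : ℝ)| ≤ ε * (N / q0) + 1 := by
      have h4 := cl_bd A q hq'
      have h5 := cl_bd A q0 hq0
      have h6 : |(A : ℝ) / q - (A : ℝ) / q0| ≤ ε * (N / q0) := by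
        have h7 : (A : ℝ) / q - (A : ℝ) / q0 = A * (1 / q - 1 / q0) := by ring
        rw [h7, abs_mul]
        calc |(A : ℝ)| * |1 / (q : ℝ) - 1 / q0| ≤ N * (ε / q0) :=
              mul_le_mul hAabs hinv (abs_nonneg _) hNpos.le
          _ = ε * (N / q0) := by ring
      rw [abs_le] at h6 ⊢
      constructor <;> linarith [h4.1, h4.2, h5.1, h5.2, h6.1, h6.2]
    have hdB : |(((B / (q : ℤ) : ℤ)) : ℝ) - (((B / (q0 : ℤ) : ℤ)) : ℝ)| ≤ ε * (N / q0) + 1 := by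
      have h4 := fl_bd B q hq'
      have h5 := fl_bd B q0 hq0
      have h6 : |(B : ℝ) / q - (B : ℝ) / q0| ≤ ε * (N / q0) := by
        have h7 : (B : ℝ) / q - (B : ℝ) / q0 = B * (1 / q - 1 / q0) := by ring
        rw [h7, abs_mul]
        calc |(B : ℝ)| * |1 / (q : ℝ) - 1 / q0| ≤ N * (ε / q0) :=
              mul_le_mul hBabs hinv (abs_nonneg _) hNpos.le
          _ = ε * (N / q0) := by ring
      rw [abs_le] at h6 ⊢
      constructor <;> linarith [h4.1, h4.2, h5.1, h5.2, h6.1, h6.2]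
    have hdiff := cor_diff g hg1 (cl A q) (B / q) (cl A q0) (B / q0) h (a q)
    have hl := hlow q (hsG hq)
    have hNq : (N : ℝ) / q0 / 2 ≤ N / q := by
      rw [div_div, div_le_div_iff₀ (by positivity) hqR]
      have h8 : (q : ℝ) ≤ q0 * 2 := by nlinarith
      exact mul_le_mul_of_nonneg_left h8 hNpos.le
    have htri : ‖cor g (cl A q) (B / q) h (a q)‖ ≤
        ‖cor g (cl A q0) (B / q0) h (a q)‖ +
          ‖cor g (cl A q) (B / q) h (a q) - cor g (cl A q0) (B / q0) h (a q)‖ := by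
      have := norm_add_le (cor g (cl A q0) (B / q0) h (a q))
        (cor g (cl A q) (B / q) h (a q) - cor g (cl A q0) (B / q0) h (a q))
      rwa [add_sub_cancel] at this
    have h9 : 12 * κ * ((N : ℝ) / q0 / 2) ≤ 12 * κ * (N / q) :=
      mul_le_mul_of_nonneg_left hNq (by positivity)
    have h10 : ε * ((N : ℝ) / q0) = κ * (N / q0) / 4 := by rw [hεd]; ring
    have h11 : 0 < κ * ((N : ℝ) / q0) := by positivity
    have h12 : 12 * κ * ((N : ℝ) / q0 / 2) = 6 * (κ * (N / q0)) := by ring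
    have h13 : κ * (3 * ((N : ℝ) / q0)) = 3 * (κ * (N / q0)) := by ring
    rw [h13]
    rw [h12] at h9
    rw [h10] at hdA hdB hone
    linarith
  obtain ⟨i, hi, j, hj, hij, hnd⟩ := h1 g (cl A q0) (B / q0) h κ (3 * (N / q0)) ℕ s a hg1 hκ
    (by
      have h4 : (q0 : ℝ) ≤ N := le_trans (by exact_mod_cast hm q0 hq0P) hmN
      have h5 : (1 : ℝ) ≤ (N : ℝ) / q0 := by rw [one_le_div hq0R]; exact h4
      linarith)
    (by
      have h4 := hlen q0 hq0P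
      have h5 : (3 * N / q0 : ℝ) = 3 * (N / q0) := by ring
      rw [h5] at h4
      exact h4)
    hkey (by rw [← hKd]; exact hcard)
  have hbound : 2 / (κ ^ 2 * (3 * ((N : ℝ) / q0))) ≤ 2 * m / (3 * κ ^ 2) / N := by
    have h4 : 2 / (κ ^ 2 * (3 * ((N : ℝ) / q0))) = 2 * q0 / (3 * κ ^ 2) / N := by
      field_simp
    rw [h4]
    have h5 : (q0 : ℝ) ≤ m := by exact_mod_cast hm q0 hq0P
    gcongr
  have hfin : ∀ q1 ∈ s, ∀ q2 ∈ s, q1 < q2 → nd (a q2 - a q1) ≤ 2 / (κ ^ 2 * (3 * ((N : ℝ) / q0))) →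
      ∃ q1 ∈ Ps, ∃ q2 ∈ Ps, q1 < q2 ∧
        nd (((q2 : ℝ) ^ 2 - (q1 : ℝ) ^ 2) * fr l) ≤ 2 * m / (3 * κ ^ 2) / N ∧
        c2 / 2 * (N : ℝ) ^ 2 ≤ (q1 : ℝ) ^ 2 * SZ g (cl A q1) (B / q1) h (q1 ^ 2 • l) := by
    intro q1 hq1 q2 hq2 hlt hn
    refine ⟨q1, hGsub (hsG hq1), q2, hGsub (hsG hq2), hlt, ?_, ?_⟩
    · have h4 : ((q2 : ℝ) ^ 2 - (q1 : ℝ) ^ 2) * fr l = a q2 - a q1 := by
        rw [had]
        push_cast
        ring
      rw [h4]
      exact hn.trans hbound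
    · have h5 := hsG hq1
      rw [hGd] at h5
      have h6 := (Finset.mem_filter.1 h5).2
      rw [hSd] at h6
      exact h6
  have hsym : nd (a j - a i) = nd (a i - a j) := by
    rw [← neg_sub (a i) (a j), h3.2.1]
  rcases lt_or_gt_of_ne hij with hlt | hlt
  · exact hfin i hi j hj hlt (by rw [hsym]; exact hnd)
  · exact hfin j hj i hi hlt hnd

end Pool.Agent.U3
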