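import Mathlib
import Pool.Agent.Work.MP_0f91f8_co.U3.Stmts

/-!
# Block U3, item Bog: Bogolyubov with a popular cell
-/

set_option autoImplicit false

namespace Pool.Agent.U3

open scoped ComplexConjugate

namespace IBog

/-- full sums of characters modulo `L` -/
lemma geo (h1 : StEE) (L : ℕ) (m : ℤ) (hm : |m| < L) :
    ∑ k ∈ Finset.range L, ee ((k : ℝ) * m / L) = if m = 0 then (L : ℂ) else 0 := by
  obtain ⟨hadd, -, -, hint, h0, -, -⟩ := h1
  have hL : 0 < L := by
    have : (0 : ℤ) ≤ |m| := abs_nonneg m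
    omega
  have hLr : (L : ℝ) ≠ 0 := by positivity
  split_ifs with h
  · subst h
    simp [h0]
  · have hp : ∀ k : ℕ, ee ((k : ℝ) * m / L) = (ee ((m : ℝ) / L)) ^ k := by
      intro k
      induction k with
      | zero => simp [h0]
      | succ k ih =>
        rw [pow_succ, ← ih, ← hadd]
        congr 1
        push_cast
        ring
    have h1' : ee ((m : ℝ) / L) ≠ 1 := by
      intro he
      unfold ee at he
      rw [Complex.exp_eq_one_iff] at he
      obtain ⟨n, hn⟩ := he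
      have hpi : (2 * (Real.pi : ℂ) * Complex.I) ≠ 0 := Complex.two_pi_I_ne_zero
      have h2 : (((m : ℝ) / L : ℝ) : ℂ) = n := by
        have h3 : 2 * (Real.pi : ℂ) * Complex.I * (((m : ℝ) / L : ℝ) : ℂ) =
            2 * (Real.pi : ℂ) * Complex.I * n := by
          rw [hn]; ring
        exact mul_left_cancel₀ hpi h3
      have h4 : (m : ℝ) / L = n := by exact_mod_cast h2
      rw [div_eq_iff hLr] at h4
      have h5 : m = n * L := by exact_mod_cast h4
      have h6 : (L : ℤ) ∣ m := ⟨n, by rw [h5]; ring⟩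
      exact h (Int.eq_zero_of_abs_lt_dvd h6 hm)
    rw [Finset.sum_congr rfl fun k _ => hp k]
    have h7 := geom_sum_mul (ee ((m : ℝ) / L)) L
    have h8 : ee ((m : ℝ) / L) ^ L = 1 := by
      rw [← hp L]
      have : (L : ℝ) * m / L = ((m : ℤ) : ℝ) := by field_simp
      rw [this, hint]
    rw [h8, sub_self] at h7
    rcases mul_eq_zero.mp h7 with h9 | h9
    · exact h9
    · exact absurd (sub_eq_zero.mp h9) h1'

/-- counting differences by characters modulo `L` -/
lemma key (h1 : StEE) {T : Type*} (S : Finset T) (φ : T → ℤ) (L : ℕ) (b : ℤ)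
    (hL : ∀ t ∈ S, ∀ t' ∈ S, |φ t - φ t' - b| < L) :
    ∑ k ∈ Finset.range L, (∑ t ∈ S, ee ((k : ℝ) * φ t / L)) *
      conj (∑ t ∈ S, ee ((k : ℝ) * φ t / L)) * ee (-((k : ℝ) * b / L)) =
      (L : ℂ) * (((S ×ˢ S).filter (fun p => φ p.1 - φ p.2 = b)).card : ℂ) := by
  have hc := h1.2.2.1
  have hadd := h1.1
  have h2 : ∀ k ∈ Finset.range L, (∑ t ∈ S, ee ((k : ℝ) * φ t / L)) *
      conj (∑ t ∈ S, ee ((k : ℝ) * φ t / L)) * ee (-((k : ℝ) * b / L)) =
      ∑ p ∈ S ×ˢ S, ee ((k : ℝ) * ((φ p.1 - φ p.2 - b : ℤ) : ℝ) / L) := by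
    intro k _
    rw [map_sum, Finset.sum_mul_sum, ← Finset.sum_product', Finset.sum_mul]
    apply Finset.sum_congr rfl
    intro p _
    rw [hc, ← hadd, ← hadd]
    congr 1
    push_cast
    ring
  rw [Finset.sum_congr rfl h2, Finset.sum_comm]
  have h3 : ∀ p ∈ S ×ˢ S,
      ∑ k ∈ Finset.range L, ee ((k : ℝ) * ((φ p.1 - φ p.2 - b : ℤ) : ℝ) / L) =
      if φ p.1 - φ p.2 = b then (L : ℂ) else 0 := by
    intro p hp
    rw [Finset.mem_product] at hp
    rw [geo h1 L _ (hL _ hp.1 _ hp.2)]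
    by_cases h : φ p.1 - φ p.2 = b
    · rw [if_pos h, if_pos (by omega)]
    · rw [if_neg h, if_neg (by omega)]
  rw [Finset.sum_congr rfl h3, ← Finset.sum_filter, Finset.sum_const, nsmul_eq_mul, mul_comm]

lemma re_nonneg (h1 : StEE) (h2 : StND) (x : ℝ) (hx : nd x ≤ 1 / 4) : 0 ≤ (ee x).re := by
  obtain ⟨k, hk⟩ := h2.2.2.2.2.2.2.1 x
  have h3 : ee x = ee (x - k) := by
    have := h1.2.2.2.2.2.1 (x - k) k
    rw [sub_add_cancel] at this
    exact this
  rw [h3]
  have h4 : ee (x - k) = Complex.exp (((2 * Real.pi * (x - k) : ℝ) : ℂ) * Complex.I) := by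
    unfold ee
    congr 1
    push_cast
    ring
  rw [h4, Complex.exp_ofReal_mul_I_re]
  apply Real.cos_nonneg_of_mem_Icc
  have h5 : |x - k| ≤ 1 / 4 := hk ▸ hx
  have h6 := abs_le.mp h5
  have hpi := Real.pi_pos
  constructor <;> nlinarith

lemma fourth (z : ℂ) : z ^ 2 * conj (z ^ 2) = ((‖z‖ ^ 4 : ℝ) : ℂ) := by
  rw [Complex.mul_conj, Complex.normSq_eq_norm_sq, norm_pow]
  congr 1
  ring

lemma second (z : ℂ) : z * conj z = ((‖z‖ ^ 2 : ℝ) : ℂ) := by
  rw [Complex.mul_conj, Complex.normSq_eq_norm_sq]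

/-- the counting step -/
lemma count (h1 : StEE) (h2 : StND) (γ : ℝ) (hγ : 0 < γ) (X : ℕ) (hX : 1 ≤ X) (R : Finset ℤ)
    (hR : ∀ r ∈ R, |r| ≤ X) (hc : γ * X ≤ R.card) :
    ∃ Sp : Finset ℕ, (Sp.card : ℝ) ≤ 242 / γ ^ 2 ∧ ∀ b : ℤ, |b| ≤ X →
      (∀ k ∈ Sp, nd ((k : ℝ) * b / ((10 * X + 1 : ℕ) : ℝ)) ≤ 1 / 4) →
      ∃ r1 ∈ R, ∃ r2 ∈ R, ∃ r3 ∈ R, ∃ r4 ∈ R, r1 + r2 - r3 - r4 = b := by
  set L : ℕ := 10 * X + 1 with hLdef
  have hX' : (1 : ℝ) ≤ X := by exact_mod_cast hX
  have hcard : (0 : ℝ) < R.card := lt_of_lt_of_le (by positivity) hc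
  have hLr : (L : ℝ) ≤ 11 * X := by
    rw [hLdef]; push_cast; linarith
  have hLR : (L : ℝ) ≤ 11 * R.card / γ := by
    rw [le_div_iff₀ hγ]
    nlinarith
  set F : ℕ → ℂ := fun k => ∑ r ∈ R, ee ((k : ℝ) * r / L) with hF
  -- Parseval
  have hpar : ∑ k ∈ Finset.range L, ‖F k‖ ^ 2 = L * R.card := by
    have h3 := key h1 R (fun r => r) L 0 (by
      intro t ht t' ht'
      have := abs_le.mp (hR t ht)
      have := abs_le.mp (hR t' ht')
      rw [abs_lt]
      constructor <;> omega)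
    have h4 : ∀ k ∈ Finset.range L, (∑ t ∈ R, ee ((k : ℝ) * ((t : ℤ) : ℝ) / L)) *
        conj (∑ t ∈ R, ee ((k : ℝ) * ((t : ℤ) : ℝ) / L)) * ee (-((k : ℝ) * ((0 : ℤ) : ℝ) / L)) =
        ((‖F k‖ ^ 2 : ℝ) : ℂ) := by
      intro k _
      have : -((k : ℝ) * ((0 : ℤ) : ℝ) / L) = 0 := by simp
      rw [this, h1.2.2.2.2.1, mul_one, second]
    rw [Finset.sum_congr rfl h4] at h3
    have h5 : ((R ×ˢ R).filter (fun p : ℤ × ℤ => p.1 - p.2 = 0)).card = R.card := by
      have : (R ×ˢ R).filter (fun p : ℤ × ℤ => p.1 - p.2 = 0) = R.diag := by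
        ext ⟨a, b⟩
        simp only [Finset.mem_filter, Finset.mem_product, Finset.mem_diag]
        constructor
        · rintro ⟨⟨ha, hb⟩, h⟩
          exact ⟨ha, by omega⟩
        · rintro ⟨ha, h⟩
          exact ⟨⟨ha, h ▸ ha⟩, by omega⟩
      rw [this, Finset.diag_card]
    rw [h5] at h3
    exact_mod_cast h3
  have hF0 : ‖F 0‖ = R.card := by
    have : F 0 = (R.card : ℂ) := by
      rw [hF]
      simp [h1.2.2.2.2.1]
    rw [this, Complex.norm_natCast]
  refine ⟨(Finset.range L).filter (fun k => γ / 22 * (R.card : ℝ) ^ 2 ≤ ‖F k‖ ^ 2), ?_, ?_⟩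
  · have h3 : (((Finset.range L).filter
        (fun k => γ / 22 * (R.card : ℝ) ^ 2 ≤ ‖F k‖ ^ 2)).card : ℝ) *
          (γ / 22 * (R.card : ℝ) ^ 2) ≤ L * R.card := by
      rw [← hpar, ← nsmul_eq_mul, ← Finset.sum_const]
      refine (Finset.sum_le_sum fun k hk => (Finset.mem_filter.mp hk).2).trans ?_
      exact Finset.sum_le_sum_of_subset_of_nonneg (Finset.filter_subset _ _)
        (fun _ _ _ => by positivity)
    rw [le_div_iff₀ (by positivity)]
    have h4 : (((Finset.range L).filter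
        (fun k => γ / 22 * (R.card : ℝ) ^ 2 ≤ ‖F k‖ ^ 2)).card : ℝ) *
          (γ / 22 * (R.card : ℝ) ^ 2) ≤ 11 * R.card / γ * R.card :=
      h3.trans (mul_le_mul_of_nonneg_right hLR hcard.le)
    have h5 : 11 * (R.card : ℝ) / γ * R.card = (242 / γ ^ 2) * (γ / 22 * (R.card : ℝ) ^ 2) := by
      field_simp
      ring
    rw [h5] at h4
    have h6 := le_of_mul_le_mul_right h4 (by positivity)
    rwa [le_div_iff₀ (by positivity)] at h6
  · intro b hb hnd
    by_contra hcon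
    have h3 := key h1 (R ×ˢ R) (fun p => p.1 + p.2) L b (by
      intro t ht t' ht'
      rw [Finset.mem_product] at ht ht'
      have := abs_le.mp (hR _ ht.1)
      have := abs_le.mp (hR _ ht.2)
      have := abs_le.mp (hR _ ht'.1)
      have := abs_le.mp (hR _ ht'.2)
      have := abs_le.mp hb
      rw [abs_lt]
      constructor <;> omega)
    have h4 : (((R ×ˢ R) ×ˢ (R ×ˢ R)).filter
        (fun p : (ℤ × ℤ) × (ℤ × ℤ) => p.1.1 + p.1.2 - (p.2.1 + p.2.2) = b)) = ∅ := by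
      rw [Finset.filter_eq_empty_iff]
      rintro ⟨⟨r1, r2⟩, ⟨r3, r4⟩⟩ hp h
      simp only [Finset.mem_product] at hp
      exact hcon ⟨r1, hp.1.1, r2, hp.1.2, r3, hp.2.1, r4, hp.2.2, by
        simp only at h
        omega⟩
    rw [h4, Finset.card_empty, Nat.cast_zero, mul_zero] at h3
    have h5 : ∀ k ∈ Finset.range L,
        (∑ t ∈ R ×ˢ R, ee ((k : ℝ) * (((t.1 + t.2 : ℤ)) : ℝ) / L)) *
        conj (∑ t ∈ R ×ˢ R, ee ((k : ℝ) * (((t.1 + t.2 : ℤ)) : ℝ) / L)) *
          ee (-((k : ℝ) * b / L)) =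
        ((‖F k‖ ^ 4 : ℝ) : ℂ) * ee (-((k : ℝ) * b / L)) := by
      intro k _
      have h6 : ∑ t ∈ R ×ˢ R, ee ((k : ℝ) * (((t.1 + t.2 : ℤ)) : ℝ) / L) = F k ^ 2 := by
        rw [hF, sq, Finset.sum_mul_sum, ← Finset.sum_product']
        apply Finset.sum_congr rfl
        intro p _
        rw [← h1.1]
        congr 1
        push_cast
        ring
      rw [h6, fourth]
    rw [Finset.sum_congr rfl h5] at h3
    have h6 := congrArg Complex.re h3
    rw [Complex.re_sum, Complex.zero_re] at h6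
    have h7 : ∀ k ∈ Finset.range L, (((‖F k‖ ^ 4 : ℝ) : ℂ) * ee (-((k : ℝ) * b / L))).re =
        ‖F k‖ ^ 4 * (ee (-((k : ℝ) * b / L))).re := fun k _ => Complex.re_ofReal_mul _ _
    rw [Finset.sum_congr rfl h7] at h6
    have hL0 : 0 < L := by omega
    have h0mem : 0 ∈ Finset.range L := Finset.mem_range.mpr hL0
    rw [← Finset.add_sum_erase _ _ h0mem] at h6
    have h8 : ‖F 0‖ ^ 4 * (ee (-(((0 : ℕ) : ℝ) * b / L))).re = (R.card : ℝ) ^ 4 := by
      rw [hF0]
      have : -(((0 : ℕ) : ℝ) * b / L) = 0 := by simp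
      rw [this, h1.2.2.2.2.1, Complex.one_re, mul_one]
    rw [h8] at h6
    -- lower bound for the other terms
    have h9 : ∀ k ∈ (Finset.range L).erase 0,
        -(γ / 22 * (R.card : ℝ) ^ 2 * ‖F k‖ ^ 2) ≤ ‖F k‖ ^ 4 * (ee (-((k : ℝ) * b / L))).re := by
      intro k hk
      by_cases hs : γ / 22 * (R.card : ℝ) ^ 2 ≤ ‖F k‖ ^ 2
      · have h10 : 0 ≤ (ee (-((k : ℝ) * b / L))).re := by
          apply re_nonneg h1 h2
          rw [h2.2.1]
          exact hnd k (Finset.mem_filter.mpr ⟨Finset.mem_of_mem_erase hk, hs⟩)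
        have h11 : 0 ≤ ‖F k‖ ^ 4 * (ee (-((k : ℝ) * b / L))).re := by positivity
        have h12 : 0 ≤ γ / 22 * (R.card : ℝ) ^ 2 * ‖F k‖ ^ 2 := by positivity
        linarith
      · push Not at hs
        have h10 : -1 ≤ (ee (-((k : ℝ) * b / L))).re := by
          have h11 := Complex.abs_re_le_norm (ee (-((k : ℝ) * b / L)))
          rw [h1.2.1] at h11
          exact (abs_le.mp h11).1
        have h12 : ‖F k‖ ^ 4 ≤ γ / 22 * (R.card : ℝ) ^ 2 * ‖F k‖ ^ 2 := by
          have : ‖F k‖ ^ 4 = ‖F k‖ ^ 2 * ‖F k‖ ^ 2 := by ring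
          rw [this]
          exact mul_le_mul_of_nonneg_right hs.le (by positivity)
        have h13 : 0 ≤ ‖F k‖ ^ 4 := by positivity
        nlinarith
    have h10 := Finset.sum_le_sum h9
    rw [Finset.sum_neg_distrib, ← Finset.mul_sum] at h10
    have h11 : ∑ k ∈ (Finset.range L).erase 0, ‖F k‖ ^ 2 ≤ L * R.card := by
      rw [← hpar]
      exact Finset.sum_le_sum_of_subset_of_nonneg (Finset.erase_subset _ _)
        (fun _ _ _ => by positivity)
    have h12 : γ / 22 * (R.card : ℝ) ^ 2 * ∑ k ∈ (Finset.range L).erase 0, ‖F k‖ ^ 2 ≤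
        γ / 22 * (R.card : ℝ) ^ 2 * (11 * R.card / γ * R.card) :=
      mul_le_mul_of_nonneg_left (h11.trans (mul_le_mul_of_nonneg_right hLR hcard.le))
        (by positivity)
    have h13 : γ / 22 * (R.card : ℝ) ^ 2 * (11 * R.card / γ * R.card) =
        (R.card : ℝ) ^ 4 / 2 := by
      field_simp
      ring
    have h14 : 0 < (R.card : ℝ) ^ 4 := by positivity
    linarith

end IBog

open IBog in
theorem pr_Bog (h1 : StEE) (h2 : StND) : StBog := by
  intro γ P hγ
  set P' : ℕ := max P 1 with hP'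
  have hP1 : 1 ≤ P' := le_max_right _ _
  have hPP : P ≤ P' := le_max_left _ _
  have hP1r : (1 : ℝ) ≤ P' := by exact_mod_cast hP1
  set C : ℕ := ⌊242 / γ ^ 2⌋₊ with hC
  refine ⟨1 / ((P' : ℝ) * (4 * P') ^ C), by positivity, ?_⟩
  intro X hX R hR hc
  obtain ⟨Sp, hSp, hcount⟩ := count h1 h2 γ hγ X hX R hR hc
  have hSpC : Sp.card ≤ C := Nat.le_floor hSp
  set L : ℕ := 10 * X + 1 with hLdef
  have hLr : (0 : ℝ) < L := by rw [hLdef]; positivity
  have h4P : 0 < 4 * P' := by omega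
  -- the cell of v
  have hcell : ∀ (v : ℕ) (k : ℕ), ⌊(4 * P' : ℝ) * Int.fract ((k : ℝ) * v / L)⌋₊ < 4 * P' := by
    intro v k
    rw [Nat.floor_lt (by positivity)]
    push_cast
    have := Int.fract_lt_one ((k : ℝ) * v / L)
    have h3 : (0 : ℝ) < 4 * P' := by positivity
    nlinarith
  set f : ℕ → (Sp → Fin (4 * P')) := fun v k =>
    ⟨⌊(4 * P' : ℝ) * Int.fract (((k : ℕ) : ℝ) * v / L)⌋₊, hcell v k⟩ with hf
  have hcardcell : Fintype.card (Sp → Fin (4 * P')) = (4 * P') ^ Sp.card := by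
    simp
  have : Nonempty (Fin (4 * P')) := ⟨⟨0, h4P⟩⟩
  have hfib := Finset.exists_le_card_fiber_of_nsmul_le_card_of_maps_to
    (s := Finset.range (X / P' + 1)) (t := (Finset.univ : Finset (Sp → Fin (4 * P'))))
    (f := f) (b := (1 / ((P' : ℝ) * (4 * P') ^ C)) * X) (fun _ _ => Finset.mem_univ _)
    Finset.univ_nonempty (by
      rw [Finset.card_univ, hcardcell, nsmul_eq_mul, Finset.card_range]
      have h3 : ((4 * P' : ℕ) : ℝ) ^ Sp.card ≤ (4 * P' : ℝ) ^ C := by
        push_cast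
        exact pow_le_pow_right₀ (by linarith) hSpC
      have h4 : (X : ℝ) ≤ P' * ((X / P' + 1 : ℕ) : ℝ) := by
        exact_mod_cast (Nat.lt_mul_div_succ X (by omega : 0 < P')).le
      have h5 : ((((4 * P') ^ Sp.card : ℕ)) : ℝ) * (1 / ((P' : ℝ) * (4 * P') ^ C) * X) ≤
          (4 * P' : ℝ) ^ C * (1 / ((P' : ℝ) * (4 * P') ^ C) * X) := by
        apply mul_le_mul_of_nonneg_right _ (by positivity)
        rw [Nat.cast_pow]
        exact h3
      have h6 : (4 * P' : ℝ) ^ C * (1 / ((P' : ℝ) * (4 * P') ^ C) * X) = X / P' := by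
        field_simp
      rw [h6] at h5
      refine h5.trans ?_
      rw [div_le_iff₀ (by positivity)]
      linarith)
  obtain ⟨y, -, hy⟩ := hfib
  refine ⟨((Finset.range (X / P' + 1)).filter (fun v => f v = y)).image (fun v : ℕ => (v : ℤ)),
    ?_, ?_, ?_⟩
  · intro v hv
    rw [Finset.mem_image] at hv
    obtain ⟨u, hu, rfl⟩ := hv
    rw [Finset.mem_filter, Finset.mem_range] at hu
    refine ⟨by positivity, ?_⟩
    have h3 : u ≤ X / P' := by omega
    have h4 : P * u ≤ P' * (X / P') := Nat.mul_le_mul hPP h3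
    have h5 : P' * (X / P') ≤ X := Nat.mul_div_le X P'
    exact_mod_cast h4.trans h5
  · rw [Finset.card_image_of_injective _ (fun a b h => by exact_mod_cast h)]
    exact hy
  · intro v hv v' hv' j hj
    rw [Finset.mem_image] at hv hv'
    obtain ⟨u, hu, rfl⟩ := hv
    obtain ⟨u', hu', rfl⟩ := hv'
    rw [Finset.mem_filter, Finset.mem_range] at hu hu'
    have h3 : |(u : ℤ) - u'| ≤ ((X / P' : ℕ) : ℤ) := by
      rw [abs_le]
      constructor <;> omega
    have hjP : (j : ℤ) ≤ P' := by exact_mod_cast hj.trans hPP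
    apply hcount
    · rw [abs_mul, Nat.abs_cast]
      have h4 : (j : ℤ) * |(u : ℤ) - u'| ≤ (P' : ℤ) * ((X / P' : ℕ) : ℤ) :=
        mul_le_mul hjP h3 (abs_nonneg _) (by positivity)
      refine h4.trans ?_
      exact_mod_cast Nat.mul_div_le X P'
    · intro k hk
      have h4 : f u = f u' := hu.2.trans hu'.2.symm
      have h5 := congrArg Fin.val (congrFun h4 ⟨k, hk⟩)
      rw [hf] at h5
      simp only at h5
      set x : ℝ := (k : ℝ) * (u : ℝ) / L with hx
      set x' : ℝ := (k : ℝ) * (u' : ℝ) / L with hx'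
      have hn : (0 : ℝ) < 4 * P' := by positivity
      have h6 : |Int.fract x - Int.fract x'| ≤ 1 / (4 * P') := by
        have ha := Nat.floor_le (a := (4 * P' : ℝ) * Int.fract x)
          (mul_nonneg hn.le (Int.fract_nonneg x))
        have hb := Nat.lt_floor_add_one ((4 * P' : ℝ) * Int.fract x)
        have hc' := Nat.floor_le (a := (4 * P' : ℝ) * Int.fract x')
          (mul_nonneg hn.le (Int.fract_nonneg x'))
        have hd := Nat.lt_floor_add_one ((4 * P' : ℝ) * Int.fract x')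
        rw [h5] at ha hb
        have he : |Int.fract x - Int.fract x'| * (4 * P') =
            |(Int.fract x - Int.fract x') * (4 * P')| := by rw [abs_mul, abs_of_pos hn]
        rw [le_div_iff₀ hn, he, abs_le]
        constructor <;> linarith
      have h7 : nd (x - x') ≤ 1 / (4 * P') := by
        refine le_trans ?_ h6
        have h8 := h2.2.2.2.2.2.2.2 (x - x') (⌊x⌋ - ⌊x'⌋)
        have h9 : x - x' - ((⌊x⌋ - ⌊x'⌋ : ℤ) : ℝ) = Int.fract x - Int.fract x' := by
          push_cast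
          unfold Int.fract
          ring
        rwa [h9] at h8
      have h8 : (k : ℝ) * (((j : ℤ) * ((u : ℤ) - u') : ℤ) : ℝ) / ((10 * X + 1 : ℕ) : ℝ) =
          j * (x - x') := by
        rw [hx, hx', ← hLdef]
        push_cast
        ring
      rw [h8]
      refine (h2.2.2.2.2.1 (x - x') j).trans ?_
      have h9 : (j : ℝ) ≤ P' := by exact_mod_cast hj.trans hPP
      have h10 : (j : ℝ) * nd (x - x') ≤ P' * (1 / (4 * P')) :=
        mul_le_mul h9 h7 (h2.2.2.2.2.2.1 _).1 (by positivity)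
      refine h10.trans ?_
      have : (P' : ℝ) * (1 / (4 * P')) = 1 / 4 := by
        field_simp
      rw [this]

end Pool.Agent.U3
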