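import Mathlib
import Pool.Agent.Work.MP_0f91f8_co.U3.Stmts

/-!
Block U3, item CS2: van der Corput / Cauchy-Schwarz on `ℤ × ℤ`.
-/

set_option autoImplicit false

namespace Pool.Agent.U3

open scoped ComplexConjugate

namespace ICS2

theorem mem_bx {T : ℤ} {v : ℤ × ℤ} : v ∈ bx T ↔ |v.1| ≤ T ∧ |v.2| ≤ T := by
  unfold bx
  rw [Finset.mem_product, Finset.mem_Icc, Finset.mem_Icc, abs_le, abs_le]

theorem card_bx {T : ℤ} (hT : 0 ≤ T) : ((bx (2 * T)).card : ℝ) = (4 * T + 1 : ℝ) ^ 2 := by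
  unfold bx
  rw [Finset.card_product, Int.card_Icc]
  have h : (2 * T + 1 - -(2 * T)).toNat = (4 * T + 1).toNat := by
    congr 1
    ring
  rw [h]
  have h2 : (((4 * T + 1).toNat : ℕ) : ℝ) = 4 * T + 1 := by
    have h3 : (((4 * T + 1).toNat : ℕ) : ℤ) = 4 * T + 1 := Int.toNat_of_nonneg (by omega)
    have h4 : ((((4 * T + 1).toNat : ℕ) : ℤ) : ℝ) = ((4 * T + 1 : ℤ) : ℝ) := by rw [h3]
    push_cast at h4
    simpa using h4
  push_cast
  rw [h2]
  ring

/-- translation of a sum over the box -/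
theorem shift {T : ℤ} (G : ℤ × ℤ → ℂ) (hG : ∀ v, v ∉ bx T → G v = 0) (w : ℤ × ℤ)
    (h1 : |w.1| ≤ T) (h2 : |w.2| ≤ T) :
    ∑ v ∈ bx T, G v = ∑ v ∈ bx (2 * T), G (v + w) := by
  have e1 : ∑' v, G v = ∑ v ∈ bx T, G v := tsum_eq_sum hG
  have e2 : ∑' v, G (v + w) = ∑ v ∈ bx (2 * T), G (v + w) := by
    refine tsum_eq_sum fun v hv => hG _ fun h => hv ?_
    rw [mem_bx] at h ⊢
    have a1 : |v.1| ≤ |(v + w).1| + |w.1| := by
      calc |v.1| = |(v + w).1 - w.1| := by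
            congr 1
            simp
        _ ≤ _ := abs_sub _ _
    have a2 : |v.2| ≤ |(v + w).2| + |w.2| := by
      calc |v.2| = |(v + w).2 - w.2| := by
            congr 1
            simp
        _ ≤ _ := abs_sub _ _
    constructor <;> linarith [h.1, h.2]
  rw [← e1, ← e2]
  exact ((Equiv.addRight w).tsum_eq G).symm

theorem phi_inv {φ : ℤ × ℤ → ℂ} {e : ℤ × ℤ} (h : ∀ v, φ (v + e) = φ v) (s : ℕ) (v : ℤ × ℤ) :
    φ (v + (s : ℤ) • e) = φ v := by
  induction s with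
  | zero => simp
  | succ n ih =>
    have : v + ((n + 1 : ℕ) : ℤ) • e = (v + (n : ℤ) • e) + e := by
      push_cast
      rw [add_smul, one_smul, add_assoc]
    rw [this, h, ih]

/-- the bound for the coordinates of `s e` -/
theorem se_bd {T : ℤ} {S : ℕ} {a : ℤ} (h : |a| * S ≤ T) {s : ℕ} (hs : s < S) :
    |(s : ℤ) * a| ≤ T := by
  rw [abs_mul, mul_comm, Nat.abs_cast]
  refine le_trans ?_ h
  exact mul_le_mul_of_nonneg_left (by exact_mod_cast hs.le) (abs_nonneg _)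

end ICS2

open ICS2 in
/-- **CS2.** -/
theorem pr_CS2 : StCS2 := by
  intro T S e φ F hT hS he1 he2 hφ hinv hF
  set X : ℂ := ∑ v ∈ bx T, φ v * F v with hX
  set A : ℤ → ℂ := fun d => ∑ v ∈ bx T, F (v + d • e) * conj (F v) with hA
  have hw1 : ∀ s < S, |((s : ℤ) • e).1| ≤ T := fun s hs => by
    simpa using se_bd he1 hs
  have hw2 : ∀ s < S, |((s : ℤ) • e).2| ≤ T := fun s hs => by
    simpa using se_bd he2 hs
  -- step 1
  have h1 : ∀ s ∈ Finset.range S, X = ∑ v ∈ bx (2 * T), φ v * F (v + (s : ℤ) • e) := by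
    intro s hs
    rw [Finset.mem_range] at hs
    rw [hX, shift (fun v => φ v * F v) (fun v hv => by rw [hF v hv, mul_zero]) ((s : ℤ) • e)
      (hw1 s hs) (hw2 s hs)]
    refine Finset.sum_congr rfl fun v _ => ?_
    rw [phi_inv hinv]
  -- step 2
  have h2 : (S : ℂ) * X = ∑ v ∈ bx (2 * T), φ v * ∑ s ∈ Finset.range S, F (v + (s : ℤ) • e) := by
    have : (S : ℂ) * X = ∑ s ∈ Finset.range S, X := by
      rw [Finset.sum_const, Finset.card_range, nsmul_eq_mul]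
    rw [this, Finset.sum_congr rfl h1, Finset.sum_comm]
    refine Finset.sum_congr rfl fun v _ => ?_
    rw [Finset.mul_sum]
  -- step 3
  have h3 : ((S : ℝ) * ‖X‖) ^ 2 ≤ (4 * T + 1 : ℝ) ^ 2 *
      ∑ v ∈ bx (2 * T), ‖∑ s ∈ Finset.range S, F (v + (s : ℤ) • e)‖ ^ 2 := by
    have h4 : (S : ℝ) * ‖X‖ ≤ ∑ v ∈ bx (2 * T), ‖∑ s ∈ Finset.range S, F (v + (s : ℤ) • e)‖ := by
      have : (S : ℝ) * ‖X‖ = ‖(S : ℂ) * X‖ := by
        rw [norm_mul, Complex.norm_natCast]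
      rw [this, h2]
      refine (norm_sum_le _ _).trans (Finset.sum_le_sum fun v _ => ?_)
      rw [norm_mul]
      exact mul_le_of_le_one_left (norm_nonneg _) (hφ v)
    refine (pow_le_pow_left₀ (by positivity) h4 2).trans ?_
    rw [← card_bx hT]
    exact sq_sum_le_card_mul_sum_sq
  -- step 4
  have h5 : ((∑ v ∈ bx (2 * T), ‖∑ s ∈ Finset.range S, F (v + (s : ℤ) • e)‖ ^ 2 : ℝ) : ℂ) =
      ∑ s' ∈ Finset.range S, ∑ s ∈ Finset.range S, A ((s : ℤ) - s') := by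
    have h6 : ∀ s' ∈ Finset.range S, ∀ s ∈ Finset.range S, A ((s : ℤ) - s') =
        ∑ v ∈ bx (2 * T), F (v + (s : ℤ) • e) * conj (F (v + (s' : ℤ) • e)) := by
      intro s' hs' s _
      rw [Finset.mem_range] at hs'
      simp only [hA]
      rw [shift (fun v => F (v + ((s : ℤ) - s') • e) * conj (F v))
        (fun v hv => by rw [hF v hv, map_zero, mul_zero]) ((s' : ℤ) • e) (hw1 s' hs') (hw2 s' hs')]
      refine Finset.sum_congr rfl fun v _ => ?_
      congr 2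
      rw [add_assoc, ← add_smul]
      congr 2
      ring
    rw [Finset.sum_congr rfl fun s' hs' => Finset.sum_congr rfl fun s hs => h6 s' hs' s hs]
    push_cast
    have h7 : ∀ v : ℤ × ℤ, ((‖∑ s ∈ Finset.range S, F (v + (s : ℤ) • e)‖ : ℝ) : ℂ) ^ 2 =
        ∑ s' ∈ Finset.range S, ∑ s ∈ Finset.range S,
          F (v + (s : ℤ) • e) * conj (F (v + (s' : ℤ) • e)) := by
      intro v
      rw [← Complex.ofReal_pow, ← Complex.normSq_eq_norm_sq, ← Complex.mul_conj, map_sum,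
        Finset.sum_mul_sum, Finset.sum_comm]
    simp_rw [h7]
    rw [Finset.sum_comm]
    refine Finset.sum_congr rfl fun s' _ => ?_
    rw [Finset.sum_comm]
  have h8 : ∑ v ∈ bx (2 * T), ‖∑ s ∈ Finset.range S, F (v + (s : ℤ) • e)‖ ^ 2 ≤
      S * ∑ d ∈ Finset.Icc (-(S : ℤ)) S, ‖A d‖ := by
    have h9 : ∑ v ∈ bx (2 * T), ‖∑ s ∈ Finset.range S, F (v + (s : ℤ) • e)‖ ^ 2 =
        ‖((∑ v ∈ bx (2 * T), ‖∑ s ∈ Finset.range S, F (v + (s : ℤ) • e)‖ ^ 2 : ℝ) : ℂ)‖ := by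
      rw [Complex.norm_real, Real.norm_eq_abs, abs_of_nonneg]
      exact Finset.sum_nonneg fun _ _ => by positivity
    rw [h9, h5]
    refine (norm_sum_le _ _).trans ?_
    have h10 : ∀ s' ∈ Finset.range S, ‖∑ s ∈ Finset.range S, A ((s : ℤ) - s')‖ ≤
        ∑ d ∈ Finset.Icc (-(S : ℤ)) S, ‖A d‖ := by
      intro s' hs'
      rw [Finset.mem_range] at hs'
      refine (norm_sum_le _ _).trans ?_
      have hinj : Set.InjOn (fun s : ℕ => (s : ℤ) - s') (Finset.range S : Set ℕ) := by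
        intro a _ b _ hab
        simp only at hab
        omega
      rw [← Finset.sum_image (f := fun d : ℤ => ‖A d‖) (g := fun s : ℕ => (s : ℤ) - s') hinj]
      refine Finset.sum_le_sum_of_subset_of_nonneg ?_ fun _ _ _ => norm_nonneg _
      intro d hd
      rw [Finset.mem_image] at hd
      obtain ⟨s, hs, rfl⟩ := hd
      rw [Finset.mem_range] at hs
      rw [Finset.mem_Icc]
      constructor <;> omega
    refine (Finset.sum_le_sum h10).trans ?_
    rw [Finset.sum_const, Finset.card_range, nsmul_eq_mul]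
  have hSpos : (0 : ℝ) < S := by exact_mod_cast hS
  have h11 : (S : ℝ) * ((S : ℝ) * ‖X‖ ^ 2) ≤
      (S : ℝ) * ((4 * T + 1 : ℝ) ^ 2 * ∑ d ∈ Finset.Icc (-(S : ℤ)) S, ‖A d‖) := by
    calc (S : ℝ) * ((S : ℝ) * ‖X‖ ^ 2) = ((S : ℝ) * ‖X‖) ^ 2 := by ring
      _ ≤ _ := h3
      _ ≤ (4 * T + 1 : ℝ) ^ 2 * (S * ∑ d ∈ Finset.Icc (-(S : ℤ)) S, ‖A d‖) :=
          mul_le_mul_of_nonneg_left h8 (by positivity)
      _ = _ := by ring
  exact le_of_mul_le_mul_left h11 hSpos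

end Pool.Agent.U3
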