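import Mathlib
import Pool.Agent.Work.MP_0f91f8_co.U3.Stmts

/-!
Block U3, item Co2: Parseval for correlations.
-/

set_option autoImplicit false

namespace Pool.Agent.U3

open scoped ComplexConjugate

namespace ICo2

theorem ee_nat (x : ℝ) (k : ℕ) : ee (k * x) = ee x ^ k := by
  unfold ee
  rw [← Complex.exp_nat_mul]
  congr 1
  push_cast
  ring

theorem ee_ne {M : ℕ} {d : ℤ} (hd : d ≠ 0) (hM : |d| < M) : ee (-((d : ℝ) / M)) ≠ 1 := by
  intro h
  unfold ee at h
  rw [Complex.exp_eq_one_iff] at h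
  obtain ⟨n, hn⟩ := h
  have hM0 : (0 : ℤ) < M := lt_of_le_of_lt (abs_nonneg d) hM
  have hM' : (M : ℝ) ≠ 0 := by exact_mod_cast hM0.ne'
  have h2 : (2 * Real.pi * Complex.I : ℂ) ≠ 0 := Complex.two_pi_I_ne_zero
  have h3 : ((-((d : ℝ) / M) : ℝ) : ℂ) = ((n : ℝ) : ℂ) := by
    refine mul_left_cancel₀ h2 ?_
    rw [hn, Complex.ofReal_intCast]
    ring
  have h4 : (-((d : ℝ) / M) : ℝ) = n := by exact_mod_cast h3
  have h5 : (d : ℝ) = ((M * (-n) : ℤ) : ℝ) := by
    push_cast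
    rw [← h4]
    field_simp
  have h6 : d = M * (-n) := by exact_mod_cast h5
  exact hd (Int.eq_zero_of_abs_lt_dvd ⟨-n, h6⟩ hM)

theorem sumee (hint : ∀ k : ℤ, ee k = 1) {M : ℕ} {d : ℤ} (hM : |d| < M) :
    ∑ k ∈ Finset.range M, ee (-((k : ℝ) / M * d)) = if d = 0 then (M : ℂ) else 0 := by
  split_ifs with hd
  · subst hd
    simp [ee]
  · have h1 : ∀ k ∈ Finset.range M, ee (-((k : ℝ) / M * d)) = ee (-((d : ℝ) / M)) ^ k :=
      fun k _ => by
        rw [← ee_nat]
        congr 1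
        ring
    have hM0 : (0 : ℤ) < M := lt_of_le_of_lt (abs_nonneg d) hM
    have hM' : (M : ℝ) ≠ 0 := by exact_mod_cast hM0.ne'
    rw [Finset.sum_congr rfl h1, geom_sum_eq (ee_ne hd hM), ← ee_nat]
    have h3 : ((M : ℝ) * -((d : ℝ) / M)) = ((-d : ℤ) : ℝ) := by
      push_cast
      field_simp
    rw [h3, hint, sub_self, zero_div]

theorem key (z : ℂ) : ((‖z‖ ^ 2 : ℝ) : ℂ) = z * conj z := by
  rw [Complex.mul_conj, Complex.normSq_eq_norm_sq]

theorem parseval (h : StEE) (M : ℕ) (s : Finset ℤ) (hs : ∀ i ∈ s, ∀ j ∈ s, |i - j| < M)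
    (c : ℤ → ℂ) :
    ∑ k ∈ Finset.range M, ‖∑ j ∈ s, c j * ee (-((k : ℝ) / M * j))‖ ^ 2 =
      M * ∑ j ∈ s, ‖c j‖ ^ 2 := by
  obtain ⟨hadd, -, hconj, hint, h0, -, -⟩ := h
  have main : ((∑ k ∈ Finset.range M, ‖∑ j ∈ s, c j * ee (-((k : ℝ) / M * j))‖ ^ 2 : ℝ) : ℂ) =
      ((M * ∑ j ∈ s, ‖c j‖ ^ 2 : ℝ) : ℂ) := by
    rw [Complex.ofReal_sum]
    calc ∑ k ∈ Finset.range M, ((‖∑ j ∈ s, c j * ee (-((k : ℝ) / M * j))‖ ^ 2 : ℝ) : ℂ)
        = ∑ k ∈ Finset.range M, ∑ i ∈ s, ∑ j ∈ s,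
            (c i * conj (c j)) * ee (-((k : ℝ) / M * ((i - j : ℤ) : ℝ))) := by
          refine Finset.sum_congr rfl fun k _ => ?_
          rw [key, map_sum, Finset.sum_mul_sum]
          refine Finset.sum_congr rfl fun i _ => Finset.sum_congr rfl fun j _ => ?_
          rw [map_mul, hconj, neg_neg]
          have e : ee (-((k : ℝ) / M * ((i - j : ℤ) : ℝ))) =
              ee (-((k : ℝ) / M * i)) * ee ((k : ℝ) / M * j) := by
            rw [← hadd]
            congr 1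
            push_cast
            ring
          rw [e]
          ring
      _ = ∑ i ∈ s, ∑ j ∈ s, (c i * conj (c j)) *
            ∑ k ∈ Finset.range M, ee (-((k : ℝ) / M * ((i - j : ℤ) : ℝ))) := by
          rw [Finset.sum_comm]
          refine Finset.sum_congr rfl fun i _ => ?_
          rw [Finset.sum_comm]
          refine Finset.sum_congr rfl fun j _ => ?_
          rw [Finset.mul_sum]
      _ = ∑ i ∈ s, c i * conj (c i) * M := by
          refine Finset.sum_congr rfl fun i hi => ?_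
          rw [Finset.sum_eq_single_of_mem i hi]
          · rw [sumee hint (hs i hi i hi), if_pos (sub_self i)]
          · intro j hj hne
            rw [sumee hint (hs i hi j hj), if_neg (sub_ne_zero.2 hne.symm), mul_zero]
      _ = ((M * ∑ j ∈ s, ‖c j‖ ^ 2 : ℝ) : ℂ) := by
          rw [Complex.ofReal_mul, Complex.ofReal_sum, Finset.mul_sum, Complex.ofReal_natCast]
          refine Finset.sum_congr rfl fun i _ => ?_
          rw [key]
          ring
  exact_mod_cast main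

theorem conv (h : StEE) (N : ℕ) (u w : ℤ → ℂ) (hu : ∀ n : ℤ, (N : ℤ) < |n| → u n = 0) (a : ℝ) :
    ∑ j ∈ Finset.Icc (-(2 * N : ℤ)) (2 * N),
      (∑ n ∈ Finset.Icc (-(N : ℤ)) N, u (n + j) * conj (w n)) * ee (-(a * j)) =
    (∑ n ∈ Finset.Icc (-(N : ℤ)) N, u n * ee (-(a * n))) *
      conj (∑ n ∈ Finset.Icc (-(N : ℤ)) N, w n * ee (-(a * n))) := by
  obtain ⟨hadd, -, hconj, hint, h0, -, -⟩ := h
  have e1 : ∀ j ∈ Finset.Icc (-(2 * N : ℤ)) (2 * N),
      (∑ n ∈ Finset.Icc (-(N : ℤ)) N, u (n + j) * conj (w n)) * ee (-(a * j)) =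
      ∑ n ∈ Finset.Icc (-(N : ℤ)) N, conj (w n) * (u (n + j) * ee (-(a * j))) := fun j _ => by
    rw [Finset.sum_mul]
    exact Finset.sum_congr rfl fun n _ => by ring
  rw [Finset.sum_congr rfl e1, Finset.sum_comm, map_sum, Finset.mul_sum]
  refine Finset.sum_congr rfl fun n hn => ?_
  rw [Finset.mem_Icc] at hn
  rw [← Finset.mul_sum, map_mul, hconj, neg_neg]
  have h1 : ∑ j ∈ Finset.Icc (-(2 * N : ℤ)) (2 * N), u (n + j) * ee (-(a * j)) =
      ∑ m ∈ Finset.Icc (n - 2 * N) (n + 2 * N), u m * ee (-(a * m)) * ee (a * n) := by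
    refine Finset.sum_nbij' (fun j => n + j) (fun m => m - n) ?_ ?_ ?_ ?_ ?_
    · intro j hj
      simp only [Finset.mem_Icc] at hj ⊢
      omega
    · intro m hm
      simp only [Finset.mem_Icc] at hm ⊢
      omega
    · intro j _
      simp
    · intro m _
      simp
    · intro j _
      rw [mul_assoc, ← hadd]
      congr 2
      push_cast
      ring
  have h2 : ∑ m ∈ Finset.Icc (-(N : ℤ)) N, u m * ee (-(a * m)) * ee (a * n) =
      ∑ m ∈ Finset.Icc (n - 2 * N) (n + 2 * N), u m * ee (-(a * m)) * ee (a * n) := by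
    refine Finset.sum_subset ?_ ?_
    · intro m hm
      simp only [Finset.mem_Icc] at hm ⊢
      omega
    · intro m _ hm
      have : (N : ℤ) < |m| := by
        rw [Finset.mem_Icc, not_and_or, not_le, not_le] at hm
        rcases hm with hm | hm
        · exact lt_abs.2 (Or.inr (by omega))
        · exact lt_abs.2 (Or.inl hm)
      rw [hu m this, zero_mul, zero_mul]
  rw [h1, ← h2, ← Finset.sum_mul]
  ring

end ICo2

open ICo2 in
theorem pr_Co2 (h1 : StEE) : StCo2 := by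
  intro N u w σ hσ hz hU
  have hM : (0 : ℝ) < ((4 * N + 1 : ℕ) : ℝ) := by positivity
  refine le_of_mul_le_mul_left ?_ hM
  have p1 := parseval h1 (4 * N + 1) (Finset.Icc (-(2 * N : ℤ)) (2 * N))
    (fun i hi j hj => by
      rw [Finset.mem_Icc] at hi hj
      rw [abs_lt]
      push_cast
      omega)
    (fun j => ∑ n ∈ Finset.Icc (-(N : ℤ)) N, u (n + j) * conj (w n))
  have p2 := parseval h1 (4 * N + 1) (Finset.Icc (-(N : ℤ)) N)
    (fun i hi j hj => by
      rw [Finset.mem_Icc] at hi hj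
      rw [abs_lt]
      push_cast
      omega) w
  rw [← p1]
  calc _ ≤ ∑ k ∈ Finset.range (4 * N + 1), σ ^ 2 *
        ‖∑ j ∈ Finset.Icc (-(N : ℤ)) N, w j * ee (-((k : ℝ) / (4 * N + 1 : ℕ) * j))‖ ^ 2 := by
        refine Finset.sum_le_sum fun k _ => ?_
        rw [conv h1 N u w (fun n hn => (hz n hn).1), norm_mul, mul_pow, RCLike.norm_conj]
        refine mul_le_mul_of_nonneg_right ?_ (sq_nonneg _)
        exact pow_le_pow_left₀ (norm_nonneg _) (hU _) 2
    _ = _ := by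
        rw [← Finset.mul_sum, p2]
        ring

end Pool.Agent.U3
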