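import Mathlib
import Pool.Agent.Work.MP_0f91f8_co.U3.Stmts

/-!
# [Core] assembly of Theorem A of the block U3 (statement without linear forms)
-/

set_option autoImplicit false

namespace Pool.Agent.U3

open scoped ComplexConjugate

namespace ICore

/-- finite sets of large primes with large sum of reciprocals -/
theorem tail_primes (n0 : ℕ) (W : ℝ) : ∃ Ps : Finset ℕ, (∀ q ∈ Ps, q.Prime) ∧
    (∀ q ∈ Ps, n0 ≤ q) ∧ W ≤ ∑ q ∈ Ps, 1 / (q : ℝ) := by
  classical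
  have h := not_summable_one_div_on_primes
  rw [not_summable_iff_tendsto_nat_atTop_of_nonneg] at h
  · obtain ⟨n, hn⟩ := (h.eventually_ge_atTop (W + ∑ i ∈ Finset.range n0,
      Set.indicator {p : ℕ | p.Prime} (fun n : ℕ => (1 : ℝ) / n) i)).exists
    refine ⟨(Finset.range n).filter (fun q => q.Prime ∧ n0 ≤ q), ?_, ?_, ?_⟩
    · intro q hq
      exact (Finset.mem_filter.1 hq).2.1
    · intro q hq
      exact (Finset.mem_filter.1 hq).2.2
    · have h1 : ∑ i ∈ Finset.range n,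
          Set.indicator {p : ℕ | p.Prime} (fun n : ℕ => (1 : ℝ) / n) i ≤
          ∑ i ∈ Finset.range n0,
            Set.indicator {p : ℕ | p.Prime} (fun n : ℕ => (1 : ℝ) / n) i +
          ∑ q ∈ (Finset.range n).filter (fun q => q.Prime ∧ n0 ≤ q), 1 / (q : ℝ) := by
        rw [Finset.sum_filter]
        have h2 : ∀ i ∈ Finset.range n,
            Set.indicator {p : ℕ | p.Prime} (fun n : ℕ => (1 : ℝ) / n) i ≤
            (if i < n0 then Set.indicator {p : ℕ | p.Prime} (fun n : ℕ => (1 : ℝ) / n) i else 0)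
              + (if i.Prime ∧ n0 ≤ i then 1 / (i : ℝ) else 0) := by
          intro i _
          by_cases hp : i.Prime
          · by_cases hi : i < n0
            · simp [hi, hp, not_le.2 hi]
            · simp [hi, hp, not_lt.1 hi]
          · simp [hp]
        refine le_trans (Finset.sum_le_sum h2) ?_
        rw [Finset.sum_add_distrib]
        refine add_le_add ?_ le_rfl
        rw [← Finset.sum_filter]
        refine Finset.sum_le_sum_of_subset_of_nonneg ?_ ?_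
        · intro i hi
          exact Finset.mem_range.2 (Finset.mem_filter.1 hi).2
        · intro i _ _
          exact Set.indicator_nonneg (fun x _ => by positivity) i
      linarith
  · intro n
    exact Set.indicator_nonneg (fun x _ => by positivity) n

theorem norm_ee (x : ℝ) : ‖ee x‖ = 1 := by
  unfold ee
  have : (2 * (Real.pi : ℂ) * Complex.I * (x : ℂ)) = ((2 * Real.pi * x : ℝ) : ℂ) * Complex.I := by
    push_cast
    ring
  rw [this]
  exact Complex.norm_exp_ofReal_mul_I _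

theorem cm_le {g : ℤ → ℂ} (hg : CM g) (n : ℤ) : ‖g n‖ ≤ 1 := by
  by_cases h : n = 0
  · rw [h, hg.zero]
    simp
  · exact (hg.nrm n h).le

theorem cor_le (f : ℤ → ℂ) (hf : ∀ n, ‖f n‖ ≤ 1) (A B h : ℤ) (a : ℝ) :
    ‖cor f A B h a‖ ≤ ((Finset.Icc A B).card : ℝ) := by
  unfold cor
  refine le_trans (norm_sum_le _ _) ?_
  have : ∀ n ∈ Finset.Icc A B,
      ‖(if n + h ∈ Finset.Icc A B then f (n + h) * conj (f n) * ee (-(a * n)) else 0)‖ ≤ 1 := by
    intro n _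
    split_ifs
    · rw [norm_mul, norm_mul, norm_ee, mul_one]
      have h1 := hf (n + h)
      have h2 : ‖(starRingEnd ℂ) (f n)‖ ≤ 1 := by
        rw [RCLike.norm_conj]
        exact hf n
      exact mul_le_one₀ h1 (norm_nonneg _) h2
    · simp
  refine le_trans (Finset.sum_le_sum this) ?_
  simp

/-- the size of the interval of the multiples of `q` -/
theorem card_le (N q : ℕ) (hq : 1 ≤ q) (hN : q ≤ N) (A B : ℤ) (hA : -(N : ℤ) ≤ A)
    (hB : B ≤ N) : ((Finset.Icc (cl A q) (B / q)).card : ℝ) ≤ 3 * N / q := by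
  have hq0 : (0 : ℤ) < q := by exact_mod_cast hq
  have h1 : (-A) / (q : ℤ) ≤ (N : ℤ) / q := Int.ediv_le_ediv hq0 (by linarith)
  have h2 : B / (q : ℤ) ≤ (N : ℤ) / q := Int.ediv_le_ediv hq0 hB
  have h4 : (0 : ℤ) ≤ (N : ℤ) / q := Int.ediv_nonneg (by positivity) (by positivity)
  have h3 : ((Finset.Icc (cl A q) (B / q)).card : ℤ) ≤ 2 * ((N : ℤ) / q) + 1 := by
    rw [Int.card_Icc]
    unfold cl
    omega
  have h5 : (((N : ℤ) / (q : ℤ) : ℤ) : ℝ) ≤ N / q := by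
    have h6 : ((N : ℤ) / (q : ℤ) : ℤ) = ((N / q : ℕ) : ℤ) := by push_cast; rfl
    rw [h6]
    push_cast
    exact Nat.cast_div_le
  have h7 : ((Finset.Icc (cl A q) (B / q)).card : ℝ) ≤
      2 * (((N : ℤ) / (q : ℤ) : ℤ) : ℝ) + 1 := by
    exact_mod_cast h3
  have hqR : (0 : ℝ) < q := by exact_mod_cast hq
  have h8 : (1 : ℝ) ≤ N / q := by
    rw [le_div_iff₀ hqR]
    have : (q : ℝ) ≤ N := by exact_mod_cast hN
    linarith
  have h9 : (3 : ℝ) * N / q = 2 * (N / q) + N / q := by ring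
  rw [h9]
  linarith

theorem SZ_le {g : ℤ → ℂ} (hg : CM g) (N q : ℕ) (hq : 1 ≤ q) (hN : q ≤ N) (A B : ℤ)
    (hA : -(N : ℤ) ≤ A) (hB : B ≤ N) {M : ℕ} (h : ℤ) (w : ZMod M) :
    (1 / (q : ℝ)) * ((q : ℝ) ^ 2 * SZ g (cl A q) (B / q) h w) ≤
      9 * ((1 / (q : ℝ)) * (N : ℝ) ^ 2) := by
  have hqR : (0 : ℝ) < q := by exact_mod_cast hq
  have h1 := (cor_le g (cm_le hg) (cl A q) (B / q) h (fr w)).trans (card_le N q hq hN A B hA hB)
  have h2 : SZ g (cl A q) (B / q) h w ≤ (3 * N / q) ^ 2 := by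
    unfold SZ SS
    exact pow_le_pow_left₀ (norm_nonneg _) h1 2
  have h3 : (q : ℝ) ^ 2 * SZ g (cl A q) (B / q) h w ≤ 9 * (N : ℝ) ^ 2 := by
    calc (q : ℝ) ^ 2 * SZ g (cl A q) (B / q) h w ≤ (q : ℝ) ^ 2 * (3 * N / q) ^ 2 :=
          mul_le_mul_of_nonneg_left h2 (by positivity)
      _ = 9 * (N : ℝ) ^ 2 := by
          field_simp
          ring
  calc (1 / (q : ℝ)) * ((q : ℝ) ^ 2 * SZ g (cl A q) (B / q) h w)
      ≤ (1 / (q : ℝ)) * (9 * (N : ℝ) ^ 2) := mul_le_mul_of_nonneg_left h3 (by positivity)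
    _ = 9 * ((1 / (q : ℝ)) * (N : ℝ) ^ 2) := by ring

/-- popular differences -/
theorem popular (V : Finset ℤ) (E : ℤ → ℝ) (b c : ℝ) (hb : 0 < b) (hc : 0 < c)
    (hV : V.Nonempty) (hE : ∀ v ∈ V, ∀ v' ∈ V, E (v - v') ≤ 9 * b)
    (hs : c * b * (V.card : ℝ) ^ 2 ≤ ∑ v ∈ V, ∑ v' ∈ V, E (v - v')) :
    ∃ WW : Finset ℤ, c / 18 * (V.card : ℝ) ≤ WW.card ∧
      ∀ x ∈ WW, (∃ v ∈ V, ∃ v' ∈ V, v - v' = x) ∧ c / 2 * b ≤ E x := by
  classical
  set S : Finset (ℤ × ℤ) := (V ×ˢ V).filter (fun p => c / 2 * b ≤ E (p.1 - p.2)) with hS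
  refine ⟨S.image (fun p => p.1 - p.2), ?_, ?_⟩
  · have hVc : (0 : ℝ) < V.card := by exact_mod_cast hV.card_pos
    have h1 : S.card ≤ V.card * (S.image (fun p => p.1 - p.2)).card := by
      refine Finset.card_le_mul_card_image S V.card ?_
      intro a _
      refine Finset.card_le_card_of_injOn (fun p => p.1) ?_ ?_
      · intro p hp
        have h2 := (Finset.mem_filter.1 hp).1
        exact (Finset.mem_product.1 (Finset.mem_filter.1 h2).1).1
      · intro p hp p' hp' hpp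
        have h2 := (Finset.mem_filter.1 hp).2
        have h3 := (Finset.mem_filter.1 hp').2
        have h4 : p.1 = p'.1 := hpp
        have h2' : p.1 - p.2 = a := h2
        have h3' : p'.1 - p'.2 = a := h3
        exact Prod.ext h4 (by omega)
    have h2 : ∑ v ∈ V, ∑ v' ∈ V, E (v - v') ≤ 9 * b * S.card + c / 2 * b * (V.card : ℝ) ^ 2 := by
      rw [← Finset.sum_product' V V (fun v v' => E (v - v'))]
      have h3 : ∀ p ∈ V ×ˢ V, E (p.1 - p.2) ≤
          (if c / 2 * b ≤ E (p.1 - p.2) then 9 * b else 0) + c / 2 * b := by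
        intro p hp
        have hp' := Finset.mem_product.1 hp
        have h5 := hE p.1 hp'.1 p.2 hp'.2
        have h6 : 0 < c / 2 * b := by positivity
        split_ifs with h4
        · linarith
        · push Not at h4
          linarith
      refine le_trans (Finset.sum_le_sum h3) ?_
      rw [Finset.sum_add_distrib, ← Finset.sum_filter, Finset.sum_const, Finset.sum_const,
        nsmul_eq_mul, nsmul_eq_mul, Finset.card_product, ← hS]
      push_cast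
      linarith
    have h3 : c / 2 * b * (V.card : ℝ) ^ 2 ≤ 9 * b * S.card := by
      have : c * b * (V.card : ℝ) ^ 2 = c / 2 * b * (V.card : ℝ) ^ 2 +
        c / 2 * b * (V.card : ℝ) ^ 2 := by ring
      linarith
    have h4 : (S.card : ℝ) ≤ V.card * ((S.image (fun p => p.1 - p.2)).card : ℝ) := by
      exact_mod_cast h1
    have h5 : b * V.card * (c / 18 * V.card) ≤
        b * V.card * ((S.image (fun p => p.1 - p.2)).card : ℝ) := by
      have h6 : b * S.card ≤ b * (V.card * ((S.image (fun p => p.1 - p.2)).card : ℝ)) :=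
        mul_le_mul_of_nonneg_left h4 hb.le
      have h7 : b * V.card * (c / 18 * V.card) = (c / 2 * b * (V.card : ℝ) ^ 2) / 9 := by ring
      rw [h7]
      have h8 : (9 * b * (S.card : ℝ)) / 9 = b * S.card := by ring
      calc (c / 2 * b * (V.card : ℝ) ^ 2) / 9 ≤ (9 * b * (S.card : ℝ)) / 9 := by
            apply div_le_div_of_nonneg_right h3 (by norm_num)
        _ = b * S.card := h8
        _ ≤ b * (V.card * ((S.image (fun p => p.1 - p.2)).card : ℝ)) := h6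
        _ = b * V.card * ((S.image (fun p => p.1 - p.2)).card : ℝ) := by ring
    exact le_of_mul_le_mul_left h5 (by positivity)
  · intro x hx
    obtain ⟨p, hp, rfl⟩ := Finset.mem_image.1 hx
    have h1 := Finset.mem_filter.1 hp
    have h2 := Finset.mem_product.1 h1.1
    exact ⟨⟨p.1, h2.1, p.2, h2.2, rfl⟩, h1.2⟩

end ICore

open ICore in
/-- [Core] -/
theorem pr_Core (h1 : StRnd) (h2 : StNrg) (h3 : StFrm) (h4 : StBog) (h5 : StLam) (h6 : StAvg)
    (h7 : StBlk) (h8 : StEnd) : StCore := by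
  classical
  intro δ0 hδ0
  obtain ⟨δ, hδd⟩ : ∃ δ : ℝ, δ = min δ0 1 := ⟨_, rfl⟩
  have hδ : 0 < δ := by rw [hδd]; exact lt_min hδ0 one_pos
  have hδ1 : δ ≤ 1 := by rw [hδd]; exact min_le_right _ _
  have hδδ : δ ≤ δ0 := by rw [hδd]; exact min_le_left _ _
  obtain ⟨K, hRnd⟩ := h1 δ hδ
  obtain ⟨K', hK'⟩ : ∃ K' : ℕ, K' = max K 4 := ⟨_, rfl⟩
  have hKK : K ≤ K' := by rw [hK']; exact le_max_left _ _
  have hK4 : 4 ≤ K' := by rw [hK']; exact le_max_right _ _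
  obtain ⟨δ1, hδ1d⟩ : ∃ δ1 : ℝ, δ1 = δ ^ 2 / 16 := ⟨_, rfl⟩
  have hδ1p : 0 < δ1 := by rw [hδ1d]; positivity
  obtain ⟨κ, hκ, hNrg⟩ := h2 δ1 (2 * K') hδ1p
  obtain ⟨κ', hκ', hFrm⟩ := h3 κ hκ
  obtain ⟨γ, hγd⟩ : ∃ γ : ℝ, γ = min δ1 (κ' * δ) := ⟨_, rfl⟩
  have hγ : 0 < γ := by rw [hγd]; exact lt_min hδ1p (by positivity)
  have hγ1 : γ ≤ δ1 := by rw [hγd]; exact min_le_left _ _
  have hγ2 : γ ≤ κ' * δ := by rw [hγd]; exact min_le_right _ _
  obtain ⟨c2, hc2, W0, hAvg⟩ := h6 γ hγ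
  obtain ⟨P0, hBlk⟩ := h7 (c2 / 2) (by positivity)
  obtain ⟨Ps, hPp, hP0, hW⟩ := tail_primes P0 (max W0 1)
  have hW0 : W0 ≤ ∑ q ∈ Ps, 1 / (q : ℝ) := le_trans (le_max_left _ _) hW
  have hW1 : 1 ≤ ∑ q ∈ Ps, 1 / (q : ℝ) := le_trans (le_max_right _ _) hW
  obtain ⟨NA, hAvg⟩ := hAvg Ps hPp hW0
  obtain ⟨C, NB, hBlk⟩ := hBlk Ps hPp hP0 hW1
  obtain ⟨Q, hQd⟩ : ∃ Q : ℕ, Q = ∏ q ∈ Ps, q := ⟨_, rfl⟩
  have hQ1 : 1 ≤ Q := by
    rw [hQd]
    exact Finset.prod_pos (fun q hq => (hPp q hq).pos)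
  have hqQ : ∀ q ∈ Ps, q ∣ Q := by
    intro q hq
    rw [hQd]
    exact Finset.dvd_prod_of_mem _ hq
  obtain ⟨P, hPd⟩ : ∃ P : ℕ, P = Ps.sup id := ⟨_, rfl⟩
  have hqP : ∀ q ∈ Ps, q ≤ P := by
    intro q hq
    rw [hPd]
    exact Finset.le_sup (f := id) hq
  have hPs : Ps.Nonempty := by
    by_contra h
    rw [Finset.not_nonempty_iff_eq_empty] at h
    rw [h] at hW1
    simp at hW1
    linarith
  have hP1 : 1 ≤ P := by
    obtain ⟨q, hq⟩ := hPs
    exact le_trans (hPp q hq).one_lt.le (hqP q hq)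
  obtain ⟨η, hη, hBog⟩ := h4 γ P hγ
  have hQR : (0 : ℝ) < Q := by exact_mod_cast hQ1
  have hPR : (0 : ℝ) < P := by exact_mod_cast hP1
  obtain ⟨κ3, hκ3⟩ : ∃ κ3 : ℝ, κ3 = c2 * η / (36 * Q) := ⟨_, rfl⟩
  obtain ⟨κ4, hκ4⟩ : ∃ κ4 : ℝ, κ4 = c2 / (4 * (P : ℝ) ^ 2) := ⟨_, rfl⟩
  have hκ3p : 0 < κ3 := by rw [hκ3]; positivity
  have hκ4p : 0 < κ4 := by rw [hκ4]; positivity
  refine ⟨Q, hQ1, ?_⟩
  intro g hg hgA c hc
  have hQZ : (Q : ℤ) ≠ 0 := by
    have : Q ≠ 0 := by omega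
    exact_mod_cast this
  obtain ⟨NE, hEnd⟩ := h8 g hg hgA Ps (min κ3 κ4) C (c * Q) (lt_min hκ3p hκ4p)
    (mul_ne_zero hc hQZ) hPp
  refine ⟨max (max NA NB) (max NE (2 * Q)), ?_⟩
  intro N hN0 A B hAN hBN R hR hRc hcor
  have hNA : NA ≤ N := le_trans (le_trans (le_max_left _ _) (le_max_left _ _)) hN0
  have hNB : NB ≤ N := le_trans (le_trans (le_max_right _ _) (le_max_left _ _)) hN0
  have hNE : NE ≤ N := le_trans (le_trans (le_max_left _ _) (le_max_right _ _)) hN0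
  have hNQ : 2 * Q ≤ N := le_trans (le_trans (le_max_right _ _) (le_max_right _ _)) hN0
  have hN1 : 1 ≤ N := by omega
  have hNR : (0 : ℝ) < N := by exact_mod_cast hN1
  have hqN : ∀ q ∈ Ps, q ≤ N := by
    intro q hq
    have := Nat.le_of_dvd hQ1 (hqQ q hq)
    omega
  -- the prime
  obtain ⟨M, hMp, hM1, hM2⟩ := Nat.exists_prime_lt_and_le_two_mul (K' * N)
    (Nat.mul_ne_zero (by omega) (by omega))
  have : NeZero M := ⟨hMp.ne_zero⟩
  have hM3 : 2 * N + 1 ≤ M := by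
    have : 4 * N ≤ K' * N := Nat.mul_le_mul_right N hK4
    omega
  have hM4 : M ≤ 2 * K' * N := by
    rw [mul_assoc]
    exact hM2
  have hM5 : K * N ≤ M := le_trans (Nat.mul_le_mul_right N hKK) hM1.le
  have hg1 : ∀ n, ‖g n‖ ≤ 1 := cm_le hg
  -- the scale
  obtain ⟨X, hXd⟩ : ∃ X : ℕ, X = N / Q := ⟨_, rfl⟩
  have hX2 : 2 ≤ X := by
    rw [hXd]
    exact (Nat.le_div_iff_mul_le hQ1).2 hNQ
  have hX1 : 1 ≤ X := by omega
  have hXQ : X * Q ≤ N := by
    rw [hXd]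
    exact Nat.div_mul_le_self N Q
  have hXQR : (X : ℝ) * Q ≤ N := by exact_mod_cast hXQ
  have hXlow : (N : ℝ) ≤ 2 * X * Q := by
    have h9 : N < (X + 1) * Q := by
      rw [hXd]
      have h8 := Nat.div_add_mod N Q
      have h7 := Nat.mod_lt N hQ1
      rw [add_mul, one_mul, mul_comm (N / Q) Q]
      omega
    have h10 : (N : ℝ) ≤ (X + 1) * Q := by exact_mod_cast h9.le
    have h11 : (1 : ℝ) ≤ X := by exact_mod_cast hX1
    nlinarith
  have hRX : ∀ r ∈ R, |r| ≤ (X : ℤ) := by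
    intro r hr
    have h9 := hR r hr
    rw [hXd]
    push_cast
    exact Int.le_ediv_of_mul_le (by exact_mod_cast hQ1) h9
  have hRc1 : δ * X ≤ R.card := by
    have h9 : δ * N ≤ Q * (R.card : ℝ) :=
      le_trans (mul_le_mul_of_nonneg_right hδδ hNR.le) hRc
    have h10 : δ * (X * Q) ≤ δ * N := mul_le_mul_of_nonneg_left hXQR hδ.le
    have h11 : Q * (δ * X) ≤ Q * (R.card : ℝ) := by
      calc Q * (δ * X) = δ * (X * Q) := by ring
        _ ≤ δ * N := h10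
        _ ≤ _ := h9
    exact le_of_mul_le_mul_left h11 hQR
  -- frequencies
  have hfreq : ∀ r ∈ R, ∃ w : ZMod M, δ / 2 * N ≤ ‖cor g A B (c * Q * r) (fr w)‖ := by
    intro r hr
    obtain ⟨a, ha⟩ := hcor r hr
    refine hRnd N M hN1 hM5 g hg1 A B (c * Q * r) a hAN hBN ?_
    exact le_trans (mul_le_mul_of_nonneg_right hδδ hNR.le) ha
  choose! w hw using hfreq
  have hSZ : ∀ r ∈ R, δ1 * (N : ℝ) ^ 2 ≤ SZ g A B (c * Q * r) (w r) := by
    intro r hr
    have h9 := hw r hr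
    have h10 : (δ / 2 * N) ^ 2 ≤ ‖cor g A B (c * Q * r) (fr (w r))‖ ^ 2 :=
      pow_le_pow_left₀ (by positivity) h9 2
    unfold SZ SS
    refine le_trans ?_ h10
    rw [hδ1d]
    have : 0 ≤ δ ^ 2 * (N : ℝ) ^ 2 := by positivity
    nlinarith
  have hδ1δ : δ1 ≤ δ := by
    rw [hδ1d]
    nlinarith
  have hXR0 : (0 : ℝ) < X := by exact_mod_cast hX1
  have hRc2 : δ1 * X ≤ R.card := le_trans (mul_le_mul_of_nonneg_right hδ1δ hXR0.le) hRc1
  -- energy and Freiman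
  have hen := hNrg N M X hN1 hX1 hM3 hM4 g hg1 A B (c * Q) hAN hBN R w hRX hRc2 hSZ
  obtain ⟨R', hR'R, hR'c, hR'F⟩ := hFrm M hMp (by omega) R w hen
  have hR'c1 : γ * X ≤ R'.card := by
    calc γ * X ≤ κ' * δ * X := mul_le_mul_of_nonneg_right hγ2 hXR0.le
      _ = κ' * (δ * X) := by ring
      _ ≤ κ' * R.card := mul_le_mul_of_nonneg_left hRc1 hκ'.le
      _ ≤ R'.card := hR'c
  have hR'X : ∀ r ∈ R', |r| ≤ (X : ℤ) := fun r hr => hRX r (hR'R hr)
  -- Bogolyubov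
  obtain ⟨V, hV1, hV2, hV3⟩ := hBog X hX1 R' hR'X hR'c1
  obtain ⟨L, hL⟩ := h5 M R' V w P hR'F hV3
  have hVne : V.Nonempty := by
    rw [← Finset.card_pos]
    have : (0 : ℝ) < V.card := lt_of_lt_of_le (by positivity) hV2
    exact_mod_cast this
  have hVY : ∀ v ∈ V, 0 ≤ v ∧ v ≤ ((X / P : ℕ) : ℤ) := by
    intro v hv
    obtain ⟨h9, h10⟩ := hV1 v hv
    refine ⟨h9, ?_⟩
    push_cast
    exact Int.le_ediv_of_mul_le (by exact_mod_cast hP1) (by linarith)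
  have hqY : ∀ q ∈ Ps, q * (X / P) ≤ X := by
    intro q hq
    exact le_trans (Nat.mul_le_mul_right _ (hqP q hq)) (Nat.mul_div_le X P)
  -- averaging
  have hav := hAvg N hNA g hg A B (c * Q) hAN hBN
    (fun q hq => Dvd.dvd.mul_left (by exact_mod_cast hqQ q hq) c) M X (X / P) R' V w L hX1 hqY
    hR'X hR'c1 hVY
    (fun v hv v' hv' q hq r hr r' hr' h => hL v hv v' hv' q (hqP q hq) r hr r' hr' h)
    (fun r hr => le_trans (mul_le_mul_of_nonneg_right hγ1 (by positivity)) (hSZ r (hR'R hr)))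
  obtain ⟨W, hWd⟩ : ∃ W : ℝ, W = ∑ q ∈ Ps, 1 / (q : ℝ) := ⟨_, rfl⟩
  rw [← hWd] at hav hW1
  have hWp : 0 < W := by linarith
  obtain ⟨WW, hWW1, hWW2⟩ := popular V (fun x => ∑ q ∈ Ps, (1 / (q : ℝ)) *
          ((q : ℝ) ^ 2 * SZ g (cl A q) (B / q) (c * Q * x) (q ^ 2 • L x)))
    (W * (N : ℝ) ^ 2) c2 (by positivity) hc2 hVne
    (by
      intro v _ v' _
      have h9 : ∀ q ∈ Ps, (1 / (q : ℝ)) *
          ((q : ℝ) ^ 2 * SZ g (cl A q) (B / q) (c * Q * (v - v')) (q ^ 2 • L (v - v'))) ≤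
          9 * ((1 / (q : ℝ)) * (N : ℝ) ^ 2) := by
        intro q hq
        exact SZ_le hg N q (hPp q hq).one_lt.le (hqN q hq) A B hAN hBN _ _
      refine le_trans (Finset.sum_le_sum h9) ?_
      rw [← Finset.mul_sum, ← Finset.sum_mul, ← hWd])
    (by
      have h9 : c2 * (W * (N : ℝ) ^ 2) * (V.card : ℝ) ^ 2 =
        c2 * W * (V.card : ℝ) ^ 2 * (N : ℝ) ^ 2 := by ring
      rw [h9]
      exact hav)
  -- the end
  refine hEnd N hNE A B hAN hBN M WW L ?_ ?_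
  · calc min κ3 κ4 * N ≤ κ3 * N := mul_le_mul_of_nonneg_right (min_le_left _ _) hNR.le
      _ ≤ κ3 * (2 * X * Q) := mul_le_mul_of_nonneg_left hXlow hκ3p.le
      _ = c2 / 18 * (η * X) := by
          rw [hκ3]
          field_simp
          ring
      _ ≤ c2 / 18 * V.card := mul_le_mul_of_nonneg_left hV2 (by positivity)
      _ ≤ WW.card := hWW1
  · intro x hx
    have h9 := (hWW2 x hx).2
    have h10 : c2 / 2 * (∑ q ∈ Ps, 1 / (q : ℝ)) * (N : ℝ) ^ 2 ≤
        ∑ q ∈ Ps, (1 / (q : ℝ)) *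
          ((q : ℝ) ^ 2 * SZ g (cl A q) (B / q) (c * Q * x) (q ^ 2 • L x)) := by
      rw [← hWd, mul_assoc]
      exact h9
    obtain ⟨q1, hq1, q2, hq2, h11, h12, h13⟩ := hBlk N hNB g hg A B (c * Q * x) hAN hBN M (L x) h10
    refine ⟨q1, hq1, q2, hq2, h11, h12, ?_⟩
    have hq1R : (0 : ℝ) < q1 := by exact_mod_cast (hPp q1 hq1).pos
    have hq1P : (q1 : ℝ) ≤ P := by exact_mod_cast hqP q1 hq1
    have h14 : (q1 : ℝ) ^ 2 ≤ (P : ℝ) ^ 2 := pow_le_pow_left₀ hq1R.le hq1P 2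
    have h15 : 0 ≤ SZ g (cl A q1) (B / q1) (c * Q * x) (q1 ^ 2 • L x) := by
      unfold SZ SS
      positivity
    calc min κ3 κ4 * (N : ℝ) ^ 2 ≤ κ4 * (N : ℝ) ^ 2 :=
          mul_le_mul_of_nonneg_right (min_le_right _ _) (by positivity)
      _ = (c2 / 2 / 2 * (N : ℝ) ^ 2) / (P : ℝ) ^ 2 := by
          rw [hκ4]
          field_simp
          ring
      _ ≤ SZ g (cl A q1) (B / q1) (c * Q * x) (q1 ^ 2 • L x) := by
          rw [div_le_iff₀ (by positivity)]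
          refine le_trans h13 ?_
          rw [mul_comm]
          exact mul_le_mul_of_nonneg_left h14 h15

end Pool.Agent.U3
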