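import Mathlib
import Pool.Agent.Work.MP_0f91f8_co.U3.Stmts

/-!
# Block U3, item End
-/

set_option autoImplicit false

namespace Pool.Agent.U3

open scoped ComplexConjugate

namespace IEnd

theorem ee_add (x y : ℝ) : ee (x + y) = ee x * ee y := by
  unfold ee
  rw [← Complex.exp_add]
  congr 1
  push_cast
  ring

theorem norm_ee (x : ℝ) : ‖ee x‖ = 1 := by
  unfold ee
  have e : 2 * (Real.pi : ℂ) * Complex.I * (x : ℂ) = ((2 * Real.pi * x : ℝ) : ℂ) * Complex.I := by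
    push_cast
    ring
  rw [e, Complex.norm_exp_ofReal_mul_I]

/-- lower end of the block -/
def lo (N k i : ℕ) : ℤ := -(N : ℤ) + i * (2 * N / k + 1 : ℕ)

/-- upper end of the block -/
def hi (N k i : ℕ) : ℤ := -(N : ℤ) + (i + 1) * (2 * N / k + 1 : ℕ) - 1

/-- the rational frequency -/
noncomputable def th (q1 q2 a : ℕ) : ℝ := (q1 : ℝ) ^ 2 * (a / ((q2 : ℝ) ^ 2 - (q1 : ℝ) ^ 2))

/-- the conclusion for one shift -/
def Good (g : ℤ → ℂ) (κ' : ℝ) (k N : ℕ) (y : (ℕ × ℕ) × (ℕ × ℕ)) (h : ℤ) : Prop :=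
  hi N k y.2.2 ≤ N ∧ |h| ≤ 2 * N ∧
    κ' * N ≤ ‖∑ m ∈ Finset.Icc (lo N k y.2.2) (hi N k y.2.2),
      g (m + h) * conj (g m) * ee (-(th y.1.1 y.1.2 y.2.1 * m))‖

theorem lo_le_hi (N k i : ℕ) : lo N k i ≤ hi N k i := by
  unfold lo hi
  have h : (1 : ℤ) ≤ ((2 * N / k + 1 : ℕ) : ℤ) := by
    push_cast
    have : (0 : ℤ) ≤ ((2 * N / k : ℕ) : ℤ) := Int.natCast_nonneg _
    push_cast at this
    omega
  nlinarith

theorem le_lo (N k i : ℕ) : -(N : ℤ) ≤ lo N k i := by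
  unfold lo
  have : (0 : ℤ) ≤ (i : ℤ) * ((2 * N / k + 1 : ℕ) : ℤ) := by positivity
  linarith

theorem cl_ge {A : ℤ} {N q : ℕ} (hA : -(N : ℤ) ≤ A) (hq : 1 ≤ q) : -(N : ℤ) ≤ cl A q := by
  unfold cl
  have h : (-A) / (q : ℤ) ≤ N := by
    have hq' : (0 : ℤ) < q := by exact_mod_cast hq
    refine Int.ediv_le_of_le_mul hq' ?_
    have : (N : ℤ) * 1 ≤ (N : ℤ) * q := by
      apply mul_le_mul_of_nonneg_left _ (Int.natCast_nonneg _)
      exact_mod_cast hq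
    linarith
  linarith

theorem fl_le {B : ℤ} {N q : ℕ} (hB : B ≤ N) (hq : 1 ≤ q) : B / (q : ℤ) ≤ N := by
  have hq' : (0 : ℤ) < q := by exact_mod_cast hq
  refine Int.ediv_le_of_le_mul hq' ?_
  have : (N : ℤ) * 1 ≤ (N : ℤ) * q := by
    apply mul_le_mul_of_nonneg_left _ (Int.natCast_nonneg _)
    exact_mod_cast hq
  linarith

theorem cor_eq (g : ℤ → ℂ) (A B h : ℤ) (a θ β : ℝ) (hab : a = θ - β) :
    cor g A B h a = ∑ m ∈ Finset.Icc (max A (A - h)) (min B (B - h)),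
      (g (m + h) * conj (g m) * ee (-(θ * m))) * ee (β * m) := by
  unfold cor
  rw [← Finset.sum_filter]
  apply Finset.sum_congr
  · ext n
    simp only [Finset.mem_filter, Finset.mem_Icc, max_le_iff, le_min_iff]
    constructor
    · rintro ⟨⟨h1, h2⟩, h3, h4⟩
      exact ⟨⟨h1, by linarith⟩, h2, by linarith⟩
    · rintro ⟨⟨h1, h2⟩, h3, h4⟩
      exact ⟨⟨h1, h3⟩, by linarith, by linarith⟩
  · intro m _
    rw [hab, mul_assoc _ (ee _) (ee _), ← ee_add]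
    congr 2
    ring

theorem fr_mem {M : ℕ} [NeZero M] (w : ZMod M) : 0 ≤ fr w ∧ fr w < 1 := by
  unfold fr
  have hM : (0 : ℝ) < M := by
    have := NeZero.pos M
    exact_mod_cast this
  refine ⟨by positivity, ?_⟩
  rw [div_lt_one hM]
  exact_mod_cast ZMod.val_lt w

/-- the step for one shift -/
theorem step (h4 : StFrq) (h5 : StND) {g : ℤ → ℂ} (hg : ∀ n, ‖g n‖ ≤ 1) {Ps : Finset ℕ}
    (hPs : ∀ q ∈ Ps, q.Prime) {P : ℕ} (hP : ∀ q ∈ Ps, q ≤ P) {κ C κ' : ℝ} (hκ : 0 < κ) {k N : ℕ}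
    (hN : 1 ≤ N)
    (hB : ∀ (F : ℤ → ℂ) (A B : ℤ) (β : ℝ), (∀ n, ‖F n‖ ≤ 1) → -(N : ℤ) ≤ A → B ≤ N →
      |β| ≤ ((P : ℝ) ^ 2 * |C|) / N →
      Real.sqrt κ * N ≤ ‖∑ m ∈ Finset.Icc A B, F m * ee (β * m)‖ →
      ∃ i : ℕ, i < k ∧
        Finset.Icc (-(N : ℤ) + i * (2 * N / k + 1 : ℕ)) (-(N : ℤ) + (i + 1) * (2 * N / k + 1 : ℕ) - 1)
          ⊆ Finset.Icc A B ∧
        κ' * N ≤ ‖∑ m ∈ Finset.Icc (-(N : ℤ) + i * (2 * N / k + 1 : ℕ))
          (-(N : ℤ) + (i + 1) * (2 * N / k + 1 : ℕ) - 1), F m‖)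
    {A B : ℤ} (hA : -(N : ℤ) ≤ A) (hBN : B ≤ N) {M : ℕ} [NeZero M] (w : ZMod M) (h : ℤ)
    (hx : ∃ q1 ∈ Ps, ∃ q2 ∈ Ps, q1 < q2 ∧
        nd (((q2 : ℝ) ^ 2 - (q1 : ℝ) ^ 2) * fr w) ≤ C / N ∧
        κ * (N : ℝ) ^ 2 ≤ SZ g (cl A q1) (B / q1) h (q1 ^ 2 • w)) :
    ∃ y ∈ (Ps ×ˢ Ps) ×ˢ (Finset.range (P ^ 2 + 1) ×ˢ Finset.range k), Good g κ' k N y h := by
  obtain ⟨q1, hq1, q2, hq2, hlt, hnd, hSZ⟩ := hx
  obtain ⟨-, -, -, -, -, hnd2, hnd3, -⟩ := h5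
  have hNr : (0 : ℝ) < N := by exact_mod_cast hN
  have hq1p : 1 ≤ q1 := (hPs q1 hq1).one_lt.le
  obtain ⟨r0, hr0⟩ : ∃ r0 : ℝ, r0 = (q2 : ℝ) ^ 2 - (q1 : ℝ) ^ 2 := ⟨_, rfl⟩
  have hr1 : 1 ≤ r0 := by
    rw [hr0]
    have h1 : (q1 : ℝ) + 1 ≤ q2 := by exact_mod_cast hlt
    have h2 : (1 : ℝ) ≤ q1 := by exact_mod_cast hq1p
    nlinarith
  have hrP : r0 ≤ (P : ℝ) ^ 2 := by
    rw [hr0]
    have h1 : (q2 : ℝ) ≤ P := by exact_mod_cast hP q2 hq2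
    have h2 : (0 : ℝ) ≤ q2 := by positivity
    nlinarith [sq_nonneg (q1 : ℝ)]
  rw [← hr0] at hnd
  obtain ⟨hf0, hf1⟩ := fr_mem w
  obtain ⟨a, ha⟩ := hnd3 (r0 * fr w)
  have hahalf : |r0 * fr w - a| ≤ 1 / 2 := by
    rw [ha]
    exact (hnd2 _).2
  have hr_nn : 0 ≤ r0 * fr w := mul_nonneg (by linarith) hf0
  have hr_lt : r0 * fr w < r0 := by
    have : r0 * fr w < r0 * 1 := mul_lt_mul_of_pos_left hf1 (by linarith)
    linarith
  have ha0 : 0 ≤ a := by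
    by_contra hneg
    push Not at hneg
    have h1 : (a : ℝ) ≤ -1 := by
      have : a ≤ -1 := by omega
      exact_mod_cast this
    have h2 := (abs_le.1 hahalf).2
    linarith
  have haP : a ≤ (P : ℤ) ^ 2 := by
    by_contra hneg
    push Not at hneg
    have h1 : (P : ℝ) ^ 2 + 1 ≤ (a : ℝ) := by
      have : (P : ℤ) ^ 2 + 1 ≤ a := by omega
      exact_mod_cast this
    have h2 := (abs_le.1 hahalf).1
    linarith
  obtain ⟨b, rfl⟩ := Int.eq_ofNat_of_zero_le ha0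
  have hbP : b < P ^ 2 + 1 := by
    have : b ≤ P ^ 2 := by exact_mod_cast haP
    omega
  -- the frequency
  obtain ⟨β, hβ⟩ : ∃ β : ℝ, β = (q1 : ℝ) ^ 2 * ((b : ℝ) / r0 - fr w) := ⟨_, rfl⟩
  have hfreq : ((q1 ^ 2 : ℕ) : ℝ) * fr w = th q1 q2 b - β := by
    rw [hβ, th, ← hr0]
    push_cast
    ring
  have hβb : |β| ≤ ((P : ℝ) ^ 2 * |C|) / N := by
    rw [hβ, abs_mul, abs_of_nonneg (by positivity : (0 : ℝ) ≤ (q1 : ℝ) ^ 2)]
    have h1 : |(b : ℝ) / r0 - fr w| ≤ |C| / N := by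
      have e : (b : ℝ) / r0 - fr w = -((r0 * fr w - b) / r0) := by
        field_simp
        ring
      rw [e, abs_neg, abs_div]
      have h2 : |r0 * fr w - (b : ℝ)| ≤ |C| / N := by
        have h3 : |r0 * fr w - ((b : ℤ) : ℝ)| ≤ C / N := by
          rw [ha]
          exact hnd
        have h4 : C / N ≤ |C| / N := div_le_div_of_nonneg_right (le_abs_self C) hNr.le
        have h5 := h3.trans h4
        simpa using h5
      have h3 : 1 ≤ |r0| := by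
        rw [abs_of_nonneg (by linarith)]
        exact hr1
      calc |r0 * fr w - (b : ℝ)| / |r0| ≤ |r0 * fr w - (b : ℝ)| / 1 :=
            div_le_div_of_nonneg_left (abs_nonneg _) one_pos h3
        _ = |r0 * fr w - (b : ℝ)| := div_one _
        _ ≤ |C| / N := h2
    have h2 : (q1 : ℝ) ^ 2 ≤ (P : ℝ) ^ 2 := by
      have : (q1 : ℝ) ≤ P := by exact_mod_cast hP q1 hq1
      exact pow_le_pow_left₀ (by positivity) this 2
    calc (q1 : ℝ) ^ 2 * |(b : ℝ) / r0 - fr w| ≤ (P : ℝ) ^ 2 * (|C| / N) :=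
          mul_le_mul h2 h1 (abs_nonneg _) (by positivity)
      _ = ((P : ℝ) ^ 2 * |C|) / N := by ring
  -- the size of the correlation
  rw [h4.2.2.2.2, SS, hfreq] at hSZ
  have hcor : Real.sqrt κ * N ≤ ‖cor g (cl A q1) (B / q1) h (th q1 q2 b - β)‖ := by
    have h1 : (Real.sqrt κ * N) ^ 2 ≤ ‖cor g (cl A q1) (B / q1) h (th q1 q2 b - β)‖ ^ 2 := by
      rw [mul_pow, Real.sq_sqrt hκ.le]
      exact hSZ
    exact le_of_sq_le_sq h1 (norm_nonneg _)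
  rw [cor_eq g _ _ h _ (th q1 q2 b) β rfl] at hcor
  obtain ⟨i, hik, hsub, hsum⟩ := hB (fun m => g (m + h) * conj (g m) * ee (-(th q1 q2 b * m))) _ _ β
    (by
      intro m
      simp only [norm_mul, norm_ee, mul_one, RCLike.norm_conj]
      exact mul_le_one₀ (hg _) (norm_nonneg _) (hg _))
    ((cl_ge hA hq1p).trans (le_max_left _ _)) ((min_le_left _ _).trans (fl_le hBN hq1p)) hβb hcor
  refine ⟨((q1, q2), (b, i)), ?_, ?_, ?_, ?_⟩
  · simp only [Finset.mem_product, Finset.mem_range]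
    exact ⟨⟨hq1, hq2⟩, hbP, hik⟩
  · have h1 : hi N k i ∈ Finset.Icc (lo N k i) (hi N k i) :=
      Finset.mem_Icc.2 ⟨lo_le_hi N k i, le_rfl⟩
    have h2 := Finset.mem_Icc.1 (hsub h1)
    exact h2.2.trans ((min_le_left _ _).trans (fl_le hBN hq1p))
  · have h1 : lo N k i ∈ Finset.Icc (lo N k i) (hi N k i) :=
      Finset.mem_Icc.2 ⟨le_rfl, lo_le_hi N k i⟩
    have h2 := Finset.mem_Icc.1 (hsub h1)
    rw [max_le_iff, le_min_iff] at h2
    have h3 := cl_ge hA hq1p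
    have h4 := fl_le hBN hq1p
    obtain ⟨⟨h5, h6⟩, h7, h8⟩ := h2
    rw [abs_le]
    constructor <;> linarith
  · exact hsum

end IEnd

open IEnd in
/-- Item End. -/
theorem pr_End (h1 : StBks) (h2 : StU2) (h3 : StKat) (h4 : StFrq) (h5 : StND) : StEnd := by
  classical
  intro g hg hap Ps κ C H hκ hH hPs
  have hgn : ∀ n, ‖g n‖ ≤ 1 := by
    intro n
    by_cases hn : n = 0
    · rw [hn, hg.zero, norm_zero]
      exact zero_le_one
    · exact (hg.nrm n hn).le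
  obtain ⟨P, hP⟩ : ∃ P : ℕ, ∀ q ∈ Ps, q ≤ P :=
    ⟨Ps.sup id, fun q hq => Finset.le_sup (f := id) hq⟩
  obtain ⟨k, κ', hk, hκ', hB⟩ := h1 (Real.sqrt κ) ((P : ℝ) ^ 2 * |C|) (Real.sqrt_pos.2 hκ)
  obtain ⟨T, hT⟩ : ∃ T : Finset ((ℕ × ℕ) × (ℕ × ℕ)),
    T = (Ps ×ˢ Ps) ×ˢ (Finset.range (P ^ 2 + 1) ×ˢ Finset.range k) := ⟨_, rfl⟩
  obtain ⟨D, hD⟩ : ∃ D : ℝ, D = (T.card : ℝ) + 1 := ⟨_, rfl⟩
  have hD0 : 0 < D := by
    rw [hD]
    positivity
  obtain ⟨κ3, hκ3⟩ : ∃ κ3 : ℝ, κ3 = min κ' (κ / D) := ⟨_, rfl⟩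
  have hκ30 : 0 < κ3 := by
    rw [hκ3]
    exact lt_min hκ' (div_pos hκ hD0)
  obtain ⟨κ'', hκ'', hU⟩ := h2 κ3 hκ30
  obtain ⟨N1, hN1⟩ := h3 g hg hap (κ'' / 2) (by positivity)
  refine ⟨max (max k N1) 1, ?_⟩
  intro N hN A B hA hBN M _ W l hW hall
  have hNk : k ≤ N := (le_max_left _ _).trans ((le_max_left _ _).trans hN)
  have hNN1 : N1 ≤ N := (le_max_right _ _).trans ((le_max_left _ _).trans hN)
  have hN0 : 1 ≤ N := (le_max_right _ _).trans hN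
  have hNr : (0 : ℝ) < N := by exact_mod_cast hN0
  have hy : ∀ x : ℤ, ∃ y : (ℕ × ℕ) × (ℕ × ℕ), x ∈ W → y ∈ T ∧ Good g κ' k N y (H * x) := by
    intro x
    by_cases hx : x ∈ W
    · obtain ⟨y, h6, h7⟩ := step h4 h5 hgn hPs hP hκ hN0 (hB N hNk) hA hBN (l x) (H * x) (hall x hx)
      exact ⟨y, fun _ => ⟨hT ▸ h6, h7⟩⟩
    · exact ⟨((0, 0), (0, 0)), fun h => absurd h hx⟩
  choose y hy using hy
  have hWne : W.Nonempty := by
    rw [← Finset.card_pos]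
    have : (0 : ℝ) < W.card := lt_of_lt_of_le (by positivity) hW
    exact_mod_cast this
  obtain ⟨x0, hx0⟩ := hWne
  have hTne : T.Nonempty := ⟨y x0, (hy x0 hx0).1⟩
  obtain ⟨z, hzT, hz⟩ := Finset.exists_le_card_fiber_of_nsmul_le_card_of_maps_to
    (s := W) (t := T) (f := y) (b := κ / D * N) (fun x hx => (hy x hx).1) hTne (by
      rw [nsmul_eq_mul]
      calc (T.card : ℝ) * (κ / D * N) ≤ D * (κ / D * N) := by
            apply mul_le_mul_of_nonneg_right _ (by positivity)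
            rw [hD]
            linarith
        _ = κ * N := by field_simp
        _ ≤ W.card := hW)
  obtain ⟨V, hV⟩ : ∃ V : Finset ℤ, V = W.filter (fun x => y x = z) := ⟨_, rfl⟩
  rw [← hV] at hz
  have hVg : ∀ x ∈ V, Good g κ' k N z (H * x) := by
    intro x hx
    rw [hV, Finset.mem_filter] at hx
    rw [← hx.2]
    exact (hy x hx.1).2
  have hVne : V.Nonempty := by
    rw [← Finset.card_pos]
    have : (0 : ℝ) < V.card := lt_of_lt_of_le (by positivity) hz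
    exact_mod_cast this
  obtain ⟨x1, hx1⟩ := hVne
  obtain ⟨t, ht⟩ := hU N hN0 g hgn (lo N k z.2.2) (hi N k z.2.2) (th z.1.1 z.1.2 z.2.1)
    (V.image (fun x => H * x)) (le_lo N k z.2.2) (hVg x1 hx1).1
    (by
      intro h hh
      obtain ⟨x, hx, rfl⟩ := Finset.mem_image.1 hh
      exact (hVg x hx).2.1)
    (by
      rw [Finset.card_image_of_injective _ (mul_right_injective₀ hH)]
      refine le_trans ?_ hz
      apply mul_le_mul_of_nonneg_right _ hNr.le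
      rw [hκ3]
      exact min_le_right _ _)
    (by
      intro h hh
      obtain ⟨x, hx, rfl⟩ := Finset.mem_image.1 hh
      refine le_trans ?_ (hVg x hx).2.2
      apply mul_le_mul_of_nonneg_right _ hNr.le
      rw [hκ3]
      exact min_le_left _ _)
  have h6 := hN1 N hNN1 (lo N k z.2.2) (hi N k z.2.2) t (le_lo N k z.2.2) (hVg x1 hx1).1
  have h7 := ht.trans h6
  have h8 : 0 < κ'' * N := by positivity
  linarith

end Pool.Agent.U3
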