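import Mathlib
import Pool.Agent.Work.MP_0f91f8_co.U3.Stmts

/-!
Block U3, item Few: few separated large frequencies.
-/

set_option autoImplicit false

namespace Pool.Agent.U3

open scoped ComplexConjugate Pointwise

namespace IFew

/-- the coefficients of `cor` -/
noncomputable def F (f : ℤ → ℂ) (A B h n : ℤ) : ℂ :=
  if n + h ∈ Finset.Icc A B then f (n + h) * conj (f n) else 0

lemma norm_F (f : ℤ → ℂ) (hf : ∀ n, ‖f n‖ ≤ 1) (A B h n : ℤ) : ‖F f A B h n‖ ≤ 1 := by
  unfold F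
  split_ifs
  · rw [norm_mul, RCLike.norm_conj]
    exact mul_le_one₀ (hf _) (norm_nonneg _) (hf _)
  · rw [norm_zero]; exact zero_le_one

lemma cor_eq (f : ℤ → ℂ) (A B h : ℤ) (a : ℝ) :
    cor f A B h a = ∑ n ∈ Finset.Icc A B, F f A B h n * ee (-(a * n)) := by
  unfold cor F
  refine Finset.sum_congr rfl fun n _ => ?_
  split_ifs
  · rfl
  · rw [zero_mul]

/-- unimodular factor -/
noncomputable def un (z : ℂ) : ℂ := conj z / (‖z‖ : ℂ)

lemma norm_un (z : ℂ) : ‖un z‖ ≤ 1 := by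
  unfold un
  rw [norm_div, RCLike.norm_conj, Complex.norm_real, norm_norm]
  exact div_self_le_one _

lemma un_mul (z : ℂ) : un z * z = (‖z‖ : ℂ) := by
  unfold un
  by_cases hz : z = 0
  · simp [hz]
  · have h1 : (‖z‖ : ℂ) ≠ 0 := by exact_mod_cast norm_ne_zero_iff.2 hz
    rw [div_mul_eq_mul_div, div_eq_iff h1, mul_comm, Complex.mul_conj, Complex.normSq_eq_norm_sq]
    push_cast
    ring

lemma card_le (A B : ℤ) (Z : ℝ) (hZ : 1 ≤ Z) (h : (B - A + 1 : ℝ) ≤ Z) :
    ((Finset.Icc A B).card : ℝ) ≤ Z := by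
  rw [Int.card_Icc]
  rcases le_total 0 (B + 1 - A) with h0 | h0
  · have : (((B + 1 - A).toNat : ℤ) : ℝ) = ((B + 1 - A : ℤ) : ℝ) := by rw [Int.toNat_of_nonneg h0]
    rw [Int.cast_natCast] at this
    rw [this]
    push_cast
    linarith
  · rw [Int.toNat_of_nonpos h0]
    push_cast
    linarith

end IFew

open IFew in
theorem pr_Few (h1 : StEE) (h2 : StGS) : StFew := by
  intro f A B h κ Z ι s a hf hκ hZ hBA hc hk
  classical
  by_contra hcon
  push Not at hcon
  obtain ⟨eadd, enorm, econj, -, ezero, -, -⟩ := h1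
  set c : ι → ℂ := fun i => cor f A B h (a i) with hcdef
  set G : ℤ → ℂ := fun m => ∑ i ∈ s, un (c i) * ee (-(a i * m)) with hG
  have hcard : ((Finset.Icc A B).card : ℝ) ≤ Z := card_le A B Z hZ hBA
  have hZ0 : 0 < Z := by linarith
  have hk0 : (0 : ℝ) < s.card := lt_of_le_of_lt (by positivity) hk
  -- the sum of the absolute values
  have e1 : ((∑ i ∈ s, ‖c i‖ : ℝ) : ℂ) = ∑ m ∈ Finset.Icc A B, F f A B h m * G m := by
    rw [Complex.ofReal_sum]
    have : ∀ i ∈ s, ((‖c i‖ : ℝ) : ℂ) =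
        ∑ m ∈ Finset.Icc A B, F f A B h m * (un (c i) * ee (-(a i * m))) := by
      intro i _
      rw [← un_mul]
      conv_lhs => rw [show c i = cor f A B h (a i) from rfl]
      nth_rewrite 2 [cor_eq]
      rw [Finset.mul_sum]
      refine Finset.sum_congr rfl fun m _ => ?_
      ring
    rw [Finset.sum_congr rfl this, Finset.sum_comm]
    refine Finset.sum_congr rfl fun m _ => ?_
    rw [hG, Finset.mul_sum]
  have e2 : κ * Z * s.card ≤ ∑ i ∈ s, ‖c i‖ := by
    have := Finset.sum_le_sum hc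
    rw [Finset.sum_const, nsmul_eq_mul] at this
    linarith
  have e3 : ∑ i ∈ s, ‖c i‖ ≤ ∑ m ∈ Finset.Icc A B, ‖G m‖ := by
    have h4 : ∑ i ∈ s, ‖c i‖ = ‖((∑ i ∈ s, ‖c i‖ : ℝ) : ℂ)‖ := by
      rw [Complex.norm_real, Real.norm_of_nonneg (Finset.sum_nonneg fun i _ => norm_nonneg _)]
    rw [h4, e1]
    refine (norm_sum_le _ _).trans (Finset.sum_le_sum fun m _ => ?_)
    rw [norm_mul]
    exact mul_le_of_le_one_left (norm_nonneg _) (norm_F f hf _ _ _ _)
  have e4 : (∑ m ∈ Finset.Icc A B, ‖G m‖) ^ 2 ≤ Z * ∑ m ∈ Finset.Icc A B, ‖G m‖ ^ 2 := by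
    refine sq_sum_le_card_mul_sum_sq.trans ?_
    exact mul_le_mul_of_nonneg_right hcard (Finset.sum_nonneg fun m _ => sq_nonneg _)
  -- the second moment
  have e5 : ((∑ m ∈ Finset.Icc A B, ‖G m‖ ^ 2 : ℝ) : ℂ) = ∑ i ∈ s, ∑ j ∈ s,
      un (c i) * conj (un (c j)) * ∑ m ∈ Finset.Icc A B, ee ((a j - a i) * m) := by
    rw [Complex.ofReal_sum]
    have : ∀ m ∈ Finset.Icc A B, ((‖G m‖ ^ 2 : ℝ) : ℂ) = ∑ i ∈ s, ∑ j ∈ s,
        un (c i) * conj (un (c j)) * ee ((a j - a i) * m) := by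
      intro m _
      have h5 : ((‖G m‖ ^ 2 : ℝ) : ℂ) = G m * conj (G m) := by
        rw [Complex.mul_conj, Complex.normSq_eq_norm_sq]
      rw [h5, hG, map_sum, Finset.sum_mul_sum]
      refine Finset.sum_congr rfl fun i _ => Finset.sum_congr rfl fun j _ => ?_
      rw [map_mul, econj]
      have h6 : ee ((a j - a i) * m) = ee (-(a i * m)) * ee (- -(a j * m)) := by
        rw [← eadd]
        congr 1
        ring
      rw [h6]
      ring
    rw [Finset.sum_congr rfl this, Finset.sum_comm]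
    refine Finset.sum_congr rfl fun i _ => ?_
    rw [Finset.sum_comm]
    refine Finset.sum_congr rfl fun j _ => ?_
    rw [Finset.mul_sum]
  have e6 : ∀ i ∈ s, ∀ j ∈ s, ‖∑ m ∈ Finset.Icc A B, ee ((a j - a i) * m)‖ ≤
      (if i = j then Z else 0) + κ ^ 2 * Z / 4 := by
    intro i hi j hj
    by_cases hij : i = j
    · subst hij
      rw [if_pos rfl]
      have h7 : ∑ m ∈ Finset.Icc A B, ee ((a i - a i) * m) = ((Finset.Icc A B).card : ℂ) := by
        rw [Finset.sum_congr rfl (fun m _ => by rw [sub_self, zero_mul, ezero]), Finset.sum_const,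
          nsmul_eq_mul, mul_one]
      rw [h7, Complex.norm_natCast]
      have : 0 ≤ κ ^ 2 * Z / 4 := by positivity
      linarith
    · rw [if_neg hij, zero_add]
      have h8 := h2 A B (a j - a i)
      have h9 := hcon j hj i hi (Ne.symm hij)
      have h10 : 0 < 2 / (κ ^ 2 * Z) := by positivity
      by_contra h11
      rw [not_le] at h11
      have h12 : κ ^ 2 * Z / 4 * (2 / (κ ^ 2 * Z)) = 1 / 2 := by
        field_simp
        norm_num
      have h13 : κ ^ 2 * Z / 4 * (2 / (κ ^ 2 * Z)) <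
          ‖∑ m ∈ Finset.Icc A B, ee ((a j - a i) * m)‖ * nd (a j - a i) := by
        apply mul_lt_mul'' h11 h9
        · positivity
        · exact h10.le
      linarith
  have e7 : ∑ m ∈ Finset.Icc A B, ‖G m‖ ^ 2 ≤ s.card * Z + (s.card : ℝ) ^ 2 * (κ ^ 2 * Z / 4) := by
    have h14 : ∑ m ∈ Finset.Icc A B, ‖G m‖ ^ 2 =
        ‖((∑ m ∈ Finset.Icc A B, ‖G m‖ ^ 2 : ℝ) : ℂ)‖ := by
      rw [Complex.norm_real, Real.norm_of_nonneg (Finset.sum_nonneg fun i _ => sq_nonneg _)]
    rw [h14, e5]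
    calc ‖∑ i ∈ s, ∑ j ∈ s,
        un (c i) * conj (un (c j)) * ∑ m ∈ Finset.Icc A B, ee ((a j - a i) * m)‖
        ≤ ∑ i ∈ s, ∑ j ∈ s, ((if i = j then Z else 0) + κ ^ 2 * Z / 4) := by
          refine (norm_sum_le _ _).trans (Finset.sum_le_sum fun i hi => ?_)
          refine (norm_sum_le _ _).trans (Finset.sum_le_sum fun j hj => ?_)
          rw [norm_mul, norm_mul, RCLike.norm_conj]
          refine le_trans ?_ (e6 i hi j hj)
          exact mul_le_of_le_one_left (norm_nonneg _)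
            (mul_le_one₀ (norm_un _) (norm_nonneg _) (norm_un _))
      _ = s.card * Z + (s.card : ℝ) ^ 2 * (κ ^ 2 * Z / 4) := by
          have : ∀ i ∈ s, ∑ j ∈ s, ((if i = j then Z else 0) + κ ^ 2 * Z / 4) =
              Z + s.card * (κ ^ 2 * Z / 4) := by
            intro i hi
            rw [Finset.sum_add_distrib, Finset.sum_ite_eq, if_pos hi, Finset.sum_const,
              nsmul_eq_mul]
          rw [Finset.sum_congr rfl this, Finset.sum_const, nsmul_eq_mul]
          ring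
  -- conclusion
  have e8 : (κ * Z * s.card) ^ 2 ≤ Z * (s.card * Z + (s.card : ℝ) ^ 2 * (κ ^ 2 * Z / 4)) := by
    calc (κ * Z * s.card) ^ 2 ≤ (∑ m ∈ Finset.Icc A B, ‖G m‖) ^ 2 := by
          apply pow_le_pow_left₀ (by positivity)
          exact e2.trans e3
      _ ≤ _ := e4
      _ ≤ _ := mul_le_mul_of_nonneg_left e7 hZ0.le
  have e9 : 3 * κ ^ 2 * s.card ≤ 4 := by
    have h15 : (Z ^ 2 * s.card) * (3 * κ ^ 2 * s.card) ≤ (Z ^ 2 * s.card) * 4 := by
      nlinarith [e8]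
    exact le_of_mul_le_mul_left h15 (by positivity)
  rw [div_lt_iff₀ (by positivity)] at hk
  linarith

end Pool.Agent.U3
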