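import Mathlib
import Pool.Agent.Work.MP_0f91f8_co.U3.Stmts

/-!
# Block U3, item Fib: the fibre over 0 of a graph with small doubling
-/

set_option autoImplicit false

open scoped Pointwise

namespace Pool.Agent.U3

namespace IFib

theorem sum_mem {G : Type} [AddCommGroup G] [DecidableEq G] (s : Finset G) (n : ℕ) :
    ∀ f : Fin n → G, (∀ i, f i ∈ s) → ∑ i, f i ∈ n • s := by
  induction n with
  | zero =>
    intro f _
    simp
  | succ n ih =>
    intro f hf
    rw [Fin.sum_univ_castSucc, succ_nsmul]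
    exact Finset.add_mem_add (ih _ fun i => hf _) (hf _)

theorem main (K : ℝ) (M : ℕ) [NeZero M] (R : Finset ℤ) (w : ℤ → ZMod M) (hR : R.Nonempty)
    (h : (((R.image fun r => (r, w r)) - (R.image fun r => (r, w r))).card : ℝ) ≤ K * R.card) :
    ∃ A0 : Finset (ZMod M), (A0.card : ℝ) ≤ K ^ 13 ∧
      ∀ x y : Fin 6 → ℤ, (∀ i, x i ∈ R) → (∀ i, y i ∈ R) → ∑ i, x i = ∑ i, y i →
        ∑ i, w (x i) - ∑ i, w (y i) ∈ A0 := by
  classical
  set Γ : Finset (ℤ × ZMod M) := R.image fun r => (r, w r) with hΓ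
  have hcard : Γ.card = R.card := by
    refine Finset.card_image_of_injective _ fun a b hab => ?_
    exact (Prod.mk.inj hab).1
  have hΓne : Γ.Nonempty := hR.image _
  have hpos : (0 : ℝ) < Γ.card := by exact_mod_cast hΓne.card_pos
  refine ⟨Finset.univ.filter fun ω => ((0 : ℤ), ω) ∈ 6 • Γ - 6 • Γ, ?_, ?_⟩
  · set A0 : Finset (ZMod M) := Finset.univ.filter fun ω => ((0 : ℤ), ω) ∈ 6 • Γ - 6 • Γ with hA0
    have h1 : (Γ ×ˢ A0).card ≤ (7 • Γ - 6 • Γ).card := by
      refine Finset.card_le_card_of_injOn (fun p => p.1 + ((0 : ℤ), p.2)) ?_ ?_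
      · intro p hp
        have hp' := Finset.mem_product.1 (Finset.mem_coe.1 hp)
        have h2 : ((0 : ℤ), p.2) ∈ 6 • Γ - 6 • Γ := (Finset.mem_filter.1 hp'.2).2
        obtain ⟨a, ha, b, hb, hab⟩ := Finset.mem_sub.1 h2
        refine Finset.mem_coe.2 (Finset.mem_sub.2 ⟨a + p.1, ?_, b, hb, ?_⟩)
        · rw [succ_nsmul]
          exact Finset.add_mem_add ha hp'.1
        · simp only
          rw [← hab]
          abel
      · intro p hp q hq hpq
        have hp' := Finset.mem_product.1 (Finset.mem_coe.1 hp)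
        have hq' := Finset.mem_product.1 (Finset.mem_coe.1 hq)
        obtain ⟨r, _, hr⟩ := Finset.mem_image.1 hp'.1
        obtain ⟨r', _, hr'⟩ := Finset.mem_image.1 hq'.1
        simp only at hpq
        rw [← hr, ← hr', Prod.mk_add_mk, Prod.mk_add_mk, add_zero, add_zero] at hpq
        obtain ⟨e1, e2⟩ := Prod.mk.inj hpq
        subst e1
        have e3 := add_left_cancel e2
        exact Prod.ext (hr.symm.trans hr') e3
    have h2 := Finset.pluennecke_ruzsa_inequality_nsmul_sub_nsmul_sub hΓne Γ 7 6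
    have h3 : ((7 • Γ - 6 • Γ).card : ℝ) ≤ (((Γ - Γ).card : ℝ) / Γ.card) ^ 13 * Γ.card := by
      have h2' := (NNRat.cast_le (K := ℝ)).2 h2
      push_cast at h2'
      exact h2'
    have h4 : ((Γ - Γ).card : ℝ) / Γ.card ≤ K := by
      rw [div_le_iff₀ hpos, hcard]
      exact h
    have h5 : (((Γ - Γ).card : ℝ) / Γ.card) ^ 13 ≤ K ^ 13 :=
      pow_le_pow_left₀ (by positivity) h4 13
    have h6 : (Γ.card : ℝ) * A0.card ≤ K ^ 13 * Γ.card := by
      have h7 : ((Γ ×ˢ A0).card : ℝ) ≤ ((7 • Γ - 6 • Γ).card : ℝ) := by exact_mod_cast h1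
      rw [Finset.card_product, Nat.cast_mul] at h7
      exact h7.trans (h3.trans (mul_le_mul_of_nonneg_right h5 hpos.le))
    rw [mul_comm] at h6
    exact le_of_mul_le_mul_right h6 hpos
  · intro x y hx hy hxy
    refine Finset.mem_filter.2 ⟨Finset.mem_univ _, ?_⟩
    have h1 := sum_mem Γ 6 (fun i => (x i, w (x i))) fun i => Finset.mem_image_of_mem _ (hx i)
    have h2 := sum_mem Γ 6 (fun i => (y i, w (y i))) fun i => Finset.mem_image_of_mem _ (hy i)
    have h3 := Finset.sub_mem_sub h1 h2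
    have h4 : ∑ i : Fin 6, ((x i, w (x i)) : ℤ × ZMod M) - ∑ i : Fin 6, (y i, w (y i)) =
        ((0 : ℤ), ∑ i, w (x i) - ∑ i, w (y i)) := by
      refine Prod.ext ?_ ?_
      · rw [Prod.fst_sub, Prod.fst_sum, Prod.fst_sum, hxy, sub_self]
      · rw [Prod.snd_sub, Prod.snd_sum, Prod.snd_sum]
    rw [h4] at h3
    exact h3

end IFib

theorem pr_Fib : StFib := by
  intro K _ M _ R w hR h
  exact IFib.main K M R w hR h

end Pool.Agent.U3
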