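import Mathlib
import Pool.Agent.Work.MP_0f91f8_co.U3.Stmts
import Pool.Agent.Work.MP_f39168_co.SD.BSG

/-!
# Block U3, item Frm: energy gives a Freiman homomorphism on a dense subset
-/

set_option autoImplicit false

open scoped Pointwise

namespace Pool.Agent.U3

namespace IFrm

theorem bsg' {M : ℕ} [NeZero M] (A : Finset (ℤ × ZMod M)) {K : ℝ} (hK : 1 ≤ K) (hA : A.Nonempty)
    (hE : (A.card : ℝ) ^ 3 ≤ K * Finset.addEnergy A A) :
    ∃ A' ⊆ A, (A.card : ℝ) ≤ 12 * K * A'.card ∧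
      ((A' - A').card : ℝ) ≤ 10 ^ 15 * K ^ 18 * A'.card := by
  obtain ⟨A', h1, h2, h3⟩ := Pool.Agent.F39168.SD.bsg (A := A) hK hA (by convert hE)
  exact ⟨A', h1, h2, by convert h3⟩

theorem graph_eq {M : ℕ} (R : Finset ℤ) (w : ℤ → ZMod M) (A' : Finset (ℤ × ZMod M))
    (h : A' ⊆ R.image fun r => (r, w r)) :
    (A'.image Prod.fst).image (fun r => (r, w r)) = A' := by
  ext p
  simp only [Finset.mem_image]
  constructor
  · rintro ⟨r, ⟨q, hq, rfl⟩, rfl⟩
    obtain ⟨s, _, rfl⟩ := Finset.mem_image.1 (h hq)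
    exact hq
  · intro hp
    obtain ⟨s, _, rfl⟩ := Finset.mem_image.1 (h hp)
    exact ⟨s, ⟨(s, w s), hp, rfl⟩, rfl⟩

theorem card_graph {M : ℕ} (R : Finset ℤ) (w : ℤ → ZMod M) :
    (R.image fun r => (r, w r)).card = R.card :=
  Finset.card_image_of_injective _ fun _ _ hab => (Prod.mk.inj hab).1

end IFrm

theorem pr_Frm (h1 : StFib) (h2 : StKil) : StFrm := by
  intro κ hκ
  set K : ℝ := max 1 (1 / κ) with hK
  have hK1 : 1 ≤ K := le_max_left _ _
  have hKκ : 1 / κ ≤ K := le_max_right _ _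
  set K' : ℝ := 10 ^ 15 * K ^ 18 with hK'
  have hK'1 : 1 ≤ K' := by
    have h3 : (1 : ℝ) ≤ K ^ 18 := one_le_pow₀ hK1
    rw [hK']
    linarith
  obtain ⟨κ2, hκ2, hkil⟩ := h2 ⌈K' ^ 13⌉₊
  have hK0 : 0 < K := by linarith
  refine ⟨κ2 / (12 * K), by positivity, fun M hM hM3 R w hE => ?_⟩
  have : NeZero M := ⟨by omega⟩
  rcases R.eq_empty_or_nonempty with hR | hR
  · refine ⟨R, subset_rfl, ?_, fun x _ hx _ _ => ?_⟩
    · rw [hR]
      simp
    · have := hx 0
      rw [hR] at this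
      simp at this
  · have hR0 : (0 : ℝ) < R.card := by exact_mod_cast hR.card_pos
    have hcard := IFrm.card_graph R w
    obtain ⟨A', hA', hb1, hb2⟩ := IFrm.bsg' (R.image fun r => (r, w r)) hK1 (hR.image _) (by
      rw [hcard]
      have h3 : (R.card : ℝ) ^ 3 ≤ 1 / κ *
          (Finset.addEnergy (R.image fun r => (r, w r)) (R.image fun r => (r, w r)) : ℝ) := by
        rw [one_div, le_inv_mul_iff₀ hκ]
        exact hE
      exact h3.trans (mul_le_mul_of_nonneg_right hKκ (Nat.cast_nonneg _)))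
    set R1 : Finset ℤ := A'.image Prod.fst with hR1
    have hg : R1.image (fun r => (r, w r)) = A' := IFrm.graph_eq R w A' hA'
    have hc1 : A'.card = R1.card := by
      rw [← IFrm.card_graph R1 w, hg]
    have hsub : R1 ⊆ R := by
      intro r hr
      obtain ⟨p, hp, rfl⟩ := Finset.mem_image.1 hr
      obtain ⟨s, hs, rfl⟩ := Finset.mem_image.1 (hA' hp)
      exact hs
    rw [hcard] at hb1
    have hA0 : (0 : ℝ) < A'.card := by
      by_contra h
      have h4 : (A'.card : ℝ) ≤ 0 := not_lt.1 h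
      have h5 : 12 * K * A'.card ≤ 0 := mul_nonpos_of_nonneg_of_nonpos (by positivity) h4
      linarith
    have hR1ne : R1.Nonempty := by
      rw [← Finset.card_pos, ← hc1]
      exact_mod_cast hA0
    obtain ⟨A0, hA0c, hA0m⟩ := h1 K' hK'1 M R1 w hR1ne (by rw [hg, ← hc1]; exact hb2)
    obtain ⟨R', hR', hR'c, hR'm⟩ := hkil M hM hM3 R1 w A0 (by
      have h4 : (A0.card : ℝ) ≤ (⌈K' ^ 13⌉₊ : ℝ) := hA0c.trans (Nat.le_ceil _)
      exact_mod_cast h4)
    refine ⟨R', hR'.trans hsub, ?_, fun x y hx hy hxy => ?_⟩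
    · refine le_trans ?_ hR'c
      rw [← hc1, div_mul_eq_mul_div, div_le_iff₀ (by positivity)]
      calc κ2 * (R.card : ℝ) ≤ κ2 * (12 * K * A'.card) := mul_le_mul_of_nonneg_left hb1 hκ2.le
        _ = κ2 * A'.card * (12 * K) := by ring
    · exact hR'm x y hx hy (hA0m x y (fun i => hR' (hx i)) (fun i => hR' (hy i)) hxy)

end Pool.Agent.U3
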