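import Mathlib
import Pool.Agent.Work.MP_0f91f8_co.U3.Stmts

/-!
# Block U3, item Frq: frequencies in `ZMod M`
-/

set_option autoImplicit false

namespace Pool.Agent.U3

open scoped ComplexConjugate Pointwise

namespace IFrq

/-- `SS` is periodic in the frequency. -/
theorem per (h1 : StEE) (f : ℤ → ℂ) (A B h k : ℤ) (a : ℝ) :
    SS f A B h (a + k) = SS f A B h a := by
  obtain ⟨-, -, -, -, -, hper, -⟩ := h1
  unfold SS cor
  congr 2
  refine Finset.sum_congr rfl (fun n _ => ?_)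
  have e : ee (-((a + k) * n)) = ee (-(a * n)) := by
    have h : -((a + k) * (n : ℝ)) = -(a * n) + ((-(k * n) : ℤ) : ℝ) := by
      push_cast
      ring
    rw [h, hper]
  rw [e]

/-- A natural number times `w.val` and the like: the frequency of a class is determined by any
integer representative, up to an integer. -/
theorem rep (M : ℕ) [NeZero M] (w : ZMod M) (z : ℤ) (hz : (z : ZMod M) = w) :
    ∃ k : ℤ, fr w = (z : ℝ) / M + k := by
  have hM : (M : ℝ) ≠ 0 := by
    have := NeZero.ne M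
    exact_mod_cast this
  have h1 : ((z : ℤ) : ZMod M) = ((w.val : ℤ) : ZMod M) := by
    rw [hz]
    simp
  have h2 : (M : ℤ) ∣ (w.val : ℤ) - z := (ZMod.intCast_eq_intCast_iff_dvd_sub _ _ _).mp h1
  obtain ⟨k, hk⟩ := h2
  refine ⟨k, ?_⟩
  have h3 : (w.val : ℝ) - z = M * k := by exact_mod_cast hk
  unfold fr
  rw [div_add' _ _ _ hM]
  congr 1
  linarith

end IFrq

/-- [Frq] -/
theorem pr_Frq (h1 : StEE) : StFrq := by
  have hM : ∀ (M : ℕ) [NeZero M], (M : ℝ) ≠ 0 := by
    intro M _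
    have := NeZero.ne M
    exact_mod_cast this
  have P2 : ∀ (M : ℕ) [NeZero M] (w w' : ZMod M), ∃ k : ℤ, fr (w - w') = fr w - fr w' + k := by
    intro M _ w w'
    obtain ⟨k, hk⟩ := IFrq.rep M (w - w') ((w.val : ℤ) - (w'.val : ℤ)) (by simp)
    refine ⟨k, ?_⟩
    rw [hk]
    unfold fr
    push_cast
    ring
  have P3 : ∀ (M : ℕ) [NeZero M] (w : ZMod M) (q : ℕ), ∃ k : ℤ, fr (q • w) = q * fr w + k := by
    intro M _ w q
    obtain ⟨k, hk⟩ := IFrq.rep M (q • w) ((q : ℤ) * (w.val : ℤ)) (by simp)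
    refine ⟨k, ?_⟩
    rw [hk]
    unfold fr
    push_cast
    ring
  refine ⟨IFrq.per h1, P2, P3, ?_, ?_⟩
  · intro M _ f A B h w w'
    obtain ⟨k, hk⟩ := P2 M w w'
    unfold SZ
    rw [hk, IFrq.per h1]
  · intro M _ f A B h w q
    obtain ⟨k, hk⟩ := P3 M w q
    unfold SZ
    rw [hk, IFrq.per h1]

end Pool.Agent.U3
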