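import Mathlib
import Pool.Agent.Work.MP_0f91f8_co.U3.Stmts

/-!
Block U3, item GS: geometric sums.
-/

set_option autoImplicit false

namespace Pool.Agent.U3

open scoped ComplexConjugate Pointwise

namespace IGS

lemma tel (f : ℤ → ℂ) (A : ℤ) (k : ℕ) :
    ∑ n ∈ Finset.Icc A (A + k), (f (n + 1) - f n) = f (A + k + 1) - f A := by
  induction k with
  | zero => simp
  | succ k ih =>
    have e : Finset.Icc A (A + (k + 1 : ℕ)) = insert (A + k + 1) (Finset.Icc A (A + k)) := by
      ext x
      simp only [Finset.mem_Icc, Finset.mem_insert]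
      push_cast
      omega
    rw [e, Finset.sum_insert (by simp only [Finset.mem_Icc]; omega), ih]
    push_cast
    have e2 : A + ((k : ℤ) + 1) + 1 = A + k + 1 + 1 := by ring
    rw [e2]
    ring

lemma norm_ee_sub (t : ℝ) : 4 * nd t ≤ ‖ee t - 1‖ := by
  have h1 : ee t = Complex.exp (Complex.I * ((2 * Real.pi * t : ℝ) : ℂ)) := by
    unfold ee
    congr 1
    push_cast
    ring
  rw [h1, Complex.norm_exp_I_mul_ofReal_sub_one, Real.norm_eq_abs, abs_mul]
  have h2 : 2 * Real.pi * t / 2 = Real.pi * t := by ring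
  rw [h2]
  have h3 : |Real.sin (Real.pi * t)| = |Real.sin (Real.pi * (t - round t))| := by
    have : Real.pi * (t - round t) = Real.pi * t - (round t : ℤ) * Real.pi := by ring
    rw [this, Real.sin_sub_int_mul_pi, abs_mul, abs_zpow, abs_neg, abs_one, one_zpow, one_mul]
  have h4 : |Real.sin (Real.pi * (t - round t))| = Real.sin (Real.pi * nd t) := by
    unfold nd
    have hle : |t - round t| ≤ 1 / 2 := abs_sub_round t
    have hpos : 0 ≤ Real.sin (Real.pi * |t - round t|) := by
      apply Real.sin_nonneg_of_nonneg_of_le_pi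
      · positivity
      · nlinarith [Real.pi_pos, abs_nonneg (t - round t)]
    rcases abs_cases (t - round t) with ⟨h, _⟩ | ⟨h, _⟩
    · rw [h] at hpos ⊢
      exact abs_of_nonneg hpos
    · have : Real.sin (Real.pi * (t - round t)) = -Real.sin (Real.pi * |t - round t|) := by
        rw [← Real.sin_neg, h]
        congr 1
        ring
      rw [this, abs_neg, abs_of_nonneg hpos]
  rw [h3, h4, abs_of_pos (by norm_num : (0 : ℝ) < 2)]
  have hle : nd t ≤ 1 / 2 := abs_sub_round t
  have hnn : 0 ≤ nd t := abs_nonneg _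
  have h5 := Real.mul_le_sin (x := Real.pi * nd t) (by positivity)
    (by nlinarith [Real.pi_pos])
  have h6 : 2 / Real.pi * (Real.pi * nd t) = 2 * nd t := by
    field_simp
  rw [h6] at h5
  linarith

end IGS

open IGS in
theorem pr_GS (h1 : StEE) (_h2 : StND) : StGS := by
  intro A B t
  obtain ⟨eadd, enorm, -, -, -, -, -⟩ := h1
  have hnn : 0 ≤ nd t := abs_nonneg _
  rcases lt_or_ge B A with hBA | hBA
  · rw [Finset.Icc_eq_empty (by omega)]
    simp
  · obtain ⟨k, hk⟩ := Int.eq_ofNat_of_zero_le (show 0 ≤ B - A by omega)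
    have hB : B = A + k := by omega
    subst hB
    set S := ∑ n ∈ Finset.Icc A (A + k), ee (t * n) with hS
    have e1 : (ee t - 1) * S = ee (t * (A + k + 1 : ℤ)) - ee (t * A) := by
      have h3 := tel (fun n : ℤ => ee (t * n)) A k
      rw [← h3, hS, Finset.mul_sum]
      refine Finset.sum_congr rfl fun n _ => ?_
      have h4 : ee (t * ((n + 1 : ℤ) : ℝ)) = ee t * ee (t * n) := by
        rw [← eadd]
        congr 1
        push_cast
        ring
      rw [h4]
      ring
    have e2 : ‖ee t - 1‖ * ‖S‖ ≤ 2 := by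
      rw [← norm_mul, e1]
      refine (norm_sub_le _ _).trans ?_
      rw [enorm, enorm]
      norm_num
    have e3 := norm_ee_sub t
    have e4 : 4 * nd t * ‖S‖ ≤ ‖ee t - 1‖ * ‖S‖ := mul_le_mul_of_nonneg_right e3 (norm_nonneg _)
    nlinarith

end Pool.Agent.U3
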