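import Mathlib
import Pool.Agent.Work.MP_0f91f8_co.U3.Stmts

set_option autoImplicit false

/-!
# Block U3, item Kat: linear phases on all intervals
-/

namespace Pool.Agent.U3

open scoped ComplexConjugate

namespace IKat

theorem norm_ee (x : ℝ) : ‖ee x‖ = 1 := by
  have h : (2 * Real.pi * Complex.I * x : ℂ) = ((2 * Real.pi * x : ℝ) : ℂ) * Complex.I := by
    push_cast
    ring
  rw [ee, h, Complex.norm_exp_ofReal_mul_I]

theorem norm_g {g : ℤ → ℂ} (hg : CM g) (m : ℤ) : ‖g m‖ ≤ 1 := by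
  by_cases h : m = 0
  · rw [h, hg.zero, norm_zero]
    exact zero_le_one
  · exact (hg.nrm m h).le

theorem norm_t {g : ℤ → ℂ} (hg : CM g) (m : ℤ) (t : ℝ) : ‖g m * ee (t * m)‖ ≤ 1 := by
  rw [norm_mul, norm_ee, mul_one]
  exact norm_g hg m

/-- initial sums, all `x` and `t` -/
theorem init (h1 : StKt1) (h2 : StKt2) {g : ℤ → ℂ} (hg : CM g) (ha : Aper g) {ε : ℝ}
    (hε : 0 < ε) : ∃ C : ℝ, 0 ≤ C ∧ ∀ (x : ℕ) (t : ℝ),
      ‖∑ m ∈ Finset.Icc (1 : ℤ) x, g m * ee (t * m)‖ ≤ ε * x + C := by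
  obtain ⟨D, C, x0, hx0⟩ := h1 ε hε
  obtain ⟨x1, hx1⟩ := h2 g hg ha ε C D hε
  refine ⟨(max x0 x1 : ℕ), Nat.cast_nonneg _, fun x t => ?_⟩
  have hεx : 0 ≤ ε * x := mul_nonneg hε.le (Nat.cast_nonneg x)
  by_cases hx : max x0 x1 ≤ x
  · have hC : (0 : ℝ) ≤ (max x0 x1 : ℕ) := Nat.cast_nonneg _
    by_cases h : ε * x ≤ ‖∑ m ∈ Finset.Icc (1 : ℤ) x, g m * ee (t * m)‖
    · have h3 := hx1 x ((le_max_right _ _).trans hx) t
        (hx0 g hg x ((le_max_left _ _).trans hx) t h)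
      linarith
    · push Not at h
      linarith
  · push Not at hx
    have h3 : ‖∑ m ∈ Finset.Icc (1 : ℤ) x, g m * ee (t * m)‖ ≤ x := by
      refine (norm_sum_le _ _).trans ((Finset.sum_le_sum fun m _ => norm_t hg m t).trans ?_)
      simp
    have h4 : (x : ℝ) ≤ (max x0 x1 : ℕ) := by exact_mod_cast hx.le
    linarith

theorem pos {g : ℤ → ℂ} {ε C : ℝ} (hε : 0 < ε) (hC : 0 ≤ C)
    (h : ∀ (x : ℕ) (t : ℝ), ‖∑ m ∈ Finset.Icc (1 : ℤ) x, g m * ee (t * m)‖ ≤ ε * x + C)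
    (N : ℕ) (A B : ℤ) (hA : 1 ≤ A) (hB : B ≤ N) (t : ℝ) :
    ‖∑ m ∈ Finset.Icc A B, g m * ee (t * m)‖ ≤ 2 * (ε * N + C) := by
  have hN : 0 ≤ ε * N := mul_nonneg hε.le (Nat.cast_nonneg N)
  by_cases hAB : A ≤ B
  · obtain ⟨b, hb⟩ : ∃ b : ℕ, (b : ℤ) = B := ⟨B.toNat, Int.toNat_of_nonneg (by omega)⟩
    obtain ⟨a, ha⟩ : ∃ a : ℕ, (a : ℤ) = A - 1 := ⟨(A - 1).toNat, Int.toNat_of_nonneg (by omega)⟩
    have h1 : Finset.Icc (1 : ℤ) b = Finset.Icc (1 : ℤ) a ∪ Finset.Icc A B := by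
      ext m
      simp only [Finset.mem_Icc, Finset.mem_union]
      omega
    have h2 : Disjoint (Finset.Icc (1 : ℤ) a) (Finset.Icc A B) := by
      rw [Finset.disjoint_left]
      intro m hm hm'
      simp only [Finset.mem_Icc] at hm hm'
      omega
    have h3 : ∑ m ∈ Finset.Icc A B, g m * ee (t * m) =
        ∑ m ∈ Finset.Icc (1 : ℤ) b, g m * ee (t * m) -
          ∑ m ∈ Finset.Icc (1 : ℤ) a, g m * ee (t * m) := by
      rw [h1, Finset.sum_union h2]
      ring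
    have hbN : (b : ℝ) ≤ N := by
      have : (b : ℤ) ≤ N := by omega
      exact_mod_cast this
    have haN : (a : ℝ) ≤ N := by
      have : (a : ℤ) ≤ N := by omega
      exact_mod_cast this
    rw [h3]
    refine (norm_sub_le _ _).trans ?_
    have h4 := h b t
    have h5 := h a t
    have h6 : ε * b ≤ ε * N := mul_le_mul_of_nonneg_left hbN hε.le
    have h7 : ε * a ≤ ε * N := mul_le_mul_of_nonneg_left haN hε.le
    linarith
  · rw [Finset.Icc_eq_empty hAB, Finset.sum_empty, norm_zero]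
    linarith

theorem neg {g : ℤ → ℂ} (hg : CM g) (A B : ℤ) (t : ℝ) :
    ‖∑ m ∈ Finset.Icc A B, g m * ee (t * m)‖ =
      ‖∑ m ∈ Finset.Icc (-B) (-A), g m * ee (-t * m)‖ := by
  have h1 : ∑ m ∈ Finset.Icc A B, g m * ee (t * m) =
      g (-1) * ∑ m ∈ Finset.Icc (-B) (-A), g m * ee (-t * m) := by
    rw [Finset.mul_sum]
    refine Finset.sum_nbij' (fun m => -m) (fun m => -m) ?_ ?_ ?_ ?_ ?_
    · intro m hm
      simp only [Finset.mem_Icc] at hm ⊢
      omega
    · intro m hm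
      simp only [Finset.mem_Icc] at hm ⊢
      omega
    · intro m _
      exact neg_neg m
    · intro m _
      exact neg_neg m
    · intro m _
      rw [← mul_assoc, ← hg.mul]
      congr 2
      · ring
      · push_cast
        ring
  rw [h1, norm_mul, hg.nrm (-1) (by norm_num), one_mul]

end IKat

theorem pr_Kat (h1 : StKt1) (h2 : StKt2) : StKat := by
  intro g hg ha ε hε
  obtain ⟨C, hC, h⟩ := IKat.init h1 h2 hg ha (show 0 < ε / 8 by positivity)
  refine ⟨⌈8 * C / ε⌉₊, fun N hN A B t hA hB => ?_⟩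
  have hNC : 8 * C / ε ≤ N := (Nat.le_ceil _).trans (by exact_mod_cast hN)
  have hNC' : 8 * C ≤ N * ε := (div_le_iff₀ hε).1 hNC
  have hs : ∑ m ∈ Finset.Icc A B, g m * ee (t * m) =
      ∑ m ∈ Finset.Icc (max A 1) B, g m * ee (t * m) +
        ∑ m ∈ Finset.Icc A (min B (-1)), g m * ee (t * m) := by
    have e1 : Finset.Icc (max A 1) B = (Finset.Icc A B).filter (fun m => 0 < m) := by
      ext m
      simp only [Finset.mem_Icc, Finset.mem_filter]
      omega
    have e2 : Finset.Icc A (min B (-1)) = (Finset.Icc A B).filter (fun m => m < 0) := by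
      ext m
      simp only [Finset.mem_Icc, Finset.mem_filter]
      omega
    rw [e1, e2, Finset.sum_filter, Finset.sum_filter, ← Finset.sum_add_distrib]
    refine Finset.sum_congr rfl fun m _ => ?_
    rcases lt_trichotomy m 0 with h3 | h3 | h3
    · rw [if_neg (by omega), if_pos h3, zero_add]
    · rw [h3, hg.zero]
      simp
    · rw [if_pos h3, if_neg (by omega), add_zero]
  have h5 := IKat.pos (show 0 < ε / 8 by positivity) hC h N (max A 1) B (le_max_right _ _) hB t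
  have h6 := IKat.pos (show 0 < ε / 8 by positivity) hC h N (-(min B (-1))) (-A) (by omega)
    (by omega) (-t)
  rw [hs]
  refine (norm_add_le _ _).trans ?_
  rw [IKat.neg hg A (min B (-1)) t]
  linarith

end Pool.Agent.U3
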