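import Mathlib
import Pool.Agent.Work.MP_0f91f8_co.U3.Stmts

/-!
# Block U3, item Kil: killing a bounded fibre by a pigeonhole
-/

set_option autoImplicit false

namespace Pool.Agent.U3

namespace IKil

theorem close {M a b c : ℕ} (hM : 0 < M) (ha : 32 * a / M = c) (hb : 32 * b / M = c) :
    32 * ((a : ℤ) - b) < M ∧ -(M : ℤ) < 32 * ((a : ℤ) - b) := by
  have h1 := Nat.div_add_mod (32 * a) M
  have h2 := Nat.div_add_mod (32 * b) M
  have h3 := Nat.mod_lt (32 * a) hM
  have h4 := Nat.mod_lt (32 * b) hM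
  rw [ha] at h1
  rw [hb] at h2
  constructor <;> omega

end IKil

open IKil in
theorem pr_Kil : StKil := by
  classical
  intro C
  refine ⟨1 / 32 ^ C, by positivity, ?_⟩
  intro M hM hM3 R w A0 hA
  have : Fact M.Prime := ⟨hM⟩
  have hM0 : 0 < M := hM.pos
  have : NeZero M := ⟨hM0.ne'⟩
  let t : ZMod M → ZMod M := fun ω => ω⁻¹ * (((M - 1) / 2 : ℕ) : ZMod M)
  let col : ℤ → (A0 → Fin 32) := fun r ω => ⟨32 * (t ω * w r).val / M,
    Nat.div_lt_of_lt_mul (by
      have := ZMod.val_lt (t ω * w r)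
      rw [mul_comm M 32]
      exact Nat.mul_lt_mul_of_pos_left this (by norm_num))⟩
  obtain ⟨c, -, hc⟩ := Finset.exists_le_card_fiber_of_nsmul_le_card_of_maps_to
    (s := R) (t := (Finset.univ : Finset (A0 → Fin 32))) (f := col)
    (b := 1 / 32 ^ C * (R.card : ℝ)) (fun _ _ => Finset.mem_univ _)
    ⟨fun _ => 0, Finset.mem_univ _⟩ (by
      rw [Finset.card_univ, Fintype.card_fun, Fintype.card_fin, Fintype.card_coe, nsmul_eq_mul]
      push_cast
      have h1 : (32 : ℝ) ^ A0.card ≤ 32 ^ C := pow_le_pow_right₀ (by norm_num) hA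
      have h2 : (0 : ℝ) < 32 ^ C := by positivity
      calc (32 : ℝ) ^ A0.card * (1 / 32 ^ C * (R.card : ℝ))
          = (32 ^ A0.card / 32 ^ C) * R.card := by ring
        _ ≤ 1 * R.card := mul_le_mul_of_nonneg_right ((div_le_one h2).2 h1) (Nat.cast_nonneg _)
        _ = R.card := one_mul _)
  refine ⟨R.filter (fun r => col r = c), Finset.filter_subset _ _, hc, ?_⟩
  intro x y hx hy hD
  by_contra hne
  set D := ∑ i, w (x i) - ∑ i, w (y i) with hDd
  have hD0 : D ≠ 0 := sub_ne_zero.2 hne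
  have hcx : ∀ i, 32 * (t D * w (x i)).val / M = (c ⟨D, hD⟩ : ℕ) := fun i =>
    congrArg Fin.val (congrFun (Finset.mem_filter.1 (hx i)).2 ⟨D, hD⟩)
  have hcy : ∀ i, 32 * (t D * w (y i)).val / M = (c ⟨D, hD⟩ : ℕ) := fun i =>
    congrArg Fin.val (congrFun (Finset.mem_filter.1 (hy i)).2 ⟨D, hD⟩)
  have hab := fun i => close hM0 (hcx i) (hcy i)
  set k : ℤ := ∑ i, (((t D * w (x i)).val : ℤ) - ((t D * w (y i)).val : ℤ)) with hk
  have hk1 : 32 * k < 6 * M := by
    rw [hk, Fin.sum_univ_six]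
    have h0 := (hab 0).1
    have h1 := (hab 1).1
    have h2 := (hab 2).1
    have h3 := (hab 3).1
    have h4 := (hab 4).1
    have h5 := (hab 5).1
    linarith
  have hk2 : -(6 * (M : ℤ)) < 32 * k := by
    rw [hk, Fin.sum_univ_six]
    have h0 := (hab 0).2
    have h1 := (hab 1).2
    have h2 := (hab 2).2
    have h3 := (hab 3).2
    have h4 := (hab 4).2
    have h5 := (hab 5).2
    linarith
  have hkM : ((k : ℤ) : ZMod M) = (((M - 1) / 2 : ℕ) : ZMod M) := by
    have hv : ∀ z : ZMod M, (((z.val : ℕ) : ℤ) : ZMod M) = z := by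
      intro z
      simp
    rw [hk, Int.cast_sum]
    simp_rw [Int.cast_sub, hv]
    rw [Finset.sum_sub_distrib, ← Finset.mul_sum, ← Finset.mul_sum, ← mul_sub, ← hDd]
    change D⁻¹ * (((M - 1) / 2 : ℕ) : ZMod M) * D = _
    rw [mul_comm D⁻¹, mul_assoc, inv_mul_cancel₀ hD0, mul_one]
  have hodd : M % 2 = 1 := by
    rcases hM.eq_two_or_odd with h | h
    · omega
    · exact h
  have h0 : (((((M - 1) / 2 : ℕ) : ℤ) - k : ℤ) : ZMod M) = 0 := by
    rw [Int.cast_sub, hkM, Int.cast_natCast, sub_self]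
  have hdvd : (M : ℤ) ∣ (((M - 1) / 2 : ℕ) : ℤ) - k := (ZMod.intCast_zmod_eq_zero_iff_dvd _ _).1 h0
  have hm : (M : ℤ) = 2 * (((M - 1) / 2 : ℕ) : ℤ) + 1 := by omega
  have hpos : 0 < (((M - 1) / 2 : ℕ) : ℤ) - k := by omega
  have hle := Int.le_of_dvd hpos hdvd
  omega

end Pool.Agent.U3
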