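import Mathlib
import Pool.Agent.Work.MP_0f91f8_co.U3.Stmts

/-!
# Block U3, item Kt1: Kátai's criterion for linear phases, uniform in `g` and `t`
-/

set_option autoImplicit false

namespace Pool.Agent.U3

open scoped ComplexConjugate

namespace IKt1

/-- finite sets of primes with a large sum of reciprocals -/
theorem exists_primes (W0 : ℝ) : ∃ Ps : Finset ℕ, (∀ q ∈ Ps, q.Prime) ∧
    W0 ≤ ∑ q ∈ Ps, 1 / (q : ℝ) := by
  have h := not_summable_one_div_on_primes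
  rw [not_summable_iff_tendsto_nat_atTop_of_nonneg] at h
  · obtain ⟨n, hn⟩ := (Filter.tendsto_atTop.1 h W0).exists
    refine ⟨(Finset.range n).filter Nat.Prime, fun q hq => (Finset.mem_filter.1 hq).2, ?_⟩
    rw [Finset.sum_filter]
    refine hn.trans (le_of_eq ?_)
    refine Finset.sum_congr rfl fun i _ => ?_
    by_cases h : i.Prime <;> simp [Set.indicator, h]
  · intro n
    refine Set.indicator_nonneg (fun i _ => ?_) n
    positivity

/-- the multiples of `q` in the sum -/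
theorem mult_sum (g : ℤ → ℂ) (hg : CM g) (x q : ℕ) (hq : 1 ≤ q) (t : ℝ) :
    (∑ n ∈ (Finset.Icc (-(x : ℤ)) x).filter (fun n => (q : ℤ) ∣ n),
      (if 1 ≤ n ∧ n ≤ (x : ℤ) then g n * ee (t * n) else 0)) =
    ∑ m ∈ Finset.Icc (1 : ℤ) x,
      (if (q : ℤ) * m ≤ x then g m * (g q * ee (t * (q * m))) else 0) := by
  rw [← Finset.sum_filter, ← Finset.sum_filter]
  have hq0 : (0 : ℤ) < q := by exact_mod_cast hq
  refine Finset.sum_nbij' (fun n => n / q) (fun m => q * m) ?_ ?_ ?_ ?_ ?_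
  · intro n hn
    simp only [Finset.mem_filter, Finset.mem_Icc] at hn ⊢
    obtain ⟨⟨⟨-, -⟩, hd⟩, h1, h2⟩ := hn
    have e1 : (q : ℤ) * (n / q) = n := Int.mul_ediv_cancel' hd
    have h3 : 1 ≤ n / (q : ℤ) := by
      by_contra hcon
      have : n / (q : ℤ) ≤ 0 := by omega
      nlinarith
    refine ⟨⟨h3, ?_⟩, by rw [e1]; exact h2⟩
    nlinarith
  · intro m hm
    simp only [Finset.mem_filter, Finset.mem_Icc] at hm ⊢
    obtain ⟨⟨h1, h2⟩, h3⟩ := hm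
    have h4 : 1 ≤ (q : ℤ) * m := by nlinarith
    exact ⟨⟨⟨by omega, h3⟩, Dvd.intro _ rfl⟩, h4, h3⟩
  · intro n hn
    simp only [Finset.mem_filter, Finset.mem_Icc] at hn
    exact Int.mul_ediv_cancel' hn.1.2
  · intro m _
    exact Int.mul_ediv_cancel_left m hq0.ne'
  · intro n hn
    simp only [Finset.mem_filter, Finset.mem_Icc] at hn
    have e1 : (q : ℤ) * (n / q) = n := Int.mul_ediv_cancel' hn.1.2
    have e2 : ((q : ℝ) * ((n / (q : ℤ) : ℤ) : ℝ)) = (n : ℝ) := by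
      have := congrArg (fun z : ℤ => (z : ℝ)) e1
      push_cast at this
      exact this
    rw [e2]
    conv_lhs => rw [← e1, hg.mul]
    have e3 : (((q : ℤ) * (n / q) : ℤ) : ℝ) = (n : ℝ) := by rw [e1]
    rw [e3]
    ring

/-- the whole sum -/
theorem full_sum (g : ℤ → ℂ) (x : ℕ) (t : ℝ) :
    (∑ n ∈ Finset.Icc (-(x : ℤ)) x, (if 1 ≤ n ∧ n ≤ (x : ℤ) then g n * ee (t * n) else 0)) =
    ∑ m ∈ Finset.Icc (1 : ℤ) x, g m * ee (t * m) := by
  rw [← Finset.sum_filter]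
  refine Finset.sum_congr ?_ fun _ _ => rfl
  ext n
  simp only [Finset.mem_filter, Finset.mem_Icc]
  omega

/-- the pair sums -/
theorem pair_bound (hGS : StGS) (hEE : StEE) (x : ℕ) (t C : ℝ) (hC : 0 < C) (hx : 1 ≤ x) (D : ℕ)
    (hno : ∀ d : ℕ, 1 ≤ d → d ≤ D → C / x < nd (d * t)) (q q' : ℕ) (hq : 1 ≤ q) (hq' : 1 ≤ q')
    (hqD : q ≤ D) (hqD' : q' ≤ D) :
    ‖∑ m ∈ Finset.Icc (1 : ℤ) x, (if (q : ℤ) * m ≤ x ∧ (q' : ℤ) * m ≤ x then
      ee (t * (q * m)) * conj (ee (t * (q' * m))) else 0)‖ ≤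
      (if q = q' then (x : ℝ) / q else 0) + x / (2 * C) := by
  obtain ⟨hadd, hnorm, hconj, -, h0, -, -⟩ := hEE
  have hx0 : (0 : ℝ) < x := by exact_mod_cast hx
  have hk : 1 ≤ max q q' := le_max_of_le_left hq
  have hk0 : (0 : ℤ) < (max q q' : ℕ) := by exact_mod_cast hk
  have hset : (Finset.Icc (1 : ℤ) x).filter (fun m => (q : ℤ) * m ≤ x ∧ (q' : ℤ) * m ≤ x) =
      Finset.Icc (1 : ℤ) ((x : ℤ) / (max q q' : ℕ)) := by
    ext m
    simp only [Finset.mem_filter, Finset.mem_Icc]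
    rw [Int.le_ediv_iff_mul_le hk0]
    constructor
    · rintro ⟨⟨h1, h2⟩, h3, h4⟩
      refine ⟨h1, ?_⟩
      rcases le_total q q' with h | h
      · rw [max_eq_right h, mul_comm]; exact h4
      · rw [max_eq_left h, mul_comm]; exact h3
    · rintro ⟨h1, h2⟩
      have ha : (q : ℤ) ≤ (max q q' : ℕ) := by exact_mod_cast le_max_left q q'
      have hb : (q' : ℤ) ≤ (max q q' : ℕ) := by exact_mod_cast le_max_right q q'
      have hc : (1 : ℤ) ≤ (max q q' : ℕ) := by exact_mod_cast hk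
      refine ⟨⟨h1, by nlinarith⟩, by nlinarith, by nlinarith⟩
  have hterm : ∀ m : ℤ, ee (t * (q * m)) * conj (ee (t * (q' * m))) =
      ee ((t * ((q : ℝ) - q')) * m) := by
    intro m
    rw [hconj, ← hadd]
    congr 1
    ring
  rw [← Finset.sum_filter, hset]
  simp only [hterm]
  by_cases hqq : q = q'
  · subst hqq
    rw [if_pos rfl]
    have h1 : ∀ m ∈ Finset.Icc (1 : ℤ) ((x : ℤ) / (max q q : ℕ)),
        ee ((t * ((q : ℝ) - q)) * m) = 1 := by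
      intro m _
      rw [sub_self, mul_zero, zero_mul, h0]
    rw [Finset.sum_congr rfl h1, Finset.sum_const, nsmul_eq_mul, mul_one, Int.card_Icc, max_self]
    have h2 : (0 : ℝ) ≤ x / (2 * C) := by positivity
    have h3 : ((x : ℤ) / (q : ℤ) + 1 - 1).toNat = x / q := by
      rw [add_sub_cancel_right]
      have : ((x : ℤ) / (q : ℤ)) = ((x / q : ℕ) : ℤ) := by push_cast; rfl
      rw [this, Int.toNat_natCast]
    rw [h3, Complex.norm_natCast]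
    have h4 : ((x / q : ℕ) : ℝ) ≤ (x : ℝ) / q := Nat.cast_div_le
    linarith
  · rw [if_neg hqq, zero_add]
    have hgen : ∀ s : ℝ, C / x < nd s → ∀ B : ℤ,
        ‖∑ m ∈ Finset.Icc (1 : ℤ) B, ee (s * m)‖ ≤ x / (2 * C) := by
      intro s hs B
      have h1 := hGS 1 B s
      have h2 : 0 < C / x := by positivity
      have h3 : ‖∑ m ∈ Finset.Icc (1 : ℤ) B, ee (s * m)‖ * (C / x) ≤ 1 / 2 :=
        (mul_le_mul_of_nonneg_left hs.le (norm_nonneg _)).trans h1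
      rw [le_div_iff₀ (by positivity)]
      have h4 : ‖∑ m ∈ Finset.Icc (1 : ℤ) B, ee (s * m)‖ * (C / x) =
          ‖∑ m ∈ Finset.Icc (1 : ℤ) B, ee (s * m)‖ * C / x := by ring
      rw [h4, div_le_iff₀ hx0] at h3
      linarith
    rcases lt_or_gt_of_ne hqq with hlt | hgt
    · -- q < q'
      have h1 := hno (q' - q) (by omega) (by omega)
      have h2 := hgen _ h1 ((x : ℤ) / (max q q' : ℕ))
      have h3 : ‖∑ m ∈ Finset.Icc (1 : ℤ) ((x : ℤ) / (max q q' : ℕ)),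
          ee ((t * ((q : ℝ) - q')) * m)‖ =
          ‖∑ m ∈ Finset.Icc (1 : ℤ) ((x : ℤ) / (max q q' : ℕ)),
            ee ((((q' - q : ℕ) : ℝ) * t) * m)‖ := by
        rw [← Complex.norm_conj, map_sum]
        congr 1
        refine Finset.sum_congr rfl fun m _ => ?_
        rw [hconj]
        congr 1
        rw [Nat.cast_sub hlt.le]
        ring
      rw [h3]
      exact h2
    · have h1 := hno (q - q') (by omega) (by omega)
      have h2 := hgen _ h1 ((x : ℤ) / (max q q' : ℕ))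
      have h3 : t * ((q : ℝ) - q') = ((q - q' : ℕ) : ℝ) * t := by
        rw [Nat.cast_sub hgt.le]
        ring
      rw [h3]
      exact h2

/-- the bilinear bound -/
theorem bilinear (hGS : StGS) (hEE : StEE) (g : ℤ → ℂ) (hg : CM g) (Ps : Finset ℕ)
    (hPs : ∀ q ∈ Ps, q.Prime) (hne : Ps.Nonempty) (x : ℕ) (hx : 1 ≤ x) (t : ℝ)
    (hno : ∀ d : ℕ, 1 ≤ d → d ≤ Ps.sup id → (Ps.card : ℝ) ^ 2 / x < nd (d * t)) :
    ‖∑ q ∈ Ps, ∑ m ∈ Finset.Icc (1 : ℤ) x,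
      (if (q : ℤ) * m ≤ x then g m * (g q * ee (t * (q * m))) else 0)‖ ^ 2 ≤
      (x : ℝ) ^ 2 * (∑ q ∈ Ps, 1 / (q : ℝ) + 1) := by
  have hC : (0 : ℝ) < (Ps.card : ℝ) ^ 2 := by
    have : (0 : ℝ) < Ps.card := by exact_mod_cast hne.card_pos
    positivity
  have hx0 : (0 : ℝ) < x := by exact_mod_cast hx
  set V : ℤ → ℂ := fun m => ∑ q ∈ Ps, (if (q : ℤ) * m ≤ x then g q * ee (t * (q * m)) else 0)
    with hV
  have e1 : (∑ q ∈ Ps, ∑ m ∈ Finset.Icc (1 : ℤ) x,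
      (if (q : ℤ) * m ≤ x then g m * (g q * ee (t * (q * m))) else 0)) =
      ∑ m ∈ Finset.Icc (1 : ℤ) x, g m * V m := by
    rw [Finset.sum_comm]
    refine Finset.sum_congr rfl fun m _ => ?_
    rw [hV, Finset.mul_sum]
    refine Finset.sum_congr rfl fun q _ => ?_
    rw [mul_ite, mul_zero]
  have e2 : ‖∑ m ∈ Finset.Icc (1 : ℤ) x, g m * V m‖ ≤ ∑ m ∈ Finset.Icc (1 : ℤ) x, ‖V m‖ := by
    refine (norm_sum_le _ _).trans (Finset.sum_le_sum fun m hm => ?_)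
    rw [norm_mul, hg.nrm m (by have := (Finset.mem_Icc.1 hm).1; omega), one_mul]
  have e3 : (∑ m ∈ Finset.Icc (1 : ℤ) x, ‖V m‖) ^ 2 ≤
      x * ∑ m ∈ Finset.Icc (1 : ℤ) x, ‖V m‖ ^ 2 := by
    have h := sq_sum_le_card_mul_sum_sq (s := Finset.Icc (1 : ℤ) x) (f := fun m => ‖V m‖)
    rw [Int.card_Icc] at h
    simpa using h
  -- the quadratic form
  have hprod : ∀ m : ℤ, ((‖V m‖ ^ 2 : ℝ) : ℂ) = ∑ q ∈ Ps, ∑ q' ∈ Ps,
      g q * conj (g q') * (if (q : ℤ) * m ≤ x ∧ (q' : ℤ) * m ≤ x then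
        ee (t * (q * m)) * conj (ee (t * (q' * m))) else 0) := by
    intro m
    have h1 : ((‖V m‖ ^ 2 : ℝ) : ℂ) = V m * conj (V m) := by
      rw [Complex.mul_conj, Complex.normSq_eq_norm_sq]
    rw [h1, hV]
    simp only
    rw [map_sum, Finset.sum_mul_sum]
    refine Finset.sum_congr rfl fun q _ => Finset.sum_congr rfl fun q' _ => ?_
    by_cases ha : (q : ℤ) * m ≤ x
    · by_cases hb : (q' : ℤ) * m ≤ x
      · rw [if_pos ha, if_pos hb, if_pos ⟨ha, hb⟩, map_mul]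
        ring
      · rw [if_pos ha, if_neg hb,
          if_neg (show ¬ ((q : ℤ) * m ≤ x ∧ (q' : ℤ) * m ≤ x) from fun h => hb h.2),
          map_zero, mul_zero, mul_zero]
    · rw [if_neg ha, if_neg (show ¬ ((q : ℤ) * m ≤ x ∧ (q' : ℤ) * m ≤ x) from fun h => ha h.1),
        zero_mul, mul_zero]
  have e4 : ∑ m ∈ Finset.Icc (1 : ℤ) x, ‖V m‖ ^ 2 ≤ ∑ q ∈ Ps, ∑ q' ∈ Ps,
      ((if q = q' then (x : ℝ) / q else 0) + x / (2 * (Ps.card : ℝ) ^ 2)) := by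
    have h1 : ((∑ m ∈ Finset.Icc (1 : ℤ) x, ‖V m‖ ^ 2 : ℝ) : ℂ) =
        ∑ q ∈ Ps, ∑ q' ∈ Ps, g q * conj (g q') * ∑ m ∈ Finset.Icc (1 : ℤ) x,
          (if (q : ℤ) * m ≤ x ∧ (q' : ℤ) * m ≤ x then
            ee (t * (q * m)) * conj (ee (t * (q' * m))) else 0) := by
      rw [Complex.ofReal_sum, Finset.sum_congr rfl fun m _ => hprod m, Finset.sum_comm]
      refine Finset.sum_congr rfl fun q _ => ?_
      rw [Finset.sum_comm]
      refine Finset.sum_congr rfl fun q' _ => ?_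
      rw [Finset.mul_sum]
    have h2 : ∑ m ∈ Finset.Icc (1 : ℤ) x, ‖V m‖ ^ 2 =
        ‖((∑ m ∈ Finset.Icc (1 : ℤ) x, ‖V m‖ ^ 2 : ℝ) : ℂ)‖ := by
      rw [Complex.norm_real, Real.norm_of_nonneg (Finset.sum_nonneg fun _ _ => by positivity)]
    rw [h2, h1]
    refine (norm_sum_le _ _).trans (Finset.sum_le_sum fun q hq => ?_)
    refine (norm_sum_le _ _).trans (Finset.sum_le_sum fun q' hq' => ?_)
    have hq1 : 1 ≤ q := (hPs q hq).one_lt.le
    have hq1' : 1 ≤ q' := (hPs q' hq').one_lt.le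
    rw [norm_mul, norm_mul, Complex.norm_conj, hg.nrm (q : ℤ) (by exact_mod_cast (by omega : q ≠ 0)),
      hg.nrm (q' : ℤ) (by exact_mod_cast (by omega : q' ≠ 0)), one_mul, one_mul]
    exact pair_bound hGS hEE x t _ hC hx (Ps.sup id) hno q q' hq1 hq1'
      (Finset.le_sup (f := id) hq) (Finset.le_sup (f := id) hq')
  have e5 : ∑ q ∈ Ps, ∑ q' ∈ Ps,
      ((if q = q' then (x : ℝ) / q else 0) + x / (2 * (Ps.card : ℝ) ^ 2)) ≤
      x * (∑ q ∈ Ps, 1 / (q : ℝ) + 1) := by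
    have h1 : ∀ q ∈ Ps, ∑ q' ∈ Ps,
        ((if q = q' then (x : ℝ) / q else 0) + x / (2 * (Ps.card : ℝ) ^ 2)) =
        x / q + Ps.card * (x / (2 * (Ps.card : ℝ) ^ 2)) := by
      intro q hq
      rw [Finset.sum_add_distrib, Finset.sum_ite_eq, if_pos hq, Finset.sum_const, nsmul_eq_mul]
    rw [Finset.sum_congr rfl h1, Finset.sum_add_distrib, Finset.sum_const, nsmul_eq_mul]
    have h2 : ∑ q ∈ Ps, (x : ℝ) / q = x * ∑ q ∈ Ps, 1 / (q : ℝ) := by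
      rw [Finset.mul_sum]
      refine Finset.sum_congr rfl fun q _ => ?_
      ring
    have hc : (0 : ℝ) < Ps.card := by exact_mod_cast hne.card_pos
    have h3 : (Ps.card : ℝ) * (Ps.card * (x / (2 * (Ps.card : ℝ) ^ 2))) = x / 2 := by
      field_simp
    rw [h2, h3]
    nlinarith
  rw [e1]
  have e6 : ‖∑ m ∈ Finset.Icc (1 : ℤ) x, g m * V m‖ ^ 2 ≤
      (∑ m ∈ Finset.Icc (1 : ℤ) x, ‖V m‖) ^ 2 := by
    have := norm_nonneg (∑ m ∈ Finset.Icc (1 : ℤ) x, g m * V m)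
    gcongr
  calc ‖∑ m ∈ Finset.Icc (1 : ℤ) x, g m * V m‖ ^ 2
      ≤ (∑ m ∈ Finset.Icc (1 : ℤ) x, ‖V m‖) ^ 2 := e6
    _ ≤ x * ∑ m ∈ Finset.Icc (1 : ℤ) x, ‖V m‖ ^ 2 := e3
    _ ≤ x * (x * (∑ q ∈ Ps, 1 / (q : ℝ) + 1)) := by
        have := e4.trans e5
        gcongr
    _ = (x : ℝ) ^ 2 * (∑ q ∈ Ps, 1 / (q : ℝ) + 1) := by ring

end IKt1

/-- Item Kt1. -/
theorem pr_Kt1 (h1 : StTK) (h2 : StGS) (h3 : StEE) : StKt1 := by
  intro ε hε
  obtain ⟨Ps, hPs, hW⟩ := IKt1.exists_primes ((7 / ε) ^ 2 + 1)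
  obtain ⟨N0, hN0⟩ := h1 Ps hPs
  set W : ℝ := ∑ q ∈ Ps, 1 / (q : ℝ) with hWdef
  have hW1 : 1 ≤ W := by
    have : 0 ≤ (7 / ε) ^ 2 := by positivity
    linarith
  have hne : Ps.Nonempty := by
    rw [Finset.nonempty_iff_ne_empty]
    intro h
    rw [h, Finset.sum_empty] at hWdef
    linarith
  refine ⟨Ps.sup id, (Ps.card : ℝ) ^ 2, max N0 1, ?_⟩
  intro g hg x hx t hS
  by_contra hcon
  have hx1 : 1 ≤ x := (le_max_right _ _).trans hx
  have hxN : N0 ≤ x := (le_max_left _ _).trans hx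
  have hx0 : (0 : ℝ) < x := by exact_mod_cast hx1
  have hno : ∀ d : ℕ, 1 ≤ d → d ≤ Ps.sup id → (Ps.card : ℝ) ^ 2 / x < nd (d * t) := by
    intro d hd hd'
    by_contra hh
    exact hcon ⟨d, hd, hd', not_lt.1 hh⟩
  set S : ℂ := ∑ m ∈ Finset.Icc (1 : ℤ) x, g m * ee (t * m) with hSdef
  set T : ℕ → ℂ := fun q => ∑ m ∈ Finset.Icc (1 : ℤ) x,
      (if (q : ℤ) * m ≤ x then g m * (g q * ee (t * (q * m))) else 0) with hTdef
  -- Turan-Kubilius
  have hF : ∀ n : ℤ, ‖(if 1 ≤ n ∧ n ≤ (x : ℤ) then g n * ee (t * n) else 0)‖ ≤ 1 := by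
    intro n
    split_ifs with h
    · rw [norm_mul, hg.nrm n (by omega), h3.2.1, one_mul]
    · simp
  have hTK := hN0 x hxN (fun n => if 1 ≤ n ∧ n ≤ (x : ℤ) then g n * ee (t * n) else 0) hF
  have hTK2 : ∑ q ∈ Ps, (1 / (q : ℝ)) * ‖(q : ℂ) * T q - S‖ ^ 2 ≤ 16 * (x : ℝ) ^ 2 := by
    refine le_trans (le_of_eq ?_) hTK
    refine Finset.sum_congr rfl fun q hq => ?_
    rw [IKt1.full_sum, IKt1.mult_sum g hg x q (hPs q hq).one_lt.le t]
  have hbil := IKt1.bilinear h2 h3 g hg Ps hPs hne x hx1 t hno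
  have hbil2 : ‖∑ q ∈ Ps, T q‖ ^ 2 ≤ (x : ℝ) ^ 2 * (W + 1) := hbil
  -- Cauchy-Schwarz
  have hCS : (∑ q ∈ Ps, (1 / (q : ℝ)) * ‖(q : ℂ) * T q - S‖) ^ 2 ≤
      W * ∑ q ∈ Ps, (1 / (q : ℝ)) * ‖(q : ℂ) * T q - S‖ ^ 2 := by
    refine Finset.sum_sq_le_sum_mul_sum_of_sq_le_mul Ps (fun q _ => by positivity)
      (fun q _ => by positivity) (fun q _ => le_of_eq (by ring))
  have hsum : (W : ℂ) * S = ∑ q ∈ Ps, T q - ∑ q ∈ Ps, ((1 / (q : ℝ) : ℝ) : ℂ) *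
      ((q : ℂ) * T q - S) := by
    have h4 : ∀ q ∈ Ps, ((1 / (q : ℝ) : ℝ) : ℂ) * ((q : ℂ) * T q - S) =
        T q - ((1 / (q : ℝ) : ℝ) : ℂ) * S := by
      intro q hq
      have hq0 : (q : ℂ) ≠ 0 := by exact_mod_cast (hPs q hq).ne_zero
      push_cast
      field_simp
    rw [Finset.sum_congr rfl h4, Finset.sum_sub_distrib, ← Finset.sum_mul, hWdef]
    push_cast
    ring
  have hdiff : ‖∑ q ∈ Ps, ((1 / (q : ℝ) : ℝ) : ℂ) * ((q : ℂ) * T q - S)‖ ≤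
      ∑ q ∈ Ps, (1 / (q : ℝ)) * ‖(q : ℂ) * T q - S‖ := by
    refine (norm_sum_le _ _).trans (le_of_eq ?_)
    refine Finset.sum_congr rfl fun q _ => ?_
    rw [norm_mul, Complex.norm_real, Real.norm_of_nonneg (by positivity)]
  set s : ℝ := Real.sqrt W with hs
  have hs0 : 0 ≤ s := Real.sqrt_nonneg _
  have hs2 : s ^ 2 = W := Real.sq_sqrt (by linarith)
  have hs1 : 1 ≤ s := by
    rw [hs, Real.one_le_sqrt]
    exact hW1
  have hA : ∑ q ∈ Ps, (1 / (q : ℝ)) * ‖(q : ℂ) * T q - S‖ ≤ 4 * x * s := by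
    refine (pow_le_pow_iff_left₀ (Finset.sum_nonneg fun q _ => by positivity) (by positivity)
      two_ne_zero).1 ?_
    calc (∑ q ∈ Ps, (1 / (q : ℝ)) * ‖(q : ℂ) * T q - S‖) ^ 2
        ≤ W * ∑ q ∈ Ps, (1 / (q : ℝ)) * ‖(q : ℂ) * T q - S‖ ^ 2 := hCS
      _ ≤ W * (16 * (x : ℝ) ^ 2) := by gcongr
      _ = (4 * x * s) ^ 2 := by rw [← hs2]; ring
  have hB : ‖∑ q ∈ Ps, T q‖ ≤ 2 * x * s := by
    refine (pow_le_pow_iff_left₀ (norm_nonneg _) (by positivity) two_ne_zero).1 ?_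
    calc ‖∑ q ∈ Ps, T q‖ ^ 2 ≤ (x : ℝ) ^ 2 * (W + 1) := hbil2
      _ ≤ (x : ℝ) ^ 2 * (4 * W) := by
          gcongr
          linarith
      _ = (2 * x * s) ^ 2 := by rw [← hs2]; ring
  have hfin : W * (ε * x) ≤ 6 * x * s := by
    have h5 : W * ‖S‖ = ‖(W : ℂ) * S‖ := by
      rw [norm_mul, Complex.norm_real, Real.norm_of_nonneg (by linarith)]
    have h6 : W * (ε * x) ≤ W * ‖S‖ := by
      gcongr
    have h7 : ‖(W : ℂ) * S‖ ≤ ‖∑ q ∈ Ps, T q‖ +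
        ‖∑ q ∈ Ps, ((1 / (q : ℝ) : ℝ) : ℂ) * ((q : ℂ) * T q - S)‖ := by
      rw [hsum]
      exact norm_sub_le _ _
    linarith
  have h8 : s * (s * ε) ≤ s * 6 := by
    have h9 : x * (s * (s * ε)) ≤ x * (s * 6) := by
      have : W * (ε * x) = x * (s * (s * ε)) := by rw [← hs2]; ring
      linarith
    exact le_of_mul_le_mul_left h9 hx0
  have h10 : s * ε ≤ 6 := le_of_mul_le_mul_left h8 (by linarith)
  have h11 : 7 / ε ≤ s := by
    refine (pow_le_pow_iff_left₀ (by positivity) hs0 two_ne_zero).1 ?_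
    rw [hs2]
    linarith
  have h12 : 7 ≤ s * ε := by
    rw [div_le_iff₀ hε] at h11
    exact h11
  linarith

end Pool.Agent.U3
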