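import Mathlib
import Pool.Agent.Work.MP_0f91f8_co.U3.Stmts

/-!
Block U3, item Kt2: rational frequencies are excluded by aperiodicity.
-/

set_option autoImplicit false

namespace Pool.Agent.U3

open scoped ComplexConjugate

namespace IKt2

lemma sum_int (F : ℤ → ℂ) (x : ℕ) :
    ∑ m ∈ Finset.Icc (1 : ℤ) x, F m = ∑ i ∈ Finset.range x, F ((i : ℤ) + 1) := by
  induction x with
  | zero => simp
  | succ n ih =>
    have h : Finset.Icc (1 : ℤ) ((n + 1 : ℕ) : ℤ) = insert ((n : ℤ) + 1) (Finset.Icc (1 : ℤ) n) := by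
      ext m
      simp only [Finset.mem_Icc, Finset.mem_insert]
      push_cast
      omega
    rw [h, Finset.sum_insert (by simp), ih, Finset.sum_range_succ, add_comm]

lemma sum_nat (F : ℕ → ℂ) (x : ℕ) :
    ∑ m ∈ Finset.Icc 1 x, F m = ∑ i ∈ Finset.range x, F (i + 1) := by
  induction x with
  | zero => simp
  | succ n ih => rw [Finset.sum_Icc_succ_top (by omega), ih, Finset.sum_range_succ]

/-- Summation by parts. -/
lemma parts (u w : ℕ → ℂ) (N : ℕ) :
    ∑ i ∈ Finset.range N, u (i + 1) * w (i + 1) =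
      (∑ i ∈ Finset.range N, u (i + 1)) * w N +
        ∑ m ∈ Finset.range N, (∑ i ∈ Finset.range m, u (i + 1)) * (w m - w (m + 1)) := by
  induction N with
  | zero => simp
  | succ n ih =>
    rw [Finset.sum_range_succ, ih, Finset.sum_range_succ _ n, Finset.sum_range_succ _ n]
    ring

lemma norm_le_one {g : ℤ → ℂ} (hg : CM g) (n : ℤ) : ‖g n‖ ≤ 1 := by
  by_cases h : n = 0
  · subst h; rw [hg.zero]; simp
  · exact (hg.nrm n h).le

/-- The sum over a residue class. -/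
noncomputable def cs (g : ℤ → ℂ) (d b x : ℕ) : ℂ :=
  ∑ i ∈ Finset.range x, if (i + 1) % d = b then g ((i : ℤ) + 1) else 0

lemma cs_eq (g : ℤ → ℂ) (d b x : ℕ) (hb : b < d) :
    ∑ n ∈ (Finset.Icc 1 x).filter (fun n => n % d = b % d), g (n : ℤ) = cs g d b x := by
  rw [Finset.sum_filter, sum_nat, cs]
  refine Finset.sum_congr rfl fun i _ => ?_
  rw [Nat.mod_eq_of_lt hb]
  push_cast
  rfl

lemma cs_triv {g : ℤ → ℂ} (hg : CM g) (d b x : ℕ) : ‖cs g d b x‖ ≤ x := by
  unfold cs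
  refine (norm_sum_le _ _).trans ?_
  refine (Finset.sum_le_card_nsmul _ _ 1 fun i _ => ?_).trans ?_
  · split_ifs
    · exact norm_le_one hg _
    · simp
  · simp

lemma cs_bound {g : ℤ → ℂ} (hg : CM g) (hA : Aper g) (D : ℕ) (ε : ℝ) (hε : 0 < ε) :
    ∃ X : ℕ, ∀ d ∈ Finset.Icc 1 D, ∀ b ∈ Finset.range d, ∀ x : ℕ, ‖cs g d b x‖ ≤ ε * x + X := by
  have h : ∀ᶠ x : ℕ in Filter.atTop, ∀ d ∈ Finset.Icc 1 D, ∀ b ∈ Finset.range d,
      ‖cs g d b x‖ ≤ ε * x := by
    rw [Filter.eventually_all_finset]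
    intro d hd
    rw [Filter.eventually_all_finset]
    intro b hb
    rw [Finset.mem_Icc] at hd
    rw [Finset.mem_range] at hb
    have h1 := hA d b (by omega)
    have h2 := (Metric.tendsto_nhds.mp h1) ε hε
    filter_upwards [h2, Filter.eventually_ge_atTop 1] with x hx hx1
    rw [dist_zero_right, cs_eq g d b x hb, norm_div, Complex.norm_natCast] at hx
    have hx0 : (0 : ℝ) < x := by exact_mod_cast hx1
    exact ((div_lt_iff₀ hx0).mp hx).le
  obtain ⟨X, hX⟩ := Filter.eventually_atTop.mp h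
  refine ⟨X, fun d hd b hb x => ?_⟩
  rcases le_total X x with hx | hx
  · have := hX x hx d hd b hb
    have h0 : (0 : ℝ) ≤ X := Nat.cast_nonneg _
    linarith
  · have h1 := cs_triv hg d b x
    have h2 : (x : ℝ) ≤ X := by exact_mod_cast hx
    have h3 : 0 ≤ ε * x := mul_nonneg hε.le (Nat.cast_nonneg _)
    linarith

/-- The sum twisted by a rational frequency, split into classes. -/
lemma split (hEE : StEE) (g : ℤ → ℂ) (d : ℕ) (hd : 1 ≤ d) (k : ℤ) (m : ℕ) :
    ∑ i ∈ Finset.range m, g ((i : ℤ) + 1) * ee ((k : ℝ) / d * ((i : ℝ) + 1)) =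
      ∑ b ∈ Finset.range d, ee ((k : ℝ) / d * b) * cs g d b m := by
  unfold cs
  simp only [Finset.mul_sum]
  rw [Finset.sum_comm]
  refine Finset.sum_congr rfl fun i _ => ?_
  have hd0 : (d : ℝ) ≠ 0 := by
    have : (0 : ℝ) < d := by exact_mod_cast hd
    exact this.ne'
  rw [Finset.sum_eq_single ((i + 1) % d)]
  · rw [if_pos rfl, mul_comm]
    congr 1
    have h1 : ((i : ℝ) + 1) = ((i + 1) % d : ℕ) + (d : ℝ) * ((i + 1) / d : ℕ) := by
      have := Nat.mod_add_div (i + 1) d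
      exact_mod_cast this.symm
    have h2 : (k : ℝ) / d * ((i : ℝ) + 1) =
        (k : ℝ) / d * ((i + 1) % d : ℕ) + ((k * (((i + 1) / d : ℕ) : ℤ) : ℤ) : ℝ) := by
      rw [h1]
      generalize (i + 1) % d = r
      generalize (i + 1) / d = q
      push_cast
      field_simp
    rw [h2]
    exact hEE.2.2.2.2.2.1 _ _
  · intro b _ hb
    rw [if_neg (fun h => hb h.symm), mul_zero]
  · intro h
    exact absurd (Finset.mem_range.mpr (Nat.mod_lt _ (by omega))) h

lemma twist_bound (hEE : StEE) (g : ℤ → ℂ) (D X : ℕ) (ε : ℝ) (hε : 0 < ε)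
    (hX : ∀ d ∈ Finset.Icc 1 D, ∀ b ∈ Finset.range d, ∀ x : ℕ, ‖cs g d b x‖ ≤ ε * x + X)
    (d : ℕ) (hd : 1 ≤ d) (hdD : d ≤ D) (k : ℤ) (m : ℕ) :
    ‖∑ i ∈ Finset.range m, g ((i : ℤ) + 1) * ee ((k : ℝ) / d * ((i : ℝ) + 1))‖ ≤
      D * (ε * m + X) := by
  rw [split hEE g d hd k m]
  refine (norm_sum_le _ _).trans ?_
  have h0 : 0 ≤ ε * m + X := add_nonneg (mul_nonneg hε.le (Nat.cast_nonneg _)) (Nat.cast_nonneg _)
  refine (Finset.sum_le_card_nsmul _ _ (ε * m + X) fun b hb => ?_).trans ?_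
  · rw [norm_mul, hEE.2.1, one_mul]
    exact hX d (Finset.mem_Icc.mpr ⟨hd, hdD⟩) b hb m
  · rw [Finset.card_range, nsmul_eq_mul]
    exact mul_le_mul_of_nonneg_right (by exact_mod_cast hdD) h0

end IKt2

open IKt2 in
theorem pr_Kt2 (h1 : StEE) (h2 : StND) : StKt2 := by
  intro g hg hA ε C D hε
  set K : ℝ := 1 + 2 * Real.pi * |C| with hK
  have hpi := Real.pi_pos
  have hK1 : 1 ≤ K := by
    have : 0 ≤ 2 * Real.pi * |C| := by positivity
    linarith
  have hK0 : 0 < K := by linarith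
  have hD0 : (0 : ℝ) ≤ D := Nat.cast_nonneg _
  set ε' : ℝ := ε / (2 * K * (D + 1)) with hε'
  have hε'0 : 0 < ε' := by positivity
  obtain ⟨X, hX⟩ := cs_bound hg hA D ε' hε'0
  obtain ⟨x1, hx1⟩ := exists_nat_ge (2 * K * D * X / ε)
  refine ⟨max 1 x1, fun x hx t ht => ?_⟩
  have hx1' : (1 : ℝ) ≤ x := by exact_mod_cast (le_max_left _ _).trans hx
  have hx0 : (0 : ℝ) < x := by linarith
  have hxx : 2 * K * D * X / ε ≤ x := hx1.trans (by exact_mod_cast (le_max_right _ _).trans hx)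
  obtain ⟨d, hd, hdD, hnd⟩ := ht
  obtain ⟨k, hk⟩ := h2.2.2.2.2.2.2.1 ((d : ℝ) * t)
  have hd0 : (1 : ℝ) ≤ d := by exact_mod_cast hd
  have hd0' : (0 : ℝ) < d := by linarith
  set β : ℝ := t - (k : ℝ) / d with hβ
  have hβb : |β| ≤ |C| / x := by
    have e1 : (d : ℝ) * t - k = d * β := by
      rw [hβ]; field_simp
    have e2 : (d : ℝ) * |β| ≤ |C| / x := by
      have e3 : |(d : ℝ) * t - k| ≤ C / x := by rw [hk]; exact hnd
      rw [e1, abs_mul, abs_of_pos hd0'] at e3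
      exact e3.trans (div_le_div_of_nonneg_right (le_abs_self C) hx0.le)
    have e4 : |β| ≤ d * |β| := le_mul_of_one_le_left (abs_nonneg _) hd0
    exact e4.trans e2
  have e0 : ∑ m ∈ Finset.Icc (1 : ℤ) x, g m * ee (t * m) =
      ∑ i ∈ Finset.range x, (fun j : ℕ => g (j : ℤ) * ee ((k : ℝ) / d * j)) (i + 1) *
        (fun j : ℕ => ee (β * j)) (i + 1) := by
    rw [sum_int]
    refine Finset.sum_congr rfl fun i _ => ?_
    simp only
    rw [mul_assoc, ← h1.1]
    push_cast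
    congr 2
    rw [hβ]
    ring
  rw [e0, parts (fun j : ℕ => g (j : ℤ) * ee ((k : ℝ) / d * j)) (fun j : ℕ => ee (β * j)) x]
  have hU : ∀ m : ℕ, m ≤ x →
      ‖∑ i ∈ Finset.range m, (fun j : ℕ => g (j : ℤ) * ee ((k : ℝ) / d * j)) (i + 1)‖ ≤
        D * (ε' * x + X) := by
    intro m hm
    have h := twist_bound h1 g D X ε' hε'0 hX d hd hdD k m
    have e : ∑ i ∈ Finset.range m, (fun j : ℕ => g (j : ℤ) * ee ((k : ℝ) / d * j)) (i + 1) =
        ∑ i ∈ Finset.range m, g ((i : ℤ) + 1) * ee ((k : ℝ) / d * ((i : ℝ) + 1)) := by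
      refine Finset.sum_congr rfl fun i _ => ?_
      simp only
      push_cast
      rfl
    rw [e]
    refine h.trans (mul_le_mul_of_nonneg_left ?_ hD0)
    have : (m : ℝ) ≤ x := by exact_mod_cast hm
    have := mul_le_mul_of_nonneg_left this hε'0.le
    linarith
  set B : ℝ := D * (ε' * x + X) with hB
  have hB0 : 0 ≤ B := mul_nonneg hD0 (add_nonneg (mul_nonneg hε'0.le hx0.le) (Nat.cast_nonneg _))
  refine (norm_add_le _ _).trans ?_
  have b1 : ‖(∑ i ∈ Finset.range x, (fun j : ℕ => g (j : ℤ) * ee ((k : ℝ) / d * j)) (i + 1)) *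
      (fun j : ℕ => ee (β * j)) x‖ ≤ B := by
    rw [norm_mul]
    simp only
    rw [h1.2.1, mul_one]
    exact hU x le_rfl
  have b2 : ‖∑ m ∈ Finset.range x,
      (∑ i ∈ Finset.range m, (fun j : ℕ => g (j : ℤ) * ee ((k : ℝ) / d * j)) (i + 1)) *
        ((fun j : ℕ => ee (β * j)) m - (fun j : ℕ => ee (β * j)) (m + 1))‖ ≤
      x * (B * (2 * Real.pi * (|C| / x))) := by
    refine (norm_sum_le _ _).trans ?_
    refine (Finset.sum_le_card_nsmul _ _ (B * (2 * Real.pi * (|C| / x))) fun m hm => ?_).trans ?_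
    · rw [norm_mul]
      refine mul_le_mul (hU m (Finset.mem_range.mp hm).le) ?_ (norm_nonneg _) hB0
      simp only
      refine (h1.2.2.2.2.2.2 _ _).trans ?_
      have : β * (m : ℝ) - β * ((m + 1 : ℕ) : ℝ) = -β := by push_cast; ring
      rw [this, abs_neg]
      exact mul_le_mul_of_nonneg_left hβb (by positivity)
    · rw [Finset.card_range, nsmul_eq_mul]
  have b3 : (x : ℝ) * (B * (2 * Real.pi * (|C| / x))) = B * (2 * Real.pi * |C|) := by
    field_simp
  have b4 : B * K ≤ ε * x := by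
    have c1 : (D : ℝ) * ε' * K ≤ ε / 2 := by
      rw [hε']
      have : (D : ℝ) * (ε / (2 * K * (D + 1))) * K = ε / 2 * (D / (D + 1)) := by
        field_simp
      rw [this]
      have c2 : (D : ℝ) / (D + 1) ≤ 1 := by
        rw [div_le_one (by linarith)]; linarith
      calc ε / 2 * (D / (D + 1)) ≤ ε / 2 * 1 := mul_le_mul_of_nonneg_left c2 (by linarith)
        _ = ε / 2 := mul_one _
    have c3 : 2 * K * D * X ≤ x * ε := (div_le_iff₀ hε).mp hxx
    have c4 : B * K = (D * ε' * K) * x + K * D * X := by rw [hB]; ring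
    rw [c4]
    have c5 := mul_le_mul_of_nonneg_right c1 hx0.le
    linarith
  calc _ ≤ B + x * (B * (2 * Real.pi * (|C| / x))) := add_le_add b1 b2
    _ = B * K := by rw [b3, hK]; ring
    _ ≤ ε * x := b4

end Pool.Agent.U3
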