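import Mathlib
import Pool.Agent.Work.MP_0f91f8_co.U3.Stmts

/-!
# Block U3, item Lam: the linear map on `V - V`
-/

set_option autoImplicit false

namespace Pool.Agent.U3

namespace ILam

/-- `b` is a combination of four elements of `R`, with value `c` -/
def Rep {M : ℕ} (R : Finset ℤ) (w : ℤ → ZMod M) (b : ℤ) (c : ZMod M) : Prop :=
  ∃ r1 ∈ R, ∃ r2 ∈ R, ∃ r3 ∈ R, ∃ r4 ∈ R, r1 + r2 - r3 - r4 = b ∧
    c = w r1 + w r2 - w r3 - w r4

theorem rep_add {M : ℕ} {R : Finset ℤ} {w : ℤ → ZMod M}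
    (h6 : ∀ x y : Fin 6 → ℤ, (∀ i, x i ∈ R) → (∀ i, y i ∈ R) → ∑ i, x i = ∑ i, y i →
      ∑ i, w (x i) = ∑ i, w (y i)) {b b' : ℤ} {c c' c'' : ZMod M}
    (h1 : Rep R w b c) (h2 : Rep R w b' c') (h3 : Rep R w (b + b') c'') : c'' = c + c' := by
  obtain ⟨r1, hr1, r2, hr2, r3, hr3, r4, hr4, hr, rfl⟩ := h1
  obtain ⟨s1, hs1, s2, hs2, s3, hs3, s4, hs4, hs, rfl⟩ := h2
  obtain ⟨t1, ht1, t2, ht2, t3, ht3, t4, ht4, ht, rfl⟩ := h3
  have h := h6 ![r1, r2, s1, s2, t3, t4] ![t1, t2, r3, r4, s3, s4]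
    (by intro i; fin_cases i <;> assumption) (by intro i; fin_cases i <;> assumption)
    (by
      rw [Fin.sum_univ_six, Fin.sum_univ_six]
      simp only [Matrix.cons_val]
      linarith)
  rw [Fin.sum_univ_six, Fin.sum_univ_six] at h
  simp only [Matrix.cons_val] at h
  linear_combination -h

theorem rep_zero {M : ℕ} {R : Finset ℤ} {w : ℤ → ZMod M} (hR : R.Nonempty) : Rep R w 0 0 := by
  obtain ⟨r, hr⟩ := hR
  exact ⟨r, hr, r, hr, r, hr, r, hr, by ring, by ring⟩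

open Classical in
/-- the map -/
noncomputable def Lm {M : ℕ} (R : Finset ℤ) (w : ℤ → ZMod M) (b : ℤ) : ZMod M :=
  if h : ∃ c, Rep R w b c then h.choose else 0

theorem Lm_eq {M : ℕ} {R : Finset ℤ} {w : ℤ → ZMod M}
    (h6 : ∀ x y : Fin 6 → ℤ, (∀ i, x i ∈ R) → (∀ i, y i ∈ R) → ∑ i, x i = ∑ i, y i →
      ∑ i, w (x i) = ∑ i, w (y i)) {b : ℤ} {c : ZMod M} (h : Rep R w b c) : Lm R w b = c := by
  have hR : R.Nonempty := by
    obtain ⟨r1, hr1, -⟩ := h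
    exact ⟨r1, hr1⟩
  have hex : ∃ c, Rep R w b c := ⟨c, h⟩
  unfold Lm
  rw [dif_pos hex]
  have h1 := hex.choose_spec
  have h2 := rep_add h6 h (rep_zero hR) (by rw [add_zero]; exact h1)
  rw [h2, add_zero]

end ILam

open ILam in
theorem pr_Lam : StLam := by
  intro M _ R V w P h6 hV
  refine ⟨Lm R w, ?_⟩
  intro v hv v' hv' q hq r hr r' hr' hrr
  have hR : R.Nonempty := ⟨r, hr⟩
  have hrep : ∀ j : ℕ, j ≤ P → ∃ c, Rep R w (j * (v - v')) c := by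
    intro j hj
    obtain ⟨r1, hr1, r2, hr2, r3, hr3, r4, hr4, h⟩ := hV v hv v' hv' j hj
    exact ⟨_, r1, hr1, r2, hr2, r3, hr3, r4, hr4, h, rfl⟩
  have hmul : ∀ j : ℕ, j ≤ P → Lm R w (j * (v - v')) = j • Lm R w (v - v') := by
    intro j
    induction j with
    | zero =>
      intro _
      rw [Nat.cast_zero, zero_mul, zero_smul]
      exact Lm_eq h6 (rep_zero hR)
    | succ j ih =>
      intro hj
      obtain ⟨c, hc⟩ := hrep j (by omega)
      obtain ⟨c1, hc1⟩ := hrep 1 (by omega)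
      rw [Nat.cast_one, one_mul] at hc1
      obtain ⟨c2, hc2⟩ := hrep (j + 1) hj
      have e : ((j + 1 : ℕ) : ℤ) * (v - v') = (j : ℤ) * (v - v') + (v - v') := by
        push_cast
        ring
      rw [Lm_eq h6 hc2]
      rw [e] at hc2
      rw [rep_add h6 hc hc1 hc2, ← Lm_eq h6 hc, ih (by omega), ← Lm_eq h6 hc1, add_smul, one_smul]
  rw [← hmul q hq, ← hrr]
  symm
  exact Lm_eq h6 ⟨r, hr, r', hr', r', hr', r', hr', by ring, by ring⟩

end Pool.Agent.U3
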