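import Mathlib
import Pool.Agent.Work.MP_0f91f8_co.U3.Stmts

/-!
# Block U3, item ND: the distance to the nearest integer
-/

set_option autoImplicit false

namespace Pool.Agent.U3

namespace IND

lemma le_int (x : ℝ) (k : ℤ) : nd x ≤ |x - k| := round_le x k

lemma add_le (x : ℝ) (k : ℤ) : nd (x + k) ≤ nd x := by
  have h := le_int (x + k) (round x + k)
  push_cast at h
  rwa [add_sub_add_right_eq_sub] at h

lemma neg_le (x : ℝ) : nd (-x) ≤ nd x := by
  have h := le_int (-x) (-round x)
  push_cast at h
  rw [show -x - -(round x : ℝ) = -(x - round x) by ring, abs_neg] at h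
  exact h

end IND

theorem pr_ND : StND := by
  refine ⟨fun x k => ?_, fun x => ?_, fun x y => ?_, fun x => ?_, fun x j => ?_, fun x => ?_,
    fun x => ⟨round x, rfl⟩, IND.le_int⟩
  · refine le_antisymm (IND.add_le x k) ?_
    have h := IND.add_le (x + k) (-k)
    push_cast at h
    rwa [add_neg_cancel_right] at h
  · refine le_antisymm (IND.neg_le x) ?_
    have h := IND.neg_le (-x)
    rwa [neg_neg] at h
  · have h := IND.le_int (x + y) (round x + round y)
    push_cast at h
    rw [show x + y - ((round x : ℝ) + round y) = (x - round x) + (y - round y) by ring] at h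
    exact h.trans (abs_add_le _ _)
  · have h := IND.le_int x 0
    push_cast at h
    rwa [sub_zero] at h
  · have h := IND.le_int (j * x) (j * round x)
    push_cast at h
    rw [← mul_sub, abs_mul, abs_of_nonneg (Nat.cast_nonneg j)] at h
    exact h
  · exact ⟨abs_nonneg _, abs_sub_round x⟩

end Pool.Agent.U3
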