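import Mathlib
import Pool.Agent.Work.MP_0f91f8_co.U3.Stmts

/-!
# Block U3, item Nrg: positive definiteness gives additive energy
-/

set_option autoImplicit false

namespace Pool.Agent.U3

open scoped ComplexConjugate Pointwise

namespace INrg

/-- Cauchy-Schwarz for the number of differences in a set -/
theorem energy {G : Type} [AddCommGroup G] [DecidableEq G] (s u : Finset G) :
    ((s ×ˢ s).filter fun z => z.1 - z.2 ∈ u).card ^ 2 ≤ u.card * Finset.addEnergy s s := by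
  have h1 := Finset.card_sq_le_card_mul_addEnergy s (-s) u
  have h2 : Finset.addEnergy s (-s) ≤ Finset.addEnergy s s := by
    unfold Finset.addEnergy
    refine Finset.card_le_card_of_injOn (fun x => ((x.1.1, x.1.2), (-x.2.2, -x.2.1))) ?_ ?_
    · rintro ⟨⟨a, b⟩, ⟨c, d⟩⟩ h
      simp only [Finset.coe_filter, Finset.mem_product, Set.mem_setOf_eq, Finset.mem_neg'] at h ⊢
      obtain ⟨⟨⟨ha, hb⟩, hc, hd⟩, he⟩ := h
      refine ⟨⟨⟨ha, hb⟩, hd, hc⟩, ?_⟩
      have h3 : a = b + d - c := by rw [← he]; abel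
      rw [h3]
      abel
    · rintro ⟨⟨a, b⟩, ⟨c, d⟩⟩ _ ⟨⟨a', b'⟩, ⟨c', d'⟩⟩ _ h
      simp only [Prod.mk.injEq, neg_inj] at h
      obtain ⟨⟨rfl, rfl⟩, rfl, rfl⟩ := h
      rfl
  have h3 : ((s ×ˢ s).filter fun z => z.1 - z.2 ∈ u).card ≤
      ((s ×ˢ (-s)).filter fun z => z.1 + z.2 ∈ u).card := by
    refine Finset.card_le_card_of_injOn (fun z => (z.1, -z.2)) ?_ ?_
    · rintro ⟨a, b⟩ h
      simp only [Finset.coe_filter, Finset.mem_product, Set.mem_setOf_eq, Finset.mem_neg',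
        neg_neg] at h ⊢
      refine ⟨h.1, ?_⟩
      rw [← sub_eq_add_neg]
      exact h.2
    · rintro ⟨a, b⟩ _ ⟨a', b'⟩ _ h
      simp only [Prod.mk.injEq, neg_inj] at h
      obtain ⟨rfl, rfl⟩ := h
      rfl
  calc _ ≤ _ := Nat.pow_le_pow_left h3 2
    _ ≤ _ := h1
    _ ≤ _ := Nat.mul_le_mul_left _ h2

theorem ee_norm (x : ℝ) : ‖ee x‖ = 1 := by
  unfold ee
  rw [Complex.norm_exp]
  have : (2 * Real.pi * Complex.I * x : ℂ).re = 0 := by simp
  rw [this, Real.exp_zero]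

theorem cor_le {f : ℤ → ℂ} (hf : ∀ n, ‖f n‖ ≤ 1) (A B h : ℤ) (a : ℝ) :
    ‖cor f A B h a‖ ≤ (Finset.Icc A B).card := by
  unfold cor
  refine (norm_sum_le _ _).trans ?_
  have h1 : ∀ n ∈ Finset.Icc A B, ‖(if n + h ∈ Finset.Icc A B then
      f (n + h) * conj (f n) * ee (-(a * n)) else 0)‖ ≤ 1 := by
    intro n _
    split_ifs
    · rw [norm_mul, norm_mul, RCLike.norm_conj, ee_norm, mul_one]
      exact mul_le_one₀ (hf _) (norm_nonneg _) (hf _)
    · rw [norm_zero]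
      exact zero_le_one
  refine (Finset.sum_le_card_nsmul _ _ 1 h1).trans ?_
  rw [nsmul_eq_mul, mul_one]

theorem SS_nonneg (f : ℤ → ℂ) (A B h : ℤ) (a : ℝ) : 0 ≤ SS f A B h a := by
  unfold SS
  positivity

end INrg

open INrg in
/-- Item Nrg. -/
theorem pr_Nrg (h1 : StPD) (h2 : StPar) (h3 : StFrq) : StNrg := by
  intro δ K hδ
  refine ⟨δ ^ 7 / (162 ^ 2 * 270 * ((K : ℝ) + 1)), by positivity, ?_⟩
  intro N M X _ hN hX hNM hMK f hf A B Q1 hA hB R w hR hRc hSZ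
  classical
  have hN1 : (1 : ℝ) ≤ N := by exact_mod_cast hN
  have hX1 : (1 : ℝ) ≤ X := by exact_mod_cast hX
  have hMK' : (M : ℝ) ≤ (K + 1) * N := by
    have : (M : ℝ) ≤ K * N := by exact_mod_cast hMK
    nlinarith
  obtain ⟨n, hn⟩ : ∃ n : ℝ, n = (R.card : ℝ) := ⟨_, rfl⟩
  have hn0 : 0 < n := by
    rw [hn]
    exact lt_of_lt_of_le (by positivity) hRc
  -- the interval is not empty
  have hcard : ((Finset.Icc A B).card : ℝ) ≤ 3 * N := by
    have h4 : (Finset.Icc A B).card ≤ 2 * N + 1 := by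
      rw [Int.card_Icc]
      omega
    have h5 : ((Finset.Icc A B).card : ℝ) ≤ 2 * N + 1 := by exact_mod_cast h4
    linarith
  have hSS : ∀ (h : ℤ) (a : ℝ), SS f A B h a ≤ 9 * (N : ℝ) ^ 2 := by
    intro h a
    unfold SS
    have h4 := (cor_le hf A B h a).trans hcard
    calc ‖cor f A B h a‖ ^ 2 ≤ (3 * N : ℝ) ^ 2 := pow_le_pow_left₀ (norm_nonneg _) h4 2
      _ = 9 * (N : ℝ) ^ 2 := by ring
  have hAB : A ≤ B + 1 := by
    by_contra hcon
    have h4 : Finset.Icc A B = ∅ := Finset.Icc_eq_empty (by omega)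
    obtain ⟨r, hr⟩ : R.Nonempty := by
      rw [← Finset.card_pos]
      have : (0 : ℝ) < R.card := by rw [← hn]; exact hn0
      exact_mod_cast this
    have h5 := hSZ r hr
    have h6 : SZ f A B (Q1 * r) (w r) = 0 := by
      unfold SZ SS cor
      rw [h4, Finset.sum_empty, norm_zero]
      ring
    rw [h6] at h5
    have : 0 < δ * (N : ℝ) ^ 2 := by positivity
    linarith
  -- positive definiteness
  obtain ⟨S, hS⟩ : ∃ S : ℝ, S = ∑ r ∈ R, ∑ r' ∈ R, SZ f A B (Q1 * (r - r')) (w r - w r') :=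
    ⟨_, rfl⟩
  have hPD := h1 f A B ℤ R (fun r => Q1 * r) (fun r => fr (w r))
  have e1 : ∑ r ∈ R, ∑ r' ∈ R, SS f A B (Q1 * r - Q1 * r') (fr (w r) - fr (w r')) = S := by
    rw [hS]
    refine Finset.sum_congr rfl fun r _ => Finset.sum_congr rfl fun r' _ => ?_
    rw [h3.2.2.2.1 M f A B, mul_sub]
  rw [e1] at hPD
  have hS0 : 0 ≤ S := by
    rw [hS]
    exact Finset.sum_nonneg fun r _ => Finset.sum_nonneg fun r' _ => SS_nonneg _ _ _ _ _
  have h4 : n * (δ * (N : ℝ) ^ 2) ≤ ∑ r ∈ R, SS f A B (Q1 * r) (fr (w r)) := by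
    rw [hn]
    have := Finset.card_nsmul_le_sum R (fun r => SS f A B (Q1 * r) (fr (w r)))
      (δ * (N : ℝ) ^ 2) hSZ
    rwa [nsmul_eq_mul] at this
  have h5 : ∑ n ∈ Finset.Icc A B, ‖f n‖ ^ 2 ≤ 3 * N := by
    refine le_trans ?_ hcard
    have := Finset.sum_le_card_nsmul (Finset.Icc A B) (fun n => ‖f n‖ ^ 2) 1
      (fun n _ => pow_le_one₀ (norm_nonneg _) (hf n))
    rwa [nsmul_eq_mul, mul_one] at this
  have h6 : (n * (δ * (N : ℝ) ^ 2)) ^ 2 ≤ (3 * N) ^ 2 * S := by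
    calc (n * (δ * (N : ℝ) ^ 2)) ^ 2 ≤ (∑ r ∈ R, SS f A B (Q1 * r) (fr (w r))) ^ 2 :=
          pow_le_pow_left₀ (by positivity) h4 2
      _ ≤ _ := hPD
      _ ≤ (3 * N) ^ 2 * S := mul_le_mul_of_nonneg_right
          (pow_le_pow_left₀ (Finset.sum_nonneg fun _ _ => by positivity) h5 2) hS0
  have h7 : δ ^ 2 * (N : ℝ) ^ 2 * n ^ 2 ≤ 9 * S := by
    have hN2 : (0 : ℝ) < (N : ℝ) ^ 2 := by positivity
    refine le_of_mul_le_mul_left ?_ hN2
    calc (N : ℝ) ^ 2 * (δ ^ 2 * (N : ℝ) ^ 2 * n ^ 2) = (n * (δ * (N : ℝ) ^ 2)) ^ 2 := by ring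
      _ ≤ (3 * N) ^ 2 * S := h6
      _ = (N : ℝ) ^ 2 * (9 * S) := by ring
  -- the good pairs
  obtain ⟨τ, hτ⟩ : ∃ τ : ℝ, τ = δ ^ 2 * (N : ℝ) ^ 2 / 18 := ⟨_, rfl⟩
  have hτ0 : 0 < τ := by rw [hτ]; positivity
  set G := (R ×ˢ R).filter fun z => τ ≤ SZ f A B (Q1 * (z.1 - z.2)) (w z.1 - w z.2) with hG
  have h8 : S ≤ 9 * (N : ℝ) ^ 2 * G.card + τ * n ^ 2 := by
    rw [hS, ← Finset.sum_product',
      ← Finset.sum_filter_add_sum_filter_not (R ×ˢ R) (fun z =>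
        τ ≤ SZ f A B (Q1 * (z.1 - z.2)) (w z.1 - w z.2))]
    refine add_le_add ?_ ?_
    · have := Finset.sum_le_card_nsmul G
        (fun z => SZ f A B (Q1 * (z.1 - z.2)) (w z.1 - w z.2)) (9 * (N : ℝ) ^ 2)
        (fun z _ => hSS _ _)
      rw [nsmul_eq_mul, mul_comm] at this
      exact this
    · have h9 := Finset.sum_le_card_nsmul ((R ×ˢ R).filter fun z =>
          ¬ τ ≤ SZ f A B (Q1 * (z.1 - z.2)) (w z.1 - w z.2))
        (fun z => SZ f A B (Q1 * (z.1 - z.2)) (w z.1 - w z.2)) τ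
        (fun z hz => (not_le.1 (Finset.mem_filter.1 hz).2).le)
      refine h9.trans ?_
      rw [nsmul_eq_mul, mul_comm]
      refine mul_le_mul_of_nonneg_left ?_ hτ0.le
      have h10 := Finset.card_filter_le (R ×ˢ R) fun z =>
          ¬ τ ≤ SZ f A B (Q1 * (z.1 - z.2)) (w z.1 - w z.2)
      rw [Finset.card_product] at h10
      have h11 : ((((R ×ˢ R).filter fun z =>
          ¬ τ ≤ SZ f A B (Q1 * (z.1 - z.2)) (w z.1 - w z.2)).card : ℕ) : ℝ) ≤
          (R.card : ℝ) * R.card := by exact_mod_cast h10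
      rw [hn, sq]
      exact h11
  have hGc : δ ^ 2 / 162 * n ^ 2 ≤ G.card := by
    have hN2 : (0 : ℝ) < 9 * (N : ℝ) ^ 2 := by positivity
    refine le_of_mul_le_mul_left ?_ hN2
    have h9 : δ ^ 2 * (N : ℝ) ^ 2 * n ^ 2 ≤ 9 * (9 * (N : ℝ) ^ 2 * G.card + τ * n ^ 2) :=
      h7.trans (by linarith)
    rw [hτ] at h9
    nlinarith
  -- the set of popular differences
  set D := ((Finset.Icc (-(2 * X : ℤ)) (2 * X)) ×ˢ (Finset.univ : Finset (ZMod M))).filter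
    fun z => τ ≤ SZ f A B (Q1 * z.1) z.2 with hD
  have hfib : ∀ d : ℤ, (((Finset.univ : Finset (ZMod M)).filter
      fun ω => τ ≤ SZ f A B (Q1 * d) ω).card : ℝ) ≤ 54 * (K + 1) / δ ^ 2 := by
    intro d
    have h9 := h2 M f A B (Q1 * d) hf hAB (by omega)
    have h10 : (((Finset.univ : Finset (ZMod M)).filter
        fun ω => τ ≤ SZ f A B (Q1 * d) ω).card : ℝ) * τ ≤ ∑ ω : ZMod M, SZ f A B (Q1 * d) ω := by
      have h11 := Finset.card_nsmul_le_sum ((Finset.univ : Finset (ZMod M)).filter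
        fun ω => τ ≤ SZ f A B (Q1 * d) ω) (fun ω => SZ f A B (Q1 * d) ω) τ
        (fun ω hω => (Finset.mem_filter.1 hω).2)
      rw [nsmul_eq_mul] at h11
      refine h11.trans ?_
      exact Finset.sum_le_sum_of_subset_of_nonneg (Finset.filter_subset _ _)
        fun ω _ _ => SS_nonneg _ _ _ _ _
    have h11 : ((B : ℝ) - A + 1) ≤ 3 * N := by
      have h12 : B - A + 1 ≤ 2 * N + 1 := by omega
      have h13 : ((B : ℝ) - A + 1) ≤ 2 * N + 1 := by exact_mod_cast h12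
      linarith
    have h12 : (M : ℝ) * ((B : ℝ) - A + 1) ≤ (K + 1) * N * (3 * N) := by
      refine (mul_le_mul_of_nonneg_left h11 (by positivity)).trans ?_
      exact mul_le_mul_of_nonneg_right hMK' (by positivity)
    have h13 := h10.trans (h9.trans h12)
    rw [le_div_iff₀ (by positivity)]
    have hN2 : (0 : ℝ) < (N : ℝ) ^ 2 := by positivity
    refine le_of_mul_le_mul_left ?_ hN2
    rw [hτ] at h13
    nlinarith
  have hDc : (D.card : ℝ) ≤ 270 * (K + 1) / δ ^ 3 * n := by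
    have h9 : (D.card : ℝ) ≤ (4 * X + 1) * (54 * (K + 1) / δ ^ 2) := by
      have h10 : D.card = ∑ d ∈ Finset.Icc (-(2 * X : ℤ)) (2 * X),
          ((Finset.univ : Finset (ZMod M)).filter fun ω => τ ≤ SZ f A B (Q1 * d) ω).card := by
        rw [hD, Finset.card_filter, Finset.sum_product]
        refine Finset.sum_congr rfl fun d _ => ?_
        rw [Finset.card_filter]
      rw [h10]
      push_cast
      refine (Finset.sum_le_card_nsmul _ _ _ fun d _ => hfib d).trans ?_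
      rw [nsmul_eq_mul]
      refine mul_le_mul_of_nonneg_right ?_ (by positivity)
      rw [Int.card_Icc]
      have : (2 * (X : ℤ) + 1 - -(2 * X)).toNat = 4 * X + 1 := by omega
      rw [this]
      push_cast
      exact le_rfl
    refine h9.trans ?_
    have h10 : (4 * X + 1 : ℝ) ≤ 5 * X := by linarith
    have h11 : (X : ℝ) ≤ n / δ := by
      rw [le_div_iff₀ hδ, mul_comm, hn]
      exact hRc
    calc (4 * X + 1 : ℝ) * (54 * (K + 1) / δ ^ 2) ≤ (5 * (n / δ)) * (54 * (K + 1) / δ ^ 2) :=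
          mul_le_mul_of_nonneg_right (by linarith) (by positivity)
      _ = 270 * (K + 1) / δ ^ 3 * n := by
          field_simp
          ring
  -- the energy
  set Γ := R.image fun r => (r, w r) with hΓ
  have hGΓ : G.card ≤ ((Γ ×ˢ Γ).filter fun z => z.1 - z.2 ∈ D).card := by
    refine Finset.card_le_card_of_injOn (fun z => ((z.1, w z.1), (z.2, w z.2))) ?_ ?_
    · rintro ⟨r, r'⟩ hz
      have hz' := Finset.mem_filter.1 hz
      obtain ⟨hr, hr'⟩ := Finset.mem_product.1 hz'.1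
      refine Finset.mem_coe.2 (Finset.mem_filter.2 ⟨Finset.mem_product.2
        ⟨Finset.mem_image_of_mem _ hr, Finset.mem_image_of_mem _ hr'⟩, ?_⟩)
      refine Finset.mem_filter.2 ⟨Finset.mem_product.2 ⟨?_, Finset.mem_univ _⟩, hz'.2⟩
      have h9 := abs_le.1 (hR r hr)
      have h10 := abs_le.1 (hR r' hr')
      rw [Finset.mem_Icc]
      show -(2 * (X : ℤ)) ≤ r - r' ∧ r - r' ≤ 2 * X
      omega
    · rintro ⟨r, r'⟩ _ ⟨t, t'⟩ _ h
      simp only [Prod.mk.injEq] at h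
      obtain ⟨⟨rfl, -⟩, rfl, -⟩ := h
      rfl
  have hE := energy Γ D
  have hE' : ((G.card : ℝ)) ^ 2 ≤ D.card * (Finset.addEnergy Γ Γ : ℝ) := by
    have : G.card ^ 2 ≤ D.card * Finset.addEnergy Γ Γ :=
      (Nat.pow_le_pow_left hGΓ 2).trans hE
    exact_mod_cast this
  have hE0 : (0 : ℝ) ≤ (Finset.addEnergy Γ Γ : ℝ) := Nat.cast_nonneg _
  rw [← hn]
  have h9 : (δ ^ 2 / 162 * n ^ 2) ^ 2 ≤ 270 * (K + 1) / δ ^ 3 * n * (Finset.addEnergy Γ Γ : ℝ) :=
    (pow_le_pow_left₀ (by positivity) hGc 2).trans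
      (hE'.trans (mul_le_mul_of_nonneg_right hDc hE0))
  rw [div_mul_eq_mul_div, div_le_iff₀ (by positivity)]
  refine le_of_mul_le_mul_left ?_ (by positivity : (0 : ℝ) < n / δ ^ 3)
  calc n / δ ^ 3 * (δ ^ 7 * n ^ 3) = 162 ^ 2 * (δ ^ 2 / 162 * n ^ 2) ^ 2 := by
        field_simp
    _ ≤ 162 ^ 2 * (270 * (K + 1) / δ ^ 3 * n * (Finset.addEnergy Γ Γ : ℝ)) :=
        mul_le_mul_of_nonneg_left h9 (by positivity)
    _ = n / δ ^ 3 * ((Finset.addEnergy Γ Γ : ℝ) * (162 ^ 2 * 270 * ((K : ℝ) + 1))) := by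
        field_simp

end Pool.Agent.U3
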