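import Mathlib
import Pool.Agent.Work.MP_0f91f8_co.U3.Stmts

/-!
# Block U3, item PD: the key inequality (positive definiteness)
-/

set_option autoImplicit false

namespace Pool.Agent.U3

open scoped ComplexConjugate Pointwise

namespace IPD

lemma sq_cast (z : ℂ) : ((‖z‖ ^ 2 : ℝ) : ℂ) = z * conj z := by
  rw [Complex.mul_conj, Complex.normSq_eq_norm_sq]

lemma bilin {ι : Type} (s : Finset ι) (R : Finset ℤ) (p : ι → ℤ → ℂ) :
    ∑ n ∈ R, ∑ m ∈ R, ‖∑ i ∈ s, p i n * conj (p i m)‖ ^ 2 =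
      ∑ i ∈ s, ∑ j ∈ s, ‖∑ n ∈ R, p i n * conj (p j n)‖ ^ 2 := by
  have h : ((∑ n ∈ R, ∑ m ∈ R, ‖∑ i ∈ s, p i n * conj (p i m)‖ ^ 2 : ℝ) : ℂ) =
      ((∑ i ∈ s, ∑ j ∈ s, ‖∑ n ∈ R, p i n * conj (p j n)‖ ^ 2 : ℝ) : ℂ) := by
    simp only [Complex.ofReal_sum, sq_cast, map_sum, map_mul, Complex.conj_conj,
      Finset.sum_mul_sum]
    have e1 : ∀ n ∈ R, ∑ m ∈ R, ∑ i ∈ s, ∑ j ∈ s,
        p i n * conj (p i m) * (conj (p j n) * p j m) =
        ∑ i ∈ s, ∑ j ∈ s, ∑ m ∈ R, p i n * conj (p j n) * (conj (p i m) * p j m) := by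
      intro n _
      rw [Finset.sum_comm]
      refine Finset.sum_congr rfl fun i _ => ?_
      rw [Finset.sum_comm]
      refine Finset.sum_congr rfl fun j _ => Finset.sum_congr rfl fun m _ => ?_
      ring
    rw [Finset.sum_congr rfl e1, Finset.sum_comm]
    refine Finset.sum_congr rfl fun i _ => ?_
    rw [Finset.sum_comm]
  exact_mod_cast h

lemma gen {ι : Type} (s : Finset ι) (I R : Finset ℤ) (hIR : I ⊆ R) (p : ι → ℤ → ℂ)
    (F : ℤ → ℂ) :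
    (∑ i ∈ s, ‖∑ n ∈ I, p i n * conj (F n)‖ ^ 2) ^ 2 ≤
      (∑ n ∈ I, ‖F n‖ ^ 2) ^ 2 * ∑ i ∈ s, ∑ j ∈ s, ‖∑ n ∈ R, p i n * conj (p j n)‖ ^ 2 := by
  have h1 : ((∑ i ∈ s, ‖∑ n ∈ I, p i n * conj (F n)‖ ^ 2 : ℝ) : ℂ) =
      ∑ x ∈ I ×ˢ I, (∑ i ∈ s, p i x.1 * conj (p i x.2)) * (conj (F x.1) * F x.2) := by
    rw [Finset.sum_product]
    have e1 : ∀ i ∈ s, ((‖∑ n ∈ I, p i n * conj (F n)‖ ^ 2 : ℝ) : ℂ) =
        ∑ n ∈ I, ∑ m ∈ I, p i n * conj (p i m) * (conj (F n) * F m) := by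
      intro i _
      rw [sq_cast, map_sum, Finset.sum_mul_sum]
      refine Finset.sum_congr rfl fun n _ => Finset.sum_congr rfl fun m _ => ?_
      rw [map_mul, Complex.conj_conj]
      ring
    rw [Complex.ofReal_sum, Finset.sum_congr rfl e1, Finset.sum_comm]
    refine Finset.sum_congr rfl fun n _ => ?_
    rw [Finset.sum_comm]
    refine Finset.sum_congr rfl fun m _ => ?_
    rw [Finset.sum_mul]
  have h0 : 0 ≤ ∑ i ∈ s, ‖∑ n ∈ I, p i n * conj (F n)‖ ^ 2 :=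
    Finset.sum_nonneg fun i _ => sq_nonneg _
  have h2 : ∑ i ∈ s, ‖∑ n ∈ I, p i n * conj (F n)‖ ^ 2 ≤
      ∑ x ∈ I ×ˢ I, ‖∑ i ∈ s, p i x.1 * conj (p i x.2)‖ * (‖F x.1‖ * ‖F x.2‖) := by
    have h3 : ‖((∑ i ∈ s, ‖∑ n ∈ I, p i n * conj (F n)‖ ^ 2 : ℝ) : ℂ)‖ ≤
        ∑ x ∈ I ×ˢ I, ‖∑ i ∈ s, p i x.1 * conj (p i x.2)‖ * (‖F x.1‖ * ‖F x.2‖) := by
      rw [h1]
      refine (norm_sum_le _ _).trans (le_of_eq (Finset.sum_congr rfl fun x _ => ?_))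
      rw [norm_mul, norm_mul, RCLike.norm_conj]
    rwa [Complex.norm_real, Real.norm_of_nonneg h0] at h3
  have h4 : (∑ x ∈ I ×ˢ I, ‖∑ i ∈ s, p i x.1 * conj (p i x.2)‖ * (‖F x.1‖ * ‖F x.2‖)) ^ 2 ≤
      (∑ x ∈ I ×ˢ I, ‖∑ i ∈ s, p i x.1 * conj (p i x.2)‖ ^ 2) *
        ∑ x ∈ I ×ˢ I, (‖F x.1‖ * ‖F x.2‖) ^ 2 :=
    Finset.sum_mul_sq_le_sq_mul_sq _ _ _
  have h5 : ∑ x ∈ I ×ˢ I, (‖F x.1‖ * ‖F x.2‖) ^ 2 = (∑ n ∈ I, ‖F n‖ ^ 2) ^ 2 := by
    rw [Finset.sum_product, pow_two (∑ n ∈ I, ‖F n‖ ^ 2), Finset.sum_mul_sum]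
    refine Finset.sum_congr rfl fun n _ => Finset.sum_congr rfl fun m _ => ?_
    ring
  have h6 : ∑ x ∈ I ×ˢ I, ‖∑ i ∈ s, p i x.1 * conj (p i x.2)‖ ^ 2 ≤
      ∑ i ∈ s, ∑ j ∈ s, ‖∑ n ∈ R, p i n * conj (p j n)‖ ^ 2 := by
    rw [← bilin s R p, ← Finset.sum_product' R R
      (fun n m => ‖∑ i ∈ s, p i n * conj (p i m)‖ ^ 2)]
    exact Finset.sum_le_sum_of_subset_of_nonneg (Finset.product_subset_product hIR hIR)
      fun x _ _ => sq_nonneg _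
  calc (∑ i ∈ s, ‖∑ n ∈ I, p i n * conj (F n)‖ ^ 2) ^ 2
      ≤ (∑ x ∈ I ×ˢ I, ‖∑ i ∈ s, p i x.1 * conj (p i x.2)‖ * (‖F x.1‖ * ‖F x.2‖)) ^ 2 :=
        pow_le_pow_left₀ h0 h2 2
    _ ≤ _ := h4
    _ ≤ (∑ i ∈ s, ∑ j ∈ s, ‖∑ n ∈ R, p i n * conj (p j n)‖ ^ 2) *
          (∑ n ∈ I, ‖F n‖ ^ 2) ^ 2 := by
        rw [h5]
        exact mul_le_mul_of_nonneg_right h6 (sq_nonneg _)
    _ = _ := mul_comm _ _

/-- Shift of a sum of a function with support in `[A,B]`. -/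
lemma shift {A B K k : ℤ} (hk : |k| ≤ K) (G : ℤ → ℂ) (hG : ∀ n, n ∉ Finset.Icc A B → G n = 0) :
    ∑ n ∈ Finset.Icc (A - K) (B + K), G (n + k) = ∑ n ∈ Finset.Icc A B, G n := by
  obtain ⟨hk1, hk2⟩ := abs_le.1 hk
  have h1 : ∑ n ∈ Finset.Icc (A - K) (B + K), G (n + k) =
      ∑ n ∈ (Finset.Icc (A - K) (B + K)).map (addRightEmbedding k), G n := by
    rw [Finset.sum_map]
    rfl
  rw [h1]
  symm
  refine Finset.sum_subset ?_ fun n _ hn => hG n hn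
  intro n hn
  rw [Finset.mem_Icc] at hn
  rw [Finset.mem_map]
  refine ⟨n - k, ?_, ?_⟩
  · rw [Finset.mem_Icc]
    constructor <;> omega
  · simp

end IPD

open IPD in
theorem pr_PD (h1 : StEE) : StPD := by
  obtain ⟨hadd, hnorm, hconj, _, _, _, _⟩ := h1
  intro f A B ι s h a
  classical
  set F : ℤ → ℂ := fun n => if n ∈ Finset.Icc A B then f n else 0 with hF
  have hF0 : ∀ n, n ∉ Finset.Icc A B → F n = 0 := fun n hn => if_neg hn
  set p : ι → ℤ → ℂ := fun i n => F (n + h i) * ee (-(a i * n)) with hp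
  obtain ⟨K, hK⟩ : ∃ K : ℤ, ∀ i ∈ s, |h i| ≤ K := by
    refine ⟨∑ i ∈ s, |h i|, fun i hi => ?_⟩
    exact Finset.single_le_sum (f := fun i => |h i|) (fun j _ => abs_nonneg _) hi
  rcases s.eq_empty_or_nonempty with hs | ⟨i0, hi0⟩
  · subst hs
    simp
  have hK0 : 0 ≤ K := (abs_nonneg _).trans (hK i0 hi0)
  have hcor : ∀ (k : ℤ) (b : ℝ), cor f A B k b =
      ∑ n ∈ Finset.Icc A B, F (n + k) * ee (-(b * n)) * conj (F n) := by
    intro k b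
    unfold cor
    refine Finset.sum_congr rfl fun n hn => ?_
    simp only [hF, if_pos hn]
    split_ifs
    · ring
    · ring
  have hIR : Finset.Icc A B ⊆ Finset.Icc (A - K) (B + K) :=
    Finset.Icc_subset_Icc (by omega) (by omega)
  have h2 := gen s (Finset.Icc A B) (Finset.Icc (A - K) (B + K)) hIR p F
  have h3 : ∀ i ∈ s, ∀ j ∈ s, ‖∑ n ∈ Finset.Icc (A - K) (B + K), p i n * conj (p j n)‖ ^ 2 =
      SS f A B (h i - h j) (a i - a j) := by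
    intro i _ j hj
    have h4 : ∑ n ∈ Finset.Icc (A - K) (B + K), p i n * conj (p j n) =
        ee ((a i - a j) * h j) * cor f A B (h i - h j) (a i - a j) := by
      have h5 := shift (hK j hj) (fun n => F (n + (h i - h j)) * ee (-((a i - a j) * n)) *
        conj (F n) * ee ((a i - a j) * h j)) (by
          intro n hn
          rw [hF0 n hn, map_zero, mul_zero, zero_mul])
      rw [hcor, Finset.mul_sum]
      refine Eq.trans ?_ (h5.trans ?_)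
      · refine Finset.sum_congr rfl fun n _ => ?_
        simp only [hp]
        have e1 : n + h j + (h i - h j) = n + h i := by ring
        rw [e1, map_mul, hconj]
        have e2 : ee (-(a i * n)) * ee (- -(a j * n)) =
            ee (-((a i - a j) * ((n + h j : ℤ) : ℝ))) * ee ((a i - a j) * h j) := by
          rw [← hadd, ← hadd]
          congr 1
          push_cast
          ring
        linear_combination (F (n + h i) * conj (F (n + h j))) * e2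
      · refine Finset.sum_congr rfl fun n _ => ?_
        ring
    unfold SS
    rw [h4, norm_mul, hnorm, one_mul]
  have h6 : ∀ i ∈ s, ‖∑ n ∈ Finset.Icc A B, p i n * conj (F n)‖ ^ 2 = SS f A B (h i) (a i) := by
    intro i _
    unfold SS
    rw [hcor]
  have h7 : ∑ n ∈ Finset.Icc A B, ‖F n‖ ^ 2 = ∑ n ∈ Finset.Icc A B, ‖f n‖ ^ 2 := by
    refine Finset.sum_congr rfl fun n hn => ?_
    simp only [hF, if_pos hn]
  rw [Finset.sum_congr rfl h6, h7,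
    Finset.sum_congr rfl fun i hi => Finset.sum_congr rfl fun j hj => h3 i hi j hj] at h2
  exact h2

end Pool.Agent.U3
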