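import Mathlib
import Pool.Agent.Work.MP_0f91f8_co.U3.Stmts

set_option autoImplicit false

/-! Block U3, item Par: Parseval in the frequency. -/

namespace Pool.Agent.U3

open scoped ComplexConjugate Pointwise

namespace IPar

theorem ee_fr (M : ℕ) [NeZero M] (w : ZMod M) (n : ℤ) :
    ee (-(fr w * n)) = ZMod.stdAddChar (w * (-(n : ZMod M))) := by
  have h1 : (w * (-(n : ZMod M))) = ((-((w.val : ℤ) * n) : ℤ) : ZMod M) := by
    push_cast
    rw [ZMod.natCast_zmod_val]
    ring
  rw [h1, ZMod.stdAddChar_coe]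
  unfold ee fr
  congr 1
  push_cast
  ring

theorem parseval (M : ℕ) [NeZero M] (A B : ℤ) (hAB : B - A + 1 ≤ M) (c : ℤ → ℂ) :
    ∑ w : ZMod M, ‖∑ n ∈ Finset.Icc A B, c n * ee (-(fr w * n))‖ ^ 2 =
      M * ∑ n ∈ Finset.Icc A B, ‖c n‖ ^ 2 := by
  have key : ((∑ w : ZMod M, ‖∑ n ∈ Finset.Icc A B, c n * ee (-(fr w * n))‖ ^ 2 : ℝ) : ℂ) =
      ((M * ∑ n ∈ Finset.Icc A B, ‖c n‖ ^ 2 : ℝ) : ℂ) := by
    have h1 : ∀ w : ZMod M, ((‖∑ n ∈ Finset.Icc A B, c n * ee (-(fr w * n))‖ ^ 2 : ℝ) : ℂ) =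
        ∑ n ∈ Finset.Icc A B, ∑ m ∈ Finset.Icc A B,
          c n * conj (c m) * ZMod.stdAddChar (w * ((m : ZMod M) - (n : ZMod M))) := by
      intro w
      rw [Complex.ofReal_pow, ← Complex.mul_conj', map_sum, Finset.sum_mul_sum]
      refine Finset.sum_congr rfl fun n _ => Finset.sum_congr rfl fun m _ => ?_
      rw [map_mul, ee_fr, ee_fr, ← AddChar.map_neg_eq_conj]
      have h2 : w * ((m : ZMod M) - (n : ZMod M)) = w * (-(n : ZMod M)) + -(w * (-(m : ZMod M))) := by ring
      rw [h2, AddChar.map_add_eq_mul]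
      ring
    rw [Complex.ofReal_sum, Finset.sum_congr rfl fun w _ => h1 w, Finset.sum_comm]
    push_cast
    rw [Finset.mul_sum]
    refine Finset.sum_congr rfl fun n hn => ?_
    rw [Finset.sum_comm]
    have h3 : ∀ m ∈ Finset.Icc A B, ∑ w : ZMod M,
        c n * conj (c m) * ZMod.stdAddChar (w * ((m : ZMod M) - (n : ZMod M))) =
          if m = n then (M : ℂ) * (‖c n‖ : ℂ) ^ 2 else 0 := by
      intro m hm
      rw [← Finset.mul_sum, AddChar.sum_mulShift _ (ZMod.isPrimitive_stdAddChar M)]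
      rw [Finset.mem_Icc] at hn hm
      by_cases hmn : m = n
      · subst hmn
        rw [if_pos (sub_self _), if_pos rfl, ZMod.card, Complex.mul_conj']
        ring
      · rw [if_neg, if_neg hmn, Nat.cast_zero, mul_zero]
        intro h
        have h4 : ((m - n : ℤ) : ZMod M) = 0 := by
          push_cast
          exact h
        rw [ZMod.intCast_zmod_eq_zero_iff_dvd] at h4
        have h5 := Int.eq_zero_of_abs_lt_dvd h4 (by rw [abs_lt]; constructor <;> omega)
        exact hmn (by omega)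
    rw [Finset.sum_congr rfl h3, Finset.sum_ite_eq' _ n, if_pos hn]
  exact_mod_cast key

end IPar

theorem pr_Par : StPar := by
  intro M _ f A B h hf hA hB
  unfold SZ SS cor
  have h1 : ∀ w : ZMod M, (∑ n ∈ Finset.Icc A B,
      if n + h ∈ Finset.Icc A B then f (n + h) * conj (f n) * ee (-(fr w * n)) else 0) =
      ∑ n ∈ Finset.Icc A B, (if n + h ∈ Finset.Icc A B then f (n + h) * conj (f n) else 0) *
        ee (-(fr w * n)) := by
    intro w
    refine Finset.sum_congr rfl fun n _ => ?_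
    rw [ite_mul, zero_mul]
  simp_rw [h1]
  rw [IPar.parseval M A B hB]
  refine mul_le_mul_of_nonneg_left ?_ (Nat.cast_nonneg M)
  calc ∑ n ∈ Finset.Icc A B, ‖(if n + h ∈ Finset.Icc A B then f (n + h) * conj (f n) else 0)‖ ^ 2
      ≤ ∑ n ∈ Finset.Icc A B, (1 : ℝ) := by
        refine Finset.sum_le_sum fun n _ => ?_
        split_ifs
        · rw [norm_mul, RCLike.norm_conj]
          have := mul_le_one₀ (hf (n + h)) (norm_nonneg _) (hf n)
          exact pow_le_one₀ (by positivity) this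
        · simp
    _ = (B - A + 1 : ℝ) := by
        rw [Finset.sum_const, Int.card_Icc, nsmul_eq_mul, mul_one]
        have h2 : (((B + 1 - A).toNat : ℤ) : ℝ) = ((B + 1 - A : ℤ) : ℝ) := by
          rw [Int.toNat_of_nonneg (by omega)]
        rw [← Int.cast_natCast, h2]
        push_cast
        ring

end Pool.Agent.U3
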