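import Mathlib
import Pool.Agent.Work.MP_0f91f8_co.U3.Stmts

/-!
# Block U3, item Rnd: rounding of a frequency
-/

set_option autoImplicit false

namespace Pool.Agent.U3

open scoped ComplexConjugate Pointwise

namespace IRnd

/-- Rounding a real number in `[0,1)` to a fraction with denominator `M`. -/
theorem round_exists (M : ℕ) [NeZero M] (a : ℝ) :
    ∃ w : ZMod M, |Int.fract a - fr w| ≤ 1 / (M : ℝ) := by
  have hM : (0 : ℝ) < M := by
    have := NeZero.pos M
    exact_mod_cast this
  set m : ℕ := ⌊Int.fract a * M⌋₊ with hm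
  have h0 : 0 ≤ Int.fract a * M := mul_nonneg (Int.fract_nonneg a) hM.le
  have h1 : (m : ℝ) ≤ Int.fract a * M := Nat.floor_le h0
  have h2 : Int.fract a * M < m + 1 := Nat.lt_floor_add_one _
  have h3 : m < M := by
    have h4 : (m : ℝ) < M := by
      have := Int.fract_lt_one a
      nlinarith
    exact_mod_cast h4
  refine ⟨(m : ZMod M), ?_⟩
  have h5 : fr (m : ZMod M) = (m : ℝ) / M := by
    unfold fr
    rw [ZMod.val_natCast_of_lt h3]
  rw [h5, abs_le]
  have h6 : Int.fract a = (Int.fract a * M) / M := by field_simp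
  have h7 : Int.fract a - (m : ℝ) / M = (Int.fract a * M - m) / M := by
    rw [sub_div, ← h6]
  rw [h7]
  constructor
  · have : 0 ≤ (Int.fract a * M - m) / (M : ℝ) := div_nonneg (by linarith) hM.le
    have h8 : 0 ≤ 1 / (M : ℝ) := by positivity
    linarith
  · exact div_le_div_of_nonneg_right (by linarith) hM.le

/-- The change of one value of the exponential. -/
theorem term_le (h1 : StEE) (N M : ℕ) [NeZero M] (a : ℝ) (w : ZMod M)
    (hw : |Int.fract a - fr w| ≤ 1 / (M : ℝ)) (n : ℤ) (hn : |(n : ℝ)| ≤ N) :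
    ‖ee (-(a * n)) - ee (-(fr w * n))‖ ≤ 2 * Real.pi * (N / M) := by
  obtain ⟨-, -, -, -, -, hper, hlip⟩ := h1
  have e1 : ee (-(a * n)) = ee (-(Int.fract a * n)) := by
    have h : -(a * (n : ℝ)) = -(Int.fract a * n) + ((-(⌊a⌋ * n) : ℤ) : ℝ) := by
      push_cast
      have := Int.fract_add_floor a
      have h' : a = Int.fract a + ⌊a⌋ := this.symm
      calc -(a * (n : ℝ)) = -((Int.fract a + ⌊a⌋) * n) := by rw [← h']
        _ = _ := by ring
    rw [h, hper]
  rw [e1]
  refine (hlip _ _).trans ?_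
  refine mul_le_mul_of_nonneg_left ?_ (by positivity)
  have h2 : -(Int.fract a * (n : ℝ)) - -(fr w * n) = -((Int.fract a - fr w) * n) := by ring
  rw [h2, abs_neg, abs_mul]
  calc |Int.fract a - fr w| * |(n : ℝ)| ≤ 1 / (M : ℝ) * N :=
        mul_le_mul hw hn (abs_nonneg _) (by positivity)
    _ = (N : ℝ) / M := by ring

end IRnd

/-- [Rnd] -/
theorem pr_Rnd (h1 : StEE) (_h2 : StND) (_h3 : StFrq) : StRnd := by
  intro δ hδ
  refine ⟨⌈38 / δ⌉₊, ?_⟩
  intro N M _ hN hKM f hf A B h a hA hB hcor
  have hM : (0 : ℝ) < M := by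
    have := NeZero.pos M
    exact_mod_cast this
  have hNr : (1 : ℝ) ≤ N := by exact_mod_cast hN
  have hM2 : 38 * (N : ℝ) ≤ δ * M := by
    have h2 : 38 / δ ≤ (⌈38 / δ⌉₊ : ℝ) := Nat.le_ceil _
    have h3 : (⌈38 / δ⌉₊ : ℝ) * N ≤ M := by exact_mod_cast hKM
    have h4 : 38 ≤ δ * (⌈38 / δ⌉₊ : ℝ) := by
      have := (div_le_iff₀ hδ).mp h2
      linarith
    nlinarith
  obtain ⟨w, hw⟩ := IRnd.round_exists M a
  refine ⟨w, ?_⟩
  have hdiff : ‖cor f A B h a - cor f A B h (fr w)‖ ≤ δ / 2 * N := by
    unfold cor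
    rw [← Finset.sum_sub_distrib]
    refine (norm_sum_le _ _).trans ?_
    have hterm : ∀ n ∈ Finset.Icc A B,
        ‖((if n + h ∈ Finset.Icc A B then f (n + h) * conj (f n) * ee (-(a * n)) else 0) -
          (if n + h ∈ Finset.Icc A B then f (n + h) * conj (f n) * ee (-(fr w * n)) else 0))‖ ≤
        2 * Real.pi * (N / M) := by
      intro n hn
      rw [Finset.mem_Icc] at hn
      have hnN : |(n : ℝ)| ≤ N := by
        rw [abs_le]
        constructor
        · have : -(N : ℤ) ≤ n := by omega
          exact_mod_cast this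
        · have : n ≤ (N : ℤ) := by omega
          exact_mod_cast this
      split_ifs with hc
      · rw [← mul_sub, norm_mul, norm_mul, RCLike.norm_conj]
        have h5 := IRnd.term_le h1 N M a w hw n hnN
        have h6 : ‖f (n + h)‖ * ‖f n‖ ≤ 1 := by
          have := hf (n + h)
          have := hf n
          have := norm_nonneg (f n)
          have := norm_nonneg (f (n + h))
          nlinarith
        calc ‖f (n + h)‖ * ‖f n‖ * ‖ee (-(a * n)) - ee (-(fr w * n))‖
            ≤ 1 * (2 * Real.pi * (N / M)) :=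
              mul_le_mul h6 h5 (norm_nonneg _) zero_le_one
          _ = _ := one_mul _
      · simp only [sub_self, norm_zero]
        positivity
    refine (Finset.sum_le_card_nsmul _ _ _ hterm).trans ?_
    rw [Int.card_Icc, nsmul_eq_mul]
    have hcard : (((B + 1 - A).toNat : ℕ) : ℝ) ≤ 3 * N := by
      have : (B + 1 - A).toNat ≤ 3 * N := by omega
      exact_mod_cast this
    have hpi : Real.pi ≤ 19 / 6 := by
      have := Real.pi_lt_d2
      linarith
    calc (((B + 1 - A).toNat : ℕ) : ℝ) * (2 * Real.pi * (N / M))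
        ≤ (3 * N) * (2 * (19 / 6) * (N / M)) := by
          refine mul_le_mul hcard ?_ (by positivity) (by positivity)
          exact mul_le_mul_of_nonneg_right (by linarith) (by positivity)
      _ = (N : ℝ) * (19 * N / M) := by ring
      _ ≤ N * (δ / 2) := by
          refine mul_le_mul_of_nonneg_left ?_ (by positivity)
          rw [div_le_iff₀ hM]
          linarith
      _ = δ / 2 * N := by ring
  have h7 : ‖cor f A B h a‖ ≤ ‖cor f A B h (fr w)‖ + ‖cor f A B h a - cor f A B h (fr w)‖ := by
    have := norm_add_le (cor f A B h (fr w)) (cor f A B h a - cor f A B h (fr w))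
    rwa [add_sub_cancel] at this
  linarith

end Pool.Agent.U3
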