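import Mathlib
import Pool.Agent.Work.MP_0f91f8_co.U3.Stmts

/-!
# Block U3, item Scl: restriction to the multiples of `q`
-/

set_option autoImplicit false

namespace Pool.Agent.U3

open scoped ComplexConjugate

namespace IScl

theorem cl_le_iff (A : ℤ) (q : ℕ) (hq : 1 ≤ q) (m : ℤ) : cl A q ≤ m ↔ A ≤ q * m := by
  have hq' : (0 : ℤ) < q := by exact_mod_cast hq
  unfold cl
  rw [neg_le, Int.le_ediv_iff_mul_le hq']
  constructor
  · intro h
    linarith
  · intro h
    linarith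

theorem mem_iff (A B : ℤ) (q : ℕ) (hq : 1 ≤ q) (m : ℤ) :
    (q : ℤ) * m ∈ Finset.Icc A B ↔ m ∈ Finset.Icc (cl A q) (B / q) := by
  have hq' : (0 : ℤ) < q := by exact_mod_cast hq
  rw [Finset.mem_Icc, Finset.mem_Icc, cl_le_iff A q hq, Int.le_ediv_iff_mul_le hq', mul_comm m]

end IScl

open IScl in
/-- **item Scl**: restriction to the multiples of `q` -/
theorem pr_Scl : StScl := by
  intro g hg q A B h a hq hqh
  obtain ⟨h', rfl⟩ := hqh
  have hq' : (0 : ℤ) < q := by exact_mod_cast hq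
  have hdiv : (q : ℤ) * h' / q = h' := Int.mul_ediv_cancel_left _ hq'.ne'
  rw [hdiv]
  unfold cor
  have hmap : (Finset.Icc A B).filter (fun n => (q : ℤ) ∣ n) =
      (Finset.Icc (cl A q) (B / q)).map ⟨fun m : ℤ => (q : ℤ) * m,
        fun x y hxy => mul_left_cancel₀ hq'.ne' hxy⟩ := by
    ext n
    simp only [Finset.mem_filter, Finset.mem_map, Function.Embedding.coeFn_mk]
    constructor
    · rintro ⟨hn, m, rfl⟩
      exact ⟨m, (mem_iff A B q hq m).1 hn, rfl⟩
    · rintro ⟨m, hm, rfl⟩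
      exact ⟨(mem_iff A B q hq m).2 hm, dvd_mul_right _ _⟩
  rw [hmap, Finset.sum_map]
  refine Finset.sum_congr rfl fun m hm => ?_
  simp only [Function.Embedding.coeFn_mk]
  have e1 : (q : ℤ) * m + q * h' = q * (m + h') := by ring
  rw [e1]
  by_cases hc : m + h' ∈ Finset.Icc (cl A q) (B / q)
  · rw [if_pos hc, if_pos ((mem_iff A B q hq (m + h')).2 hc)]
    rw [hg.mul, hg.mul, map_mul]
    have hn : g (q : ℤ) * conj (g (q : ℤ)) = 1 := by
      rw [Complex.mul_conj, Complex.normSq_eq_norm_sq, hg.nrm _ hq'.ne']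
      simp
    have e2 : -(a * (((q : ℤ) * m : ℤ) : ℝ)) = -((q : ℝ) * a * (m : ℝ)) := by
      push_cast
      ring
    rw [e2]
    calc g (q : ℤ) * g (m + h') * (conj (g (q : ℤ)) * conj (g m)) * ee (-((q : ℝ) * a * (m : ℝ)))
        = (g (q : ℤ) * conj (g (q : ℤ))) * (g (m + h') * conj (g m) *
            ee (-((q : ℝ) * a * (m : ℝ)))) := by ring
      _ = g (m + h') * conj (g m) * ee (-((q : ℝ) * a * (m : ℝ))) := by rw [hn, one_mul]
  · rw [if_neg hc, if_neg (fun h => hc ((mem_iff A B q hq (m + h')).1 h))]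

end Pool.Agent.U3
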