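import Mathlib
import Pool.Agent.Work.MP_0f91f8_co.U3.Stmts

set_option autoImplicit false

/-! Block U3, item Sup: linear algebra of forms. -/

namespace Pool.Agent.U3

open scoped ComplexConjugate Pointwise

namespace ISup

theorem cramer1 (l k v : ℤ × ℤ) : dt l k * v.1 = k.2 * lf l v - l.2 * lf k v := by
  unfold dt lf; ring

theorem cramer2 (l k v : ℤ × ℤ) : dt l k * v.2 = l.1 * lf k v - k.1 * lf l v := by
  unfold dt lf; ring

theorem bound (D u a b x y X S : ℤ) (hD : D ≠ 0) (h : D * u = a * x - b * y) (hx : |x| ≤ X)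
    (hy : |y| ≤ X) (hS : |a| + |b| ≤ S) : |u| ≤ X * S := by
  have hX : 0 ≤ X := (abs_nonneg x).trans hx
  have h1 : |u| ≤ |D| * |u| := by
    have : 1 ≤ |D| := Int.one_le_abs hD
    nlinarith [abs_nonneg u]
  rw [← abs_mul, h] at h1
  have h2 : |a * x - b * y| ≤ |a| * |x| + |b| * |y| := by
    rw [← abs_mul, ← abs_mul]
    exact abs_sub _ _
  have h3 : |a| * |x| ≤ |a| * X := mul_le_mul_of_nonneg_left hx (abs_nonneg a)
  have h4 : |b| * |y| ≤ |b| * X := mul_le_mul_of_nonneg_left hy (abs_nonneg b)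
  have h5 : X * (|a| + |b|) ≤ X * S := mul_le_mul_of_nonneg_left hS hX
  nlinarith

end ISup

theorem pr_Sup : StSup := by
  refine ⟨?_, ?_, ?_, ?_, ?_, ?_, ?_⟩
  · intro l
    simp only [lf, pp]
    ring
  · intro l k
    simp only [lf, pp, dt]
    ring
  · intro l v w
    simp only [lf, Prod.fst_add, Prod.snd_add]
    ring
  · intro l v d
    simp only [lf, Prod.smul_fst, Prod.smul_snd, smul_eq_mul]
    ring
  · intro l k v X hD h1 h2
    have e1 := ISup.bound _ _ _ _ _ _ X ((sz l : ℤ) + sz k) hD (ISup.cramer1 l k v) h1 h2 (by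
      simp only [sz, Nat.cast_add, Int.natCast_natAbs]
      have := abs_nonneg l.1
      have := abs_nonneg k.1
      linarith)
    have e2 := ISup.bound _ _ _ _ _ _ X ((sz l : ℤ) + sz k) hD (ISup.cramer2 l k v) h2 h1 (by
      simp only [sz, Nat.cast_add, Int.natCast_natAbs]
      have := abs_nonneg l.2
      have := abs_nonneg k.2
      linarith)
    rw [abs_le] at e1 e2
    unfold bx
    rw [Finset.mem_product, Finset.mem_Icc, Finset.mem_Icc]
    exact ⟨e1, e2⟩
  · intro l k v w hD h1 h2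
    have e1 : dt l k * v.1 = dt l k * w.1 := by
      rw [ISup.cramer1, ISup.cramer1, h1, h2]
    have e2 : dt l k * v.2 = dt l k * w.2 := by
      rw [ISup.cramer2, ISup.cramer2, h1, h2]
    exact Prod.ext (mul_left_cancel₀ hD e1) (mul_left_cancel₀ hD e2)
  · rintro l k x y hD ⟨x', rfl⟩ ⟨y', rfl⟩
    refine ⟨(k.2 * x' - l.2 * y', l.1 * y' - k.1 * x'), ?_, ?_⟩
    · simp only [lf, dt]
      ring
    · simp only [lf, dt]
      ring

end Pool.Agent.U3
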