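import Mathlib
import Pool.Agent.Work.MP_0f91f8_co.U3.Stmts

/-!
Block U3, item TK: the dual Turan-Kubilius inequality for finitely many primes.
-/

set_option autoImplicit false

namespace Pool.Agent.U3

open scoped ComplexConjugate

namespace ITK

/-- the multiples of `m` in `[-N,N]` -/
theorem filt (m N : ℕ) (hm : 0 < m) :
    (Finset.Icc (-(N : ℤ)) N).filter (fun n => (m : ℤ) ∣ n) =
      (Finset.Icc (-((N / m : ℕ) : ℤ)) ((N / m : ℕ) : ℤ)).image (fun k => (m : ℤ) * k) := by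
  have hm' : (0 : ℤ) < m := by exact_mod_cast hm
  have hN := Nat.div_add_mod N m
  have hlt := Nat.mod_lt N hm
  have hN' : (m : ℤ) * ((N / m : ℕ) : ℤ) + ((N % m : ℕ) : ℤ) = N := by exact_mod_cast hN
  have hlt' : ((N % m : ℕ) : ℤ) < m := by exact_mod_cast hlt
  have h0 : (0 : ℤ) ≤ ((N % m : ℕ) : ℤ) := Int.natCast_nonneg _
  ext n
  simp only [Finset.mem_filter, Finset.mem_Icc, Finset.mem_image]
  constructor
  · rintro ⟨⟨h1, h2⟩, k, rfl⟩
    refine ⟨k, ⟨?_, ?_⟩, rfl⟩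
    · by_contra h
      push Not at h
      have : (m : ℤ) * (k + 1) ≤ m * (-((N / m : ℕ) : ℤ)) :=
        mul_le_mul_of_nonneg_left (by omega) hm'.le
      nlinarith
    · by_contra h
      push Not at h
      have : (m : ℤ) * (((N / m : ℕ) : ℤ) + 1) ≤ m * k :=
        mul_le_mul_of_nonneg_left (by omega) hm'.le
      nlinarith
  · rintro ⟨k, ⟨h1, h2⟩, rfl⟩
    refine ⟨⟨?_, ?_⟩, Dvd.intro _ rfl⟩
    · have : (m : ℤ) * (-((N / m : ℕ) : ℤ)) ≤ m * k := mul_le_mul_of_nonneg_left h1 hm'.le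
      nlinarith
    · have : (m : ℤ) * k ≤ m * ((N / m : ℕ) : ℤ) := mul_le_mul_of_nonneg_left h2 hm'.le
      nlinarith

/-- the number of multiples -/
theorem count (m N : ℕ) (hm : 0 < m) :
    |(m : ℝ) * (((Finset.Icc (-(N : ℤ)) N).filter (fun n => (m : ℤ) ∣ n)).card : ℝ) -
      (2 * N + 1)| ≤ m := by
  have hm' : (m : ℤ) ≠ 0 := by exact_mod_cast hm.ne'
  rw [filt m N hm, Finset.card_image_of_injective _ (mul_right_injective₀ hm'), Int.card_Icc]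
  have e : (((N / m : ℕ) : ℤ) + 1 - -((N / m : ℕ) : ℤ)).toNat = 2 * (N / m) + 1 := by omega
  rw [e]
  have hN : m * (N / m) + N % m = N := Nat.div_add_mod N m
  have hlt := Nat.mod_lt N hm
  have h1 : ((m : ℝ) * ((N / m : ℕ) : ℝ) + ((N % m : ℕ) : ℝ)) = N := by exact_mod_cast hN
  have h2 : ((N % m : ℕ) : ℝ) + 1 ≤ m := by exact_mod_cast hlt
  have h3 : (0 : ℝ) ≤ ((N % m : ℕ) : ℝ) := Nat.cast_nonneg _
  push_cast
  rw [abs_le]
  constructor <;> nlinarith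

/-- the weight -/
noncomputable def wt (q : ℕ) (n : ℤ) : ℝ := (if (q : ℤ) ∣ n then (q : ℝ) else 0) - 1

theorem sum_ind (m N : ℕ) (c : ℝ) :
    ∑ n ∈ Finset.Icc (-(N : ℤ)) N, (if (m : ℤ) ∣ n then c else 0) =
      c * (((Finset.Icc (-(N : ℤ)) N).filter (fun n => (m : ℤ) ∣ n)).card : ℝ) := by
  rw [← Finset.sum_filter, Finset.sum_const, nsmul_eq_mul, mul_comm]

theorem card_S (N : ℕ) : ((Finset.Icc (-(N : ℤ)) N).card : ℝ) = 2 * N + 1 := by
  rw [Int.card_Icc]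
  have e : ((N : ℤ) + 1 - -(N : ℤ)).toNat = 2 * N + 1 := by omega
  rw [e]
  push_cast
  ring

/-- the diagonal -/
theorem diag (q N : ℕ) (hq : q.Prime) :
    |∑ n ∈ Finset.Icc (-(N : ℤ)) N, wt q n * wt q n| ≤ 3 * q * q + (2 * N + 1) * q := by
  have hc := count q N hq.pos
  have hq2 : (2 : ℝ) ≤ q := by exact_mod_cast hq.two_le
  have hN : (0 : ℝ) ≤ N := Nat.cast_nonneg _
  have e : ∑ n ∈ Finset.Icc (-(N : ℤ)) N, wt q n * wt q n =
      ((q : ℝ) * q - 2 * q) *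
        (((Finset.Icc (-(N : ℤ)) N).filter (fun n => (q : ℤ) ∣ n)).card : ℝ) + (2 * N + 1) := by
    rw [← sum_ind, ← card_S N, Finset.card_eq_sum_ones, Nat.cast_sum, ← Finset.sum_add_distrib]
    refine Finset.sum_congr rfl fun n _ => ?_
    unfold wt
    split_ifs
    · push_cast
      ring
    · push_cast
      ring
  have e2 : ((q : ℝ) * q - 2 * q) *
        (((Finset.Icc (-(N : ℤ)) N).filter (fun n => (q : ℤ) ∣ n)).card : ℝ) =
      ((q : ℝ) - 2) * ((q : ℝ) *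
        (((Finset.Icc (-(N : ℤ)) N).filter (fun n => (q : ℤ) ∣ n)).card : ℝ)) := by ring
  rw [e, e2]
  set y := (q : ℝ) * (((Finset.Icc (-(N : ℤ)) N).filter (fun n => (q : ℤ) ∣ n)).card : ℝ)
  have hy0 : 0 ≤ y := by positivity
  rw [abs_le] at hc
  have h1 : y ≤ 2 * N + 1 + q := by linarith [hc.2]
  have h2 : ((q : ℝ) - 2) * y ≤ (q - 2) * (2 * N + 1 + q) :=
    mul_le_mul_of_nonneg_left h1 (by linarith)
  rw [abs_of_nonneg (by
    have : 0 ≤ ((q : ℝ) - 2) * y := mul_nonneg (by linarith) hy0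
    linarith)]
  nlinarith

/-- two different primes -/
theorem offd (q q' N : ℕ) (hq : q.Prime) (hq' : q'.Prime) (hne : q ≠ q') :
    |∑ n ∈ Finset.Icc (-(N : ℤ)) N, wt q n * wt q' n| ≤ 3 * q * q' := by
  have hc := count q N hq.pos
  have hc' := count q' N hq'.pos
  have hcc := count (q * q') N (Nat.mul_pos hq.pos hq'.pos)
  have hq2 : (1 : ℝ) ≤ q := by exact_mod_cast hq.one_lt.le
  have hq2' : (1 : ℝ) ≤ q' := by exact_mod_cast hq'.one_lt.le
  have hcop : IsCoprime (q : ℤ) (q' : ℤ) :=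
    Nat.isCoprime_iff_coprime.2 ((Nat.coprime_primes hq hq').2 hne)
  have hdv : ∀ n : ℤ, ((q * q' : ℕ) : ℤ) ∣ n ↔ (q : ℤ) ∣ n ∧ (q' : ℤ) ∣ n := by
    intro n
    push_cast
    constructor
    · intro h
      exact ⟨(Dvd.intro _ rfl).trans h, (Dvd.intro_left _ rfl).trans h⟩
    · rintro ⟨h1, h2⟩
      exact hcop.mul_dvd h1 h2
  have e : ∑ n ∈ Finset.Icc (-(N : ℤ)) N, wt q n * wt q' n =
      ((q * q' : ℕ) : ℝ) *
        (((Finset.Icc (-(N : ℤ)) N).filter (fun n => ((q * q' : ℕ) : ℤ) ∣ n)).card : ℝ) -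
      (q : ℝ) * (((Finset.Icc (-(N : ℤ)) N).filter (fun n => (q : ℤ) ∣ n)).card : ℝ) -
      (q' : ℝ) * (((Finset.Icc (-(N : ℤ)) N).filter (fun n => (q' : ℤ) ∣ n)).card : ℝ) +
      (2 * N + 1) := by
    rw [← sum_ind, ← sum_ind, ← sum_ind, ← card_S N, Finset.card_eq_sum_ones, Nat.cast_sum,
      ← Finset.sum_sub_distrib, ← Finset.sum_sub_distrib, ← Finset.sum_add_distrib]
    refine Finset.sum_congr rfl fun n _ => ?_
    unfold wt
    by_cases h1 : (q : ℤ) ∣ n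
    · by_cases h2 : (q' : ℤ) ∣ n
      · rw [if_pos h1, if_pos h2, if_pos ((hdv n).2 ⟨h1, h2⟩)]
        push_cast
        ring
      · rw [if_pos h1, if_neg h2, if_neg (fun h => h2 ((hdv n).1 h).2)]
        push_cast
        ring
    · by_cases h2 : (q' : ℤ) ∣ n
      · rw [if_neg h1, if_pos h2, if_neg (fun h => h1 ((hdv n).1 h).1)]
        push_cast
        ring
      · rw [if_neg h1, if_neg h2, if_neg (fun h => h1 ((hdv n).1 h).1)]
        push_cast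
        ring
  rw [e]
  rw [abs_le] at hc hc' hcc ⊢
  have h4 : ((q * q' : ℕ) : ℝ) = (q : ℝ) * q' := by push_cast; ring
  have h5 : (q : ℝ) ≤ q * q' := by nlinarith
  have h6 : (q' : ℝ) ≤ q * q' := by nlinarith
  rw [h4] at hcc ⊢
  constructor <;> linarith [hc.1, hc.2, hc'.1, hc'.2, hcc.1, hcc.2]

/-- the Gram matrix -/
theorem gram (q q' N : ℕ) (hq : q.Prime) (hq' : q'.Prime) :
    |∑ n ∈ Finset.Icc (-(N : ℤ)) N, wt q n * wt q' n| ≤
      3 * q * q' + if q = q' then (2 * N + 1) * (q : ℝ) else 0 := by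
  by_cases h : q = q'
  · subst h
    rw [if_pos rfl]
    exact diag q N hq
  · rw [if_neg h, add_zero]
    exact offd q q' N hq hq' h

/-- expansion of the square -/
theorem expand (Ps : Finset ℕ) (x : ℕ → ℂ) (S : Finset ℤ) :
    ∑ n ∈ S, ‖∑ q ∈ Ps, x q * (wt q n : ℂ)‖ ^ 2 ≤
      ∑ q ∈ Ps, ∑ q' ∈ Ps, ‖x q‖ * ‖x q'‖ * |∑ n ∈ S, wt q n * wt q' n| := by
  have e : ((∑ n ∈ S, ‖∑ q ∈ Ps, x q * (wt q n : ℂ)‖ ^ 2 : ℝ) : ℂ) =
      ∑ q ∈ Ps, ∑ q' ∈ Ps, x q * conj (x q') * ((∑ n ∈ S, wt q n * wt q' n : ℝ) : ℂ) := by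
    push_cast
    simp_rw [← Complex.mul_conj', map_sum, map_mul, Complex.conj_ofReal, Finset.sum_mul_sum,
      Finset.mul_sum]
    rw [Finset.sum_comm]
    refine Finset.sum_congr rfl fun q _ => ?_
    rw [Finset.sum_comm]
    refine Finset.sum_congr rfl fun q' _ => ?_
    refine Finset.sum_congr rfl fun n _ => ?_
    ring
  have h0 : 0 ≤ ∑ n ∈ S, ‖∑ q ∈ Ps, x q * (wt q n : ℂ)‖ ^ 2 :=
    Finset.sum_nonneg fun _ _ => by positivity
  have e2 : ∑ n ∈ S, ‖∑ q ∈ Ps, x q * (wt q n : ℂ)‖ ^ 2 =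
      ‖((∑ n ∈ S, ‖∑ q ∈ Ps, x q * (wt q n : ℂ)‖ ^ 2 : ℝ) : ℂ)‖ := by
    rw [Complex.norm_real, Real.norm_eq_abs, abs_of_nonneg h0]
  rw [e2, e]
  refine (norm_sum_le _ _).trans (Finset.sum_le_sum fun q _ => ?_)
  refine (norm_sum_le _ _).trans (Finset.sum_le_sum fun q' _ => ?_)
  rw [norm_mul, norm_mul, Complex.norm_conj, Complex.norm_real, Real.norm_eq_abs]

end ITK

open ITK in
theorem pr_TK : StTK := by
  intro Ps hPs
  refine ⟨3 * (∑ q ∈ Ps, q) + 1, ?_⟩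
  intro N hN F hF
  set S := Finset.Icc (-(N : ℤ)) N with hS
  set Q : ℝ := ∑ q ∈ Ps, (q : ℝ) with hQ
  have hQ0 : 0 ≤ Q := Finset.sum_nonneg fun _ _ => Nat.cast_nonneg _
  have hN' : 3 * Q + 1 ≤ N := by
    have : ((3 * (∑ q ∈ Ps, q) + 1 : ℕ) : ℝ) ≤ N := by exact_mod_cast hN
    push_cast at this
    exact this
  set D : ℕ → ℂ := fun q => ∑ n ∈ S, F n * (wt q n : ℂ) with hD
  have hDeq : ∀ q : ℕ, (q : ℂ) * ∑ n ∈ S.filter (fun n => (q : ℤ) ∣ n), F n - ∑ n ∈ S, F n =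
      D q := by
    intro q
    rw [hD, Finset.sum_filter, Finset.mul_sum, ← Finset.sum_sub_distrib]
    refine Finset.sum_congr rfl fun n _ => ?_
    unfold wt
    split_ifs
    · push_cast
      ring
    · push_cast
      ring
  simp_rw [hDeq]
  set Y : ℝ := ∑ q ∈ Ps, (1 / (q : ℝ)) * ‖D q‖ ^ 2 with hY
  have hY0 : 0 ≤ Y := Finset.sum_nonneg fun _ _ => by positivity
  set x : ℕ → ℂ := fun q => conj (D q) / q with hx
  have hnx : ∀ q ∈ Ps, (q : ℝ) * ‖x q‖ ^ 2 = (1 / (q : ℝ)) * ‖D q‖ ^ 2 := by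
    intro q hq
    have hq0 : (q : ℝ) ≠ 0 := by exact_mod_cast (hPs q hq).ne_zero
    rw [hx]
    simp only [norm_div, Complex.norm_conj, Complex.norm_natCast]
    field_simp
  have hYx : ∑ q ∈ Ps, (q : ℝ) * ‖x q‖ ^ 2 = Y := Finset.sum_congr rfl hnx
  have h1 : Y ≤ ∑ n ∈ S, ‖∑ q ∈ Ps, x q * (wt q n : ℂ)‖ := by
    have e : ((Y : ℝ) : ℂ) = ∑ n ∈ S, F n * ∑ q ∈ Ps, x q * (wt q n : ℂ) := by
      rw [hY]
      push_cast
      simp_rw [Finset.mul_sum]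
      rw [Finset.sum_comm]
      refine Finset.sum_congr rfl fun q _ => ?_
      rw [← Complex.mul_conj']
      have : ∀ n, F n * (x q * (wt q n : ℂ)) = (x q) * (F n * (wt q n : ℂ)) := fun n => by ring
      simp_rw [this]
      rw [← Finset.mul_sum, hx]
      simp only [hD]
      ring
    rw [← abs_of_nonneg hY0, ← Real.norm_eq_abs, ← Complex.norm_real, e]
    refine (norm_sum_le _ _).trans (Finset.sum_le_sum fun n _ => ?_)
    rw [norm_mul]
    exact mul_le_of_le_one_left (norm_nonneg _) (hF n)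
  have h2 : (∑ n ∈ S, ‖∑ q ∈ Ps, x q * (wt q n : ℂ)‖) ^ 2 ≤
      (2 * N + 1) * ∑ n ∈ S, ‖∑ q ∈ Ps, x q * (wt q n : ℂ)‖ ^ 2 := by
    have := sq_sum_le_card_mul_sum_sq (s := S) (f := fun n => ‖∑ q ∈ Ps, x q * (wt q n : ℂ)‖)
    rwa [hS, card_S N] at this
  have h3 : ∑ n ∈ S, ‖∑ q ∈ Ps, x q * (wt q n : ℂ)‖ ^ 2 ≤ (3 * Q + (2 * N + 1)) * Y := by
    refine (expand Ps x S).trans ?_
    have h4 : ∑ q ∈ Ps, ∑ q' ∈ Ps, ‖x q‖ * ‖x q'‖ * |∑ n ∈ S, wt q n * wt q' n| ≤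
        ∑ q ∈ Ps, ∑ q' ∈ Ps, (3 * ((q * ‖x q‖) * (q' * ‖x q'‖)) +
          if q = q' then (2 * N + 1) * ((q : ℝ) * ‖x q‖ ^ 2) else 0) := by
      refine Finset.sum_le_sum fun q hq => Finset.sum_le_sum fun q' hq' => ?_
      refine (mul_le_mul_of_nonneg_left (gram q q' N (hPs q hq) (hPs q' hq'))
        (by positivity)).trans (le_of_eq ?_)
      split_ifs with h
      · subst h
        ring
      · ring
    refine h4.trans ?_
    simp_rw [Finset.sum_add_distrib]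
    have h5 : ∑ q ∈ Ps, ∑ q' ∈ Ps, (if q = q' then (2 * (N : ℝ) + 1) * ((q : ℝ) * ‖x q‖ ^ 2)
        else 0) = (2 * N + 1) * Y := by
      rw [← hYx, Finset.mul_sum]
      refine Finset.sum_congr rfl fun q hq => ?_
      rw [Finset.sum_ite_eq Ps q, if_pos hq]
    have h6 : ∑ q ∈ Ps, ∑ q' ∈ Ps, 3 * (((q : ℝ) * ‖x q‖) * (q' * ‖x q'‖)) =
        3 * (∑ q ∈ Ps, (q : ℝ) * ‖x q‖) ^ 2 := by
      rw [sq, Finset.sum_mul_sum, Finset.mul_sum]
      refine Finset.sum_congr rfl fun q _ => ?_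
      rw [Finset.mul_sum]
    have h7 : (∑ q ∈ Ps, (q : ℝ) * ‖x q‖) ^ 2 ≤ Q * Y := by
      have := Finset.sum_mul_sq_le_sq_mul_sq Ps (fun q : ℕ => Real.sqrt q)
        (fun q : ℕ => Real.sqrt q * ‖x q‖)
      have e1 : ∀ q : ℕ, Real.sqrt q * (Real.sqrt q * ‖x q‖) = (q : ℝ) * ‖x q‖ := by
        intro q
        rw [← mul_assoc, Real.mul_self_sqrt (Nat.cast_nonneg _)]
      have e2 : ∀ q : ℕ, Real.sqrt q ^ 2 = (q : ℝ) := fun q => Real.sq_sqrt (Nat.cast_nonneg _)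
      simp_rw [mul_pow, e1, e2, hYx] at this
      exact this
    rw [h5, h6]
    nlinarith
  have hN1 : (1 : ℝ) ≤ N := by linarith
  have h8 : Y ^ 2 ≤ (2 * N + 1) * ((3 * Q + (2 * N + 1)) * Y) := by
    refine (pow_le_pow_left₀ hY0 h1 2).trans (h2.trans ?_)
    exact mul_le_mul_of_nonneg_left h3 (by positivity)
  by_cases hYz : Y = 0
  · rw [hYz]
    positivity
  · have hYp : 0 < Y := lt_of_le_of_ne hY0 (Ne.symm hYz)
    have h9 : Y ≤ (2 * N + 1) * (3 * Q + (2 * N + 1)) := by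
      have : Y * Y ≤ ((2 * N + 1) * (3 * Q + (2 * N + 1))) * Y := by
        calc Y * Y = Y ^ 2 := by ring
          _ ≤ _ := h8
          _ = _ := by ring
      exact le_of_mul_le_mul_right this hYp
    refine h9.trans ?_
    have h10 : (2 * (N : ℝ) + 1) ≤ 3 * N := by linarith
    have h11 : 3 * Q + (2 * (N : ℝ) + 1) ≤ 4 * N := by linarith
    calc (2 * (N : ℝ) + 1) * (3 * Q + (2 * N + 1)) ≤ (3 * N) * (4 * N) :=
          mul_le_mul h10 h11 (by positivity) (by positivity)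
      _ ≤ 16 * (N : ℝ) ^ 2 := by nlinarith

end Pool.Agent.U3
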