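import Mathlib
import Pool.Agent.Work.MP_0f91f8_co.U3.Stmts

/-! Item Thr: three pairwise independent linear forms. -/

set_option autoImplicit false

namespace Pool.Agent.U3

open scoped ComplexConjugate

namespace IThr

/-- the correlation with a residue class -/
noncomputable def AA (N : ℕ) (f : ℤ → ℂ) (κ c j : ℤ) : ℂ :=
  ∑ n ∈ Finset.Icc (-(N : ℤ)) N, f (n + j) * conj (if n % κ = c then f n else 0)

lemma AA_zero (N : ℕ) (f : ℤ → ℂ) (hf : Bdd N f) (κ c j : ℤ) (hj : 2 * (N : ℤ) < |j|) :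
    AA N f κ c j = 0 := by
  apply Finset.sum_eq_zero
  intro n hn
  rw [Finset.mem_Icc] at hn
  have h1 : (N : ℤ) < |n + j| := by
    have h2 : |j| ≤ |n + j| + |n| := by
      have := abs_sub (n + j) n
      simpa using this
    have h3 : |n| ≤ N := abs_le.2 ⟨hn.1, hn.2⟩
    omega
  rw [(hf _).2 h1, zero_mul]

lemma card_Icc (N : ℕ) : ((Finset.Icc (-(N : ℤ)) N).card : ℝ) = 2 * N + 1 := by
  rw [Int.card_Icc]
  have : ((N : ℤ) + 1 - -(N : ℤ)).toNat = 2 * N + 1 := by omega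
  rw [this]
  push_cast
  ring

lemma sum_AA (h3 : StCo2) (N : ℕ) (f : ℤ → ℂ) (hf : Bdd N f) (κ c m : ℤ) (hm : m ≠ 0) (σ : ℝ)
    (hσ : 0 ≤ σ)
    (h : ∀ a : ℝ, ‖∑ n ∈ Finset.Icc (-(N : ℤ)) N, f n * ee (-(a * n))‖ ≤ σ) :
    ∑ k ∈ Finset.Icc (-(N : ℤ)) N, ‖AA N f κ c (k * m)‖ ≤ σ * (2 * N + 1) := by
  have hC := h3 N f (fun n => if n % κ = c then f n else 0) σ hσ
    (fun n hn => ⟨(hf n).2 hn, by simp [(hf n).2 hn]⟩) h
  have hw : ∑ n ∈ Finset.Icc (-(N : ℤ)) N, ‖(if n % κ = c then f n else 0 : ℂ)‖ ^ 2 ≤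
      2 * N + 1 := by
    have e : (2 * (N : ℝ) + 1) = ∑ n ∈ Finset.Icc (-(N : ℤ)) N, (1 : ℝ) := by
      rw [Finset.sum_const, nsmul_eq_mul, mul_one, card_Icc]
    rw [e]
    apply Finset.sum_le_sum
    intro n _
    split_ifs
    · have h1 := (hf n).1
      have h2 := norm_nonneg (f n)
      nlinarith
    · simp
  have h1 : ∑ k ∈ Finset.Icc (-(N : ℤ)) N, ‖AA N f κ c (k * m)‖ ^ 2 ≤
      ∑ j ∈ Finset.Icc (-(2 * N : ℤ)) (2 * N), ‖AA N f κ c j‖ ^ 2 := by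
    have e1 : ∑ k ∈ (Finset.Icc (-(N : ℤ)) N).filter (fun k => |k * m| ≤ 2 * N),
        ‖AA N f κ c (k * m)‖ ^ 2 = ∑ k ∈ Finset.Icc (-(N : ℤ)) N, ‖AA N f κ c (k * m)‖ ^ 2 := by
      apply Finset.sum_filter_of_ne
      intro k _ hk
      by_contra hc
      push Not at hc
      apply hk
      rw [AA_zero N f hf κ c _ hc]
      simp
    have e2 : ∑ j ∈ ((Finset.Icc (-(N : ℤ)) N).filter (fun k => |k * m| ≤ 2 * N)).image
        (fun k => k * m), ‖AA N f κ c j‖ ^ 2 =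
        ∑ k ∈ (Finset.Icc (-(N : ℤ)) N).filter (fun k => |k * m| ≤ 2 * N),
        ‖AA N f κ c (k * m)‖ ^ 2 := by
      apply Finset.sum_image
      intro a _ b _ hab
      exact mul_right_cancel₀ hm hab
    rw [← e1, ← e2]
    apply Finset.sum_le_sum_of_subset_of_nonneg
    · intro j hj
      rw [Finset.mem_image] at hj
      obtain ⟨k, hk, rfl⟩ := hj
      rw [Finset.mem_filter] at hk
      rw [Finset.mem_Icc]
      have := abs_le.1 hk.2
      exact ⟨by linarith [this.1], by linarith [this.2]⟩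
    · intro _ _ _
      positivity
  have h2 : ∑ k ∈ Finset.Icc (-(N : ℤ)) N, ‖AA N f κ c (k * m)‖ ^ 2 ≤ σ ^ 2 * (2 * N + 1) :=
    h1.trans (hC.trans (mul_le_mul_of_nonneg_left hw (by positivity)))
  have h4 := sq_sum_le_card_mul_sum_sq (s := Finset.Icc (-(N : ℤ)) N)
    (f := fun k => ‖AA N f κ c (k * m)‖)
  rw [card_Icc] at h4
  have h5 : (∑ k ∈ Finset.Icc (-(N : ℤ)) N, ‖AA N f κ c (k * m)‖) ^ 2 ≤
      (σ * (2 * N + 1)) ^ 2 := by
    refine h4.trans ?_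
    have : (2 * (N : ℝ) + 1) * (∑ k ∈ Finset.Icc (-(N : ℤ)) N, ‖AA N f κ c (k * m)‖ ^ 2) ≤
        (2 * (N : ℝ) + 1) * (σ ^ 2 * (2 * N + 1)) :=
      mul_le_mul_of_nonneg_left h2 (by positivity)
    refine this.trans (le_of_eq ?_)
    ring
  exact (pow_le_pow_iff_left₀ (Finset.sum_nonneg fun _ _ => norm_nonneg _) (by positivity)
    (by norm_num)).1 h5

lemma fib (h2 : StSup) (L2 L3 : ℤ × ℤ) (hd : dt L2 L3 ≠ 0) (T N : ℕ) (hT : sz L2 + sz L3 ≤ T)
    (D2 D3 : ℤ → ℂ) (hD2 : ∀ x, ‖D2 x‖ ≤ 1) (h20 : ∀ x : ℤ, (N : ℤ) < |x| → D2 x = 0)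
    (h30 : ∀ x : ℤ, (N : ℤ) < |x| → D3 x = 0) :
    ‖∑ v ∈ bx (T * N), D2 (lf L2 v) * D3 (lf L3 v)‖ ≤
      (2 * N + 1) * ∑ c ∈ Finset.Ico (0 : ℤ) |dt L2 L3|,
        ‖∑ y ∈ (Finset.Icc (-(N : ℤ)) N).filter (fun y => y % |dt L2 L3| = c), D3 y‖ := by
  classical
  obtain ⟨-, -, hadd, -, hbx, hinj, hsur⟩ := h2
  set κ : ℤ := |dt L2 L3| with hκ
  have hκ0 : 0 < κ := abs_pos.2 hd
  have hmem : ∀ v : ℤ × ℤ, |lf L2 v| ≤ N → |lf L3 v| ≤ N → v ∈ bx (T * N) := by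
    intro v h1 h3
    have h4 := hbx L2 L3 v N hd h1 h3
    simp only [bx, Finset.mem_product, Finset.mem_Icc] at h4 ⊢
    have h5 : (N : ℤ) * ((sz L2 : ℤ) + sz L3) ≤ T * N := by
      have : ((sz L2 : ℤ) + sz L3) ≤ T := by exact_mod_cast hT
      nlinarith [Int.natCast_nonneg N]
    exact ⟨⟨by linarith [h4.1.1], by linarith [h4.1.2]⟩, ⟨by linarith [h4.2.1], by linarith [h4.2.2]⟩⟩
  set V : Finset (ℤ × ℤ) := (bx (T * N)).filter (fun v => |lf L2 v| ≤ N ∧ |lf L3 v| ≤ N) with hV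
  have hVmem : ∀ v : ℤ × ℤ, v ∈ V ↔ |lf L2 v| ≤ N ∧ |lf L3 v| ≤ N := by
    intro v
    rw [hV, Finset.mem_filter]
    exact ⟨fun h => h.2, fun h => ⟨hmem v h.1 h.2, h⟩⟩
  have e1 : ∑ v ∈ V, D2 (lf L2 v) * D3 (lf L3 v) =
      ∑ v ∈ bx (T * N), D2 (lf L2 v) * D3 (lf L3 v) := by
    apply Finset.sum_filter_of_ne
    intro v _ hv
    constructor
    · by_contra hc
      push Not at hc
      exact hv (by rw [h20 _ hc, zero_mul])
    · by_contra hc
      push Not at hc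
      exact hv (by rw [h30 _ hc, mul_zero])
  have e2 := Finset.sum_fiberwise_of_maps_to (s := V)
    (t := Finset.Icc (-(N : ℤ)) N ×ˢ Finset.Ico (0 : ℤ) κ)
    (g := fun v => (lf L2 v, lf L3 v % κ)) (by
      intro v hv
      have := (hVmem v).1 hv
      rw [Finset.mem_product, Finset.mem_Icc, Finset.mem_Ico]
      exact ⟨abs_le.1 this.1, Int.emod_nonneg _ hκ0.ne', Int.emod_lt_of_pos _ hκ0⟩)
    (fun v => D2 (lf L2 v) * D3 (lf L3 v))
  rw [← e1, ← e2]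
  have key : ∀ p ∈ Finset.Icc (-(N : ℤ)) N ×ˢ Finset.Ico (0 : ℤ) κ,
      ‖∑ v ∈ V with (lf L2 v, lf L3 v % κ) = p, D2 (lf L2 v) * D3 (lf L3 v)‖ ≤
        ‖∑ y ∈ (Finset.Icc (-(N : ℤ)) N).filter (fun y => y % κ = p.2), D3 y‖ := by
    rintro ⟨x, c⟩ _
    rcases Finset.eq_empty_or_nonempty
      (V.filter (fun v => (lf L2 v, lf L3 v % κ) = ((x, c) : ℤ × ℤ))) with he | ⟨v0, hv0⟩
    · rw [he, Finset.sum_empty, norm_zero]
      exact norm_nonneg _
    · rw [Finset.mem_filter, hVmem, Prod.mk.injEq] at hv0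
      obtain ⟨⟨ha, hb⟩, hx, hc⟩ := hv0
      have i1 : (V.filter (fun v => (lf L2 v, lf L3 v % κ) = ((x, c) : ℤ × ℤ))).image (lf L3) =
          (Finset.Icc (-(N : ℤ)) N).filter (fun y => y % κ = c) := by
        ext y
        rw [Finset.mem_image, Finset.mem_filter, Finset.mem_Icc]
        constructor
        · rintro ⟨v, hv, rfl⟩
          rw [Finset.mem_filter, hVmem, Prod.mk.injEq] at hv
          exact ⟨abs_le.1 hv.1.2, hv.2.2⟩
        · rintro ⟨hy, hyc⟩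
          have hdv : κ ∣ y - lf L3 v0 := by
            apply Int.dvd_of_emod_eq_zero
            rw [Int.sub_emod, hyc, hc, sub_self, Int.zero_emod]
          have hdv' : dt L2 L3 ∣ y - lf L3 v0 := (abs_dvd _ _).1 hdv
          obtain ⟨w, hw1, hw2⟩ := hsur L2 L3 0 (y - lf L3 v0) hd (dvd_zero _) hdv'
          have f1 : lf L2 (v0 + w) = x := by rw [hadd, hw1, hx, add_zero]
          have f2 : lf L3 (v0 + w) = y := by rw [hadd, hw2]; ring
          refine ⟨v0 + w, ?_, f2⟩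
          rw [Finset.mem_filter, hVmem, f1, f2, hyc]
          exact ⟨⟨hx ▸ ha, abs_le.2 hy⟩, rfl⟩
      have i2 : ∑ y ∈ (Finset.Icc (-(N : ℤ)) N).filter (fun y => y % κ = c), D3 y =
          ∑ v ∈ V.filter (fun v => (lf L2 v, lf L3 v % κ) = ((x, c) : ℤ × ℤ)), D3 (lf L3 v) := by
        rw [← i1]
        apply Finset.sum_image
        intro a ha b hb hab
        rw [Finset.mem_coe, Finset.mem_filter, Prod.mk.injEq] at ha hb
        exact hinj L2 L3 a b hd (ha.2.1.trans hb.2.1.symm) hab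
      have i3 : ∑ v ∈ V.filter (fun v => (lf L2 v, lf L3 v % κ) = ((x, c) : ℤ × ℤ)),
          D2 (lf L2 v) * D3 (lf L3 v) = D2 x * ∑ v ∈ V.filter
          (fun v => (lf L2 v, lf L3 v % κ) = ((x, c) : ℤ × ℤ)), D3 (lf L3 v) := by
        rw [Finset.mul_sum]
        apply Finset.sum_congr rfl
        intro v hv
        rw [Finset.mem_filter, Prod.mk.injEq] at hv
        rw [hv.2.1]
      rw [i3, ← i2, norm_mul]
      exact mul_le_of_le_one_left (norm_nonneg _) (hD2 x)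
  refine (norm_sum_le _ _).trans ((Finset.sum_le_sum key).trans (le_of_eq ?_))
  rw [Finset.sum_product]
  simp only
  rw [Finset.sum_const, nsmul_eq_mul, card_Icc]

end IThr

open IThr in
theorem pr_Thr (h1 : StCS2) (h2 : StSup) (h3 : StCo2) : StThr := by
  intro L1 L2 L3 h12 h13 h23 T hT δ hδ
  obtain ⟨hpp, hdt, hadd, hsm, hbx, -, -⟩ := id h2
  have hκ0 : 0 < |dt L2 L3| := abs_pos.2 h23
  have hκR : (0 : ℝ) < ((|dt L2 L3| : ℤ) : ℝ) := by exact_mod_cast hκ0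
  have hT1 : 1 ≤ T := by
    by_contra hc
    have h0 : sz L1 = 0 := by omega
    apply h12
    simp only [sz] at h0
    have a1 : L1.1 = 0 := by omega
    have a2 : L1.2 = 0 := by omega
    simp [dt, a1, a2]
  have hTR : (1 : ℝ) ≤ T := by exact_mod_cast hT1
  refine ⟨δ ^ 2 / (300 * T ^ 2 * ((|dt L2 L3| : ℤ) : ℝ)), by positivity, ?_⟩
  intro N hN f1 f2 f3 hf1 hf2 hf3 hbig
  have hNR : (1 : ℝ) ≤ N := by exact_mod_cast hN
  by_contra hno
  push Not at hno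
  set δ' : ℝ := δ ^ 2 / (300 * T ^ 2 * ((|dt L2 L3| : ℤ) : ℝ)) with hδ'
  have hδ0 : 0 < δ' := by positivity
  have hszT : ∀ x : ℕ, x ≤ T → (x : ℤ) * N ≤ T * N := fun x hx =>
    mul_le_mul_of_nonneg_right (by exact_mod_cast hx) (by positivity)
  have k1 := h1 (T * N) N (pp L1) (fun v => f1 (lf L1 v))
    (fun v => f2 (lf L2 v) * f3 (lf L3 v)) (by positivity) hN
    (by
      have : |(pp L1).1| = ((L1.2.natAbs : ℕ) : ℤ) := by simp [pp]
      rw [this]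
      exact hszT _ (by simp only [sz] at hT; omega))
    (by
      have : |(pp L1).2| = ((L1.1.natAbs : ℕ) : ℤ) := by simp [pp]
      rw [this]
      exact hszT _ (by simp only [sz] at hT; omega))
    (fun v => (hf1 _).1)
    (fun v => by simp only [hadd, hpp, add_zero])
    (by
      intro v hv
      by_contra hne
      apply hv
      have a2 : |lf L2 v| ≤ N := by
        by_contra hc
        push Not at hc
        exact hne (by rw [(hf2 _).2 hc, zero_mul])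
      have a3 : |lf L3 v| ≤ N := by
        by_contra hc
        push Not at hc
        exact hne (by rw [(hf3 _).2 hc, mul_zero])
      have h4 := hbx L2 L3 v N h23 a2 a3
      simp only [bx, Finset.mem_product, Finset.mem_Icc] at h4 ⊢
      have h5 : (N : ℤ) * ((sz L2 : ℤ) + sz L3) ≤ T * N := by
        have : ((sz L2 : ℤ) + sz L3) ≤ T := by
          have : sz L2 + sz L3 ≤ T := by omega
          exact_mod_cast this
        nlinarith [Int.natCast_nonneg N]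
      exact ⟨⟨by linarith [h4.1.1], by linarith [h4.1.2]⟩,
        ⟨by linarith [h4.2.1], by linarith [h4.2.2]⟩⟩)
  have hc3 : dt L3 L1 ≠ 0 := by
    intro h
    apply h13
    simp only [dt] at h ⊢
    linarith
  have k2 : ∀ k : ℤ, ‖∑ v ∈ bx (T * N), (f2 (lf L2 (v + k • pp L1)) * f3 (lf L3 (v + k • pp L1))) *
      conj (f2 (lf L2 v) * f3 (lf L3 v))‖ ≤ (2 * N + 1) * ∑ c ∈ Finset.Ico (0 : ℤ) |dt L2 L3|,
        ‖AA N f3 |dt L2 L3| c (k * dt L3 L1)‖ := by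
    intro k
    have j1 := fib h2 L2 L3 h23 T N (by omega)
      (fun x => f2 (x + k * dt L2 L1) * conj (f2 x)) (fun y => f3 (y + k * dt L3 L1) * conj (f3 y))
      (fun x => by
        rw [norm_mul, RCLike.norm_conj]
        exact mul_le_one₀ (hf2 _).1 (norm_nonneg _) (hf2 _).1)
      (fun x hx => by simp [(hf2 x).2 hx]) (fun x hx => by simp [(hf3 x).2 hx])
    have j2 : ∀ c : ℤ, ∑ y ∈ (Finset.Icc (-(N : ℤ)) N).filter (fun y => y % |dt L2 L3| = c),
        f3 (y + k * dt L3 L1) * conj (f3 y) = AA N f3 |dt L2 L3| c (k * dt L3 L1) := by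
      intro c
      rw [AA, Finset.sum_filter]
      apply Finset.sum_congr rfl
      intro n _
      split_ifs <;> simp
    simp only [j2] at j1
    refine le_trans (le_of_eq ?_) j1
    congr 1
    apply Finset.sum_congr rfl
    intro v _
    rw [hadd, hadd, hsm, hsm, hdt, hdt, map_mul]
    ring
  have k3 : ∑ k ∈ Finset.Icc (-(N : ℤ)) N, ‖∑ v ∈ bx (T * N),
      (f2 (lf L2 (v + k • pp L1)) * f3 (lf L3 (v + k • pp L1))) *
      conj (f2 (lf L2 v) * f3 (lf L3 v))‖ ≤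
      (2 * N + 1) * (((|dt L2 L3| : ℤ) : ℝ) * (δ' * N * (2 * N + 1))) := by
    refine (Finset.sum_le_sum fun k _ => k2 k).trans ?_
    rw [← Finset.mul_sum, Finset.sum_comm]
    apply mul_le_mul_of_nonneg_left _ (by positivity)
    have : ∑ c ∈ Finset.Ico (0 : ℤ) |dt L2 L3|, ∑ k ∈ Finset.Icc (-(N : ℤ)) N,
        ‖AA N f3 |dt L2 L3| c (k * dt L3 L1)‖ ≤
        ∑ c ∈ Finset.Ico (0 : ℤ) |dt L2 L3|, δ' * N * (2 * N + 1) :=
      Finset.sum_le_sum fun c _ => sum_AA h3 N f3 hf3 _ c _ hc3 (δ' * N) (by positivity)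
        (fun a => (hno a).le)
    refine this.trans (le_of_eq ?_)
    rw [Finset.sum_const, nsmul_eq_mul, Int.card_Ico, sub_zero]
    congr 1
    have : ((|dt L2 L3|.toNat : ℕ) : ℤ) = |dt L2 L3| := Int.toNat_of_nonneg hκ0.le
    exact_mod_cast this
  have k4 : (N : ℝ) * (δ * N ^ 2) ^ 2 ≤ (4 * (T * N : ℝ) + 1) ^ 2 *
      ((2 * N + 1) * (((|dt L2 L3| : ℤ) : ℝ) * (δ' * N * (2 * N + 1)))) := by
    have b1 : (N : ℝ) * (δ * N ^ 2) ^ 2 ≤
        (N : ℝ) * ‖∑ v ∈ bx (T * N), f1 (lf L1 v) * (f2 (lf L2 v) * f3 (lf L3 v))‖ ^ 2 := by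
      apply mul_le_mul_of_nonneg_left _ (by positivity)
      apply pow_le_pow_left₀ (by positivity)
      refine hbig.trans (le_of_eq ?_)
      congr 1
      apply Finset.sum_congr rfl
      intro v _
      ring
    refine b1.trans (k1.trans ?_)
    have b2 := mul_le_mul_of_nonneg_left k3 (show (0 : ℝ) ≤ (4 * (T * N : ℝ) + 1) ^ 2 by positivity)
    push_cast at b2 ⊢
    exact b2
  have k5 : (4 * (T * N : ℝ) + 1) ^ 2 *
      ((2 * N + 1) * (((|dt L2 L3| : ℤ) : ℝ) * (δ' * N * (2 * N + 1)))) ≤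
      (5 * (T * N : ℝ)) ^ 2 * ((3 * N) * (((|dt L2 L3| : ℤ) : ℝ) * (δ' * N * (3 * N)))) := by
    have hTN : (1 : ℝ) ≤ T * N := by nlinarith
    gcongr <;> linarith
  have k6 : (5 * (T * N : ℝ)) ^ 2 * ((3 * N) * (((|dt L2 L3| : ℤ) : ℝ) * (δ' * N * (3 * N)))) =
      225 / 300 * (δ ^ 2 * N ^ 5) := by
    rw [hδ']
    field_simp
    ring
  have k7 : (0 : ℝ) < δ ^ 2 * N ^ 5 := by positivity
  have k8 : (N : ℝ) * (δ * N ^ 2) ^ 2 = δ ^ 2 * N ^ 5 := by ring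
  rw [k6] at k5
  rw [k8] at k4
  linarith

end Pool.Agent.U3
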