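import Mathlib
import Pool.Agent.Work.MP_0f91f8_co.U3.Stmts

/-!
# Block U3, item Trn: positive definiteness and averaging over translates of `q V`
-/

set_option autoImplicit false

namespace Pool.Agent.U3

open scoped ComplexConjugate Pointwise

namespace ITrn

theorem SS_nonneg (f : ℤ → ℂ) (A B h : ℤ) (a : ℝ) : 0 ≤ SS f A B h a := sq_nonneg _

theorem SZ_nonneg {M : ℕ} (f : ℤ → ℂ) (A B h : ℤ) (w : ZMod M) : 0 ≤ SZ f A B h w :=
  SS_nonneg _ _ _ _ _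

/-- double counting of the pairs `(x, v)` with `x + q v` in `R` -/
theorem count (X Y q : ℕ) (R V : Finset ℤ) (hR : ∀ r ∈ R, |r| ≤ X)
    (hV : ∀ v ∈ V, 0 ≤ v ∧ v ≤ Y) (s : ℤ → ℝ) :
    ∑ x ∈ Finset.Icc (-(X : ℤ) - q * Y) X, ∑ v ∈ V.filter (fun v => x + q * v ∈ R),
      s (x + q * v) = V.card * ∑ r ∈ R, s r := by
  have h1 : ∀ x ∈ Finset.Icc (-(X : ℤ) - q * Y) X, ∑ v ∈ V.filter (fun v => x + q * v ∈ R),
      s (x + q * v) = ∑ v ∈ V, if x + q * v ∈ R then s (x + q * v) else 0 := by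
    intro x _
    rw [Finset.sum_filter]
  rw [Finset.sum_congr rfl h1, Finset.sum_comm]
  have h2 : ∀ v ∈ V, ∑ x ∈ Finset.Icc (-(X : ℤ) - q * Y) X,
      (if x + q * v ∈ R then s (x + q * v) else 0) = ∑ r ∈ R, s r := by
    intro v hv
    rw [← Finset.sum_filter]
    refine Finset.sum_bij (fun x _ => x + q * v) ?_ ?_ ?_ ?_
    · intro x hx
      exact (Finset.mem_filter.1 hx).2
    · intro x _ y _ hxy
      exact add_right_cancel hxy
    · intro r hr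
      have h3 := abs_le.1 (hR r hr)
      have h4 := hV v hv
      have h5 : (0 : ℤ) ≤ q * v := mul_nonneg (Int.natCast_nonneg q) h4.1
      have h6 : (q : ℤ) * v ≤ q * Y := mul_le_mul_of_nonneg_left h4.2 (Int.natCast_nonneg q)
      refine ⟨r - q * v, ?_, by ring⟩
      rw [Finset.mem_filter, Finset.mem_Icc]
      refine ⟨⟨by linarith [h3.1], by linarith [h3.2]⟩, ?_⟩
      rw [sub_add_cancel]
      exact hr
    · intro x _
      rfl
  rw [Finset.sum_congr rfl h2, Finset.sum_const, nsmul_eq_mul]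

/-- positive definiteness for one translate -/
theorem key (h1 : StPD) (h2 : StFrq) (f : ℤ → ℂ) (A B Q1 : ℤ) (M q : ℕ) [NeZero M]
    (R V : Finset ℤ) (w Λ : ℤ → ZMod M)
    (hw : ∀ v ∈ V, ∀ v' ∈ V, ∀ r ∈ R, ∀ r' ∈ R, r - r' = q * (v - v') →
      w r - w r' = q • Λ (v - v')) (x : ℤ) :
    (∑ v ∈ V.filter (fun v => x + q * v ∈ R), SZ f A B (Q1 * (x + q * v)) (q • w (x + q * v))) ^ 2 ≤
      (∑ n ∈ Finset.Icc A B, ‖f n‖ ^ 2) ^ 2 *
        ∑ v ∈ V, ∑ v' ∈ V, SZ f A B (Q1 * q * (v - v')) (q ^ 2 • Λ (v - v')) := by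
  obtain ⟨g1, g2, g3, g4, g5⟩ := h2
  have h := h1 f A B ℤ (V.filter (fun v => x + q * v ∈ R)) (fun v => Q1 * (x + q * v))
    (fun v => q * fr (w (x + q * v)))
  have e1 : ∑ v ∈ V.filter (fun v => x + q * v ∈ R),
      SZ f A B (Q1 * (x + q * v)) (q • w (x + q * v)) =
      ∑ v ∈ V.filter (fun v => x + q * v ∈ R),
        SS f A B (Q1 * (x + q * v)) (q * fr (w (x + q * v))) :=
    Finset.sum_congr rfl fun v _ => g5 M f A B _ _ q
  rw [e1]
  refine h.trans (mul_le_mul_of_nonneg_left ?_ (sq_nonneg _))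
  have e2 : ∀ v ∈ V.filter (fun v => x + q * v ∈ R), ∀ v' ∈ V.filter (fun v => x + q * v ∈ R),
      SS f A B (Q1 * (x + q * v) - Q1 * (x + q * v'))
        (q * fr (w (x + q * v)) - q * fr (w (x + q * v'))) =
      SZ f A B (Q1 * q * (v - v')) (q ^ 2 • Λ (v - v')) := by
    intro v hv v' hv'
    rw [Finset.mem_filter] at hv hv'
    have e3 := hw v hv.1 v' hv'.1 _ hv.2 _ hv'.2 (by ring)
    obtain ⟨k, hk⟩ := g2 M (w (x + q * v)) (w (x + q * v'))
    have e4 : q ^ 2 • Λ (v - v') = q • (w (x + q * v) - w (x + q * v')) := by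
      rw [e3, smul_smul, pow_two]
    have e5 : Q1 * (x + q * v) - Q1 * (x + q * v') = Q1 * q * (v - v') := by ring
    rw [e4, g5, hk, e5]
    have e6 : (q : ℝ) * (fr (w (x + q * v)) - fr (w (x + q * v')) + k) =
        (q * fr (w (x + q * v)) - q * fr (w (x + q * v'))) + (((q : ℤ) * k : ℤ) : ℝ) := by
      push_cast
      ring
    rw [e6, g1]
  calc ∑ v ∈ V.filter (fun v => x + q * v ∈ R), ∑ v' ∈ V.filter (fun v => x + q * v ∈ R),
        SS f A B (Q1 * (x + q * v) - Q1 * (x + q * v'))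
          (q * fr (w (x + q * v)) - q * fr (w (x + q * v')))
      = ∑ v ∈ V.filter (fun v => x + q * v ∈ R), ∑ v' ∈ V.filter (fun v => x + q * v ∈ R),
        SZ f A B (Q1 * q * (v - v')) (q ^ 2 • Λ (v - v')) :=
        Finset.sum_congr rfl fun v hv => Finset.sum_congr rfl fun v' hv' => e2 v hv v' hv'
    _ ≤ ∑ v ∈ V.filter (fun v => x + q * v ∈ R), ∑ v' ∈ V,
        SZ f A B (Q1 * q * (v - v')) (q ^ 2 • Λ (v - v')) :=
        Finset.sum_le_sum fun v _ => Finset.sum_le_sum_of_subset_of_nonneg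
          (Finset.filter_subset _ _) fun v' _ _ => SZ_nonneg _ _ _ _ _
    _ ≤ ∑ v ∈ V, ∑ v' ∈ V, SZ f A B (Q1 * q * (v - v')) (q ^ 2 • Λ (v - v')) :=
        Finset.sum_le_sum_of_subset_of_nonneg (Finset.filter_subset _ _)
          fun v _ _ => Finset.sum_nonneg fun v' _ => SZ_nonneg _ _ _ _ _

end ITrn

open ITrn

/-- Item Trn. -/
theorem pr_Trn (h1 : StPD) (h2 : StFrq) : StTrn := by
  intro f A B Q1 M X Y q _ R V w Λ hX hq hqY hR hV hw
  set E : ℝ := ∑ n ∈ Finset.Icc A B, ‖f n‖ ^ 2 with hE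
  set D : ℝ := ∑ v ∈ V, ∑ v' ∈ V, SZ f A B (Q1 * q * (v - v')) (q ^ 2 • Λ (v - v')) with hD
  have hD0 : 0 ≤ D := Finset.sum_nonneg fun v _ => Finset.sum_nonneg fun v' _ => SZ_nonneg _ _ _ _ _
  rw [← count X Y q R V hR hV (fun r => SZ f A B (Q1 * r) (q • w r))]
  have hcard : ((Finset.Icc (-(X : ℤ) - q * Y) X).card : ℝ) ≤ 4 * X := by
    have h3 : (Finset.Icc (-(X : ℤ) - q * Y) X).card ≤ 4 * X := by
      rw [Int.card_Icc]
      have h4 : (q : ℤ) * Y ≤ X := by exact_mod_cast hqY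
      omega
    exact_mod_cast h3
  have hc0 : (0 : ℝ) ≤ ((Finset.Icc (-(X : ℤ) - q * Y) X).card : ℝ) := Nat.cast_nonneg _
  calc (∑ x ∈ Finset.Icc (-(X : ℤ) - q * Y) X, ∑ v ∈ V.filter (fun v => x + q * v ∈ R),
          SZ f A B (Q1 * (x + q * v)) (q • w (x + q * v))) ^ 2
      ≤ ((Finset.Icc (-(X : ℤ) - q * Y) X).card : ℝ) *
        ∑ x ∈ Finset.Icc (-(X : ℤ) - q * Y) X, (∑ v ∈ V.filter (fun v => x + q * v ∈ R),
          SZ f A B (Q1 * (x + q * v)) (q • w (x + q * v))) ^ 2 := sq_sum_le_card_mul_sum_sq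
    _ ≤ ((Finset.Icc (-(X : ℤ) - q * Y) X).card : ℝ) *
        ∑ x ∈ Finset.Icc (-(X : ℤ) - q * Y) X, E ^ 2 * D :=
        mul_le_mul_of_nonneg_left
          (Finset.sum_le_sum fun x _ => key h1 h2 f A B Q1 M q R V w Λ hw x) hc0
    _ = ((Finset.Icc (-(X : ℤ) - q * Y) X).card : ℝ) ^ 2 * (E ^ 2 * D) := by
        rw [Finset.sum_const, nsmul_eq_mul]
        ring
    _ ≤ (4 * X : ℝ) ^ 2 * (E ^ 2 * D) :=
        mul_le_mul_of_nonneg_right (pow_le_pow_left₀ hc0 hcard 2)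
          (mul_nonneg (sq_nonneg _) hD0)
    _ = 16 * (X : ℝ) ^ 2 * E ^ 2 * D := by ring

end Pool.Agent.U3
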