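import Mathlib
import Pool.Agent.Work.MP_0f91f8_co.U3.Stmts

set_option autoImplicit false

/-! Item U2: many shifts with the same frequency give a large Fourier coefficient. -/

namespace Pool.Agent.U3

open scoped ComplexConjugate

namespace IU2

/-- cut to the interval and twist -/
noncomputable def uu (g : ℤ → ℂ) (A B : ℤ) (θ : ℝ) (m : ℤ) : ℂ :=
  if m ∈ Finset.Icc A B then g m * ee (θ * m) else 0

/-- cut to `[-L,L]` -/
noncomputable def GG (g : ℤ → ℂ) (L : ℤ) (n : ℤ) : ℂ := if |n| ≤ L then g n else 0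

theorem sum_uu (g : ℤ → ℂ) (A B : ℤ) (θ : ℝ) (L : ℤ) (hA : -L ≤ A) (hB : B ≤ L) (F : ℤ → ℂ) :
    ∑ n ∈ Finset.Icc (-L) L, uu g A B θ n * F n =
      ∑ n ∈ Finset.Icc A B, g n * ee (θ * n) * F n := by
  symm
  refine Finset.sum_of_injOn (fun n => n) (fun _ _ _ _ h => h) ?_ ?_ ?_
  · intro n hn
    have hn' := Finset.mem_Icc.1 (Finset.mem_coe.1 hn)
    exact Finset.mem_coe.2 (Finset.mem_Icc.2 ⟨by dsimp only; omega, by dsimp only; omega⟩)
  · intro n _ hn'
    have h0 : n ∉ Finset.Icc A B := fun h => hn' ⟨n, Finset.mem_coe.2 h, rfl⟩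
    simp only [uu, if_neg h0, zero_mul]
  · intro n hn
    simp only [uu, if_pos hn]

theorem sum_shift (g : ℤ → ℂ) (A B : ℤ) (θ : ℝ) (N h : ℤ) (hA : -N ≤ A) (hB : B ≤ N)
    (hh : |h| ≤ 2 * N) :
    ∑ n ∈ Finset.Icc (-(3 * N)) (3 * N), uu g A B θ (n + -h) * conj (GG g (3 * N) n) =
      ∑ m ∈ Finset.Icc A B, g m * ee (θ * m) * conj (g (m + h)) := by
  have hh' := abs_le.1 hh
  symm
  refine Finset.sum_of_injOn (fun m => m + h) (fun _ _ _ _ h' => by simpa using h') ?_ ?_ ?_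
  · intro n hn
    have hn' := Finset.mem_Icc.1 (Finset.mem_coe.1 hn)
    exact Finset.mem_coe.2 (Finset.mem_Icc.2 ⟨by dsimp only; omega, by dsimp only; omega⟩)
  · intro n _ hn'
    have h0 : n + -h ∉ Finset.Icc A B := fun h' =>
      hn' ⟨n + -h, Finset.mem_coe.2 h', by simp⟩
    simp only [uu, if_neg h0, zero_mul]
  · intro n hn
    have hn' := Finset.mem_Icc.1 hn
    have h1 : n + h + -h = n := by ring
    have h2 : |n + h| ≤ 3 * N := by
      rw [abs_le]; constructor <;> omega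
    simp only [h1, uu, if_pos hn, GG, if_pos h2]

end IU2

open IU2 in
theorem pr_U2 (h1 : StCo2) (h2 : StEE) : StU2 := by
  obtain ⟨eadd, enorm, econj, -, -, -, -⟩ := h2
  intro κ hκ
  refine ⟨Real.sqrt (κ ^ 3) / 3, by positivity, ?_⟩
  intro N hN g hg A B θ W hA hB hW hcard hlarge
  by_contra hcon
  have hcon' : ∀ t : ℝ, ‖∑ m ∈ Finset.Icc A B, g m * ee (t * m)‖ <
      Real.sqrt (κ ^ 3) / 3 * N := by
    intro t
    by_contra h
    exact hcon ⟨t, not_lt.1 h⟩
  have hN0 : (1 : ℝ) ≤ N := by exact_mod_cast hN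
  have hc3 : (((3 * N : ℕ) : ℤ)) = 3 * (N : ℤ) := by push_cast; ring
  -- the parameters of Parseval
  have hP := h1 (3 * N) (uu g A B θ) (GG g (3 * (N : ℤ))) (Real.sqrt (κ ^ 3) / 3 * N)
    (by positivity) ?_ ?_
  · -- main inequality
    rw [hc3] at hP
    -- lower bound for the left side
    have hinj : Set.InjOn (fun h : ℤ => -h) (W : Set ℤ) := fun _ _ _ _ h => neg_injective h
    have hsub : W.image (fun h : ℤ => -h) ⊆
        Finset.Icc (-(2 * (3 * (N : ℤ)))) (2 * (3 * (N : ℤ))) := by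
      intro j hj
      obtain ⟨h, hh, rfl⟩ := Finset.mem_image.1 hj
      have := abs_le.1 (hW h hh)
      exact Finset.mem_Icc.2 ⟨by omega, by omega⟩
    have hlow : (W.card : ℝ) * (κ * N) ^ 2 ≤
        ∑ j ∈ Finset.Icc (-(2 * (3 * (N : ℤ)))) (2 * (3 * (N : ℤ))),
          ‖∑ n ∈ Finset.Icc (-(3 * (N : ℤ))) (3 * (N : ℤ)),
            uu g A B θ (n + j) * conj (GG g (3 * (N : ℤ)) n)‖ ^ 2 := by
      refine le_trans ?_ (Finset.sum_le_sum_of_subset_of_nonneg hsub
        (fun _ _ _ => sq_nonneg _))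
      rw [Finset.sum_image hinj, ← nsmul_eq_mul]
      refine Finset.card_nsmul_le_sum _ _ _ fun h hh => ?_
      have hκN : 0 ≤ κ * (N : ℝ) := by positivity
      refine pow_le_pow_left₀ hκN ?_ 2
      refine (hlarge h hh).trans (le_of_eq ?_)
      rw [sum_shift g A B θ N h hA hB (hW h hh), ← Complex.norm_conj, map_sum]
      congr 1
      refine Finset.sum_congr rfl fun m _ => ?_
      rw [map_mul, map_mul, econj, Complex.conj_conj, neg_neg]
      ring
    -- upper bound for the right side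
    have hup : ∑ n ∈ Finset.Icc (-(3 * (N : ℤ))) (3 * (N : ℤ)), ‖GG g (3 * (N : ℤ)) n‖ ^ 2 ≤
        7 * (N : ℝ) := by
      have hone : ∀ n ∈ Finset.Icc (-(3 * (N : ℤ))) (3 * (N : ℤ)),
          ‖GG g (3 * (N : ℤ)) n‖ ^ 2 ≤ (1 : ℝ) := by
        intro n _
        unfold GG
        split_ifs
        · have := hg n
          have h0 := norm_nonneg (g n)
          nlinarith
        · simp
      refine (Finset.sum_le_card_nsmul _ _ _ hone).trans ?_
      rw [Int.card_Icc, nsmul_eq_mul, mul_one]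
      have h7 : (3 * (N : ℤ) + 1 - -(3 * (N : ℤ))).toNat = 6 * N + 1 := by omega
      rw [h7]
      push_cast
      linarith
    have hsq : (Real.sqrt (κ ^ 3) / 3 * N) ^ 2 = κ ^ 3 / 9 * (N : ℝ) ^ 2 := by
      rw [mul_pow, div_pow, Real.sq_sqrt (by positivity)]
      norm_num
    rw [hsq] at hP
    have hmain : κ * N * (κ * N) ^ 2 ≤ κ ^ 3 / 9 * (N : ℝ) ^ 2 * (7 * N) := by
      have ha : κ * N * (κ * N) ^ 2 ≤ (W.card : ℝ) * (κ * N) ^ 2 :=
        mul_le_mul_of_nonneg_right hcard (sq_nonneg _)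
      have hb : κ ^ 3 / 9 * (N : ℝ) ^ 2 *
          ∑ n ∈ Finset.Icc (-(3 * (N : ℤ))) (3 * (N : ℤ)), ‖GG g (3 * (N : ℤ)) n‖ ^ 2 ≤
          κ ^ 3 / 9 * (N : ℝ) ^ 2 * (7 * N) :=
        mul_le_mul_of_nonneg_left hup (by positivity)
      exact ha.trans (hlow.trans (hP.trans hb))
    have hpos : 0 < κ ^ 3 * (N : ℝ) ^ 3 := by positivity
    have e1 : κ * N * (κ * N) ^ 2 = κ ^ 3 * (N : ℝ) ^ 3 := by ring
    have e2 : κ ^ 3 / 9 * (N : ℝ) ^ 2 * (7 * N) = 7 / 9 * (κ ^ 3 * (N : ℝ) ^ 3) := by ring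
    rw [e1, e2] at hmain
    linarith
  · intro n hn
    rw [hc3] at hn
    constructor
    · have h0 : n ∉ Finset.Icc A B := by
        intro h'
        have h'' := Finset.mem_Icc.1 h'
        have : |n| ≤ 3 * (N : ℤ) := by
          rw [abs_le]; constructor <;> omega
        omega
      simp only [uu, if_neg h0]
    · simp only [GG, if_neg (not_le.2 hn)]
  · intro a
    rw [hc3, sum_uu g A B θ (3 * (N : ℤ)) (by omega) (by omega)]
    refine le_trans (le_of_eq ?_) (hcon' (θ - a)).le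
    congr 1
    refine Finset.sum_congr rfl fun n _ => ?_
    rw [mul_assoc, ← eadd]
    congr 2
    ring

end Pool.Agent.U3
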