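import Pool.Agent.Work.MP_0f91f8_co.U3.I_EE
import Pool.Agent.Work.MP_0f91f8_co.U3.I_ND
import Pool.Agent.Work.MP_0f91f8_co.U3.I_GS
import Pool.Agent.Work.MP_0f91f8_co.U3.I_Frq
import Pool.Agent.Work.MP_0f91f8_co.U3.I_PD
import Pool.Agent.Work.MP_0f91f8_co.U3.I_Par
import Pool.Agent.Work.MP_0f91f8_co.U3.I_Co2
import Pool.Agent.Work.MP_0f91f8_co.U3.I_CS2
import Pool.Agent.Work.MP_0f91f8_co.U3.I_Sup
import Pool.Agent.Work.MP_0f91f8_co.U3.I_Thr
import Pool.Agent.Work.MP_0f91f8_co.U3.I_VN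
import Pool.Agent.Work.MP_0f91f8_co.U3.I_Rnd
import Pool.Agent.Work.MP_0f91f8_co.U3.I_Nrg
import Pool.Agent.Work.MP_0f91f8_co.U3.I_Fib
import Pool.Agent.Work.MP_0f91f8_co.U3.I_Kil
import Pool.Agent.Work.MP_0f91f8_co.U3.I_Frm
import Pool.Agent.Work.MP_0f91f8_co.U3.I_Bog
import Pool.Agent.Work.MP_0f91f8_co.U3.I_Lam
import Pool.Agent.Work.MP_0f91f8_co.U3.I_TK
import Pool.Agent.Work.MP_0f91f8_co.U3.I_Scl
import Pool.Agent.Work.MP_0f91f8_co.U3.I_Trn
import Pool.Agent.Work.MP_0f91f8_co.U3.I_Avg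
import Pool.Agent.Work.MP_0f91f8_co.U3.I_Few
import Pool.Agent.Work.MP_0f91f8_co.U3.I_Blk
import Pool.Agent.Work.MP_0f91f8_co.U3.I_Bks
import Pool.Agent.Work.MP_0f91f8_co.U3.I_U2
import Pool.Agent.Work.MP_0f91f8_co.U3.I_Kt1
import Pool.Agent.Work.MP_0f91f8_co.U3.I_Kt2
import Pool.Agent.Work.MP_0f91f8_co.U3.I_Kat
import Pool.Agent.Work.MP_0f91f8_co.U3.I_End
import Pool.Agent.Work.MP_0f91f8_co.U3.I_Core
import Pool.Agent.Work.MP_0f91f8_co.U3.I_A

/-!
# Block U3: assembly.  THEOREM A: the correlations of an aperiodic completely multiplicative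
function along four pairwise independent linear forms tend to zero, uniformly in the three other
functions
-/

set_option autoImplicit false

namespace Pool.Agent.U3

theorem u_EE : StEE := pr_EE

theorem u_ND : StND := pr_ND

theorem u_GS : StGS := pr_GS u_EE u_ND

theorem u_Frq : StFrq := pr_Frq u_EE

theorem u_PD : StPD := pr_PD u_EE

theorem u_Par : StPar := pr_Par

theorem u_Co2 : StCo2 := pr_Co2 u_EE

theorem u_CS2 : StCS2 := pr_CS2

theorem u_Sup : StSup := pr_Sup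

theorem u_Thr : StThr := pr_Thr u_CS2 u_Sup u_Co2

theorem u_VN : StVN := pr_VN u_CS2 u_Sup u_Thr

theorem u_Rnd : StRnd := pr_Rnd u_EE u_ND u_Frq

theorem u_Nrg : StNrg := pr_Nrg u_PD u_Par u_Frq

theorem u_Fib : StFib := pr_Fib

theorem u_Kil : StKil := pr_Kil

theorem u_Frm : StFrm := pr_Frm u_Fib u_Kil

theorem u_Bog : StBog := pr_Bog u_EE u_ND

theorem u_Lam : StLam := pr_Lam

theorem u_TK : StTK := pr_TK

theorem u_Scl : StScl := pr_Scl

theorem u_Trn : StTrn := pr_Trn u_PD u_Frq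

theorem u_Avg : StAvg := pr_Avg u_TK u_Scl u_Trn u_Frq

theorem u_Few : StFew := pr_Few u_EE u_GS

theorem u_Blk : StBlk := pr_Blk u_Few u_Frq u_ND

theorem u_Bks : StBks := pr_Bks u_EE

theorem u_U2 : StU2 := pr_U2 u_Co2 u_EE

theorem u_Kt1 : StKt1 := pr_Kt1 u_TK u_GS u_EE

theorem u_Kt2 : StKt2 := pr_Kt2 u_EE u_ND

theorem u_Kat : StKat := pr_Kat u_Kt1 u_Kt2

theorem u_End : StEnd := pr_End u_Bks u_U2 u_Kat u_Frq u_ND

theorem u_Core : StCore := pr_Core u_Rnd u_Nrg u_Frm u_Bog u_Lam u_Avg u_Blk u_End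

theorem u_A : StA := pr_A u_VN u_Core

/-- THEOREM A, closed -/
theorem u3_A : StA := u_A

end Pool.Agent.U3
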