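import Mathlib
import Pool.Agent.Work.MP_0f91f8_co.U3.Stmts

/-!
# Block U3, item EE: elementary facts on `ee`
-/

set_option autoImplicit false

namespace Pool.Agent.U3

open scoped ComplexConjugate

namespace IEE

theorem add (x y : ℝ) : ee (x + y) = ee x * ee y := by
  unfold ee
  rw [← Complex.exp_add]
  congr 1
  push_cast
  ring

theorem form (x : ℝ) : ee x = Complex.exp (((2 * Real.pi * x : ℝ) : ℂ) * Complex.I) := by
  unfold ee
  congr 1
  push_cast
  ring

theorem nrm (x : ℝ) : ‖ee x‖ = 1 := by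
  rw [form, Complex.norm_exp_ofReal_mul_I]

theorem cj (x : ℝ) : conj (ee x) = ee (-x) := by
  rw [form, form, ← Complex.exp_conj, map_mul, Complex.conj_ofReal, Complex.conj_I]
  congr 1
  push_cast
  ring

theorem int (k : ℤ) : ee k = 1 := by
  unfold ee
  have := Complex.exp_int_mul_two_pi_mul_I k
  rw [← this]
  congr 1
  push_cast
  ring

theorem zero : ee 0 = 1 := by
  simpa using int 0

theorem per (x : ℝ) (k : ℤ) : ee (x + k) = ee x := by
  rw [add, int, mul_one]

theorem lip (x y : ℝ) : ‖ee x - ee y‖ ≤ 2 * Real.pi * |x - y| := by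
  have h1 : ee x - ee y = ee y * (ee (x - y) - 1) := by
    rw [mul_sub, ← add, mul_one]
    congr 2
    ring
  rw [h1, norm_mul, nrm, one_mul, form]
  have h2 := Real.norm_exp_I_mul_ofReal_sub_one_le (x := 2 * Real.pi * (x - y))
  rw [mul_comm Complex.I] at h2
  refine h2.trans ?_
  rw [Real.norm_eq_abs, abs_mul, abs_of_pos Real.two_pi_pos]

end IEE

open IEE in
theorem pr_EE : StEE := ⟨add, nrm, cj, int, zero, per, lip⟩

end Pool.Agent.U3
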