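import Mathlib

/-!
# Block U3: aperiodic completely multiplicative functions have vanishing correlations along
four linear forms (definitions)

Everything is elementary.  `g : ℤ → ℂ` is completely multiplicative and unimodular off `0`.
-/

set_option autoImplicit false

namespace Pool.Agent.U3

open scoped ComplexConjugate

/-- `e(x) = exp(2 pi i x)` -/
noncomputable def ee (x : ℝ) : ℂ := Complex.exp (2 * Real.pi * Complex.I * x)

/-- distance to the nearest integer -/
noncomputable def nd (x : ℝ) : ℝ := |x - round x|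

/-- completely multiplicative on `ℤ`, unimodular off `0` (so `g (-1) = 1` or `-1`) -/
structure CM (g : ℤ → ℂ) : Prop where
  one : g 1 = 1
  mul : ∀ a b, g (a * b) = g a * g b
  nrm : ∀ n, n ≠ 0 → ‖g n‖ = 1
  zero : g 0 = 0

/-- aperiodic: mean value zero in every residue class (including the classes which are not
coprime to the modulus) -/
def Aper (g : ℤ → ℂ) : Prop :=
  ∀ r b : ℕ, 0 < r → Filter.Tendsto
    (fun x : ℕ => (∑ n ∈ (Finset.Icc 1 x).filter (fun n => n % r = b % r), g (n : ℤ)) / (x : ℂ))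
    Filter.atTop (nhds 0)

/-- the correlation of `f * 1_[A,B]` with its shift by `h`, twisted by `e(-a n)` -/
noncomputable def cor (f : ℤ → ℂ) (A B h : ℤ) (a : ℝ) : ℂ :=
  ∑ n ∈ Finset.Icc A B,
    if n + h ∈ Finset.Icc A B then f (n + h) * conj (f n) * ee (-(a * n)) else 0

/-- the positive definite function of the block -/
noncomputable def SS (f : ℤ → ℂ) (A B h : ℤ) (a : ℝ) : ℝ := ‖cor f A B h a‖ ^ 2

/-- frequency of a residue class -/
noncomputable def fr {M : ℕ} (w : ZMod M) : ℝ := (w.val : ℝ) / M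

/-- the same function with a frequency in `ZMod M` -/
noncomputable def SZ {M : ℕ} (f : ℤ → ℂ) (A B h : ℤ) (w : ZMod M) : ℝ := SS f A B h (fr w)

/-- `⌈A/q⌉` -/
def cl (A : ℤ) (q : ℕ) : ℤ := -((-A) / (q : ℤ))

/-- integer linear form with coefficient vector `l` -/
def lf (l v : ℤ × ℤ) : ℤ := l.1 * v.1 + l.2 * v.2

/-- determinant of two coefficient vectors -/
def dt (l k : ℤ × ℤ) : ℤ := l.1 * k.2 - l.2 * k.1

/-- vector annihilated by `l`: `lf l (pp l) = 0`, `lf k (pp l) = dt k l` -/
def pp (l : ℤ × ℤ) : ℤ × ℤ := (l.2, -l.1)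

/-- the box `[-T,T]^2` -/
noncomputable def bx (T : ℤ) : Finset (ℤ × ℤ) := Finset.Icc (-T) T ×ˢ Finset.Icc (-T) T

/-- bounded by one and supported in `[-N,N]` -/
def Bdd (N : ℕ) (f : ℤ → ℂ) : Prop := ∀ n : ℤ, ‖f n‖ ≤ 1 ∧ ((N : ℤ) < |n| → f n = 0)

/-- sum of the absolute values of the coordinates -/
def sz (l : ℤ × ℤ) : ℕ := l.1.natAbs + l.2.natAbs

end Pool.Agent.U3
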