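import Mathlib
import Pool.Agent.Work.MP_0f91f8_co.U3.Stmts

/-!
# Block U3: item Avg (transfer to the same shift for all `q`)
-/

set_option autoImplicit false

namespace Pool.Agent.U3

open scoped ComplexConjugate Pointwise

namespace IAvg

theorem nee (x : ℝ) : ‖ee x‖ = 1 := by
  unfold ee
  rw [Complex.norm_exp]
  have : (2 * (Real.pi : ℂ) * Complex.I * (x : ℂ)).re = 0 := by simp [Complex.mul_re]
  rw [this, Real.exp_zero]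

theorem ng (g : ℤ → ℂ) (hg : CM g) (n : ℤ) : ‖g n‖ ≤ 1 := by
  by_cases h : n = 0
  · rw [h, hg.zero, norm_zero]; exact zero_le_one
  · exact (hg.nrm n h).le

/-- the term of a correlation -/
noncomputable def tm (g : ℤ → ℂ) (A B h : ℤ) (a : ℝ) (n : ℤ) : ℂ :=
  if n + h ∈ Finset.Icc A B then g (n + h) * conj (g n) * ee (-(a * n)) else 0

theorem ntm (g : ℤ → ℂ) (hg : CM g) (A B h : ℤ) (a : ℝ) (n : ℤ) : ‖tm g A B h a n‖ ≤ 1 := by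
  unfold tm
  split_ifs
  · rw [norm_mul, norm_mul, nee, mul_one, RCLike.norm_conj]
    exact mul_le_one₀ (ng g hg _) (norm_nonneg _) (ng g hg _)
  · rw [norm_zero]; exact zero_le_one

theorem cor_eq (g : ℤ → ℂ) (A B h : ℤ) (a : ℝ) :
    cor g A B h a = ∑ n ∈ Finset.Icc A B, tm g A B h a n := rfl

theorem ncor (g : ℤ → ℂ) (hg : CM g) (A B h : ℤ) (a : ℝ) :
    ‖cor g A B h a‖ ≤ ((Finset.Icc A B).card : ℝ) := by
  rw [cor_eq]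
  refine (norm_sum_le _ _).trans ?_
  refine (Finset.sum_le_card_nsmul _ _ 1 fun n _ => ntm g hg A B h a n).trans ?_
  rw [nsmul_eq_mul, mul_one]

/-- the number of integers of `[cl A q, B / q]` -/
theorem crd (A B : ℤ) (N q : ℕ) (hq : 1 ≤ q) (hqN : q ≤ N) (hA : -(N : ℤ) ≤ A) (hB : B ≤ N) :
    ((Finset.Icc (cl A q) (B / q)).card : ℝ) * q ≤ 3 * N := by
  rw [Int.card_Icc]
  have hq0 : (0 : ℤ) < q := by exact_mod_cast hq
  have h1 : B / (q : ℤ) ≤ (N : ℤ) / q := Int.ediv_le_ediv hq0 hB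
  have h2 : (-A) / (q : ℤ) ≤ (N : ℤ) / q := Int.ediv_le_ediv hq0 (by linarith)
  have h3 : B / (q : ℤ) + 1 - cl A q ≤ 2 * ((N : ℤ) / q) + 1 := by
    unfold cl
    linarith
  have h4 : ((N : ℤ) / q) * q ≤ N := Int.ediv_mul_le _ hq0.ne'
  have h5 : (0 : ℤ) ≤ (N : ℤ) / q := Int.ediv_nonneg (by positivity) hq0.le
  have h6 : (((B / (q : ℤ) + 1 - cl A q).toNat : ℤ)) ≤ 2 * ((N : ℤ) / q) + 1 := by
    rw [Int.toNat_eq_max]
    exact max_le h3 (by linarith)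
  have h7 : (((B / (q : ℤ) + 1 - cl A q).toNat : ℤ)) * q ≤ 3 * N := by
    have hqN' : (q : ℤ) ≤ N := by exact_mod_cast hqN
    nlinarith
  exact_mod_cast h7

theorem crd1 (A B : ℤ) (N : ℕ) (hN : 1 ≤ N) (hA : -(N : ℤ) ≤ A) (hB : B ≤ N) :
    ((Finset.Icc A B).card : ℝ) ≤ 3 * N := by
  rw [Int.card_Icc]
  have h6 : (((B + 1 - A).toNat : ℤ)) ≤ 3 * N := by
    rw [Int.toNat_eq_max]
    exact max_le (by omega) (by omega)
  exact_mod_cast h6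

/-- [TK] and [Scl] for one element of `R` -/
theorem one (hS : StScl) (Ps : Finset ℕ) (hP : ∀ q ∈ Ps, q.Prime) (N : ℕ)
    (hT : ∀ F : ℤ → ℂ, (∀ n, ‖F n‖ ≤ 1) →
      ∑ q ∈ Ps, (1 / (q : ℝ)) *
        ‖(q : ℂ) * ∑ n ∈ (Finset.Icc (-(N : ℤ)) N).filter (fun n => (q : ℤ) ∣ n), F n -
          ∑ n ∈ Finset.Icc (-(N : ℤ)) N, F n‖ ^ 2 ≤ 16 * (N : ℝ) ^ 2)
    (g : ℤ → ℂ) (hg : CM g) (A B h : ℤ) (hA : -(N : ℤ) ≤ A) (hB : B ≤ N)
    (hh : ∀ q ∈ Ps, (q : ℤ) ∣ h) (a : ℝ) :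
    ∑ q ∈ Ps, (1 / (q : ℝ)) *
      ‖(q : ℂ) * cor g (cl A q) (B / q) (h / q) (q * a) - cor g A B h a‖ ^ 2 ≤
        16 * (N : ℝ) ^ 2 := by
  have hsub : Finset.Icc A B ⊆ Finset.Icc (-(N : ℤ)) N := Finset.Icc_subset_Icc hA hB
  set F : ℤ → ℂ := fun n => if n ∈ Finset.Icc A B then tm g A B h a n else 0 with hF
  have hF1 : ∀ n, ‖F n‖ ≤ 1 := by
    intro n
    rw [hF]
    simp only
    split_ifs
    · exact ntm g hg A B h a n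
    · rw [norm_zero]; exact zero_le_one
  have h1 : ∑ n ∈ Finset.Icc (-(N : ℤ)) N, F n = cor g A B h a := by
    rw [hF, Finset.sum_ite_mem, Finset.inter_eq_right.2 hsub, cor_eq]
  have h2 : ∀ q ∈ Ps, ∑ n ∈ (Finset.Icc (-(N : ℤ)) N).filter (fun n => (q : ℤ) ∣ n), F n =
      cor g (cl A q) (B / q) (h / q) (q * a) := by
    intro q hq
    rw [← hS g hg q A B h a (hP q hq).one_lt.le (hh q hq), hF, Finset.sum_ite_mem]
    have : (Finset.Icc (-(N : ℤ)) N).filter (fun n => (q : ℤ) ∣ n) ∩ Finset.Icc A B =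
        (Finset.Icc A B).filter (fun n => (q : ℤ) ∣ n) := by
      ext n
      simp only [Finset.mem_inter, Finset.mem_filter]
      constructor
      · rintro ⟨⟨_, h3⟩, h4⟩
        exact ⟨h4, h3⟩
      · rintro ⟨h3, h4⟩
        exact ⟨⟨hsub h3, h4⟩, h3⟩
    rw [this]
    rfl
  refine le_trans (le_of_eq ?_) (hT F hF1)
  refine Finset.sum_congr rfl fun q hq => ?_
  rw [h1, h2 q hq]

/-- the lower bound for one element of `R` -/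
theorem low (Ps : Finset ℕ) (δ N : ℝ) (a : ℕ → ℂ) (b : ℂ) (hδ : 0 < δ)
    (hW : (48 / δ) ^ 2 ≤ ∑ q ∈ Ps, 1 / (q : ℝ)) (hb : δ * N ^ 2 ≤ ‖b‖ ^ 2) (hb3 : ‖b‖ ≤ 3 * N)
    (hT : ∑ q ∈ Ps, (1 / (q : ℝ)) * ‖a q - b‖ ^ 2 ≤ 16 * N ^ 2) :
    δ / 2 * N ^ 2 * ∑ q ∈ Ps, 1 / (q : ℝ) ≤ ∑ q ∈ Ps, (1 / (q : ℝ)) * ‖a q‖ ^ 2 := by
  have hN : 0 ≤ N := by
    have := norm_nonneg b
    linarith
  have h1 : ∀ q ∈ Ps, (1 / (q : ℝ)) * (3 / 4 * δ * N ^ 2 - 36 / δ * ‖a q - b‖ ^ 2) ≤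
      (1 / (q : ℝ)) * ‖a q‖ ^ 2 := by
    intro q _
    refine mul_le_mul_of_nonneg_left ?_ (by positivity)
    have h2 : ‖b‖ ≤ ‖a q‖ + ‖a q - b‖ := by
      calc ‖b‖ = ‖a q - (a q - b)‖ := by congr 1; ring
        _ ≤ ‖a q‖ + ‖a q - b‖ := norm_sub_le _ _
    have h3 : ‖b‖ ^ 2 - 2 * ‖b‖ * ‖a q - b‖ ≤ ‖a q‖ ^ 2 := by
      have ha := norm_nonneg (a q)
      have hb' := norm_nonneg b
      have hab := norm_nonneg (a q - b)
      by_cases hc : ‖a q - b‖ ≤ ‖b‖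
      · nlinarith
      · push Not at hc
        nlinarith
    have h4 : 2 * ‖b‖ * ‖a q - b‖ ≤ δ / 4 * N ^ 2 + 36 / δ * ‖a q - b‖ ^ 2 := by
      have h5 : 2 * ‖b‖ * ‖a q - b‖ ≤ 6 * N * ‖a q - b‖ := by
        have := mul_le_mul_of_nonneg_right hb3 (norm_nonneg (a q - b))
        linarith
      have h6 : 6 * N * ‖a q - b‖ ≤ δ / 4 * N ^ 2 + 36 / δ * ‖a q - b‖ ^ 2 := by
        have h7 : 0 ≤ (δ * N - 12 * ‖a q - b‖) ^ 2 / (4 * δ) := by positivity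
        have h8 : (δ * N - 12 * ‖a q - b‖) ^ 2 / (4 * δ) =
            δ / 4 * N ^ 2 + 36 / δ * ‖a q - b‖ ^ 2 - 6 * N * ‖a q - b‖ := by
          field_simp
          ring
        linarith
      linarith
    linarith
  have h9 := Finset.sum_le_sum h1
  have h10 : ∑ q ∈ Ps, (1 / (q : ℝ)) * (3 / 4 * δ * N ^ 2 - 36 / δ * ‖a q - b‖ ^ 2) =
      3 / 4 * δ * N ^ 2 * ∑ q ∈ Ps, 1 / (q : ℝ) -
        36 / δ * ∑ q ∈ Ps, (1 / (q : ℝ)) * ‖a q - b‖ ^ 2 := by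
    rw [Finset.mul_sum, Finset.mul_sum, ← Finset.sum_sub_distrib]
    exact Finset.sum_congr rfl fun q _ => by ring
  rw [h10] at h9
  have h11 : 36 / δ * ∑ q ∈ Ps, (1 / (q : ℝ)) * ‖a q - b‖ ^ 2 ≤ 36 / δ * (16 * N ^ 2) :=
    mul_le_mul_of_nonneg_left hT (by positivity)
  have h12 : 36 / δ * (16 * N ^ 2) = δ / 4 * N ^ 2 * (48 / δ) ^ 2 := by
    field_simp
    ring
  have h13 : δ / 4 * N ^ 2 * (48 / δ) ^ 2 ≤ δ / 4 * N ^ 2 * ∑ q ∈ Ps, 1 / (q : ℝ) :=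
    mul_le_mul_of_nonneg_left hW (by positivity)
  linarith

end IAvg

theorem pr_Avg (h1 : StTK) (h2 : StScl) (h3 : StTrn) (h4 : StFrq) : StAvg := by
  intro δ hδ
  refine ⟨δ ^ 4 / 576, by positivity, (48 / δ) ^ 2, ?_⟩
  intro Ps hP hW
  obtain ⟨N0, hN0⟩ := h1 Ps hP
  refine ⟨max (max N0 1) (Ps.sup id), ?_⟩
  intro N hN g hg A B H hA hB hH M X Y _ R V w Λ hX hqY hRX hRc hVY hcomp hR
  have hN1 : 1 ≤ N := le_trans (le_trans (le_max_right _ _) (le_max_left _ _)) hN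
  have hNN0 : N0 ≤ N := le_trans (le_trans (le_max_left _ _) (le_max_left _ _)) hN
  have hqN : ∀ q ∈ Ps, q ≤ N := fun q hq =>
    le_trans (le_trans (Finset.le_sup (f := id) hq) (le_max_right _ _)) hN
  have hq1 : ∀ q ∈ Ps, 1 ≤ q := fun q hq => (hP q hq).one_lt.le
  have hNr : (0 : ℝ) < N := by exact_mod_cast hN1
  have hXr : (0 : ℝ) < X := by exact_mod_cast hX
  set W : ℝ := ∑ q ∈ Ps, 1 / (q : ℝ) with hWdef
  have hW0 : 0 ≤ W := le_trans (by positivity) hW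
  -- the numbers `t q`
  set Z : ℕ → ℤ → ℝ := fun q r => SZ g (cl A q) (B / q) (H / q * r) (q • w r) with hZ
  set t : ℕ → ℝ := fun q => ∑ r ∈ R, (q : ℝ) ^ 2 * Z q r with ht
  -- step 1
  have step1 : ∀ r ∈ R, δ / 2 * (N : ℝ) ^ 2 * W ≤
      ∑ q ∈ Ps, (1 / (q : ℝ)) * ((q : ℝ) ^ 2 * Z q r) := by
    intro r hr
    have hT := IAvg.one h2 Ps hP N (hN0 N hNN0) g hg A B (H * r) hA hB
      (fun q hq => (hH q hq).mul_right r) (fr (w r))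
    have hb : δ * (N : ℝ) ^ 2 ≤ ‖cor g A B (H * r) (fr (w r))‖ ^ 2 := hR r hr
    have hb3 : ‖cor g A B (H * r) (fr (w r))‖ ≤ 3 * (N : ℝ) :=
      (IAvg.ncor g hg A B _ _).trans (IAvg.crd1 A B N hN1 hA hB)
    have hl := IAvg.low Ps δ N (fun q => (q : ℂ) * cor g (cl A q) (B / q) ((H * r) / q)
      (q * fr (w r))) (cor g A B (H * r) (fr (w r))) hδ hW hb hb3 hT
    refine hl.trans (le_of_eq ?_)
    refine Finset.sum_congr rfl fun q hq => ?_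
    congr 1
    rw [norm_mul, mul_pow, Complex.norm_natCast]
    congr 1
    have e1 : (H * r) / (q : ℤ) = H / q * r := Int.mul_ediv_assoc' r (hH q hq)
    rw [e1, hZ]
    simp only
    have hq0 : 0 < q := hq1 q hq
    rw [h4.2.2.2.2 M g (cl A q) (B / q) (H / q * r) (w r) q]
    rfl
  -- step 2
  have step2 : δ / 2 * (N : ℝ) ^ 2 * (R.card : ℝ) * W ≤ ∑ q ∈ Ps, (1 / (q : ℝ)) * t q := by
    have h5 := Finset.sum_le_sum step1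
    rw [Finset.sum_const, nsmul_eq_mul, Finset.sum_comm] at h5
    have h6 : ∑ q ∈ Ps, ∑ r ∈ R, (1 / (q : ℝ)) * ((q : ℝ) ^ 2 * Z q r) =
        ∑ q ∈ Ps, (1 / (q : ℝ)) * t q := by
      refine Finset.sum_congr rfl fun q _ => ?_
      rw [ht]
      simp only
      rw [Finset.mul_sum]
    rw [h6] at h5
    linarith
  -- step 3
  set D : ℕ → ℝ := fun q => ∑ v ∈ V, ∑ v' ∈ V,
    SZ g (cl A q) (B / q) (H * (v - v')) (q ^ 2 • Λ (v - v')) with hD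
  have hDnn : ∀ q, 0 ≤ D q := by
    intro q
    refine Finset.sum_nonneg fun v _ => Finset.sum_nonneg fun v' _ => ?_
    unfold SZ SS
    positivity
  have step3 : ∀ q ∈ Ps, (V.card : ℝ) ^ 2 * t q ^ 2 ≤
      144 * (X : ℝ) ^ 2 * (N : ℝ) ^ 2 * ((q : ℝ) ^ 2 * D q) := by
    intro q hq
    have hq0 : (0 : ℝ) < q := by exact_mod_cast hq1 q hq
    have h5 := h3 g (cl A q) (B / q) (H / q) M X Y q R V w Λ hX (hq1 q hq) (hqY q hq) hRX hVY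
      (fun v hv v' hv' r hr r' hr' h => hcomp v hv v' hv' q hq r hr r' hr' h)
    rw [Int.ediv_mul_cancel (hH q hq)] at h5
    set E : ℝ := ∑ n ∈ Finset.Icc (cl A q) (B / q), ‖g n‖ ^ 2 with hE
    have hE0 : 0 ≤ E := Finset.sum_nonneg fun n _ => by positivity
    have hE1 : E * q ≤ 3 * N := by
      have h6 : E ≤ ((Finset.Icc (cl A q) (B / q)).card : ℝ) := by
        refine (Finset.sum_le_card_nsmul _ _ 1 fun n _ => ?_).trans ?_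
        · exact pow_le_one₀ (norm_nonneg _) (IAvg.ng g hg n)
        · rw [nsmul_eq_mul, mul_one]
      exact (mul_le_mul_of_nonneg_right h6 hq0.le).trans
        (IAvg.crd A B N q (hq1 q hq) (hqN q hq) hA hB)
    have hE2 : E ^ 2 * (q : ℝ) ^ 2 ≤ 9 * (N : ℝ) ^ 2 := by
      have h7 : (E * q) ^ 2 ≤ (3 * (N : ℝ)) ^ 2 := pow_le_pow_left₀ (by positivity) hE1 2
      nlinarith
    have h8 : t q = (q : ℝ) ^ 2 * ∑ r ∈ R, Z q r := by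
      rw [ht]
      simp only
      rw [Finset.mul_sum]
    have h9 : ((V.card : ℝ) * ∑ r ∈ R, Z q r) ^ 2 ≤ 16 * (X : ℝ) ^ 2 * E ^ 2 * D q := h5
    rw [h8]
    have h10 : (V.card : ℝ) ^ 2 * ((q : ℝ) ^ 2 * ∑ r ∈ R, Z q r) ^ 2 =
        (q : ℝ) ^ 4 * ((V.card : ℝ) * ∑ r ∈ R, Z q r) ^ 2 := by ring
    rw [h10]
    calc (q : ℝ) ^ 4 * ((V.card : ℝ) * ∑ r ∈ R, Z q r) ^ 2
        ≤ (q : ℝ) ^ 4 * (16 * (X : ℝ) ^ 2 * E ^ 2 * D q) :=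
          mul_le_mul_of_nonneg_left h9 (by positivity)
      _ = (16 * (X : ℝ) ^ 2 * ((q : ℝ) ^ 2 * D q)) * (E ^ 2 * (q : ℝ) ^ 2) := by ring
      _ ≤ (16 * (X : ℝ) ^ 2 * ((q : ℝ) ^ 2 * D q)) * (9 * (N : ℝ) ^ 2) := by
          refine mul_le_mul_of_nonneg_left hE2 ?_
          have := hDnn q
          positivity
      _ = 144 * (X : ℝ) ^ 2 * (N : ℝ) ^ 2 * ((q : ℝ) ^ 2 * D q) := by ring
  -- step 4
  set m : ℝ := δ / 2 * (N : ℝ) ^ 2 * (R.card : ℝ) with hm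
  have hm0 : 0 ≤ m := by positivity
  have step4 : m ^ 2 * W ≤ ∑ q ∈ Ps, (1 / (q : ℝ)) * t q ^ 2 := by
    have h5 : ∑ q ∈ Ps, (1 / (q : ℝ)) * (2 * m * t q - m ^ 2) ≤
        ∑ q ∈ Ps, (1 / (q : ℝ)) * t q ^ 2 := by
      refine Finset.sum_le_sum fun q _ => mul_le_mul_of_nonneg_left ?_ (by positivity)
      nlinarith [sq_nonneg (t q - m)]
    have h6 : ∑ q ∈ Ps, (1 / (q : ℝ)) * (2 * m * t q - m ^ 2) =
        2 * m * ∑ q ∈ Ps, (1 / (q : ℝ)) * t q - m ^ 2 * W := by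
      rw [hWdef, Finset.mul_sum, Finset.mul_sum, ← Finset.sum_sub_distrib]
      exact Finset.sum_congr rfl fun q _ => by ring
    rw [h6] at h5
    have h7 : 2 * m * (m * W) ≤ 2 * m * ∑ q ∈ Ps, (1 / (q : ℝ)) * t q :=
      mul_le_mul_of_nonneg_left step2 (by positivity)
    nlinarith
  -- step 5
  have step5 : (V.card : ℝ) ^ 2 * ∑ q ∈ Ps, (1 / (q : ℝ)) * t q ^ 2 ≤
      144 * (X : ℝ) ^ 2 * (N : ℝ) ^ 2 * ∑ q ∈ Ps, (1 / (q : ℝ)) * ((q : ℝ) ^ 2 * D q) := by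
    rw [Finset.mul_sum, Finset.mul_sum]
    refine Finset.sum_le_sum fun q hq => ?_
    have h5 := mul_le_mul_of_nonneg_left (step3 q hq) (show (0 : ℝ) ≤ 1 / (q : ℝ) by positivity)
    calc (V.card : ℝ) ^ 2 * (1 / (q : ℝ) * t q ^ 2)
        = 1 / (q : ℝ) * ((V.card : ℝ) ^ 2 * t q ^ 2) := by ring
      _ ≤ 1 / (q : ℝ) * (144 * (X : ℝ) ^ 2 * (N : ℝ) ^ 2 * ((q : ℝ) ^ 2 * D q)) := h5
      _ = _ := by ring
  -- target
  have htar : ∑ v ∈ V, ∑ v' ∈ V, ∑ q ∈ Ps, (1 / (q : ℝ)) *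
      ((q : ℝ) ^ 2 * SZ g (cl A q) (B / q) (H * (v - v')) (q ^ 2 • Λ (v - v'))) =
      ∑ q ∈ Ps, (1 / (q : ℝ)) * ((q : ℝ) ^ 2 * D q) := by
    have e1 : ∀ v ∈ V, ∑ v' ∈ V, ∑ q ∈ Ps, (1 / (q : ℝ)) *
        ((q : ℝ) ^ 2 * SZ g (cl A q) (B / q) (H * (v - v')) (q ^ 2 • Λ (v - v'))) =
        ∑ q ∈ Ps, ∑ v' ∈ V, (1 / (q : ℝ)) *
        ((q : ℝ) ^ 2 * SZ g (cl A q) (B / q) (H * (v - v')) (q ^ 2 • Λ (v - v'))) :=
      fun v _ => Finset.sum_comm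
    rw [Finset.sum_congr rfl e1, Finset.sum_comm]
    refine Finset.sum_congr rfl fun q _ => ?_
    rw [hD]
    simp only [Finset.mul_sum]
  rw [htar]
  have hRm : (δ ^ 2 / 2 * (N : ℝ) ^ 2 * X) ^ 2 ≤ m ^ 2 := by
    refine pow_le_pow_left₀ (by positivity) ?_ 2
    rw [hm]
    have := mul_le_mul_of_nonneg_left hRc (show (0 : ℝ) ≤ δ / 2 * (N : ℝ) ^ 2 by positivity)
    calc δ ^ 2 / 2 * (N : ℝ) ^ 2 * X = δ / 2 * (N : ℝ) ^ 2 * (δ * X) := by ring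
      _ ≤ _ := this
  have hfin : 144 * (X : ℝ) ^ 2 * (N : ℝ) ^ 2 * (δ ^ 4 / 576 * W * (V.card : ℝ) ^ 2 * (N : ℝ) ^ 2)
      ≤ 144 * (X : ℝ) ^ 2 * (N : ℝ) ^ 2 *
        ∑ q ∈ Ps, (1 / (q : ℝ)) * ((q : ℝ) ^ 2 * D q) := by
    calc 144 * (X : ℝ) ^ 2 * (N : ℝ) ^ 2 * (δ ^ 4 / 576 * W * (V.card : ℝ) ^ 2 * (N : ℝ) ^ 2)
        = (V.card : ℝ) ^ 2 * ((δ ^ 2 / 2 * (N : ℝ) ^ 2 * X) ^ 2 * W) := by ring
      _ ≤ (V.card : ℝ) ^ 2 * (m ^ 2 * W) := by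
          refine mul_le_mul_of_nonneg_left ?_ (by positivity)
          exact mul_le_mul_of_nonneg_right hRm hW0
      _ ≤ (V.card : ℝ) ^ 2 * ∑ q ∈ Ps, (1 / (q : ℝ)) * t q ^ 2 :=
          mul_le_mul_of_nonneg_left step4 (by positivity)
      _ ≤ _ := step5
  exact le_of_mul_le_mul_left hfin (by positivity)

end Pool.Agent.U3
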