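import Mathlib
import Pool.Agent.Work.MP_0f91f8_co.U3.Stmts
import Pool.Agent.Work.MP_0f91f8_co.COL.Interfaces

set_option autoImplicit false

/-! Block U3, item Col: theorem A in the form of the interface `COL.St_A`. -/

namespace Pool.Agent.U3

open Filter Topology
open Pool.Agent.Work.MP_0f91f8_co

namespace ICol

theorem ee_add (x y : ℝ) : ee (x + y) = ee x * ee y := by
  unfold ee
  rw [← Complex.exp_add]
  congr 1
  push_cast
  ring

theorem ee_norm (x : ℝ) : ‖ee x‖ = 1 := by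
  unfold ee
  rw [show (2 * Real.pi * Complex.I * x : ℂ) = ((2 * Real.pi * x : ℝ) : ℂ) * Complex.I by
    push_cast; ring]
  exact Complex.norm_exp_ofReal_mul_I _

theorem ee_int (k : ℤ) : ee k = 1 := by
  unfold ee
  rw [Complex.exp_eq_one_iff]
  exact ⟨k, by push_cast; ring⟩

theorem charsum (q : ℕ) (hq : 0 < q) (m : ℤ) :
    ∑ j ∈ Finset.range q, ee (j * m / q) = if (q : ℤ) ∣ m then (q : ℂ) else 0 := by
  have hq' : (q : ℝ) ≠ 0 := by positivity
  have h1 : ∀ j : ℕ, ee (j * m / q) = ee (m / q) ^ j := by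
    intro j
    unfold ee
    rw [← Complex.exp_nat_mul]
    congr 1
    push_cast
    ring
  split_ifs with hd
  · obtain ⟨k, rfl⟩ := hd
    have h2 : ∀ j ∈ Finset.range q, ee (j * (((q : ℤ) * k : ℤ) : ℝ) / q) = 1 := by
      intro j _
      rw [show ((j : ℝ) * (((q : ℤ) * k : ℤ) : ℝ) / q) = (((j : ℤ) * k : ℤ) : ℝ) by
        push_cast; field_simp]
      exact ee_int _
    rw [Finset.sum_congr rfl h2]
    simp
  · have hne : ee (m / q) ≠ 1 := by
      intro h
      unfold ee at h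
      rw [Complex.exp_eq_one_iff] at h
      obtain ⟨n, hn⟩ := h
      have h3 : (m : ℝ) / q = n := by
        have h2 : (2 * Real.pi * Complex.I : ℂ) ≠ 0 := Complex.two_pi_I_ne_zero
        have h4 : ((m / q : ℝ) : ℂ) = (n : ℂ) := by
          apply mul_left_cancel₀ h2
          rw [hn]
          ring
        exact_mod_cast h4
      apply hd
      refine ⟨n, ?_⟩
      rw [div_eq_iff hq'] at h3
      have h4 : (m : ℝ) = ((q * n : ℤ) : ℝ) := by
        push_cast
        linarith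
      exact_mod_cast h4
    have hp : ee (m / q) ^ q = 1 := by
      rw [← h1]
      rw [show ((q : ℝ) * m / q) = (m : ℝ) by field_simp]
      exact ee_int m
    rw [Finset.sum_congr rfl fun j _ => h1 j, geom_sum_eq hne, hp, sub_self, zero_div]

theorem cm (f : ℕ → ℂ) (h : COL.IsCM f) : CM (fun n : ℤ => f n.natAbs) where
  one := by simpa using h.one
  mul a b := by
    simp only [Int.natAbs_mul]
    exact h.mul _ _
  nrm n hn := h.norm _ (Int.natAbs_pos.2 hn)
  zero := by simpa using h.zero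

theorem sum_class (f : ℕ → ℂ) (h0 : f 0 = 0) (r b : ℕ) (hr : 0 < r) (x : ℕ) :
    ∑ n ∈ (Finset.Icc 1 x).filter (fun n => n % r = b % r), f n =
      ∑ k ∈ Finset.range ((x + r - b % r) / r), f (r * k + b % r) := by
  have hb : b % r < r := Nat.mod_lt _ hr
  have hinj : Set.InjOn (fun k => r * k + b % r) (Finset.range ((x + r - b % r) / r) : Set ℕ) := by
    intro k _ k' _ h
    simp only at h
    exact Nat.eq_of_mul_eq_mul_left hr (by omega)
  rw [← Finset.sum_image (f := f) (g := fun k => r * k + b % r) hinj]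
  refine Finset.sum_subset ?_ ?_
  · intro n hn
    rw [Finset.mem_filter, Finset.mem_Icc] at hn
    rw [Finset.mem_image]
    have h1 := Nat.div_add_mod n r
    refine ⟨n / r, ?_, ?_⟩
    · rw [Finset.mem_range, ← Nat.succ_le_iff, Nat.le_div_iff_mul_le hr]
      have : Nat.succ (n / r) * r = r * (n / r) + r := by
        rw [Nat.succ_mul, mul_comm]
      rw [this]
      omega
    · omega
  · intro n hn hn'
    rw [Finset.mem_image] at hn
    obtain ⟨k, hk, rfl⟩ := hn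
    rw [Finset.mem_range, ← Nat.succ_le_iff, Nat.le_div_iff_mul_le hr] at hk
    have h2 : Nat.succ k * r = r * k + r := by
      rw [Nat.succ_mul, mul_comm]
    rw [h2] at hk
    rw [Finset.mem_filter, Finset.mem_Icc, not_and_or] at hn'
    rcases hn' with h | h
    · have : r * k + b % r = 0 := by omega
      rw [this, h0]
    · exfalso
      apply h
      rw [Nat.mul_add_mod, Nat.mod_mod]

theorem aper (f : ℕ → ℂ) (h : COL.IsCM f) (ha : COL.Aper f) : Aper (fun n : ℤ => f n.natAbs) := by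
  intro r b hr
  have hb : b % r < r := Nat.mod_lt _ hr
  set K : ℕ → ℕ := fun x => (x + r - b % r) / r with hK
  set S : ℕ → ℂ := fun K => ∑ k ∈ Finset.range K, f (r * k + b % r) with hS
  have h1 : Tendsto (fun N : ℕ => S N / N) atTop (𝓝 0) := ha r (b % r) hr
  have hKt : Tendsto K atTop atTop := by
    rw [tendsto_atTop]
    intro B
    filter_upwards [eventually_ge_atTop (B * r)] with x hx
    simp only [hK]
    rw [Nat.le_div_iff_mul_le hr]
    omega
  have h2 : Tendsto (fun x => 2 * ‖S (K x) / (K x : ℂ)‖) atTop (𝓝 0) := by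
    have := ((h1.comp hKt).norm).const_mul (2 : ℝ)
    simpa using this
  refine squeeze_zero_norm' ?_ h2
  filter_upwards [eventually_ge_atTop 1] with x hx
  have h3 : (∑ n ∈ (Finset.Icc 1 x).filter (fun n => n % r = b % r),
      (fun n : ℤ => f n.natAbs) (n : ℤ)) = S (K x) := by
    simp only [Int.natAbs_natCast]
    exact sum_class f h.zero r b hr x
  rw [h3]
  have hKx : K x ≤ 2 * x := by
    simp only [hK]
    have : (x + r - b % r) / r ≤ (x + r) / r := Nat.div_le_div_right (Nat.sub_le _ _)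
    have h4 : (x + r) / r = x / r + 1 := Nat.add_div_right x hr
    have h5 : x / r ≤ x := Nat.div_le_self x r
    omega
  rcases Nat.eq_zero_or_pos (K x) with h0 | h0
  · rw [h0]
    simp [hS]
  · rw [norm_div, norm_div, Complex.norm_natCast, Complex.norm_natCast]
    have hx0 : (0 : ℝ) < x := by exact_mod_cast hx
    have hk0 : (0 : ℝ) < K x := by exact_mod_cast h0
    have hk2 : (K x : ℝ) ≤ 2 * x := by exact_mod_cast hKx
    rw [← mul_div_assoc, div_le_div_iff₀ hx0 hk0]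
    nlinarith [norm_nonneg (S (K x))]

theorem three (l0 l1 l3 v : ℤ × ℤ) :
    lf l3 v * dt l0 l1 = dt l3 l1 * lf l0 v + dt l0 l3 * lf l1 v := by
  unfold lf dt
  ring

theorem cramer1 (l k v : ℤ × ℤ) : dt l k * v.1 = k.2 * lf l v - l.2 * lf k v := by
  unfold dt lf; ring

theorem cramer2 (l k v : ℤ × ℤ) : dt l k * v.2 = l.1 * lf k v - k.1 * lf l v := by
  unfold dt lf; ring

theorem bound (D u a b x y X S : ℤ) (hD : D ≠ 0) (h : D * u = a * x - b * y) (hx : |x| ≤ X)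
    (hy : |y| ≤ X) (hS : |a| + |b| ≤ S) : |u| ≤ X * S := by
  have hX : 0 ≤ X := (abs_nonneg x).trans hx
  have h1 : |u| ≤ |D| * |u| := by
    have : 1 ≤ |D| := Int.one_le_abs hD
    nlinarith [abs_nonneg u]
  rw [← abs_mul, h] at h1
  have h2 : |a * x - b * y| ≤ |a| * |x| + |b| * |y| := by
    rw [← abs_mul, ← abs_mul]
    exact abs_sub _ _
  have h3 : |a| * |x| ≤ |a| * X := mul_le_mul_of_nonneg_left hx (abs_nonneg a)
  have h4 : |b| * |y| ≤ |b| * X := mul_le_mul_of_nonneg_left hy (abs_nonneg b)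
  have h5 : X * (|a| + |b|) ≤ X * S := mul_le_mul_of_nonneg_left hS hX
  nlinarith

theorem inbox (l k v : ℤ × ℤ) (X : ℤ) (hD : dt l k ≠ 0) (h1 : |lf l v| ≤ X) (h2 : |lf k v| ≤ X) :
    |v.1| ≤ X * ((sz l : ℤ) + sz k) ∧ |v.2| ≤ X * ((sz l : ℤ) + sz k) := by
  refine ⟨bound _ _ _ _ _ _ X _ hD (cramer1 l k v) h1 h2 ?_,
    bound _ _ _ _ _ _ X _ hD (cramer2 l k v) h2 h1 ?_⟩
  · simp only [sz, Nat.cast_add, Int.natCast_natAbs]
    have := abs_nonneg l.1
    have := abs_nonneg k.1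
    linarith
  · simp only [sz, Nat.cast_add, Int.natCast_natAbs]
    have := abs_nonneg l.2
    have := abs_nonneg k.2
    linarith

theorem lf_le (l v : ℤ × ℤ) (Y : ℤ) (h1 : |v.1| ≤ Y) (h2 : |v.2| ≤ Y) : |lf l v| ≤ sz l * Y := by
  unfold lf
  have h3 : |l.1 * v.1 + l.2 * v.2| ≤ |l.1| * |v.1| + |l.2| * |v.2| := by
    rw [← abs_mul, ← abs_mul]
    exact abs_add_le _ _
  have h4 : |l.1| * |v.1| ≤ |l.1| * Y := mul_le_mul_of_nonneg_left h1 (abs_nonneg _)
  have h5 : |l.2| * |v.2| ≤ |l.2| * Y := mul_le_mul_of_nonneg_left h2 (abs_nonneg _)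
  simp only [sz, Nat.cast_add, Int.natCast_natAbs]
  nlinarith

/-- the three twisted functions -/
noncomputable def tw (f₁ f₂ f₃ : ℤ → ℂ) (s t : ℝ) : Fin 3 → ℤ → ℂ
  | 0 => fun n => f₁ n * ee (s * n)
  | 1 => fun n => f₂ n * ee (t * n)
  | 2 => f₃

theorem tw_bdd (f₁ f₂ f₃ : ℤ → ℂ) (s t : ℝ) (M : ℕ)
    (h1 : ∀ n, ‖f₁ n‖ ≤ 1) (h2 : ∀ n, ‖f₂ n‖ ≤ 1) (h3 : ∀ n, ‖f₃ n‖ ≤ 1)
    (g1 : ∀ n, f₁ n ≠ 0 → |n| ≤ M) (g2 : ∀ n, f₂ n ≠ 0 → |n| ≤ M) (g3 : ∀ n, f₃ n ≠ 0 → |n| ≤ M) :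
    ∀ i, Bdd M (tw f₁ f₂ f₃ s t i) := by
  have aux : ∀ g : ℤ → ℂ, (∀ n, g n ≠ 0 → |n| ≤ M) → ∀ n : ℤ, (M : ℤ) < |n| → g n = 0 := by
    intro g hg n hn
    by_contra h
    exact absurd (hg n h) (not_le.2 hn)
  intro i n
  fin_cases i
  · refine ⟨?_, fun hn => ?_⟩
    · change ‖f₁ n * ee (s * n)‖ ≤ 1
      rw [norm_mul, ee_norm, mul_one]
      exact h1 n
    · change f₁ n * ee (s * n) = 0
      rw [aux f₁ g1 n hn, zero_mul]
  · refine ⟨?_, fun hn => ?_⟩
    · change ‖f₂ n * ee (t * n)‖ ≤ 1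
      rw [norm_mul, ee_norm, mul_one]
      exact h2 n
    · change f₂ n * ee (t * n) = 0
      rw [aux f₂ g2 n hn, zero_mul]
  · exact ⟨h3 n, aux f₃ g3 n⟩

end ICol

open ICol in
theorem pr_Col (h : StA) : COL.St_A := by
  intro f hf ha L hL C q c hq ε hε
  have hD : ∀ i j, i ≠ j → dt (L i) (L j) ≠ 0 := by
    intro i j hij h0
    unfold dt at h0
    exact hL i j hij (by linarith)
  set T : ℕ := 1 + ∑ i, sz (L i) with hT
  have hszT : ∀ i j : Fin 4, i ≠ j → sz (L i) + sz (L j) ≤ T := by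
    intro i j hij
    have : sz (L i) + sz (L j) = ∑ k ∈ {i, j}, sz (L k) := by
      rw [Finset.sum_pair hij]
    rw [this]
    have h2 := Finset.sum_le_sum_of_subset (f := fun k => sz (L k)) (Finset.subset_univ {i, j})
    omega
  set R : ℕ := T ^ 2 * (C + 1) with hR
  have hT1 : 1 ≤ T := by omega
  have hR1 : 1 ≤ R := by
    rw [hR]
    exact Nat.one_le_iff_ne_zero.2 (by positivity)
  have hR0 : (0 : ℝ) < R := by exact_mod_cast hR1
  obtain ⟨N0, hN0⟩ := h (fun n : ℤ => f n.natAbs) (cm f hf) (aper f hf ha) L hD T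
    (by omega) (ε / (R : ℝ) ^ 2) (by positivity)
  filter_upwards [eventually_ge_atTop N0] with N hN
  intro f₁ f₂ f₃ α β b1 b2 b3 s1 s2 s3 E hE
  set M : ℕ := R * N with hM
  have hMN : N ≤ M := by
    rw [hM]
    exact Nat.le_mul_of_pos_left N hR1
  have hCM : (C : ℤ) * N ≤ M := by
    have : C * N ≤ M := by
      rw [hM, hR]
      refine Nat.mul_le_mul_right N ?_
      calc C ≤ 1 * (C + 1) := by omega
        _ ≤ T ^ 2 * (C + 1) := Nat.mul_le_mul_right _ (Nat.one_le_pow _ _ hT1)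
    exact_mod_cast this
  set A : ℤ := max α (-(M : ℤ)) with hA
  set B : ℤ := min β (M : ℤ) with hB
  set D : ℤ := dt (L 0) (L 1) with hDd
  have hD0 : D ≠ 0 := hD 0 1 (by decide)
  have hDr : (D : ℝ) ≠ 0 := by exact_mod_cast hD0
  have hqr : (q : ℝ) ≠ 0 := by positivity
  have hqc : (q : ℂ) ≠ 0 := by exact_mod_cast hq.ne'
  -- the region
  have hreg : ∀ v : ℤ × ℤ, |lf (L 0) v| ≤ C * N → |lf (L 1) v| ≤ C * N →
      |v.1| ≤ T * (C * N) ∧ |v.2| ≤ T * (C * N) := by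
    intro v h1 h2
    have h3 := inbox (L 0) (L 1) v (C * N) hD0 h1 h2
    have h4 : ((sz (L 0) : ℤ) + sz (L 1)) ≤ T := by exact_mod_cast hszT 0 1 (by decide)
    have h5 : (0 : ℤ) ≤ C * N := by positivity
    have h6 : (C * N : ℤ) * ((sz (L 0) : ℤ) + sz (L 1)) ≤ T * (C * N) := by nlinarith
    exact ⟨h3.1.trans h6, h3.2.trans h6⟩
  have hreg3 : ∀ v : ℤ × ℤ, |lf (L 0) v| ≤ C * N → |lf (L 1) v| ≤ C * N →
      |lf (L 3) v| ≤ M := by
    intro v h1 h2
    obtain ⟨h3, h4⟩ := hreg v h1 h2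
    have h5 := lf_le (L 3) v _ h3 h4
    have h6 : (sz (L 3) : ℤ) ≤ T := by
      have := hszT 3 0 (by decide)
      exact_mod_cast (by omega : sz (L 3) ≤ T)
    have h7 : (0 : ℤ) ≤ T * (C * N) := by positivity
    refine h5.trans ?_
    have h8 : (sz (L 3) : ℤ) * (T * (C * N)) ≤ T * (T * (C * N)) :=
      mul_le_mul_of_nonneg_right h6 h7
    refine h8.trans ?_
    have h9 : T * (T * (C * N)) ≤ M := by
      rw [hM, hR]
      calc T * (T * (C * N)) = T ^ 2 * C * N := by ring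
        _ ≤ T ^ 2 * (C + 1) * N :=
          Nat.mul_le_mul_right _ (Nat.mul_le_mul_left _ (Nat.le_succ C))
    exact_mod_cast h9
  -- the twisted functions
  set φ : ℕ → Fin 3 → ℤ → ℂ := fun j =>
    tw f₁ f₂ f₃ (j * dt (L 3) (L 1) / (q * D)) (j * dt (L 0) (L 3) / (q * D)) with hφ
  set G : ℕ → ℤ × ℤ → ℂ := fun j v => (∏ i, φ j i (lf (L i.castSucc) v)) *
    (if lf (L 3) v ∈ Finset.Icc A B then f (lf (L 3) v).natAbs else 0) with hG
  have hGs : ∀ j, ‖∑ v ∈ bx (T * M), G j v‖ ≤ ε * (N : ℝ) ^ 2 := by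
    intro j
    have h1 := hN0 M (hN.trans hMN) (φ j) (tw_bdd f₁ f₂ f₃ _ _ M b1 b2 b3
      (fun n hn => (s1 n hn).trans hCM) (fun n hn => (s2 n hn).trans hCM)
      (fun n hn => (s3 n hn).trans hCM)) A B (le_max_right _ _) (min_le_right _ _)
    refine h1.trans (le_of_eq ?_)
    rw [hM]
    push_cast
    field_simp
  set F : ℤ × ℤ → ℂ := fun v => f₁ (lf (L 0) v) * f₂ (lf (L 1) v) * f₃ (lf (L 2) v) *
    (if α ≤ lf (L 3) v ∧ lf (L 3) v ≤ β ∧ (q : ℤ) ∣ lf (L 3) v - c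
      then f (lf (L 3) v).natAbs else 0) with hF
  have hF0 : ∀ v, ¬ (|lf (L 0) v| ≤ C * N ∧ |lf (L 1) v| ≤ C * N) →
      f₁ (lf (L 0) v) * f₂ (lf (L 1) v) = 0 := by
    intro v hv
    by_contra h0
    exact hv ⟨s1 _ (left_ne_zero_of_mul h0), s2 _ (right_ne_zero_of_mul h0)⟩
  have hprod : ∀ j v, ∏ i, φ j i (lf (L i.castSucc) v) =
      f₁ (lf (L 0) v) * f₂ (lf (L 1) v) * f₃ (lf (L 2) v) * ee (j * lf (L 3) v / q) := by
    intro j v
    rw [Fin.prod_univ_three]
    change (f₁ (lf (L 0) v) * ee (j * dt (L 3) (L 1) / (q * D) * lf (L 0) v)) *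
      (f₂ (lf (L 1) v) * ee (j * dt (L 0) (L 3) / (q * D) * lf (L 1) v)) * f₃ (lf (L 2) v) = _
    have h1 : ((j : ℝ) * lf (L 3) v / q) = j * dt (L 3) (L 1) / (q * D) * lf (L 0) v +
        j * dt (L 0) (L 3) / (q * D) * lf (L 1) v := by
      have h2 : (lf (L 3) v : ℝ) * D = dt (L 3) (L 1) * lf (L 0) v + dt (L 0) (L 3) * lf (L 1) v := by
        exact_mod_cast three (L 0) (L 1) (L 3) v
      field_simp
      rw [mul_assoc, h2]
    rw [h1, ee_add]
    ring
  have hFG : ∀ v, F v = (1 / (q : ℂ)) * ∑ j ∈ Finset.range q, ee (-(j * c / q)) * G j v := by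
    intro v
    by_cases hv : |lf (L 0) v| ≤ C * N ∧ |lf (L 1) v| ≤ C * N
    · have h3 := abs_le.1 (hreg3 v hv.1 hv.2)
      have hiff : lf (L 3) v ∈ Finset.Icc A B ↔ α ≤ lf (L 3) v ∧ lf (L 3) v ≤ β := by
        rw [Finset.mem_Icc, hA, hB, max_le_iff, le_min_iff]
        constructor
        · rintro ⟨⟨h4, _⟩, h5, _⟩
          exact ⟨h4, h5⟩
        · rintro ⟨h4, h5⟩
          exact ⟨⟨h4, h3.1⟩, h5, h3.2⟩
      have hsum : ∑ j ∈ Finset.range q, ee (-(j * c / q)) * G j v =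
          (f₁ (lf (L 0) v) * f₂ (lf (L 1) v) * f₃ (lf (L 2) v) *
            (if lf (L 3) v ∈ Finset.Icc A B then f (lf (L 3) v).natAbs else 0)) *
            ∑ j ∈ Finset.range q, ee (j * ((lf (L 3) v - c : ℤ) : ℝ) / q) := by
        rw [Finset.mul_sum]
        refine Finset.sum_congr rfl fun j _ => ?_
        simp only [hG]
        rw [hprod]
        have h5 : ((j : ℝ) * ((lf (L 3) v - c : ℤ) : ℝ) / q) = -(j * c / q) +
            j * lf (L 3) v / q := by
          push_cast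
          ring
        rw [h5, ee_add]
        ring
      rw [hsum, charsum q hq]
      simp only [hF]
      by_cases h6 : α ≤ lf (L 3) v ∧ lf (L 3) v ≤ β
      · rw [if_pos (hiff.2 h6)]
        by_cases h7 : (q : ℤ) ∣ lf (L 3) v - c
        · rw [if_pos ⟨h6.1, h6.2, h7⟩, if_pos h7]
          field_simp
        · rw [if_neg (fun h8 => h7 h8.2.2), if_neg h7]
          ring
      · rw [if_neg (fun h8 => h6 ⟨h8.1, h8.2.1⟩), if_neg (fun h8 => h6 (hiff.1 h8))]
        ring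
    · have h0 := hF0 v hv
      have h1 : F v = 0 := by
        simp only [hF]
        rw [h0]
        ring
      rw [h1]
      symm
      rw [Finset.sum_eq_zero, mul_zero]
      intro j _
      simp only [hG]
      rw [hprod, h0]
      ring
  have hFz : ∀ v, ¬ (|lf (L 0) v| ≤ C * N ∧ |lf (L 1) v| ≤ C * N) → F v = 0 := by
    intro v hv
    simp only [hF]
    rw [hF0 v hv]
    ring
  have hEb : ∑ v ∈ E, F v = ∑ v ∈ bx (T * M), F v := by
    classical
    have e1 : ∑ v ∈ E, F v = ∑ v ∈ E ∪ bx (T * M), F v := by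
      refine Finset.sum_subset Finset.subset_union_left ?_
      intro v _ hv
      refine hFz v ?_
      rintro ⟨h1, h2⟩
      exact hv (hE v h1 h2)
    have e2 : ∑ v ∈ bx (T * M), F v = ∑ v ∈ E ∪ bx (T * M), F v := by
      refine Finset.sum_subset Finset.subset_union_right ?_
      intro v _ hv
      refine hFz v ?_
      rintro ⟨h1, h2⟩
      apply hv
      obtain ⟨h3, h4⟩ := hreg v h1 h2
      have h5 : (T : ℤ) * (C * N) ≤ T * M := mul_le_mul_of_nonneg_left hCM (by positivity)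
      unfold bx
      rw [Finset.mem_product, Finset.mem_Icc, Finset.mem_Icc]
      exact ⟨abs_le.1 (h3.trans h5), abs_le.1 (h4.trans h5)⟩
    rw [e1, e2]
  change ‖∑ v ∈ E, F v‖ ≤ ε * (N : ℝ) ^ 2
  rw [hEb, Finset.sum_congr rfl fun v _ => hFG v, ← Finset.mul_sum, Finset.sum_comm, norm_mul]
  have h2 : ‖∑ j ∈ Finset.range q, ∑ v ∈ bx (T * M), ee (-(j * c / q)) * G j v‖ ≤
      q * (ε * (N : ℝ) ^ 2) := by
    refine (norm_sum_le _ _).trans ?_
    have h3 : ∀ j ∈ Finset.range q, ‖∑ v ∈ bx (T * M), ee (-(j * c / q)) * G j v‖ ≤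
        ε * (N : ℝ) ^ 2 := by
      intro j _
      rw [← Finset.mul_sum, norm_mul, ee_norm, one_mul]
      exact hGs j
    refine (Finset.sum_le_sum h3).trans (le_of_eq ?_)
    rw [Finset.sum_const, Finset.card_range, nsmul_eq_mul]
  have h3 : ‖(1 / (q : ℂ))‖ = 1 / q := by
    rw [norm_div, norm_one, Complex.norm_natCast]
  rw [h3]
  calc (1 / (q : ℝ)) * ‖∑ j ∈ Finset.range q, ∑ v ∈ bx (T * M), ee (-(j * c / q)) * G j v‖
      ≤ (1 / (q : ℝ)) * (q * (ε * (N : ℝ) ^ 2)) := mul_le_mul_of_nonneg_left h2 (by positivity)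
    _ = ε * (N : ℝ) ^ 2 := by field_simp

end Pool.Agent.U3
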