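import Mathlib
import Pool.Agent.Work.MP_0f91f8_co.U3.Stmts
import Pool.Agent.Work.MP_0f91f8_co.HD.Defs

/-!
# Block U3, item HD: Theorem A gives the vanishing of the `U^3` norms (module A of block HD)
-/

set_option autoImplicit false

namespace Pool.Agent.U3

open scoped ComplexConjugate

namespace IHD

open Pool.Agent.F0f91f8

/-- the extension to `ℤ` -/
def gx (f : ℕ → ℂ) : ℤ → ℂ := fun n => f n.natAbs

theorem gx_CM (f : ℕ → ℂ) (hf : HD.CM f) : CM (gx f) := by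
  obtain ⟨h0, hm, hn⟩ := hf
  refine ⟨?_, ?_, ?_, ?_⟩
  · have h1 := hm 1 1
    have h2 := hn 1 one_pos
    have h3 : f 1 ≠ 0 := by
      intro h
      rw [h, norm_zero] at h2
      exact zero_ne_one h2
    have h4 : f 1 * f 1 = f 1 * 1 := by
      rw [← h1, mul_one]
      simp
    exact mul_left_cancel₀ h3 h4
  · intro a b
    unfold gx
    rw [Int.natAbs_mul, hm]
  · intro n hn0
    exact hn _ (Int.natAbs_pos.2 hn0)
  · exact h0

theorem gx_Aper (f : ℕ → ℂ) (hf : HD.Aper f) : Aper (gx f) := by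
  intro r b hr
  exact hf r b hr

/-- the four forms -/
def LL : Fin 4 → ℤ × ℤ := ![(1, 0), (0, 1), (1, -1), (1, 1)]

theorem LL_dt : ∀ i j, i ≠ j → dt (LL i) (LL j) ≠ 0 := by decide

theorem LL_sz : ∑ i, sz (LL i) ≤ 6 := by decide

/-- the one term bound -/
theorem key (h : StA) (f : ℕ → ℂ) (hf : HD.CM f) (hA : HD.Aper f) (ε : ℝ) (hε : 0 < ε) :
    ∃ N0 : ℕ, ∀ P N : ℕ, N0 ≤ P → N ≤ P → ∀ φ0 φ1 φ2 : ZMod P → ℂ, (∀ s, ‖φ0 s‖ ≤ 1) →
      (∀ s, ‖φ1 s‖ ≤ 1) → (∀ s, ‖φ2 s‖ ≤ 1) → ∀ u : ℤ, -(P : ℤ) ≤ u → u ≤ 0 →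
      ‖∑ a ∈ Finset.Ico u (u + P), ∑ b ∈ Finset.Ico (0 : ℤ) P,
        φ0 (a : ZMod P) * φ1 (b : ZMod P) * φ2 ((a - b : ℤ) : ZMod P) *
          (if a + b ∈ Finset.Icc (0 : ℤ) N then gx f (a + b) else 0)‖ ≤ 4 * ε * (P : ℝ) ^ 2 := by
  obtain ⟨N0, hN0⟩ := h (gx f) (gx_CM f hf) (gx_Aper f hA) LL LL_dt 6 LL_sz ε hε
  refine ⟨N0, ?_⟩
  intro P N hP hN φ0 φ1 φ2 h0 h1 h2 u hu hu'
  set F : Fin 3 → ℤ → ℂ := ![fun n => if u ≤ n ∧ n < u + P then φ0 (n : ZMod P) else 0,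
    fun n => if 0 ≤ n ∧ n < (P : ℤ) then φ1 (n : ZMod P) else 0,
    fun n => if |n| ≤ 2 * (P : ℤ) then φ2 (n : ZMod P) else 0] with hF
  have hb : ∀ i, Bdd (2 * P) (F i) := by
    intro i
    fin_cases i
    · intro n
      simp only [hF]
      refine ⟨?_, ?_⟩
      · show ‖(if u ≤ n ∧ n < u + P then φ0 (n : ZMod P) else 0)‖ ≤ 1
        split_ifs
        · exact h0 _
        · simp
      · intro hn
        show (if u ≤ n ∧ n < u + P then φ0 (n : ZMod P) else 0) = 0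
        rw [if_neg]
        rintro ⟨h3, h4⟩
        push_cast at hn
        rcases lt_abs.1 hn with h5 | h5 <;> omega
    · intro n
      refine ⟨?_, ?_⟩
      · show ‖(if 0 ≤ n ∧ n < (P : ℤ) then φ1 (n : ZMod P) else 0)‖ ≤ 1
        split_ifs
        · exact h1 _
        · simp
      · intro hn
        show (if 0 ≤ n ∧ n < (P : ℤ) then φ1 (n : ZMod P) else 0) = 0
        rw [if_neg]
        rintro ⟨h3, h4⟩
        push_cast at hn
        rcases lt_abs.1 hn with h5 | h5 <;> omega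
    · intro n
      refine ⟨?_, ?_⟩
      · show ‖(if |n| ≤ 2 * (P : ℤ) then φ2 (n : ZMod P) else 0)‖ ≤ 1
        split_ifs
        · exact h2 _
        · simp
      · intro hn
        show (if |n| ≤ 2 * (P : ℤ) then φ2 (n : ZMod P) else 0) = 0
        rw [if_neg]
        push_cast at hn
        omega
  have hmain := hN0 (2 * P) (by omega) F hb 0 N (by push_cast; omega) (by push_cast; omega)
  have hterm : ∀ v : ℤ × ℤ, (∏ i, F i (lf (LL i.castSucc) v)) *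
      (if lf (LL 3) v ∈ Finset.Icc (0 : ℤ) N then gx f (lf (LL 3) v) else 0) =
      (if u ≤ v.1 ∧ v.1 < u + P then φ0 (v.1 : ZMod P) else 0) *
      (if 0 ≤ v.2 ∧ v.2 < (P : ℤ) then φ1 (v.2 : ZMod P) else 0) *
      (if |v.1 - v.2| ≤ 2 * (P : ℤ) then φ2 ((v.1 - v.2 : ℤ) : ZMod P) else 0) *
      (if v.1 + v.2 ∈ Finset.Icc (0 : ℤ) N then gx f (v.1 + v.2) else 0) := by
    intro v
    rw [Fin.prod_univ_three]
    have e0 : lf (LL (Fin.castSucc 0)) v = v.1 := by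
      show (1 : ℤ) * v.1 + 0 * v.2 = v.1
      ring
    have e1 : lf (LL (Fin.castSucc 1)) v = v.2 := by
      show (0 : ℤ) * v.1 + 1 * v.2 = v.2
      ring
    have e2 : lf (LL (Fin.castSucc 2)) v = v.1 - v.2 := by
      show (1 : ℤ) * v.1 + (-1) * v.2 = v.1 - v.2
      ring
    have e3 : lf (LL 3) v = v.1 + v.2 := by
      show (1 : ℤ) * v.1 + 1 * v.2 = v.1 + v.2
      ring
    rw [e0, e1, e2, e3]
    rfl
  have hsum : ∑ a ∈ Finset.Ico u (u + P), ∑ b ∈ Finset.Ico (0 : ℤ) P,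
        φ0 (a : ZMod P) * φ1 (b : ZMod P) * φ2 ((a - b : ℤ) : ZMod P) *
          (if a + b ∈ Finset.Icc (0 : ℤ) N then gx f (a + b) else 0) =
      ∑ v ∈ bx (((6 : ℕ) : ℤ) * ((2 * P : ℕ) : ℤ)), (∏ i, F i (lf (LL i.castSucc) v)) *
        (if lf (LL 3) v ∈ Finset.Icc (0 : ℤ) N then gx f (lf (LL 3) v) else 0) := by
    rw [← Finset.sum_product']
    refine Finset.sum_subset_zero_on_sdiff ?_ ?_ ?_
    · intro v hv
      unfold bx
      simp only [Finset.mem_product, Finset.mem_Ico, Finset.mem_Icc] at hv ⊢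
      push_cast
      omega
    · intro v hv
      rw [Finset.mem_sdiff] at hv
      obtain ⟨-, hv⟩ := hv
      rw [hterm]
      by_cases ha : u ≤ v.1 ∧ v.1 < u + P
      · have hb' : ¬ (0 ≤ v.2 ∧ v.2 < (P : ℤ)) := by
          intro hb'
          apply hv
          simp only [Finset.mem_product, Finset.mem_Ico]
          exact ⟨ha, hb'⟩
        rw [if_neg hb']
        ring
      · rw [if_neg ha]
        ring
    · intro v hv
      simp only [Finset.mem_product, Finset.mem_Ico] at hv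
      have habs : |v.1 - v.2| ≤ 2 * (P : ℤ) := by
        rw [abs_le]
        omega
      rw [hterm, if_pos hv.1, if_pos hv.2, if_pos habs]
  rw [hsum]
  refine hmain.trans (le_of_eq ?_)
  push_cast
  ring

/-- sums over `ZMod P` -/
theorem zsum (P : ℕ) [NeZero P] (Ψ : ZMod P → ℤ → ℂ) :
    ∑ s : ZMod P, Ψ s (s.val : ℤ) = ∑ a ∈ Finset.Ico (0 : ℤ) P, Ψ (a : ZMod P) a := by
  refine Finset.sum_nbij' (fun s => (s.val : ℤ)) (fun a => (a : ZMod P)) ?_ ?_ ?_ ?_ ?_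
  · intro s _
    simp only [Finset.mem_Ico]
    exact ⟨by positivity, by exact_mod_cast ZMod.val_lt s⟩
  · intro a _
    exact Finset.mem_univ _
  · intro s _
    simp
  · intro a ha
    simp only [Finset.mem_Ico] at ha
    show (((a : ZMod P).val : ℕ) : ℤ) = a
    rw [ZMod.val_intCast]
    exact Int.emod_eq_of_lt ha.1 ha.2
  · intro s _
    simp

theorem zshift (P : ℕ) (Ψ : ZMod P → ℤ → ℂ) :
    ∑ a ∈ Finset.Ico (0 : ℤ) P, Ψ (a : ZMod P) (a - P) =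
      ∑ a ∈ Finset.Ico (-(P : ℤ)) (-(P : ℤ) + P), Ψ (a : ZMod P) a := by
  refine Finset.sum_nbij' (fun a => a - P) (fun a => a + P) ?_ ?_ ?_ ?_ ?_
  · intro a ha
    simp only [Finset.mem_Ico] at ha ⊢
    omega
  · intro a ha
    simp only [Finset.mem_Ico] at ha ⊢
    omega
  · intro a _
    ring
  · intro a _
    ring
  · intro a _
    have : ((a - (P : ℤ) : ℤ) : ZMod P) = (a : ZMod P) := by
      push_cast
      simp
    rw [this]

/-- the values of the cut off function -/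
theorem tr_eq (f : ℕ → ℂ) (N P : ℕ) [NeZero P] (hNP : N < P) (s t : ZMod P) :
    HD.tr f N P (s + t) =
      (if (s.val : ℤ) + t.val ∈ Finset.Icc (0 : ℤ) N then gx f ((s.val : ℤ) + t.val) else 0) +
      (if ((s.val : ℤ) - P) + t.val ∈ Finset.Icc (0 : ℤ) N then
        gx f (((s.val : ℤ) - P) + t.val) else 0) := by
  have hs := ZMod.val_lt s
  have ht := ZMod.val_lt t
  unfold HD.tr gx
  rw [ZMod.val_add]
  simp only [Finset.mem_Icc]
  rcases lt_or_ge (s.val + t.val) P with hlt | hge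
  · rw [Nat.mod_eq_of_lt hlt]
    have h2 : ¬ (0 ≤ ((s.val : ℤ) - P) + t.val ∧ ((s.val : ℤ) - P) + t.val ≤ N) := by omega
    rw [if_neg h2, add_zero]
    by_cases h3 : s.val + t.val ≤ N
    · rw [if_pos h3, if_pos (by omega)]
      congr 1
    · rw [if_neg h3, if_neg (by omega)]
  · have h1 : (s.val + t.val) % P = s.val + t.val - P := by
      rw [Nat.mod_eq_sub_mod hge, Nat.mod_eq_of_lt (by omega)]
    rw [h1]
    have h2 : ¬ (0 ≤ (s.val : ℤ) + t.val ∧ (s.val : ℤ) + t.val ≤ N) := by omega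
    rw [if_neg h2, zero_add]
    by_cases h3 : s.val + t.val - P ≤ N
    · rw [if_pos h3, if_pos (by omega)]
      congr 1
      omega
    · rw [if_neg h3, if_neg (by omega)]

/-- the sum over `ZMod P ^ 2` -/
theorem key2 (h : StA) (f : ℕ → ℂ) (hf : HD.CM f) (hA : HD.Aper f) (ε : ℝ) (hε : 0 < ε) :
    ∃ N0 : ℕ, ∀ P N : ℕ, ∀ _ : NeZero P, N0 ≤ P → N < P → ∀ φ0 φ1 φ2 : ZMod P → ℂ,
      (∀ s, ‖φ0 s‖ ≤ 1) → (∀ s, ‖φ1 s‖ ≤ 1) → (∀ s, ‖φ2 s‖ ≤ 1) →
      ‖∑ s : ZMod P, ∑ t : ZMod P, φ0 s * φ1 t * φ2 (s - t) * HD.tr f N P (s + t)‖ ≤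
        8 * ε * (P : ℝ) ^ 2 := by
  obtain ⟨N0, hN0⟩ := key h f hf hA ε hε
  refine ⟨N0, ?_⟩
  intro P N _ hP hN φ0 φ1 φ2 h0 h1 h2
  have e1 := hN0 P N hP hN.le φ0 φ1 φ2 h0 h1 h2 0 (by omega) le_rfl
  have e2 := hN0 P N hP hN.le φ0 φ1 φ2 h0 h1 h2 (-(P : ℤ)) le_rfl (by omega)
  have e3 : ∑ s : ZMod P, ∑ t : ZMod P, φ0 s * φ1 t * φ2 (s - t) * HD.tr f N P (s + t) =
      (∑ s : ZMod P, ∑ t : ZMod P, φ0 s * φ1 t * φ2 (s - t) *
        (if (s.val : ℤ) + t.val ∈ Finset.Icc (0 : ℤ) N then gx f ((s.val : ℤ) + t.val) else 0)) +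
      ∑ s : ZMod P, ∑ t : ZMod P, φ0 s * φ1 t * φ2 (s - t) *
        (if ((s.val : ℤ) - P) + t.val ∈ Finset.Icc (0 : ℤ) N then
          gx f (((s.val : ℤ) - P) + t.val) else 0) := by
    rw [← Finset.sum_add_distrib]
    refine Finset.sum_congr rfl fun s _ => ?_
    rw [← Finset.sum_add_distrib]
    refine Finset.sum_congr rfl fun t _ => ?_
    rw [tr_eq f N P hN s t, mul_add]
  have e4 : (∑ s : ZMod P, ∑ t : ZMod P, φ0 s * φ1 t * φ2 (s - t) *
        (if (s.val : ℤ) + t.val ∈ Finset.Icc (0 : ℤ) N then gx f ((s.val : ℤ) + t.val) else 0)) =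
      ∑ a ∈ Finset.Ico (0 : ℤ) (0 + P), ∑ b ∈ Finset.Ico (0 : ℤ) P,
        φ0 (a : ZMod P) * φ1 (b : ZMod P) * φ2 ((a - b : ℤ) : ZMod P) *
          (if a + b ∈ Finset.Icc (0 : ℤ) N then gx f (a + b) else 0) := by
    rw [zero_add]
    rw [zsum P (fun s a => ∑ t : ZMod P, φ0 s * φ1 t * φ2 (s - t) *
      (if a + t.val ∈ Finset.Icc (0 : ℤ) N then gx f (a + t.val) else 0))]
    refine Finset.sum_congr rfl fun a _ => ?_
    rw [zsum P (fun t b => φ0 (a : ZMod P) * φ1 t * φ2 ((a : ZMod P) - t) *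
      (if a + b ∈ Finset.Icc (0 : ℤ) N then gx f (a + b) else 0))]
    refine Finset.sum_congr rfl fun b _ => ?_
    rw [Int.cast_sub]
  have e5 : (∑ s : ZMod P, ∑ t : ZMod P, φ0 s * φ1 t * φ2 (s - t) *
        (if ((s.val : ℤ) - P) + t.val ∈ Finset.Icc (0 : ℤ) N then
          gx f (((s.val : ℤ) - P) + t.val) else 0)) =
      ∑ a ∈ Finset.Ico (-(P : ℤ)) (-(P : ℤ) + P), ∑ b ∈ Finset.Ico (0 : ℤ) P,
        φ0 (a : ZMod P) * φ1 (b : ZMod P) * φ2 ((a - b : ℤ) : ZMod P) *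
          (if a + b ∈ Finset.Icc (0 : ℤ) N then gx f (a + b) else 0) := by
    rw [zsum P (fun s a => ∑ t : ZMod P, φ0 s * φ1 t * φ2 (s - t) *
      (if (a - P) + t.val ∈ Finset.Icc (0 : ℤ) N then gx f ((a - P) + t.val) else 0))]
    rw [zshift P (fun s a => ∑ t : ZMod P, φ0 s * φ1 t * φ2 (s - t) *
      (if a + t.val ∈ Finset.Icc (0 : ℤ) N then gx f (a + t.val) else 0))]
    refine Finset.sum_congr rfl fun a _ => ?_
    rw [zsum P (fun t b => φ0 (a : ZMod P) * φ1 t * φ2 ((a : ZMod P) - t) *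
      (if a + b ∈ Finset.Icc (0 : ℤ) N then gx f (a + b) else 0))]
    refine Finset.sum_congr rfl fun b _ => ?_
    rw [Int.cast_sub]
  rw [e3, e4, e5]
  refine (norm_add_le _ _).trans ?_
  linarith

/-- the change of variables `(c, d, s, t) ↦ (h₁, h₂, h₃, x)` -/
def chg (P : ℕ) : ZMod P × ZMod P × ZMod P × ZMod P ≃ ZMod P × ZMod P × ZMod P × ZMod P where
  toFun p := (p.2.2.2, p.1 - p.2.2.1, p.2.1 - p.2.2.2, p.2.2.1)
  invFun q := (q.2.1 + q.2.2.2, q.2.2.1 + q.1, q.2.2.2, q.1)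
  left_inv p := by simp
  right_inv q := by simp

theorem sum_chg (P : ℕ) [NeZero P] (G : ZMod P → ZMod P → ZMod P → ZMod P → ℂ) :
    ∑ h₁ : ZMod P, ∑ h₂ : ZMod P, ∑ h₃ : ZMod P, ∑ x : ZMod P, G h₁ h₂ h₃ x =
      ∑ c : ZMod P, ∑ d : ZMod P, ∑ s : ZMod P, ∑ t : ZMod P, G t (c - s) (d - t) s := by
  have h1 : ∑ h₁ : ZMod P, ∑ h₂ : ZMod P, ∑ h₃ : ZMod P, ∑ x : ZMod P, G h₁ h₂ h₃ x =
      ∑ q : ZMod P × ZMod P × ZMod P × ZMod P, G q.1 q.2.1 q.2.2.1 q.2.2.2 := by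
    simp only [Fintype.sum_prod_type]
  have h2 : ∑ c : ZMod P, ∑ d : ZMod P, ∑ s : ZMod P, ∑ t : ZMod P, G t (c - s) (d - t) s =
      ∑ p : ZMod P × ZMod P × ZMod P × ZMod P,
        G (chg P p).1 (chg P p).2.1 (chg P p).2.2.1 (chg P p).2.2.2 := by
    simp only [Fintype.sum_prod_type]
    rfl
  rw [h1, h2]
  exact (Equiv.sum_comp (chg P) (fun q => G q.1 q.2.1 q.2.2.1 q.2.2.2)).symm

theorem cube {G : Type*} [AddCommGroup G] (F : G → ℂ) (c d s t : G) :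
    HD.Dl (HD.Dl (HD.Dl F t) (c - s)) (d - t) s =
      (F c * F (c + d)) * ((conj (F s) * conj (F (s + d))) *
        (conj (F (t + c)) * conj (F (c + d - t))) * F (s - t + d) * F (s + t)) := by
  unfold HD.Dl
  have a1 : s + (d - t) + (c - s) + t = c + d := by abel
  have a2 : s + (d - t) + (c - s) = c + d - t := by abel
  have a3 : s + (d - t) + t = s + d := by abel
  have a4 : s + (d - t) = s - t + d := by abel
  have a5 : s + (c - s) + t = t + c := by abel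
  have a6 : s + (c - s) = c := by abel
  rw [a1, a2, a3, a4, a5, a6]
  simp only [map_mul, Complex.conj_conj]
  ring

theorem tr_norm (f : ℕ → ℂ) (hf : HD.CM f) (N P : ℕ) (s : ZMod P) : ‖HD.tr f N P s‖ ≤ 1 := by
  unfold HD.tr
  split_ifs
  · rcases Nat.eq_zero_or_pos s.val with h0 | h0
    · rw [h0, hf.1, norm_zero]
      exact zero_le_one
    · exact (hf.2.2 _ h0).le
  · rw [norm_zero]
    exact zero_le_one

theorem mul_norm_le_one {a b : ℂ} (ha : ‖a‖ ≤ 1) (hb : ‖b‖ ≤ 1) : ‖a * b‖ ≤ 1 := by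
  rw [norm_mul]
  exact mul_le_one₀ ha (norm_nonneg _) hb

theorem conj_norm_le_one {a : ℂ} (ha : ‖a‖ ≤ 1) : ‖conj a‖ ≤ 1 := by
  rw [Complex.norm_conj]
  exact ha

end IHD

/-- Item HD. -/
theorem pr_HD (h : StA) : Pool.Agent.F0f91f8.HD.U3Stmt := by
  intro f hf hA ε hε C
  obtain ⟨N0, hN0⟩ := IHD.key2 h f hf hA (ε / 8) (by positivity)
  refine ⟨N0 + 1, ?_⟩
  intro N hN P hne _ hP _
  have hNP : N < P := by omega
  have hPN : N0 ≤ P := by omega
  have hP0 : (0 : ℝ) < P := by exact_mod_cast (by omega : 0 < P)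
  set F := Pool.Agent.F0f91f8.HD.tr f N P with hF
  have hF1 : ∀ s, ‖F s‖ ≤ 1 := fun s => IHD.tr_norm f hf N P s
  unfold Pool.Agent.F0f91f8.HD.U3
  rw [div_le_iff₀ (by positivity)]
  refine (Complex.re_le_norm _).trans ?_
  rw [IHD.sum_chg P (fun h₁ h₂ h₃ x => Pool.Agent.F0f91f8.HD.Dl
    (Pool.Agent.F0f91f8.HD.Dl (Pool.Agent.F0f91f8.HD.Dl F h₁) h₂) h₃ x)]
  simp only [IHD.cube]
  have hcd : ∀ c d : ZMod P, ‖∑ s : ZMod P, ∑ t : ZMod P,
      (F c * F (c + d)) * ((conj (F s) * conj (F (s + d))) *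
        (conj (F (t + c)) * conj (F (c + d - t))) * F (s - t + d) * F (s + t))‖ ≤
      ε * (P : ℝ) ^ 2 := by
    intro c d
    have h1 : ∑ s : ZMod P, ∑ t : ZMod P,
        (F c * F (c + d)) * ((conj (F s) * conj (F (s + d))) *
        (conj (F (t + c)) * conj (F (c + d - t))) * F (s - t + d) * F (s + t)) =
        (F c * F (c + d)) * ∑ s : ZMod P, ∑ t : ZMod P, ((conj (F s) * conj (F (s + d))) *
        (conj (F (t + c)) * conj (F (c + d - t))) * F (s - t + d) * F (s + t)) := by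
      rw [Finset.mul_sum]
      refine Finset.sum_congr rfl fun s _ => ?_
      rw [Finset.mul_sum]
    have h2 := hN0 P N hne hPN hNP (fun s => conj (F s) * conj (F (s + d)))
      (fun t => conj (F (t + c)) * conj (F (c + d - t))) (fun r => F (r + d))
      (fun s => IHD.mul_norm_le_one (IHD.conj_norm_le_one (hF1 _)) (IHD.conj_norm_le_one (hF1 _)))
      (fun s => IHD.mul_norm_le_one (IHD.conj_norm_le_one (hF1 _)) (IHD.conj_norm_le_one (hF1 _)))
      (fun s => hF1 _)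
    rw [h1, norm_mul]
    have h3 : ‖F c * F (c + d)‖ ≤ 1 := IHD.mul_norm_le_one (hF1 _) (hF1 _)
    have h4 : 8 * (ε / 8) * (P : ℝ) ^ 2 = ε * (P : ℝ) ^ 2 := by ring
    rw [h4] at h2
    calc ‖F c * F (c + d)‖ * ‖∑ s : ZMod P, ∑ t : ZMod P, ((conj (F s) * conj (F (s + d))) *
        (conj (F (t + c)) * conj (F (c + d - t))) * F (s - t + d) * F (s + t))‖
        ≤ 1 * (ε * (P : ℝ) ^ 2) := mul_le_mul h3 h2 (norm_nonneg _) zero_le_one
      _ = ε * (P : ℝ) ^ 2 := one_mul _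
  calc ‖∑ c : ZMod P, ∑ d : ZMod P, ∑ s : ZMod P, ∑ t : ZMod P,
      (F c * F (c + d)) * ((conj (F s) * conj (F (s + d))) *
        (conj (F (t + c)) * conj (F (c + d - t))) * F (s - t + d) * F (s + t))‖
      ≤ ∑ c : ZMod P, ∑ d : ZMod P, ε * (P : ℝ) ^ 2 := by
        refine (norm_sum_le _ _).trans (Finset.sum_le_sum fun c _ => ?_)
        exact (norm_sum_le _ _).trans (Finset.sum_le_sum fun d _ => hcd c d)
    _ = ε * (P : ℝ) ^ 4 := by
        rw [Finset.sum_const, Finset.sum_const, Finset.card_univ, ZMod.card, nsmul_eq_mul,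
          nsmul_eq_mul]
        ring

end Pool.Agent.U3
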