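import Mathlib
import Pool.Agent.Work.MP_0f91f8_co.U3.Stmts

/-!
# [VN] Four forms, van der Corput with steps in `Q ℤ`
-/

set_option autoImplicit false

namespace Pool.Agent.U3

open scoped ComplexConjugate

namespace IVN

lemma mem_bx (T : ℤ) (v : ℤ × ℤ) : v ∈ bx T ↔ |v.1| ≤ T ∧ |v.2| ≤ T := by
  rw [bx, Finset.mem_product, Finset.mem_Icc, Finset.mem_Icc, abs_le, abs_le]

lemma card_bx (T : ℤ) (hT : 0 ≤ T) : ((bx T).card : ℝ) = (2 * T + 1) ^ 2 := by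
  have h1 : ((Finset.Icc (-T) T).card : ℤ) = 2 * T + 1 := by
    rw [Int.card_Icc, Int.toNat_of_nonneg (by linarith)]; ring
  have h2 : ((Finset.Icc (-T) T).card : ℝ) = 2 * T + 1 := by exact_mod_cast h1
  rw [bx, Finset.card_product, Nat.cast_mul, h2]; ring

lemma bx_mono {T T' : ℤ} (h : T ≤ T') {v : ℤ × ℤ} (hv : v ∈ bx T) : v ∈ bx T' := by
  rw [mem_bx] at *
  exact ⟨hv.1.trans h, hv.2.trans h⟩

lemma sz_pos {l k : ℤ × ℤ} (h : dt l k ≠ 0) : 1 ≤ sz l := by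
  by_contra hc
  have h0 : sz l = 0 := by omega
  unfold sz at h0
  have h1 : l.1 = 0 := by omega
  have h2 : l.2 = 0 := by omega
  apply h
  simp [dt, h1, h2]

/-- the counting step -/
lemma count (S : ℕ) (hS : 1 ≤ S) (E : ℤ → ℝ) (X Y m : ℝ) (hm : 0 ≤ m) (hX : 0 < X)
    (hE : ∀ d, E d ≤ X)
    (hsum : (S : ℝ) * Y ≤ ∑ d ∈ Finset.Icc (-(S : ℤ)) S, E d) :
    (S : ℝ) * (Y - 3 * m) ≤ X * ((Finset.Icc (-(S : ℤ)) S).filter (fun d => m ≤ E d)).card := by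
  classical
  have h1 : ∑ d ∈ Finset.Icc (-(S : ℤ)) S, E d ≤
      ∑ d ∈ Finset.Icc (-(S : ℤ)) S, (m + if m ≤ E d then X else 0) := by
    apply Finset.sum_le_sum
    intro d _
    split_ifs with h
    · linarith [hE d]
    · push Not at h; linarith
  rw [Finset.sum_add_distrib, Finset.sum_const, nsmul_eq_mul, ← Finset.sum_filter,
    Finset.sum_const, nsmul_eq_mul] at h1
  have h2 : ((Finset.Icc (-(S : ℤ)) S).card : ℤ) = 2 * S + 1 := by
    rw [Int.card_Icc, Int.toNat_of_nonneg (by omega)]; ring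
  have h3 : ((Finset.Icc (-(S : ℤ)) S).card : ℝ) = 2 * S + 1 := by exact_mod_cast h2
  rw [h3] at h1
  have h4 : (1 : ℝ) ≤ S := by exact_mod_cast hS
  nlinarith [mul_nonneg hm (sub_nonneg.2 h4)]

lemma norm_conj (z : ℂ) : ‖conj z‖ = ‖z‖ := RCLike.norm_conj z

lemma bdd_D {N : ℕ} {f : ℤ → ℂ} (hf : Bdd N f) (c : ℤ) :
    Bdd N (fun y => f (y + c) * conj (f y)) := by
  intro n
  constructor
  · show ‖f (n + c) * conj (f n)‖ ≤ 1
    rw [norm_mul, norm_conj]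
    have h1 := (hf (n + c)).1
    have h2 := (hf n).1
    nlinarith [norm_nonneg (f (n + c)), norm_nonneg (f n)]
  · intro h
    show f (n + c) * conj (f n) = 0
    rw [(hf n).2 h, map_zero, mul_zero]

end IVN

open IVN in
theorem pr_VN (h1 : StCS2) (h2 : StSup) (h3 : StThr) : StVN := by
  classical
  obtain ⟨hs1, hs2, hs3, hs4, hs5, -, -⟩ := h2
  intro L hL T hT δ hδ
  have h01 : dt (L 0) (L 1) ≠ 0 := hL 0 1 (by decide)
  have h12 : dt (L 1) (L 2) ≠ 0 := hL 1 2 (by decide)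
  have h13 : dt (L 1) (L 3) ≠ 0 := hL 1 3 (by decide)
  have h23 : dt (L 2) (L 3) ≠ 0 := hL 2 3 (by decide)
  rw [Fin.sum_univ_four] at hT
  have hT1 : 1 ≤ T := by have := sz_pos h01; omega
  have hTr : (1 : ℝ) ≤ T := by exact_mod_cast hT1
  set δ2 : ℝ := δ ^ 2 / (450 * (T : ℝ) ^ 4) with hδ2
  have hδ2p : 0 < δ2 := by positivity
  obtain ⟨δ3, hδ3, H3⟩ := h3 (L 1) (L 2) (L 3) h12 h13 h23 T (by omega) δ2 hδ2p
  refine ⟨min (δ2 / 2) δ3, by positivity, ?_⟩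
  intro Q hQ
  refine ⟨2 * Q, ?_⟩
  intro N hN f hf hsum
  have hN1 : 1 ≤ N := by omega
  have hNr : (1 : ℝ) ≤ N := by exact_mod_cast hN1
  set S : ℕ := N / Q with hS
  have hS1 : 1 ≤ S := by
    rw [hS, Nat.le_div_iff_mul_le (by omega)]; omega
  have hSQ : S * Q ≤ N := Nat.div_mul_le_self N Q
  have hSQ' : N < S * Q + Q := by
    have := Nat.lt_div_mul_add (a := N) (b := Q) (by omega)
    exact this
  set e : ℤ × ℤ := (Q : ℤ) • pp (L 0) with he
  set φ : ℤ × ℤ → ℂ := fun v => f 0 (lf (L 0) v) with hφ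
  set F : ℤ × ℤ → ℂ := fun v => f 1 (lf (L 1) v) * f 2 (lf (L 2) v) * f 3 (lf (L 3) v) with hF
  have hlf : ∀ (k v : ℤ × ℤ) (d : ℤ), lf k (v + d • e) = lf k v + dt k (L 0) * Q * d := by
    intro k v d
    rw [hs3, hs4, he, hs4, hs2]; ring
  have hFn : ∀ v, ‖F v‖ ≤ 1 := by
    intro v
    rw [hF]
    show ‖f 1 (lf (L 1) v) * f 2 (lf (L 2) v) * f 3 (lf (L 3) v)‖ ≤ 1
    rw [norm_mul, norm_mul]
    have a1 := (hf 1 (lf (L 1) v)).1
    have a2 := (hf 2 (lf (L 2) v)).1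
    have a3 := (hf 3 (lf (L 3) v)).1
    have b1 := norm_nonneg (f 1 (lf (L 1) v))
    have b2 := norm_nonneg (f 2 (lf (L 2) v))
    have b3 := norm_nonneg (f 3 (lf (L 3) v))
    calc _ ≤ (1 : ℝ) * 1 * 1 := by gcongr
      _ = 1 := by ring
  have hFs : ∀ v, v ∉ bx ((T : ℤ) * N) → F v = 0 := by
    intro v hv
    by_contra hne
    apply hv
    have n1 : f 1 (lf (L 1) v) ≠ 0 := by
      intro h; apply hne; simp only [hF]; rw [h]; ring
    have n2 : f 2 (lf (L 2) v) ≠ 0 := by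
      intro h; apply hne; simp only [hF]; rw [h]; ring
    have m1 : |lf (L 1) v| ≤ (N : ℤ) := by
      by_contra h; exact n1 ((hf 1 _).2 (not_le.1 h))
    have m2 : |lf (L 2) v| ≤ (N : ℤ) := by
      by_contra h; exact n2 ((hf 2 _).2 (not_le.1 h))
    have := hs5 (L 1) (L 2) v N h12 m1 m2
    refine bx_mono ?_ this
    have hc : ((sz (L 1) : ℤ) + sz (L 2)) ≤ T := by exact_mod_cast (by omega)
    have hNz : (0 : ℤ) ≤ N := by positivity
    nlinarith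
  have hTN0 : (0 : ℤ) ≤ (T : ℤ) * N := by positivity
  have hq1 : |(L 0).1| ≤ T := by
    have : (L 0).1.natAbs ≤ T := by
      have : sz (L 0) = (L 0).1.natAbs + (L 0).2.natAbs := rfl
      omega
    rw [Int.abs_eq_natAbs]; exact_mod_cast this
  have hq2 : |(L 0).2| ≤ T := by
    have : (L 0).2.natAbs ≤ T := by
      have : sz (L 0) = (L 0).1.natAbs + (L 0).2.natAbs := rfl
      omega
    rw [Int.abs_eq_natAbs]; exact_mod_cast this
  have hSQz : (S : ℤ) * Q ≤ N := by exact_mod_cast hSQ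
  have hQz : (0 : ℤ) ≤ (S : ℤ) * Q := by positivity
  have hTz : (0 : ℤ) ≤ T := by positivity
  have he1 : |e.1| * (S : ℤ) ≤ (T : ℤ) * N := by
    have : e.1 = (Q : ℤ) * (L 0).2 := by simp [he, pp]
    rw [this, abs_mul, abs_of_nonneg (by positivity : (0 : ℤ) ≤ (Q : ℤ))]
    calc (Q : ℤ) * |(L 0).2| * S = |(L 0).2| * (S * Q) := by ring
      _ ≤ T * N := by
        apply mul_le_mul hq2 hSQz hQz hTz
  have he2 : |e.2| * (S : ℤ) ≤ (T : ℤ) * N := by
    have : e.2 = (Q : ℤ) * (-(L 0).1) := by simp [he, pp]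
    rw [this, abs_mul, abs_neg, abs_of_nonneg (by positivity : (0 : ℤ) ≤ (Q : ℤ))]
    calc (Q : ℤ) * |(L 0).1| * S = |(L 0).1| * (S * Q) := by ring
      _ ≤ T * N := by
        apply mul_le_mul hq1 hSQz hQz hTz
  have hcs := h1 ((T : ℤ) * N) S e φ F hTN0 hS1 he1 he2 (fun v => (hf 0 _).1)
    (by
      intro v
      simp only [hφ]
      have := hlf (L 0) v 1
      rw [one_smul] at this
      rw [this]
      have h0 : dt (L 0) (L 0) = 0 := by unfold dt; ring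
      rw [h0]; simp) hFs
  have hprod : ∑ v ∈ bx ((T : ℤ) * N), φ v * F v =
      ∑ v ∈ bx ((T : ℤ) * N), ∏ i, f i (lf (L i) v) := by
    apply Finset.sum_congr rfl
    intro v _
    rw [Fin.prod_univ_four]
    simp only [hφ, hF]; ring
  rw [hprod] at hcs
  set E : ℤ → ℝ := fun d => ‖∑ v ∈ bx ((T : ℤ) * N), F (v + d • e) * conj (F v)‖ with hE
  -- upper bound for `E`
  have hTNr : (1 : ℝ) ≤ (T : ℝ) * N := by nlinarith
  have hEle : ∀ d, E d ≤ 9 * (T : ℝ) ^ 2 * (N : ℝ) ^ 2 := by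
    intro d
    calc E d ≤ ∑ v ∈ bx ((T : ℤ) * N), ‖F (v + d • e) * conj (F v)‖ := norm_sum_le _ _
      _ ≤ ∑ v ∈ bx ((T : ℤ) * N), (1 : ℝ) := by
        apply Finset.sum_le_sum
        intro v _
        rw [norm_mul, norm_conj]
        have a1 := hFn (v + d • e)
        have a2 := hFn v
        have b1 := norm_nonneg (F (v + d • e))
        have b2 := norm_nonneg (F v)
        nlinarith
      _ = (2 * ((T : ℝ) * N) + 1) ^ 2 := by
        rw [Finset.sum_const, nsmul_eq_mul, mul_one, card_bx _ hTN0]; push_cast; ring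
      _ ≤ (3 * ((T : ℝ) * N)) ^ 2 := by
        apply pow_le_pow_left₀ (by positivity); linarith
      _ = _ := by ring
  -- lower bound for the sum
  have hδN : δ ^ 2 * (N : ℝ) ^ 4 ≤ ‖∑ v ∈ bx ((T : ℤ) * N), ∏ i, f i (lf (L i) v)‖ ^ 2 := by
    have := pow_le_pow_left₀ (by positivity) hsum 2
    calc δ ^ 2 * (N : ℝ) ^ 4 = (δ * (N : ℝ) ^ 2) ^ 2 := by ring
      _ ≤ _ := this
  have hlow : (S : ℝ) * (δ ^ 2 * (N : ℝ) ^ 2 / (25 * (T : ℝ) ^ 2)) ≤
      ∑ d ∈ Finset.Icc (-(S : ℤ)) S, E d := by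
    have hEs : 0 ≤ ∑ d ∈ Finset.Icc (-(S : ℤ)) S, E d :=
      Finset.sum_nonneg (fun d _ => norm_nonneg _)
    have k1 : (S : ℝ) * (δ ^ 2 * (N : ℝ) ^ 4) ≤
        (25 * (T : ℝ) ^ 2 * (N : ℝ) ^ 2) * ∑ d ∈ Finset.Icc (-(S : ℤ)) S, E d := by
      calc (S : ℝ) * (δ ^ 2 * (N : ℝ) ^ 4) ≤ (S : ℝ) *
            ‖∑ v ∈ bx ((T : ℤ) * N), ∏ i, f i (lf (L i) v)‖ ^ 2 := by gcongr
        _ ≤ _ := hcs
        _ ≤ _ := by
          apply mul_le_mul_of_nonneg_right _ hEs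
          push_cast
          calc (4 * ((T : ℝ) * N) + 1) ^ 2 ≤ (5 * ((T : ℝ) * N)) ^ 2 := by
                apply pow_le_pow_left₀ (by positivity); linarith
            _ = _ := by ring
    have hp : (0 : ℝ) < 25 * (T : ℝ) ^ 2 * (N : ℝ) ^ 2 := by positivity
    rw [← mul_le_mul_iff_right₀ hp]
    refine le_trans (le_of_eq ?_) k1
    field_simp
  have hcount := count S hS1 E (9 * (T : ℝ) ^ 2 * (N : ℝ) ^ 2)
    (δ ^ 2 * (N : ℝ) ^ 2 / (25 * (T : ℝ) ^ 2)) (δ2 * (N : ℝ) ^ 2) (by positivity) (by positivity)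
    hEle hlow
  set R : Finset ℤ := (Finset.Icc (-(S : ℤ)) S).filter (fun d => δ2 * (N : ℝ) ^ 2 ≤ E d) with hR
  have hSr : (1 : ℝ) ≤ S := by exact_mod_cast hS1
  have hRc : δ2 * S ≤ R.card := by
    have hT2 : (1 : ℝ) ≤ (T : ℝ) ^ 2 := one_le_pow₀ hTr
    have e1 : δ ^ 2 = 450 * (T : ℝ) ^ 4 * δ2 := by
      rw [hδ2]; field_simp
    have e2 : δ ^ 2 * (N : ℝ) ^ 2 / (25 * (T : ℝ) ^ 2) = 18 * (T : ℝ) ^ 2 * δ2 * (N : ℝ) ^ 2 := by
      rw [e1]; field_simp; norm_num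
    rw [e2] at hcount
    have hp : (0 : ℝ) < 9 * (T : ℝ) ^ 2 * (N : ℝ) ^ 2 := by positivity
    have k2 : (9 * (T : ℝ) ^ 2 * (N : ℝ) ^ 2) * (δ2 * S) ≤
        (9 * (T : ℝ) ^ 2 * (N : ℝ) ^ 2) * R.card := by
      refine le_trans ?_ hcount
      have : 0 ≤ (S : ℝ) * δ2 * (N : ℝ) ^ 2 := by positivity
      nlinarith [mul_le_mul_of_nonneg_left hT2 this]
    exact le_of_mul_le_mul_left k2 hp
  refine ⟨R, ?_, ?_, ?_⟩
  · intro r hr
    have hr' := (Finset.mem_filter.1 hr).1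
    rw [Finset.mem_Icc] at hr'
    have : |r| ≤ (S : ℤ) := abs_le.2 hr'
    calc |r| * (Q : ℤ) ≤ S * Q := mul_le_mul_of_nonneg_right this (by positivity)
      _ ≤ N := hSQz
  · have hQr : (0 : ℝ) ≤ Q := by positivity
    have k3 : (N : ℝ) ≤ 2 * (Q * S) := by
      have : N ≤ 2 * (Q * S) := by
        have : Q * S = S * Q := mul_comm _ _
        omega
      exact_mod_cast this
    calc min (δ2 / 2) δ3 * (N : ℝ) ≤ δ2 / 2 * N := by
          apply mul_le_mul_of_nonneg_right (min_le_left _ _) (by positivity)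
      _ ≤ δ2 / 2 * (2 * (Q * S)) := by gcongr
      _ = Q * (δ2 * S) := by ring
      _ ≤ Q * (R.card : ℝ) := by gcongr
  · intro r hr
    have hr' := (Finset.mem_filter.1 hr).2
    obtain ⟨a, ha⟩ := H3 N hN1
      (fun y => f 1 (y + dt (L 1) (L 0) * Q * r) * conj (f 1 y))
      (fun y => f 2 (y + dt (L 2) (L 0) * Q * r) * conj (f 2 y))
      (fun y => f 3 (y + dt (L 3) (L 0) * Q * r) * conj (f 3 y))
      (bdd_D (hf 1) _) (bdd_D (hf 2) _) (bdd_D (hf 3) _)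
      (by
        refine le_trans hr' (le_of_eq ?_)
        simp only [hE]
        congr 1
        apply Finset.sum_congr rfl
        intro v _
        simp only [hF]
        rw [hlf, hlf, hlf, map_mul, map_mul]
        ring)
    refine ⟨a, le_trans ?_ ha⟩
    apply mul_le_mul_of_nonneg_right (min_le_right _ _) (by positivity)

end Pool.Agent.U3
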